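import Pool.Agent.H.MP_711652_nt.CH.ExpDefs
import Pool.Agent.H.MP_711652_nt.G2.ExactB

/-! # MP_711652, CH: primes between `X` and `2X` -/

set_option autoImplicit false

namespace Pool.Agent.H.MP_711652_nt.CH

open Finset Filter Topology

private theorem Cheb_theta_eq (x : ℝ) :
    B3WI.thetaq (q := 1) 0 x = Chebyshev.theta x := by
  unfold B3WI.thetaq
  rw [Chebyshev.theta, sum_filter]
  have hI : Icc 1 ⌊x⌋₊ = Ioc 0 ⌊x⌋₊ := by
    ext n
    simp only [mem_Icc, mem_Ioc]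
    omega
  rw [hI]
  refine sum_congr rfl fun k _ => ?_
  have : ((k : ZMod 1)) = 0 := Subsingleton.elim _ _
  simp [this]

private theorem Cheb_sum (n : ℕ) : ∑ x ∈ Ioc 0 n, thn x = Chebyshev.theta (n : ℝ) := by
  rw [Chebyshev.theta, Nat.floor_natCast, sum_filter]
  exact sum_congr rfl fun k _ => rfl

private theorem Cheb_tendsto : Tendsto (fun x : ℝ => Chebyshev.theta x / x) atTop (𝓝 1) := by
  have h1 := B3WI.thetaq_asymp (q := 1) (a := 0) (by rw [isUnit_iff_exists_inv]; exact ⟨0, rfl⟩)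
  rw [Nat.totient_one, Nat.cast_one, inv_one] at h1
  have h2 : (fun x : ℝ => Chebyshev.theta x / x) =
      fun x : ℝ => B3WI.thetaq (q := 1) 0 x / x := by
    funext x
    rw [Cheb_theta_eq]
  rw [h2]
  exact h1

/-- PROOF. The prime number theorem (`B3WI.thetaq_asymp` with `q = 1`, see `pnt_lower` in `G2/ExactB.lean`), or Chebyshev's bounds. -/
theorem theta_diff : ∃ X₀ : ℕ, ∀ X : ℕ, X₀ ≤ X → ∀ x₁ x₂ : ℕ, (x₁ : ℝ) ≤ (1 + 1 / 100) * X →
    (2 - 1 / 100) * X ≤ (x₂ : ℝ) → (X : ℝ) / 2 ≤ ∑ x ∈ Ioc x₁ x₂, thn x := by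
  have h1 := Cheb_tendsto.eventually (Icc_mem_nhds (show (9 / 10 : ℝ) < 1 by norm_num)
    (show (1 : ℝ) < 11 / 10 by norm_num))
  obtain ⟨x0, hx0⟩ := eventually_atTop.1 h1
  refine ⟨⌈max x0 1⌉₊, fun X hX x₁ x₂ hx1 hx2 => ?_⟩
  have hXr : max x0 1 ≤ (X : ℝ) := (Nat.le_ceil _).trans (by exact_mod_cast hX)
  have hX0 : x0 ≤ X := (le_max_left _ _).trans hXr
  have hX1 : (1 : ℝ) ≤ X := (le_max_right _ _).trans hXr
  have a1 := (hx0 ((1 + 1 / 100) * X) (by linarith)).2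
  have a2 := (hx0 ((2 - 1 / 100) * X) (by linarith)).1
  rw [div_le_iff₀ (by linarith)] at a1
  rw [le_div_iff₀ (by linarith)] at a2
  have b1 : Chebyshev.theta (x₁ : ℝ) ≤ Chebyshev.theta ((1 + 1 / 100) * X) :=
    Chebyshev.theta_mono hx1
  have b2 : Chebyshev.theta ((2 - 1 / 100) * X) ≤ Chebyshev.theta (x₂ : ℝ) :=
    Chebyshev.theta_mono hx2
  have h12 : x₁ ≤ x₂ := by
    have : (x₁ : ℝ) ≤ x₂ := by linarith
    exact_mod_cast this
  have h3 := sum_Ioc_consecutive thn (Nat.zero_le x₁) h12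
  rw [Cheb_sum, Cheb_sum] at h3
  linarith

end Pool.Agent.H.MP_711652_nt.CH
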