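import Pool.Agent.H.MP_711652_nt.CH.ExpC

/-! # MP_711652, CH: functions with mean zero along each prime are combinations of primitive characters -/

set_option autoImplicit false

namespace Pool.Agent.H.MP_711652_nt.CH

open Finset

private theorem ExpF_gper {p r : ℕ} (f : ℕ → ℝ) (hf : ∀ x, f (x + p) = f x) (hp : p ∣ r) (x : ℕ) :
    f (x % r) = f x := by
  have h1 : Function.Periodic f p := hf
  rw [← h1.map_mod_nat (x % r), Nat.mod_mod_of_dvd _ hp, h1.map_mod_nat]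

private theorem ExpF_cop (T : Finset ℕ) (hT : ∀ p ∈ T, p.Prime) (x : ℕ) (hx : ∀ p ∈ T, ¬ p ∣ x) :
    Nat.Coprime x (∏ p ∈ T, p) :=
  Nat.Coprime.prod_right fun p hp => ((hT p hp).coprime_iff_not_dvd.2 (hx p hp)).symm

/-- the coefficient of a non-primitive character vanishes -/
private theorem ExpF_zero (T : Finset ℕ) (hT : ∀ p ∈ T, p.Prime) (g : ℕ → ℕ → ℝ)
    (hper : ∀ p ∈ T, ∀ x, g p (x + p) = g p x) (h0 : ∀ p ∈ T, ∑ x ∈ Ico 1 p, g p x = 0)
    (χ : DirichletCharacter ℂ (∏ p ∈ T, p)) (hχ : ¬ χ.IsPrimitive) :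
    ∑ y ∈ (range (∏ p ∈ T, p)).filter (fun y => Nat.Coprime y (∏ p ∈ T, p)),
      ((∏ p ∈ T, g p y : ℝ) : ℂ) * χ ((y : ZMod (∏ p ∈ T, p))⁻¹) = 0 := by
  classical
  have hr0 : (∏ p ∈ T, p) ≠ 0 := Finset.prod_ne_zero_iff.2 fun p hp => (hT p hp).ne_zero
  have : NeZero (∏ p ∈ T, p) := ⟨hr0⟩
  obtain ⟨hd, χ₀, hχ₀⟩ := χ.factorsThrough_conductor
  have hdne : χ.conductor ≠ ∏ p ∈ T, p := hχ
  have hd0 : χ.conductor ≠ 0 := χ.conductor_ne_zero
  obtain ⟨q, hq, hqd⟩ : ∃ q ∈ T, ¬ q ∣ χ.conductor := by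
    by_contra hcon
    push Not at hcon
    apply hdne
    refine Nat.dvd_antisymm hd ?_
    exact Finset.prod_primes_dvd _ (fun p hp => (hT p hp).prime) hcon
  have hF : ∀ y ∈ (range (∏ p ∈ T, p)).filter (fun y => Nat.Coprime y (∏ p ∈ T, p)),
      χ ((y : ZMod (∏ p ∈ T, p))⁻¹) = (χ₀ (((y % χ.conductor : ℕ)) : ZMod χ.conductor))⁻¹ := by
    intro y hy
    have hy' := (Finset.mem_filter.1 hy).2
    have hyu : IsUnit (y : ZMod (∏ p ∈ T, p)) := (ZMod.isUnit_iff_coprime _ _).2 hy'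
    have e1 : χ (y : ZMod (∏ p ∈ T, p)) * χ ((y : ZMod (∏ p ∈ T, p))⁻¹) = 1 := by
      rw [← map_mul, ZMod.mul_inv_of_unit _ hyu, map_one]
    have e2 : χ (y : ZMod (∏ p ∈ T, p)) = χ₀ (y : ZMod χ.conductor) := by
      have e3 := DirichletCharacter.changeLevel_eq_cast_of_dvd' χ₀ hd (a := (y : ℤ))
        (Nat.isCoprime_iff_coprime.2 hy')
      rw [← hχ₀] at e3
      exact_mod_cast e3
    rw [ZMod.natCast_mod, ← e2]
    exact (inv_eq_of_mul_eq_one_right e1).symm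
  rw [Finset.sum_congr rfl fun y hy => by rw [hF y hy]]
  rw [← Finset.sum_fiberwise_of_maps_to (s := (range (∏ p ∈ T, p)).filter
    (fun y => Nat.Coprime y (∏ p ∈ T, p))) (t := range χ.conductor) (g := fun y => y % χ.conductor)
    (fun y _ => Finset.mem_range.2 (Nat.mod_lt _ (Nat.pos_of_ne_zero hd0)))]
  refine Finset.sum_eq_zero fun c hc => ?_
  have h1 := unit_fiber_zero T hT g hper q hq (h0 q hq) χ.conductor hd hqd c
  have h2 : ∑ y ∈ ((range (∏ p ∈ T, p)).filter (fun y => Nat.Coprime y (∏ p ∈ T, p))).filter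
      (fun y => y % χ.conductor = c), ((∏ p ∈ T, g p y : ℝ) : ℂ) *
        (χ₀ (((y % χ.conductor : ℕ)) : ZMod χ.conductor))⁻¹ =
      (∑ y ∈ ((range (∏ p ∈ T, p)).filter (fun y => Nat.Coprime y (∏ p ∈ T, p))).filter
        (fun y => y % χ.conductor = c), ((∏ p ∈ T, g p y : ℝ) : ℂ)) *
        (χ₀ ((c : ℕ) : ZMod χ.conductor))⁻¹ := by
    rw [Finset.sum_mul]
    refine Finset.sum_congr rfl fun y hy => ?_
    rw [(Finset.mem_filter.1 hy).2]
  rw [h2, Finset.filter_filter]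
  have h3 : (range (∏ p ∈ T, p)).filter (fun y => Nat.Coprime y (∏ p ∈ T, p) ∧ y % χ.conductor = c) =
      (range (∏ p ∈ T, p)).filter (fun y => Nat.Coprime y (∏ p ∈ T, p) ∧ y ≡ c [MOD χ.conductor]) := by
    refine Finset.filter_congr fun y _ => ?_
    unfold Nat.ModEq
    rw [Nat.mod_eq_of_lt (Finset.mem_range.1 hc)]
  rw [h3]
  rw [← Complex.ofReal_sum, h1]
  simp

/-- PROOF. `r = ∏ T`, `G x = ∏_{p ∈ T} g p x` is a function mod `r`.  For a unit `x`: `G x = ∑_χ c χ * χ x`, `c χ = φ(r)⁻¹ ∑_{y unit} G y * conj (χ y)`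
(`DirichletCharacter.sum_char_inv_mul_char_eq`).  If `χ` is not primitive, its conductor `d` is a proper divisor of the squarefree `r`, so some `q ∈ T` does not divide `d`,
`χ y` depends only on `y` mod `d` for units `y`, and `c χ = 0` by `unit_fiber_zero`.  `|c χ| ≤ φ(r)⁻¹ ∑_{y unit} |G y| = ∏_{p ∈ T} (∑_{Ico 1 p} |g p|) / (p - 1)` by `unit_prod_sum`
(`φ(r) = ∏ (p - 1)`).  Insert this for the `x ∈ S` (units mod `r`) and exchange the sums. -/
theorem exp_one (T : Finset ℕ) (hT : ∀ p ∈ T, p.Prime) (g : ℕ → ℕ → ℝ)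
    (hper : ∀ p ∈ T, ∀ x, g p (x + p) = g p x) (h0 : ∀ p ∈ T, ∑ x ∈ Ico 1 p, g p x = 0)
    (S : Finset ℕ) (hS : ∀ x ∈ S, ∀ p ∈ T, ¬ p ∣ x) (θ : ℕ → ℝ) :
    |∑ x ∈ S, θ x * ∏ p ∈ T, g p x| ≤
      (∏ p ∈ T, (∑ x ∈ Ico 1 p, |g p x|) / ((p : ℝ) - 1)) * Zs S θ (∏ p ∈ T, p) := by
  classical
  have hz := ExpF_zero T hT g hper h0
  have hU1 := unit_prod_sum T hT (fun p x => |g p x|) (fun p hp x => by simp only [hper p hp x])
  have hU2 := unit_prod_sum T hT (fun _ _ => 1) (fun _ _ _ => rfl)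
  have hr0 : (∏ p ∈ T, p) ≠ 0 := Finset.prod_ne_zero_iff.2 fun p hp => (hT p hp).ne_zero
  have hdvd : ∀ p ∈ T, p ∣ ∏ p ∈ T, p := fun p hp => Finset.dvd_prod_of_mem _ hp
  have hScop : ∀ x ∈ S, Nat.Coprime x (∏ p ∈ T, p) := fun x hx => ExpF_cop T hT x (hS x hx)
  have hG : ∀ x, ∏ p ∈ T, g p (x % ∏ p ∈ T, p) = ∏ p ∈ T, g p x := fun x =>
    Finset.prod_congr rfl fun p hp => ExpF_gper (g p) (hper p hp) (hdvd p hp) x
  generalize hr : (∏ p ∈ T, p) = r at hz hU1 hU2 hr0 hdvd hScop hG ⊢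
  have : NeZero r := ⟨hr0⟩
  obtain ⟨U, hU⟩ : ∃ U, U = (range r).filter (fun y => Nat.Coprime y r) := ⟨_, rfl⟩
  rw [← hU] at hU1 hU2
  simp only [← hU] at hz
  have hcard : (r.totient : ℝ) = ∏ p ∈ T, ((p : ℝ) - 1) := by
    have e1 : (r.totient : ℝ) = ∑ x ∈ U, ∏ p ∈ T, (1 : ℝ) := by
      rw [Nat.totient_eq_card_coprime, hU]
      simp only [Finset.prod_const_one, Finset.sum_const, nsmul_eq_mul, mul_one]
      congr 2
      refine Finset.filter_congr fun y _ => Nat.coprime_comm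
    rw [e1, hU2]
    refine Finset.prod_congr rfl fun p hp => ?_
    rw [Finset.sum_const, Nat.card_Ico, nsmul_eq_mul, mul_one, Nat.cast_sub (hT p hp).one_lt.le,
      Nat.cast_one]
  have hφ : (0 : ℝ) < r.totient := by
    exact_mod_cast Nat.totient_pos.2 (Nat.pos_of_ne_zero hr0)
  obtain ⟨c, hc⟩ : ∃ c : DirichletCharacter ℂ r → ℂ, ∀ χ, c χ =
      ∑ y ∈ U, ((∏ p ∈ T, g p y : ℝ) : ℂ) * χ ((y : ZMod r)⁻¹) := ⟨_, fun _ => rfl⟩
  -- expansion
  have hexp : ∀ x ∈ S, (r.totient : ℂ) * ((∏ p ∈ T, g p x : ℝ) : ℂ) =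
      ∑ χ : DirichletCharacter ℂ r, c χ * χ (x : ZMod r) := by
    intro x hx
    simp only [hc, Finset.sum_mul]
    rw [Finset.sum_comm]
    have e1 : ∀ y ∈ U, ∑ χ : DirichletCharacter ℂ r, ((∏ p ∈ T, g p y : ℝ) : ℂ) *
        χ ((y : ZMod r)⁻¹) * χ (x : ZMod r) =
        if y = x % r then (r.totient : ℂ) * ((∏ p ∈ T, g p x : ℝ) : ℂ) else 0 := by
      intro y hy
      rw [hU, Finset.mem_filter, Finset.mem_range] at hy
      simp only [mul_assoc]
      rw [← Finset.mul_sum, DirichletCharacter.sum_char_inv_mul_char_eq ℂ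
        ((ZMod.isUnit_iff_coprime _ _).2 hy.2)]
      have e2 : ((y : ZMod r) = (x : ZMod r)) ↔ y = x % r := by
        rw [ZMod.natCast_eq_natCast_iff, Nat.ModEq, Nat.mod_eq_of_lt hy.1]
      by_cases hyx : y = x % r
      · rw [if_pos (e2.2 hyx), if_pos hyx, hyx, hG]
        ring
      · rw [if_neg (fun h => hyx (e2.1 h)), if_neg hyx, mul_zero]
    rw [Finset.sum_congr rfl e1, Finset.sum_ite_eq' U (x % r), if_pos]
    rw [hU, Finset.mem_filter, Finset.mem_range]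
    refine ⟨Nat.mod_lt _ (Nat.pos_of_ne_zero hr0), ?_⟩
    have h1 := hScop x hx
    unfold Nat.Coprime at h1 ⊢
    rw [← Nat.gcd_rec, Nat.gcd_comm]
    exact h1
  -- the bound of the coefficients
  have hcb : ∀ χ, ‖c χ‖ ≤ ∏ p ∈ T, ∑ x ∈ Ico 1 p, |g p x| := by
    intro χ
    rw [hc, ← hU1]
    refine (norm_sum_le _ _).trans (Finset.sum_le_sum fun y _ => ?_)
    rw [norm_mul, Complex.norm_real, Real.norm_eq_abs, Finset.abs_prod]
    exact mul_le_of_le_one_right (Finset.prod_nonneg fun _ _ => abs_nonneg _) (χ.norm_le_one _)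
  have hfin : (r.totient : ℝ) * |∑ x ∈ S, θ x * ∏ p ∈ T, g p x| ≤
      (∏ p ∈ T, ∑ x ∈ Ico 1 p, |g p x|) * Zs S θ r := by
    have e1 : (r.totient : ℂ) * ((∑ x ∈ S, θ x * ∏ p ∈ T, g p x : ℝ) : ℂ) =
        ∑ χ ∈ prims r, c χ * ∑ x ∈ S, (θ x : ℂ) * χ (x : ZMod r) := by
      have e2 : (r.totient : ℂ) * ((∑ x ∈ S, θ x * ∏ p ∈ T, g p x : ℝ) : ℂ) =
          ∑ χ : DirichletCharacter ℂ r, c χ * ∑ x ∈ S, (θ x : ℂ) * χ (x : ZMod r) := by
        simp only [Finset.mul_sum]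
        rw [Finset.sum_comm, Complex.ofReal_sum, Finset.mul_sum]
        refine Finset.sum_congr rfl fun x hx => ?_
        have e3 := hexp x hx
        rw [Complex.ofReal_mul]
        calc (r.totient : ℂ) * ((θ x : ℂ) * ((∏ p ∈ T, g p x : ℝ) : ℂ))
            = (θ x : ℂ) * ((r.totient : ℂ) * ((∏ p ∈ T, g p x : ℝ) : ℂ)) := by ring
          _ = _ := by
            rw [e3, Finset.mul_sum]
            refine Finset.sum_congr rfl fun χ _ => ?_
            ring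
      rw [e2]
      symm
      refine Finset.sum_subset (Finset.subset_univ _) fun χ _ hχ => ?_
      have hnp : ¬ χ.IsPrimitive := by
        intro h
        apply hχ
        unfold prims
        exact Finset.mem_filter.2 ⟨Finset.mem_univ _, h⟩
      have : c χ = 0 := by
        rw [hc]
        subst hr
        exact hz χ hnp
      rw [this, zero_mul]
    have e4 : (r.totient : ℝ) * |∑ x ∈ S, θ x * ∏ p ∈ T, g p x| =
        ‖(r.totient : ℂ) * ((∑ x ∈ S, θ x * ∏ p ∈ T, g p x : ℝ) : ℂ)‖ := by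
      rw [norm_mul, Complex.norm_real, Real.norm_eq_abs, Complex.norm_natCast]
    rw [e4, e1]
    unfold Zs
    rw [Finset.mul_sum]
    refine (norm_sum_le _ _).trans (Finset.sum_le_sum fun χ _ => ?_)
    rw [norm_mul]
    exact mul_le_mul_of_nonneg_right (hcb χ) (norm_nonneg _)
  rw [Finset.prod_div_distrib, ← hcard, div_mul_eq_mul_div, le_div_iff₀ hφ, mul_comm]
  exact hfin

end Pool.Agent.H.MP_711652_nt.CH
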