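import Pool.Agent.H.MP_711652_nt.CH.LsAdd

/-! # MP_711652, CH: the multiplicative large sieve on a class modulo `W` -/

set_option autoImplicit false

namespace Pool.Agent.H.MP_711652_nt.CH

open Finset

private theorem LsMul_psi_conj {r : ℕ} [NeZero r] (x : ZMod r) :
    (starRingEnd ℂ) (ZMod.stdAddChar x) = ZMod.stdAddChar (-x) :=
  (AddChar.map_neg_eq_conj _ _).symm

private theorem LsMul_parseval (r : ℕ) [NeZero r] (f : ZMod r → ℂ) :
    ∑ x : ZMod r, ‖∑ u : ZMod r, f u * ZMod.stdAddChar (x * u)‖ ^ 2 =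
      r * ∑ u : ZMod r, ‖f u‖ ^ 2 := by
  have key : ((∑ x : ZMod r, ‖∑ u : ZMod r, f u * ZMod.stdAddChar (x * u)‖ ^ 2 : ℝ) : ℂ) =
      ((r * ∑ u : ZMod r, ‖f u‖ ^ 2 : ℝ) : ℂ) := by
    push_cast
    have h1 : ∀ x : ZMod r, ((‖∑ u : ZMod r, f u * ZMod.stdAddChar (x * u)‖ : ℝ) : ℂ) ^ 2 =
        ∑ u : ZMod r, ∑ v : ZMod r, f u * (starRingEnd ℂ) (f v) *
          ZMod.stdAddChar (x * (u - v)) := by
      intro x
      rw [← Complex.mul_conj', map_sum, Finset.sum_mul_sum]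
      refine Finset.sum_congr rfl fun u _ => Finset.sum_congr rfl fun v _ => ?_
      rw [map_mul (starRingEnd ℂ), LsMul_psi_conj, mul_sub, sub_eq_add_neg, AddChar.map_add_eq_mul]
      ring
    simp only [h1]
    rw [Finset.sum_comm]
    rw [Finset.mul_sum]
    refine Finset.sum_congr rfl fun u _ => ?_
    rw [Finset.sum_comm]
    simp only [← Finset.mul_sum]
    have h2 : ∀ v : ZMod r, ∑ x : ZMod r, ZMod.stdAddChar (N := r) (x * (u - v)) =
        if u - v = 0 then (r : ℂ) else 0 := by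
      intro v
      rw [AddChar.sum_mulShift _ (ZMod.isPrimitive_stdAddChar r), ZMod.card]
      push_cast
      rfl
    simp only [h2, sub_eq_zero]
    rw [Finset.sum_eq_single u]
    · rw [if_pos rfl, ← Complex.mul_conj']
      ring
    · intro v _ hv
      rw [if_neg (fun h => hv h.symm), mul_zero]
    · intro h
      exact absurd (Finset.mem_univ _) h
  exact_mod_cast key

private theorem LsMul_gauss {r : ℕ} [NeZero r] (χ : DirichletCharacter ℂ r) (hχ : χ.IsPrimitive)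
    (x : ZMod r) : ∑ u : ZMod r, χ u * ZMod.stdAddChar (x * u) =
      χ⁻¹ x * gaussSum χ ZMod.stdAddChar := by
  rw [← gaussSum_mulShift_of_isPrimitive (ZMod.stdAddChar (N := r)) hχ x]
  rfl

open Classical in
private theorem LsMul_card {r : ℕ} [NeZero r] (χ : DirichletCharacter ℂ r) :
    ∑ u : ZMod r, ‖χ u‖ ^ 2 = ((univ.filter (fun u : ZMod r => IsUnit u)).card : ℝ) := by
  have h1 : ∀ u : ZMod r, ‖χ u‖ ^ 2 = if IsUnit u then 1 else 0 := by
    intro u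
    by_cases hu : IsUnit u
    · rw [if_pos hu]
      obtain ⟨v, rfl⟩ := hu
      rw [χ.unit_norm_eq_one, one_pow]
    · rw [if_neg hu, MulChar.map_nonunit _ hu]
      simp
  simp only [h1]
  rw [Finset.sum_boole]

private theorem LsMul_norm {r : ℕ} [NeZero r] (χ : DirichletCharacter ℂ r) (hχ : χ.IsPrimitive) :
    ‖gaussSum χ ZMod.stdAddChar‖ ^ 2 = r := by
  have h1 := LsMul_parseval r (fun u => χ u)
  simp only [LsMul_gauss χ hχ, norm_mul, mul_pow] at h1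
  rw [← Finset.sum_mul, LsMul_card, LsMul_card, mul_comm] at h1
  refine mul_right_cancel₀ (Nat.cast_ne_zero.2 (Finset.card_pos.2 ⟨(1 : ZMod r), ?_⟩).ne') h1
  exact Finset.mem_filter.2 ⟨Finset.mem_univ _, isUnit_one⟩

private theorem LsMul_orth (r : ℕ) [NeZero r] (T : ZMod r → ℂ) :
    ∑ χ : DirichletCharacter ℂ r, ‖∑ u : ZMod r, χ u * T u‖ ^ 2 =
      r.totient * ∑ u : (ZMod r)ˣ, ‖T u‖ ^ 2 := by
  classical
  have h0 : ∀ χ : DirichletCharacter ℂ r, ∑ u : ZMod r, χ u * T u =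
      ∑ u : (ZMod r)ˣ, χ u * T u := by
    intro χ
    symm
    refine Finset.sum_of_injOn (fun u : (ZMod r)ˣ => (u : ZMod r)) (Units.val_injective.injOn)
      (fun _ _ => Finset.mem_coe.2 (Finset.mem_univ _)) ?_ (fun _ _ => rfl)
    intro u _ hu
    have hu' : ¬ IsUnit u := by
      rintro ⟨v, rfl⟩
      exact hu ⟨v, Finset.mem_coe.2 (Finset.mem_univ _), rfl⟩
    rw [MulChar.map_nonunit _ hu', zero_mul]
  have h3 : ∀ (χ : DirichletCharacter ℂ r) (v : (ZMod r)ˣ),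
      (starRingEnd ℂ) (χ (v : ZMod r)) = χ ((v : ZMod r)⁻¹) := by
    intro χ v
    have e1 : χ (v : ZMod r) * χ ((v : ZMod r)⁻¹) = 1 := by
      rw [← map_mul, ZMod.mul_inv_of_unit _ v.isUnit, map_one]
    have e2 : χ (v : ZMod r) * (starRingEnd ℂ) (χ (v : ZMod r)) = 1 := by
      rw [Complex.mul_conj', χ.unit_norm_eq_one]
      simp
    exact mul_left_cancel₀ (left_ne_zero_of_mul_eq_one e1) (e2.trans e1.symm)
  have key : ((∑ χ : DirichletCharacter ℂ r, ‖∑ u : ZMod r, χ u * T u‖ ^ 2 : ℝ) : ℂ) =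
      ((r.totient * ∑ u : (ZMod r)ˣ, ‖T u‖ ^ 2 : ℝ) : ℂ) := by
    push_cast
    have h1 : ∀ χ : DirichletCharacter ℂ r, ((‖∑ u : ZMod r, χ u * T u‖ : ℝ) : ℂ) ^ 2 =
        ∑ u : (ZMod r)ˣ, ∑ v : (ZMod r)ˣ, T u * (starRingEnd ℂ) (T v) *
          (χ ((v : ZMod r)⁻¹) * χ (u : ZMod r)) := by
      intro χ
      rw [h0, ← Complex.mul_conj', map_sum, Finset.sum_mul_sum]
      refine Finset.sum_congr rfl fun u _ => Finset.sum_congr rfl fun v _ => ?_
      rw [map_mul, h3]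
      ring
    simp only [h1]
    rw [Finset.sum_comm, Finset.mul_sum]
    refine Finset.sum_congr rfl fun u _ => ?_
    rw [Finset.sum_comm]
    simp only [← Finset.mul_sum]
    have h2 : ∀ v : (ZMod r)ˣ, ∑ χ : DirichletCharacter ℂ r, χ ((v : ZMod r)⁻¹) * χ (u : ZMod r) =
        if (v : ZMod r) = (u : ZMod r) then (r.totient : ℂ) else 0 := fun v =>
      DirichletCharacter.sum_char_inv_mul_char_eq ℂ v.isUnit _
    simp only [h2]
    rw [Finset.sum_eq_single u]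
    · rw [if_pos rfl, ← Complex.mul_conj']
      ring
    · intro v _ hv
      rw [if_neg (fun h => hv (Units.ext h)), mul_zero]
    · intro h
      exact absurd (Finset.mem_univ _) h
  exact_mod_cast key

private theorem LsMul_ee (r l w : ℕ) [NeZero r] :
    ZMod.stdAddChar (N := r) ((l : ZMod r) * (w : ZMod r)) = ee (l * ((w : ℝ) / r)) := by
  have h1 : ((l : ZMod r) * (w : ZMod r)) = ((((l * w : ℕ) : ℤ)) : ZMod r) := by push_cast; rfl
  rw [h1, ZMod.stdAddChar_coe, ee]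
  congr 1
  push_cast
  ring

private theorem LsMul_one (N W b r : ℕ) (hr : 1 ≤ r) (hW : Nat.Coprime W r) (a : ℕ → ℂ) :
    ∑ χ ∈ prims r, ‖∑ l ∈ range N, a l * χ ((b + W * l : ℕ) : ZMod r)‖ ^ 2 ≤
      ∑ u ∈ (range r).filter (fun u => Nat.Coprime u r),
        ‖∑ l ∈ range N, (starRingEnd ℂ) (a l) * ee (l * ((u : ℝ) / r))‖ ^ 2 := by
  classical
  have : NeZero r := ⟨by omega⟩
  have hr0 : (0 : ℝ) < r := by exact_mod_cast hr
  obtain ⟨T, hT⟩ : ∃ T : ZMod r → ℂ, ∀ u, T u = ∑ l ∈ range N, (starRingEnd ℂ) (a l) *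
      ZMod.stdAddChar (((b + W * l : ℕ) : ZMod r) * u) := ⟨_, fun _ => rfl⟩
  -- each primitive character
  have hB : ∀ χ ∈ prims r, (r : ℝ) * ‖∑ l ∈ range N, a l * χ ((b + W * l : ℕ) : ZMod r)‖ ^ 2 =
      ‖∑ u : ZMod r, χ u * T u‖ ^ 2 := by
    intro χ hχ
    have hp : χ.IsPrimitive := by
      have := hχ
      unfold prims at this
      exact (Finset.mem_filter.1 this).2
    have e1 : ‖∑ l ∈ range N, a l * χ ((b + W * l : ℕ) : ZMod r)‖ =
        ‖∑ l ∈ range N, (starRingEnd ℂ) (a l) * χ⁻¹ ((b + W * l : ℕ) : ZMod r)‖ := by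
      rw [← RCLike.norm_conj, map_sum]
      congr 1
      refine Finset.sum_congr rfl fun l _ => ?_
      rw [map_mul]
      congr 1
      rw [← MulChar.star_eq_inv, MulChar.star_apply]
      rfl
    rw [e1, ← LsMul_norm χ hp, ← mul_pow, ← norm_mul]
    congr 2
    rw [Finset.mul_sum]
    simp only [hT, Finset.mul_sum]
    rw [Finset.sum_comm]
    refine Finset.sum_congr rfl fun l _ => ?_
    have e2 := LsMul_gauss χ hp ((b + W * l : ℕ) : ZMod r)
    calc gaussSum χ ZMod.stdAddChar * ((starRingEnd ℂ) (a l) * χ⁻¹ ((b + W * l : ℕ) : ZMod r))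
        = (starRingEnd ℂ) (a l) * (χ⁻¹ ((b + W * l : ℕ) : ZMod r) * gaussSum χ ZMod.stdAddChar) := by
          ring
      _ = _ := by
          rw [← e2, Finset.mul_sum]
          refine Finset.sum_congr rfl fun u _ => ?_
          ring
  -- the sum over all characters
  have hC : (r : ℝ) * ∑ χ ∈ prims r, ‖∑ l ∈ range N, a l * χ ((b + W * l : ℕ) : ZMod r)‖ ^ 2 ≤
      r.totient * ∑ u : (ZMod r)ˣ, ‖T u‖ ^ 2 := by
    rw [← LsMul_orth, Finset.mul_sum, Finset.sum_congr rfl hB]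
    exact Finset.sum_le_sum_of_subset_of_nonneg (Finset.subset_univ _) fun _ _ _ => by positivity
  have hD : ∑ u : (ZMod r)ˣ, ‖T u‖ ^ 2 = ∑ u : (ZMod r)ˣ,
      ‖∑ l ∈ range N, (starRingEnd ℂ) (a l) * ZMod.stdAddChar ((l : ZMod r) * (u : ZMod r))‖ ^ 2 := by
    rw [← Equiv.sum_comp (Equiv.mulLeft (ZMod.unitOfCoprime W hW)) (fun u : (ZMod r)ˣ =>
      ‖∑ l ∈ range N, (starRingEnd ℂ) (a l) * ZMod.stdAddChar ((l : ZMod r) * (u : ZMod r))‖ ^ 2)]
    refine Finset.sum_congr rfl fun u _ => ?_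
    have e3 : T u = ZMod.stdAddChar ((b : ZMod r) * (u : ZMod r)) * ∑ l ∈ range N,
        (starRingEnd ℂ) (a l) * ZMod.stdAddChar ((l : ZMod r) *
          (((Equiv.mulLeft (ZMod.unitOfCoprime W hW)) u : (ZMod r)ˣ) : ZMod r)) := by
      rw [hT, Finset.mul_sum]
      refine Finset.sum_congr rfl fun l _ => ?_
      have e4 : ((b + W * l : ℕ) : ZMod r) * (u : ZMod r) = (b : ZMod r) * u + (l : ZMod r) *
          (((Equiv.mulLeft (ZMod.unitOfCoprime W hW)) u : (ZMod r)ˣ) : ZMod r) := by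
        simp only [Equiv.coe_mulLeft, Units.val_mul, ZMod.coe_unitOfCoprime]
        push_cast
        ring
      rw [e4, AddChar.map_add_eq_mul]
      ring
    rw [e3, norm_mul, AddChar.norm_apply, one_mul]
  have hE : ∑ u : (ZMod r)ˣ, ‖∑ l ∈ range N, (starRingEnd ℂ) (a l) *
      ZMod.stdAddChar ((l : ZMod r) * (u : ZMod r))‖ ^ 2 =
      ∑ u ∈ (range r).filter (fun u => Nat.Coprime u r),
        ‖∑ l ∈ range N, (starRingEnd ℂ) (a l) * ee (l * ((u : ℝ) / r))‖ ^ 2 := by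
    refine Finset.sum_nbij (fun u : (ZMod r)ˣ => (u : ZMod r).val) ?_ ?_ ?_ ?_
    · intro u _
      rw [Finset.mem_filter, Finset.mem_range]
      exact ⟨ZMod.val_lt _, ZMod.val_coe_unit_coprime u⟩
    · intro u _ v _ huv
      exact Units.ext (ZMod.val_injective r huv)
    · intro u hu
      rw [Finset.mem_coe, Finset.mem_filter, Finset.mem_range] at hu
      refine ⟨ZMod.unitOfCoprime u hu.2, Finset.mem_coe.2 (Finset.mem_univ _), ?_⟩
      simp only [ZMod.coe_unitOfCoprime]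
      exact ZMod.val_cast_of_lt hu.1
    · intro u _
      congr 2
      refine Finset.sum_congr rfl fun l _ => ?_
      rw [← LsMul_ee r l]
      congr 3
      exact (ZMod.natCast_zmod_val _).symm
  rw [hD, hE] at hC
  have h5 : (r.totient : ℝ) ≤ r := by exact_mod_cast Nat.totient_le r
  have h6 : 0 ≤ ∑ u ∈ (range r).filter (fun u => Nat.Coprime u r),
        ‖∑ l ∈ range N, (starRingEnd ℂ) (a l) * ee (l * ((u : ℝ) / r))‖ ^ 2 :=
    Finset.sum_nonneg fun _ _ => by positivity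
  have h7 := mul_le_mul_of_nonneg_right h5 h6
  exact le_of_mul_le_mul_left (hC.trans h7) hr0

/-- PROOF. Let `T u = ∑_{l < N} a l * ee (l * (u W) / r + b u / r)`, `u < r`.  For `χ` primitive mod `r` (Mathlib `gaussSum_mulShift_of_isPrimitive`
for `ZMod.stdAddChar`, all `x : ZMod r`): `χ x * τ(χ⁻¹) = ∑_u χ⁻¹(u) ee (u x / r)` and `|τ(χ⁻¹)|^2 = r` (Parseval: `∑_x |∑_u χ⁻¹ u e(u x / r)|^2 = r φ(r)`,
the left side is `φ(r) |τ|^2` by the formula).  So `∑_χ |∑_l a l χ(b + W l)|^2 = (1/r) ∑_χ |∑_u χ⁻¹ u T u|^2 ≤ (φ(r)/r) ∑_{u coprime to r} |T u|^2`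
(orthogonality of all the characters, `DirichletCharacter.sum_char_inv_mul_char_eq`), and `|T u| = |∑_l a l ee (l * u' / r)|` with `u' = u W mod r`;
`u ↦ u'` permutes the residues coprime to `r`.  Sum over `r ∈ R`: sub-sum of `ls_add`. -/
theorem ls_mul (Q N W b : ℕ) (hQ : 1 ≤ Q) (hN : Q ^ 2 ≤ N) (R : Finset ℕ)
    (hR : ∀ r ∈ R, 1 ≤ r ∧ r ≤ Q ∧ Nat.Coprime W r) (a : ℕ → ℂ) :
    ∑ r ∈ R, ∑ χ ∈ prims r, ‖∑ l ∈ range N, a l * χ ((b + W * l : ℕ) : ZMod r)‖ ^ 2 ≤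
      8 * N * ∑ l ∈ range N, ‖a l‖ ^ 2 := by
  classical
  have h1 : ∑ r ∈ R, ∑ χ ∈ prims r, ‖∑ l ∈ range N, a l * χ ((b + W * l : ℕ) : ZMod r)‖ ^ 2 ≤
      ∑ r ∈ R, ∑ u ∈ (range r).filter (fun u => Nat.Coprime u r),
        ‖∑ l ∈ range N, (starRingEnd ℂ) (a l) * ee (l * ((u : ℝ) / r))‖ ^ 2 :=
    Finset.sum_le_sum fun r hr => LsMul_one N W b r (hR r hr).1 (hR r hr).2.2 a
  have h2 : ∑ r ∈ R, ∑ u ∈ (range r).filter (fun u => Nat.Coprime u r),
        ‖∑ l ∈ range N, (starRingEnd ℂ) (a l) * ee (l * ((u : ℝ) / r))‖ ^ 2 ≤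
      ∑ z ∈ farey Q, ‖∑ l ∈ range N, (starRingEnd ℂ) (a l) * ee (l * ((z.2 : ℝ) / z.1))‖ ^ 2 := by
    unfold farey
    rw [Finset.sum_filter, Finset.sum_product]
    have hRs : R ⊆ Icc 1 Q := fun r hr => Finset.mem_Icc.2 ⟨(hR r hr).1, (hR r hr).2.1⟩
    refine le_trans ?_ (Finset.sum_le_sum_of_subset_of_nonneg hRs fun r _ _ =>
      Finset.sum_nonneg fun u _ => ?_)
    · refine Finset.sum_le_sum fun r hr => le_of_eq ?_
      rw [← Finset.sum_filter]
      refine Finset.sum_congr ?_ fun _ _ => rfl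
      ext u
      have := (hR r hr).2.1
      simp only [Finset.mem_filter, Finset.mem_range]
      constructor
      · rintro ⟨h1, h2⟩
        exact ⟨by omega, h1, h2⟩
      · rintro ⟨_, h1, h2⟩
        exact ⟨h1, h2⟩
    · split_ifs
      · positivity
      · exact le_refl _
  have h3 := ls_add Q N hQ hN (fun l => (starRingEnd ℂ) (a l))
  simp only [RCLike.norm_conj] at h3
  exact h1.trans (h2.trans h3)

/-- PROOF. The elements of `S` are `b + W l` with `b` in `(M, M + W]`, `b ≡ c` and `l ≤ len / W ≤ Δ`, so `ls_mul` with `N = Δ + 1` (extend `a` by 0 outside `S`). -/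
theorem ls_class (Q W c M len Δ : ℕ) (hQ : 1 ≤ Q) (hW : 0 < W) (hΔ1 : Q ^ 2 ≤ Δ) (hΔ2 : len ≤ W * Δ)
    (R : Finset ℕ) (hR : ∀ r ∈ R, 1 ≤ r ∧ r ≤ Q ∧ Nat.Coprime W r) (S : Finset ℕ)
    (hS : ∀ x ∈ S, M < x ∧ x ≤ M + len ∧ x ≡ c [MOD W]) (a : ℕ → ℂ) :
    ∑ r ∈ R, ∑ χ ∈ prims r, ‖∑ x ∈ S, a x * χ (x : ZMod r)‖ ^ 2 ≤
      8 * ((Δ : ℝ) + 1) * ∑ x ∈ S, ‖a x‖ ^ 2 := by
  classical
  rcases S.eq_empty_or_nonempty with rfl | ⟨x0, hx0⟩
  · simp
  -- the least element above `M` of the class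
  obtain ⟨b, hb1, hb2⟩ : ∃ b, b ≤ M + W ∧ ∀ x ∈ S, ∃ l, x = b + W * l ∧ l < Δ + 1 := by
    refine ⟨M + 1 + (x0 - (M + 1)) % W, ?_, fun x hx => ?_⟩
    · have := Nat.mod_lt (x0 - (M + 1)) hW
      omega
    · obtain ⟨h1, h2, h3⟩ := hS x hx
      obtain ⟨g1, g2, g3⟩ := hS x0 hx0
      have h4 : (x - (M + 1)) % W = (x0 - (M + 1)) % W := by
        have h5 : x - (M + 1) + (M + 1) ≡ x0 - (M + 1) + (M + 1) [MOD W] := by
          rw [Nat.sub_add_cancel h1, Nat.sub_add_cancel g1]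
          exact h3.trans g3.symm
        exact Nat.ModEq.add_right_cancel' _ h5
      refine ⟨(x - (M + 1)) / W, ?_, ?_⟩
      · rw [← h4]
        have := Nat.mod_add_div (x - (M + 1)) W
        omega
      · rw [Nat.lt_succ_iff]
        apply Nat.div_le_of_le_mul
        omega
  obtain ⟨L, hL⟩ : ∃ L : Finset ℕ, L = (range (Δ + 1)).filter (fun l => b + W * l ∈ S) := ⟨_, rfl⟩
  have hsum : ∀ {β : Type} [AddCommMonoid β] (f : ℕ → β), ∑ x ∈ S, f x =
      ∑ l ∈ range (Δ + 1), if b + W * l ∈ S then f (b + W * l) else 0 := by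
    intro β _ f
    rw [← Finset.sum_filter, ← hL]
    symm
    refine Finset.sum_nbij (fun l => b + W * l) ?_ ?_ ?_ ?_
    · intro l hl
      rw [hL, Finset.mem_filter] at hl
      exact hl.2
    · intro l _ l' _ h
      have h' : b + W * l = b + W * l' := h
      exact Nat.eq_of_mul_eq_mul_left hW (by omega)
    · intro x hx
      obtain ⟨l, h1, h2⟩ := hb2 x (Finset.mem_coe.1 hx)
      refine ⟨l, ?_, h1.symm⟩
      rw [hL, Finset.mem_coe, Finset.mem_filter, Finset.mem_range]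
      exact ⟨h2, h1 ▸ Finset.mem_coe.1 hx⟩
    · intro l _
      rfl
  have h1 := ls_mul Q (Δ + 1) W b hQ (by omega) R hR (fun l => if b + W * l ∈ S then a (b + W * l) else 0)
  have h2 : ∀ (r : ℕ) (χ : DirichletCharacter ℂ r), ∑ x ∈ S, a x * χ (x : ZMod r) =
      ∑ l ∈ range (Δ + 1), (if b + W * l ∈ S then a (b + W * l) else 0) *
        χ ((b + W * l : ℕ) : ZMod r) := by
    intro r χ
    rw [hsum]
    refine Finset.sum_congr rfl fun l _ => ?_
    split_ifs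
    · rfl
    · rw [zero_mul]
  have h3 : ∑ x ∈ S, ‖a x‖ ^ 2 = ∑ l ∈ range (Δ + 1),
      ‖(if b + W * l ∈ S then a (b + W * l) else 0)‖ ^ 2 := by
    rw [hsum]
    refine Finset.sum_congr rfl fun l _ => ?_
    split_ifs
    · rfl
    · simp
  simp only [h2]
  rw [h3]
  push_cast at h1 ⊢
  exact h1

end Pool.Agent.H.MP_711652_nt.CH
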