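import Pool.Agent.H.MP_711652_nt.CH.MulS

/-! # MP_711652, CH: upper bounds for mean squares -/

set_option autoImplicit false

namespace Pool.Agent.H.MP_711652_nt.CH

open Finset Pool.Agent.H.MP_711652_nt.LG

/-- The numerical hypotheses: all primes are `≥ D`, a product `≤ Y` has at most `K` of them, at most `R` positions. -/
structure Num1 (P : Finset ℕ) (Y K R : ℕ) (D ε : ℝ) : Prop where
  hD : 100 ≤ D
  ge : ∀ p ∈ P, D ≤ (p : ℝ)
  level : ∀ T ⊆ P, ∏ p ∈ T, p ≤ Y → T.card ≤ K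
  R1 : 1 ≤ R
  small : 100 * ((K + 1 : ℝ) * R + (R : ℝ) ^ 2) / D ≤ ε
  ε1 : ε ≤ 1

section Aux

variable {ι : Type*} [Fintype ι] [DecidableEq ι]

private theorem up2_ph_nonneg {P : Finset ℕ} (hP : ∀ p ∈ P, p.Prime) (σ : P → Option ι) :
    0 ≤ ph P σ := by
  unfold ph
  refine Finset.prod_nonneg fun p _ => ?_
  split_ifs
  · exact zero_le_one
  · have : (1 : ℝ) ≤ ((p : ℕ) : ℝ) := by exact_mod_cast (hP p p.2).one_le
    linarith

private theorem up2_mass_nonneg {P : Finset ℕ} (hP : ∀ p ∈ P, p.Prime)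
    (a : (P → Option ι) → ℝ) : 0 ≤ mass P a :=
  Finset.sum_nonneg fun σ _ => mul_nonneg (sq_nonneg _) (up2_ph_nonneg hP σ)

private theorem up2_small {P : Finset ℕ} {Y K R : ℕ} {D ε : ℝ} (hN : Num1 P Y K R D ε) :
    100 * ((K : ℝ) * R + (R : ℝ) ^ 2) ≤ ε * D ∧ 0 ≤ ε := by
  have hD : 0 < D := lt_of_lt_of_le (by norm_num) hN.hD
  have h1 := hN.small
  have hK : (0 : ℝ) ≤ K := Nat.cast_nonneg K
  have hR : (0 : ℝ) ≤ R := Nat.cast_nonneg R
  rw [div_le_iff₀ hD] at h1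
  constructor
  · nlinarith
  · by_contra hc
    have h2 : ε * D < 0 := mul_neg_of_neg_of_pos (not_le.1 hc) hD
    have h3 : 0 ≤ 100 * (((K : ℝ) + 1) * R + (R : ℝ) ^ 2) := by positivity
    linarith

/-- The core estimate: `|v| ≤ G a`. -/
private theorem up2_core {P : Finset ℕ} {A : ℕ → ι → ℕ → Prop}
    (hF : Forms P A) {a : (P → Option ι) → ℝ} {Y K R : ℕ} {D ε : ℝ} (ha : Coef P a Y)
    (hN : Num1 P Y K R D ε) (hR : Fintype.card ι ≤ R) (v : (P → Option ι) → ℝ) {G : ℝ}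
    (hG : 0 ≤ G) (hv : ∀ σ, |v σ| ≤ G * a σ) (N : ℕ) :
    ∑ m ∈ range N, (∑ σ : P → Option ι, v σ * Phi P A σ m) ^ 2 ≤
      N * (G ^ 2 * (1 + ε / 25) * mass P a) + (G * tot P a * (Y : ℝ) ^ 2) ^ 2 := by
  classical
  obtain ⟨hsm, hε0⟩ := up2_small hN
  have hD : 0 < D := lt_of_lt_of_le (by norm_num) hN.hD
  have hKR : (K : ℝ) * R ≤ ε * D / 100 := by
    have : (0 : ℝ) ≤ (R : ℝ) ^ 2 := sq_nonneg _
    linarith
  have hKR' : (K : ℝ) * (2 * R / D) ≤ ε / 50 := by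
    rw [show (K : ℝ) * (2 * R / D) = (2 * (K * R)) / D by ring, div_le_iff₀ hD]
    linarith
  have hgram : ∀ σ : P → Option ι, |v σ| ≠ 0 → (∏ p : P, if σ p = none then (1 : ℝ)
      else 1 + ((Fintype.card ι : ℝ) - 1) / (((p : ℕ) : ℝ) - 1)) ≤ 1 + ε / 25 := by
    intro σ hσ
    have haσ : a σ ≠ 0 := by
      intro h0
      have := hv σ
      rw [h0, mul_zero] at this
      exact hσ (le_antisymm this (abs_nonneg _))
    have hDD := ha.level σ haσ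
    have hcard : ((abs_supp P σ).card : ℝ) ≤ K := by
      exact_mod_cast hN.level _ (abs_supp_sub P σ) (by rw [abs_DD_supp]; exact hDD)
    have hRr : (Fintype.card ι : ℝ) ≤ R := by exact_mod_cast hR
    have hc0 : (0 : ℝ) ≤ Fintype.card ι := Nat.cast_nonneg _
    have h1 : (K : ℝ) * (2 * (Fintype.card ι : ℝ) / D) ≤ K * (2 * R / D) := by gcongr
    have h2 := gram_factor_le (T := abs_supp P σ) (D := D) (R := (Fintype.card ι : ℝ))
      (n := K) (by linarith [hN.hD]) hc0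
      (fun p hp => hN.ge p (abs_supp_sub P σ hp)) hcard (by linarith [hN.ε1])
    rw [abs_prod_supp P σ (fun p => 1 + ((Fintype.card ι : ℝ) - 1) / ((p : ℝ) - 1))] at h2
    refine h2.trans ?_
    linarith
  have hq := G2.quad_upper hF (Q0 := 1) one_pos
    (fun p hp h => (hF.prime p hp).one_lt.ne' (Nat.dvd_one.1 h)) v (fun σ => |v σ|)
    (fun σ => le_rfl) (fun _ _ => 1) (fun _ => 1)
    (fun σ _ => by simpa using G2.Tame.const 1 (1 : ℝ)) N (ε / 25) hgram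
  have hE : G2.E 1 (fun _ => (1 : ℝ) ^ 2) = 1 := by
    rw [G2.E_const one_pos]
    norm_num
  simp only [hE, mul_one, sq_abs] at hq
  refine hq.trans ?_
  have hvm : ∑ σ : P → Option ι, v σ ^ 2 * ph P σ ≤ G ^ 2 * mass P a := by
    rw [mass, Finset.mul_sum]
    refine Finset.sum_le_sum fun σ _ => ?_
    rw [← mul_assoc, ← mul_pow]
    refine mul_le_mul_of_nonneg_right ?_ (up2_ph_nonneg hF.prime σ)
    rw [← sq_abs (v σ)]
    exact pow_le_pow_left₀ (abs_nonneg _) (hv σ) 2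
  have hvt : ∑ σ : P → Option ι, |v σ| * (DD P σ : ℝ) ^ 2 ≤ G * tot P a * (Y : ℝ) ^ 2 := by
    rw [tot, Finset.mul_sum, Finset.sum_mul]
    refine Finset.sum_le_sum fun σ _ => ?_
    by_cases h0 : a σ = 0
    · have h1 := hv σ
      rw [h0, mul_zero] at h1
      rw [le_antisymm h1 (abs_nonneg _), h0]
      simp
    · have h2 : (DD P σ : ℝ) ≤ Y := by exact_mod_cast ha.level σ h0
      have h3 : (DD P σ : ℝ) ^ 2 ≤ (Y : ℝ) ^ 2 := by gcongr
      exact mul_le_mul (hv σ) h3 (by positivity) (mul_nonneg hG (ha.nonneg σ))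
  have hvt0 : 0 ≤ ∑ σ : P → Option ι, |v σ| * (DD P σ : ℝ) ^ 2 :=
    Finset.sum_nonneg fun σ _ => by positivity
  have h5 := pow_le_pow_left₀ hvt0 hvt 2
  have h6 : (∑ σ : P → Option ι, v σ ^ 2 * ph P σ) +
      ε / 25 * ∑ σ : P → Option ι, v σ ^ 2 * ph P σ ≤ G ^ 2 * (1 + ε / 25) * mass P a := by
    have h7 := mul_le_mul_of_nonneg_left hvm (show (0 : ℝ) ≤ 1 + ε / 25 by positivity)
    linarith
  have h8 := mul_le_mul_of_nonneg_left h6 (Nat.cast_nonneg (α := ℝ) N)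
  linarith

end Aux

/-- PROOF. `G2.quad_upper` with `Q0 = 1`, `W = 1` (`Tame 1 (fun _ => 1) 1`), `a = |v|`; `∏_{supp} (1 + (R - 1)/(p - 1)) ≤ exp (K R / (D - 1)) ≤ 1 + ε`. -/
theorem up1 {ι : Type*} [Fintype ι] [DecidableEq ι] {P : Finset ℕ} {A : ℕ → ι → ℕ → Prop}
    (hF : Forms P A) {a : (P → Option ι) → ℝ} {Y K R : ℕ} {D ε : ℝ} (ha : Coef P a Y)
    (hN : Num1 P Y K R D ε) (hR : Fintype.card ι ≤ R) (v : (P → Option ι) → ℝ)
    (hv : ∀ σ, |v σ| ≤ a σ) (N : ℕ) :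
    ∑ m ∈ range N, (∑ σ : P → Option ι, v σ * Phi P A σ m) ^ 2 ≤
      N * ((1 + ε) * mass P a) + (tot P a * (Y : ℝ) ^ 2) ^ 2 := by
  have h1 := up2_core hF ha hN hR v (G := 1) zero_le_one (fun σ => by rw [one_mul]; exact hv σ) N
  rw [one_pow, one_mul, one_mul] at h1
  refine h1.trans ?_
  have h2 := up2_mass_nonneg hF.prime a
  have h3 := (up2_small hN).2
  have h4 : (1 + ε / 25) * mass P a ≤ (1 + ε) * mass P a :=
    mul_le_mul_of_nonneg_right (by linarith) h2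
  have h5 := mul_le_mul_of_nonneg_left h4 (Nat.cast_nonneg (α := ℝ) N)
  linarith

section Gam

/-- Telescoping. -/
private theorem up2_sum_sq (n0 : ℕ) (hn0 : 3 ≤ n0) (k : ℕ) :
    ∑ n ∈ Ico n0 (n0 + k), 1 / ((n : ℝ) - 1) ^ 2 ≤ 1 / ((n0 : ℝ) - 2) - 1 / ((n0 + k : ℝ) - 2) := by
  have h0 : (3 : ℝ) ≤ n0 := by exact_mod_cast hn0
  induction k with
  | zero => simp
  | succ k ih =>
    rw [← add_assoc, Finset.sum_Ico_succ_top (by omega)]
    have hk : (0 : ℝ) ≤ k := Nat.cast_nonneg k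
    have h1 : 1 / (((n0 + k : ℕ) : ℝ) - 1) ^ 2 ≤
        1 / ((n0 + k : ℝ) - 2) - 1 / ((n0 + (k + 1 : ℕ) : ℝ) - 2) := by
      push_cast
      have hx : (0 : ℝ) < (n0 : ℝ) + k - 2 := by linarith
      have hy : (0 : ℝ) < (n0 : ℝ) + k - 1 := by linarith
      have e : 1 / ((n0 : ℝ) + k - 2) - 1 / ((n0 : ℝ) + (k + 1) - 2) =
          1 / (((n0 : ℝ) + k - 2) * ((n0 : ℝ) + k - 1)) := by
        have hz : (n0 : ℝ) + (k + 1) - 2 = (n0 : ℝ) + k - 1 := by ring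
        rw [hz, div_sub_div _ _ hx.ne' hy.ne']
        congr 1
        ring
      rw [e]
      apply one_div_le_one_div_of_le (mul_pos hx hy)
      nlinarith
    linarith

private theorem up2_sum_sq_le {P : Finset ℕ} {D : ℝ} (hD : 100 ≤ D)
    (hP : ∀ p ∈ P, D ≤ (p : ℝ)) : ∑ p ∈ P, 1 / ((p : ℝ) - 1) ^ 2 ≤ 1 / (D - 2) := by
  set n0 : ℕ := ⌈D⌉₊ with hn0
  have h1 : D ≤ n0 := Nat.le_ceil D
  have h3 : 3 ≤ n0 := by
    have : (3 : ℝ) ≤ n0 := by linarith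
    exact_mod_cast this
  have hsub : P ⊆ Ico n0 (n0 + (P.sup id + 1)) := by
    intro p hp
    rw [Finset.mem_Ico]
    refine ⟨Nat.ceil_le.2 (hP p hp), ?_⟩
    have : p ≤ P.sup id := Finset.le_sup (f := id) hp
    omega
  refine (Finset.sum_le_sum_of_subset_of_nonneg hsub fun n _ _ => by positivity).trans ?_
  refine (up2_sum_sq n0 h3 _).trans ?_
  have h4 : 0 ≤ 1 / (((n0 : ℝ) + ((P.sup id + 1 : ℕ) : ℝ)) - 2) := by
    apply div_nonneg zero_le_one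
    have : (0 : ℝ) ≤ ((P.sup id + 1 : ℕ) : ℝ) := Nat.cast_nonneg _
    linarith
  have h5 : 1 / ((n0 : ℝ) - 2) ≤ 1 / (D - 2) :=
    one_div_le_one_div_of_le (by linarith) (by linarith)
  linarith

variable {ι₁ ι₂ : Type*} [Fintype ι₁] [DecidableEq ι₁] [Fintype ι₂] [DecidableEq ι₂]

/-- The product of the costs of shared primes. -/
private theorem up2_gam {P : Finset ℕ} {Y K R : ℕ} {D ε : ℝ} (hN : Num1 P Y K R D ε)
    (hR : Fintype.card ι₁ + Fintype.card ι₂ ≤ R) (ρ : P → Option (ι₁ ⊕ ι₂))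
    (hρ : DD P ρ ≤ Y) :
    ∏ p : P, gam (Fintype.card ι₁ : ℝ) (Fintype.card ι₂ : ℝ) (p : ℕ) (ρ p) ≤
      Real.exp (ε / 90) := by
  classical
  obtain ⟨hsm, hε0⟩ := up2_small hN
  have hD : 0 < D := lt_of_lt_of_le (by norm_num) hN.hD
  have hD100 := hN.hD
  set r₁ : ℝ := (Fintype.card ι₁ : ℝ) with hr₁
  set r₂ : ℝ := (Fintype.card ι₂ : ℝ) with hr₂
  have h10 : 0 ≤ r₁ := Nat.cast_nonneg _
  have h20 : 0 ≤ r₂ := Nat.cast_nonneg _
  have h12 : r₁ + r₂ ≤ R := by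
    rw [hr₁, hr₂]
    exact_mod_cast hR
  have hR0 : (0 : ℝ) ≤ R := Nat.cast_nonneg R
  have hp1 : ∀ p : P, D - 1 ≤ ((p : ℕ) : ℝ) - 1 := fun p => by linarith [hN.ge p p.2]
  -- local bounds
  have hloc : ∀ p : P, gam r₁ r₂ (p : ℕ) (ρ p) ≤ (if ρ p = none then (1 : ℝ) else
      Real.exp (R / (D - 1))) * Real.exp ((R : ℝ) ^ 2 * (1 / (((p : ℕ) : ℝ) - 1) ^ 2)) := by
    intro p
    have hpp := hp1 p
    have hpos : 0 < ((p : ℕ) : ℝ) - 1 := by linarith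
    have hex : (1 : ℝ) ≤ Real.exp ((R : ℝ) ^ 2 * (1 / (((p : ℕ) : ℝ) - 1) ^ 2)) :=
      Real.one_le_exp (by positivity)
    rcases hρp : ρ p with _ | (i | j)
    · simp only [gam, if_true, one_mul]
      refine le_trans ?_ (Real.add_one_le_exp _)
      have : r₁ * r₂ ≤ (R : ℝ) ^ 2 := by nlinarith
      rw [add_comm, mul_one_div]
      have := div_le_div_of_nonneg_right this (sq_nonneg (((p : ℕ) : ℝ) - 1))
      linarith
    · simp only [gam, reduceCtorEq, if_false]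
      have h3 : 1 + r₂ / (((p : ℕ) : ℝ) - 1) ≤ Real.exp (R / (D - 1)) := by
        refine le_trans ?_ (Real.add_one_le_exp _)
        have : r₂ / (((p : ℕ) : ℝ) - 1) ≤ R / (D - 1) :=
          div_le_div₀ hR0 (by linarith) (by linarith) hpp
        linarith
      exact h3.trans (le_mul_of_one_le_right (Real.exp_pos _).le hex)
    · simp only [gam, reduceCtorEq, if_false]
      have h3 : 1 + r₁ / (((p : ℕ) : ℝ) - 1) ≤ Real.exp (R / (D - 1)) := by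
        refine le_trans ?_ (Real.add_one_le_exp _)
        have : r₁ / (((p : ℕ) : ℝ) - 1) ≤ R / (D - 1) :=
          div_le_div₀ hR0 (by linarith) (by linarith) hpp
        linarith
      exact h3.trans (le_mul_of_one_le_right (Real.exp_pos _).le hex)
  have hnn : ∀ p : P, 0 ≤ gam r₁ r₂ (p : ℕ) (ρ p) := by
    intro p
    have hpos : 0 < ((p : ℕ) : ℝ) - 1 := by linarith [hp1 p]
    rcases ρ p with _ | (i | j) <;> simp only [gam] <;> positivity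
  refine (Finset.prod_le_prod (fun p _ => hnn p) fun p _ => hloc p).trans ?_
  rw [Finset.prod_mul_distrib]
  have h4 : (∏ p : P, if ρ p = none then (1 : ℝ) else Real.exp (R / (D - 1))) ≤
      Real.exp (K * (R / (D - 1))) := by
    have h5 := abs_prod_supp P ρ (fun _ => Real.exp (R / (D - 1)))
    rw [← h5, Finset.prod_const, ← Real.exp_nat_mul]
    apply Real.exp_le_exp.2
    have hcard : ((abs_supp P ρ).card : ℝ) ≤ K := by
      exact_mod_cast hN.level _ (abs_supp_sub P ρ) (by rw [abs_DD_supp]; exact hρ)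
    have : 0 ≤ (R : ℝ) / (D - 1) := div_nonneg hR0 (by linarith)
    exact mul_le_mul_of_nonneg_right hcard this
  have h6 : (∏ p : P, Real.exp ((R : ℝ) ^ 2 * (1 / (((p : ℕ) : ℝ) - 1) ^ 2))) ≤
      Real.exp ((R : ℝ) ^ 2 * (1 / (D - 2))) := by
    rw [← Real.exp_sum, ← Finset.mul_sum]
    apply Real.exp_le_exp.2
    refine mul_le_mul_of_nonneg_left ?_ (sq_nonneg _)
    have h7 := up2_sum_sq_le hD100 hN.ge
    rwa [← Finset.sum_coe_sort P (fun p => 1 / ((p : ℝ) - 1) ^ 2)] at h7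
  refine (mul_le_mul h4 h6 (Finset.prod_nonneg fun p _ => (Real.exp_pos _).le)
    (Real.exp_pos _).le).trans ?_
  rw [← Real.exp_add]
  apply Real.exp_le_exp.2
  have hK0 : (0 : ℝ) ≤ K := Nat.cast_nonneg K
  have h8 : (K : ℝ) * (R / (D - 1)) ≤ (K * R) / (D - 2) := by
    rw [← mul_div_assoc]
    exact div_le_div_of_nonneg_left (by positivity) (by linarith) (by linarith)
  have h9 : (K * R : ℝ) / (D - 2) + (R : ℝ) ^ 2 * (1 / (D - 2)) = (K * R + (R : ℝ) ^ 2) / (D - 2) := by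
    ring
  have h10' : (K * R + (R : ℝ) ^ 2) / (D - 2) ≤ ε / 90 := by
    rw [div_le_iff₀ (by linarith)]
    nlinarith
  linarith

end Gam

private theorem up2_num {ε : ℝ} (h0 : 0 ≤ ε) (h1 : ε ≤ 1) :
    Real.exp (ε / 90) ≤ 2 ∧ Real.exp (ε / 90) ^ 4 * (1 + ε / 25) ≤ 1 + ε := by
  have hx : Real.exp (ε / 90) ≤ 1 + 2 * (ε / 90) := by
    have h2 := Real.exp_bound_div_one_sub_of_interval (x := ε / 90) (by positivity) (by linarith)
    refine h2.trans ?_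
    rw [div_le_iff₀ (by linarith)]
    nlinarith
  constructor
  · linarith
  · have h3 : Real.exp (ε / 90) ^ 4 ≤ (1 + ε / 45) ^ 4 := by
      refine pow_le_pow_left₀ (Real.exp_pos _).le (hx.trans (by linarith)) 4
    have h4 : (1 + ε / 45) ^ 4 ≤ 1 + ε / 5 := by
      nlinarith [pow_nonneg h0 2, pow_nonneg h0 3, mul_nonneg h0 (sub_nonneg.2 h1),
        mul_nonneg (pow_nonneg h0 2) (sub_nonneg.2 h1),
        mul_nonneg (pow_nonneg h0 3) (sub_nonneg.2 h1)]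
    calc Real.exp (ε / 90) ^ 4 * (1 + ε / 25) ≤ (1 + ε / 5) * (1 + ε / 25) :=
          mul_le_mul_of_nonneg_right (h3.trans h4) (by positivity)
      _ ≤ 1 + ε := by nlinarith

/-- PROOF. `mul_sum`; on the support of `a₁ (lft ρ) a₂ (rgt ρ)` (level `Y₁ Y₂ ≤ Y`, so at most `K` primes are somewhere)
`∏ gam ≤ exp (K R / (D-1)) * exp (R^2 ∑_{n ≥ D} 1/(n-1)^2) ≤ exp ((K R + 2 R^2) / (D-1)) =: G`.  `quad_upper` as in `up1` for `v`, with
`mass_sum_le`, `tot_sum_le`: `G^2 (1 + small) ≤ 1 + ε`, `G ≤ 2`. -/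
theorem up2 {ι₁ ι₂ : Type*} [Fintype ι₁] [DecidableEq ι₁] [Fintype ι₂] [DecidableEq ι₂]
    {P : Finset ℕ} {A : ℕ → ι₁ ⊕ ι₂ → ℕ → Prop} (hF : Forms P A)
    {a₁ : (P → Option ι₁) → ℝ} {a₂ : (P → Option ι₂) → ℝ} {Y₁ Y₂ Y K R : ℕ} {D ε : ℝ}
    (h₁ : Coef P a₁ Y₁) (h₂ : Coef P a₂ Y₂) (hY : Y₁ * Y₂ ≤ Y) (hN : Num1 P Y K R D ε)
    (hR : Fintype.card ι₁ + Fintype.card ι₂ ≤ R) (v₁ : (P → Option ι₁) → ℝ)
    (v₂ : (P → Option ι₂) → ℝ) (hv₁ : ∀ σ, |v₁ σ| ≤ a₁ σ) (hv₂ : ∀ σ, |v₂ σ| ≤ a₂ σ) (N : ℕ) :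
    ∑ m ∈ range N, ((∑ σ : P → Option ι₁, v₁ σ * Phi P (fun p i => A p (Sum.inl i)) σ m) *
        (∑ τ : P → Option ι₂, v₂ τ * Phi P (fun p i => A p (Sum.inr i)) τ m)) ^ 2 ≤
      N * ((1 + ε) * (mass P a₁ * mass P a₂)) + (2 * (tot P a₁ * tot P a₂) * (Y : ℝ) ^ 2) ^ 2 := by
  classical
  obtain ⟨v, hv, hvb⟩ := mul_sum hF h₁ h₂ v₁ v₂ hv₁ hv₂
  have hε0 := (up2_small hN).2
  obtain ⟨hG2, hG4⟩ := up2_num hε0 hN.ε1
  set G : ℝ := Real.exp (ε / 90) with hG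
  have hG0 : 0 < G := Real.exp_pos _
  have hG1 : 1 ≤ G := Real.one_le_exp (by positivity)
  have hC0 := Coef.sum h₁ h₂
  have hC : Coef P (fun ρ : P → Option (ι₁ ⊕ ι₂) => a₁ (lft ρ) * a₂ (rgt ρ)) Y :=
    ⟨hC0.prime, hC0.nonneg, hC0.sub, fun ρ h => (hC0.level ρ h).trans hY⟩
  have hvG : ∀ ρ, |v ρ| ≤ G * (fun ρ : P → Option (ι₁ ⊕ ι₂) => a₁ (lft ρ) * a₂ (rgt ρ)) ρ := by
    intro ρ
    have hb := hvb ρ
    have hn := hC.nonneg ρ
    simp only at hn ⊢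
    by_cases h0 : a₁ (lft ρ) * a₂ (rgt ρ) = 0
    · rw [h0, zero_mul] at hb
      rw [h0, mul_zero]
      exact hb
    · have hl := hC.level ρ h0
      have hg := up2_gam hN hR ρ hl
      refine hb.trans ?_
      rw [mul_comm G]
      exact mul_le_mul_of_nonneg_left hg hn
  have h5 := up2_core hF hC hN (by rw [Fintype.card_sum]; exact hR) v hG0.le hvG N
  have e : ∀ m, ((∑ σ : P → Option ι₁, v₁ σ * Phi P (fun p i => A p (Sum.inl i)) σ m) *
      (∑ τ : P → Option ι₂, v₂ τ * Phi P (fun p i => A p (Sum.inr i)) τ m)) ^ 2 =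
      (∑ ρ : P → Option (ι₁ ⊕ ι₂), v ρ * Phi P A ρ m) ^ 2 := fun m => by rw [hv m]
  rw [Finset.sum_congr rfl fun m _ => e m]
  refine h5.trans ?_
  have hm := mass_sum_le hF.prime a₁ a₂
  have ht := tot_sum_le a₁ a₂ h₁.nonneg h₂.nonneg
  have hm0 := up2_mass_nonneg hF.prime
    (fun ρ : P → Option (ι₁ ⊕ ι₂) => a₁ (lft ρ) * a₂ (rgt ρ))
  have ht0 : 0 ≤ tot P (fun ρ : P → Option (ι₁ ⊕ ι₂) => a₁ (lft ρ) * a₂ (rgt ρ)) :=
    Finset.sum_nonneg fun ρ _ => hC.nonneg ρ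
  refine add_le_add (mul_le_mul_of_nonneg_left ?_ (Nat.cast_nonneg N)) ?_
  · have h6 : G ^ 2 * (1 + ε / 25) ≤ 1 + ε := by
      refine le_trans ?_ hG4
      refine mul_le_mul_of_nonneg_right ?_ (by positivity)
      exact pow_le_pow_right₀ hG1 (by norm_num)
    exact mul_le_mul h6 hm hm0 (by positivity)
  · refine pow_le_pow_left₀ (by positivity) ?_ 2
    refine mul_le_mul_of_nonneg_right ?_ (by positivity)
    exact mul_le_mul hG2 ht ht0 (by norm_num)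

/-- Three factors.  PROOF. `mul_sum` for the second and third factor on `ι₂ ⊕ ι₃` gives `v₂₃` with `|v₂₃| ≤ G (a₂ a₃)` on the support, `G ≤ 2`; then as in `up2` with
`Coef.sum` (the constant factors are collected: `∏ gam` of the second step times the first one, all together `≤ 1 + ε`). -/
theorem up3 {ι₁ ι₂ ι₃ : Type*} [Fintype ι₁] [DecidableEq ι₁] [Fintype ι₂] [DecidableEq ι₂]
    [Fintype ι₃] [DecidableEq ι₃] {P : Finset ℕ} {A : ℕ → ι₁ ⊕ (ι₂ ⊕ ι₃) → ℕ → Prop}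
    (hF : Forms P A) {a₁ : (P → Option ι₁) → ℝ} {a₂ : (P → Option ι₂) → ℝ}
    {a₃ : (P → Option ι₃) → ℝ} {Y₁ Y₂ Y₃ Y K R : ℕ} {D ε : ℝ}
    (h₁ : Coef P a₁ Y₁) (h₂ : Coef P a₂ Y₂) (h₃ : Coef P a₃ Y₃) (hY : Y₁ * (Y₂ * Y₃) ≤ Y)
    (hN : Num1 P Y K R D ε)
    (hR : Fintype.card ι₁ + (Fintype.card ι₂ + Fintype.card ι₃) ≤ R) (v₁ : (P → Option ι₁) → ℝ)
    (v₂ : (P → Option ι₂) → ℝ) (v₃ : (P → Option ι₃) → ℝ) (hv₁ : ∀ σ, |v₁ σ| ≤ a₁ σ)
    (hv₂ : ∀ σ, |v₂ σ| ≤ a₂ σ) (hv₃ : ∀ σ, |v₃ σ| ≤ a₃ σ) (N : ℕ) :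
    ∑ m ∈ range N, ((∑ σ : P → Option ι₁, v₁ σ * Phi P (fun p i => A p (Sum.inl i)) σ m) *
        ((∑ τ : P → Option ι₂, v₂ τ * Phi P (fun p i => A p (Sum.inr (Sum.inl i))) τ m) *
        (∑ τ : P → Option ι₃, v₃ τ * Phi P (fun p i => A p (Sum.inr (Sum.inr i))) τ m))) ^ 2 ≤
      N * ((1 + ε) * (mass P a₁ * (mass P a₂ * mass P a₃))) +
        (4 * (tot P a₁ * (tot P a₂ * tot P a₃)) * (Y : ℝ) ^ 2) ^ 2 := by
  classical
  have hε0 := (up2_small hN).2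
  obtain ⟨hG2, hG4⟩ := up2_num hε0 hN.ε1
  set G : ℝ := Real.exp (ε / 90) with hG
  have hG0 : 0 < G := Real.exp_pos _
  have hG1 : 1 ≤ G := Real.one_le_exp (by positivity)
  have hm1 := up2_mass_nonneg hF.prime a₁
  have hm2 := up2_mass_nonneg hF.prime a₂
  have hm3 := up2_mass_nonneg hF.prime a₃
  by_cases hY1 : Y₁ = 0
  · -- the first factor vanishes
    have hz : ∀ σ, v₁ σ = 0 := by
      intro σ
      have h0 : a₁ σ = 0 := by
        by_contra hne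
        have h4 := h₁.level σ hne
        rw [hY1] at h4
        have h5 : 0 < DD P σ := by
          unfold DD
          refine Finset.prod_pos fun p _ => ?_
          split_ifs
          · exact one_pos
          · exact (hF.prime p p.2).pos
        omega
      have h6 := hv₁ σ
      rw [h0] at h6
      exact abs_eq_zero.1 (le_antisymm h6 (abs_nonneg _))
    have e : ∀ m ∈ range N, ((∑ σ : P → Option ι₁, v₁ σ *
        Phi P (fun p i => A p (Sum.inl i)) σ m) *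
        ((∑ τ : P → Option ι₂, v₂ τ * Phi P (fun p i => A p (Sum.inr (Sum.inl i))) τ m) *
        (∑ τ : P → Option ι₃, v₃ τ * Phi P (fun p i => A p (Sum.inr (Sum.inr i))) τ m))) ^ 2 =
        0 := by
      intro m _
      simp only [hz, zero_mul, Finset.sum_const_zero]
      norm_num
    rw [Finset.sum_congr rfl e, Finset.sum_const_zero]
    positivity
  have hF' : Forms P (fun p (i : ι₂ ⊕ ι₃) m => A p (Sum.inr i) m) :=
    G2.Forms_comp hF Sum.inr Sum.inr_injective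
  obtain ⟨v₂₃, hv23, hvb23⟩ := mul_sum hF' h₂ h₃ v₂ v₃ hv₂ hv₃
  have hY23 : Y₂ * Y₃ ≤ Y :=
    (Nat.le_mul_of_pos_left _ (Nat.pos_of_ne_zero hY1)).trans hY
  have hC23 := Coef.sum h₂ h₃
  -- the scaled coefficients
  have hC23' : Coef P (fun τ : P → Option (ι₂ ⊕ ι₃) => G * (a₂ (lft τ) * a₃ (rgt τ)))
      (Y₂ * Y₃) := by
    refine ⟨hC23.prime, fun τ => mul_nonneg hG0.le (hC23.nonneg τ), fun τ p i h => ?_,
      fun τ h => hC23.level τ fun h0 => h ?_⟩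
    · have h7 := mul_le_mul_of_nonneg_left (hC23.sub τ p i h) hG0.le
      refine h7.trans (le_of_eq ?_)
      ring
    · rw [h0, mul_zero]
  have hvG23 : ∀ τ, |v₂₃ τ| ≤ (fun τ : P → Option (ι₂ ⊕ ι₃) => G * (a₂ (lft τ) * a₃ (rgt τ))) τ := by
    intro τ
    have hb := hvb23 τ
    have hn := hC23.nonneg τ
    simp only at hn ⊢
    by_cases h0 : a₂ (lft τ) * a₃ (rgt τ) = 0
    · rw [h0, zero_mul] at hb
      rw [h0, mul_zero]
      exact hb
    · have hl := (hC23.level τ h0).trans hY23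
      have hg := up2_gam hN (by omega) τ hl
      refine hb.trans ?_
      rw [mul_comm G]
      exact mul_le_mul_of_nonneg_left hg hn
  obtain ⟨v, hv, hvb⟩ := mul_sum hF h₁ hC23' v₁ v₂₃ hv₁ hvG23
  have hC0 := Coef.sum h₁ hC23
  have hC : Coef P (fun ρ : P → Option (ι₁ ⊕ (ι₂ ⊕ ι₃)) =>
      a₁ (lft ρ) * (a₂ (lft (rgt ρ)) * a₃ (rgt (rgt ρ)))) Y :=
    ⟨hC0.prime, hC0.nonneg, hC0.sub, fun ρ h => (hC0.level ρ h).trans hY⟩
  have hvG : ∀ ρ, |v ρ| ≤ (G * G) * (fun ρ : P → Option (ι₁ ⊕ (ι₂ ⊕ ι₃)) =>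
      a₁ (lft ρ) * (a₂ (lft (rgt ρ)) * a₃ (rgt (rgt ρ)))) ρ := by
    intro ρ
    have hb := hvb ρ
    have hn := hC.nonneg ρ
    simp only at hn hb ⊢
    have e : a₁ (lft ρ) * (G * (a₂ (lft (rgt ρ)) * a₃ (rgt (rgt ρ)))) =
        G * (a₁ (lft ρ) * (a₂ (lft (rgt ρ)) * a₃ (rgt (rgt ρ)))) := by ring
    rw [e] at hb
    by_cases h0 : a₁ (lft ρ) * (a₂ (lft (rgt ρ)) * a₃ (rgt (rgt ρ))) = 0
    · rw [h0, mul_zero, zero_mul] at hb
      rw [h0, mul_zero]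
      exact hb
    · have hl := hC.level ρ h0
      have hg := up2_gam hN (by rw [Fintype.card_sum]; exact hR) ρ hl
      refine hb.trans ?_
      rw [show G * G * (a₁ (lft ρ) * (a₂ (lft (rgt ρ)) * a₃ (rgt (rgt ρ)))) =
        G * (a₁ (lft ρ) * (a₂ (lft (rgt ρ)) * a₃ (rgt (rgt ρ)))) * G by ring]
      exact mul_le_mul_of_nonneg_left hg (mul_nonneg hG0.le hn)
  have h5 := up2_core hF hC hN (by rw [Fintype.card_sum, Fintype.card_sum]; exact hR) v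
    (mul_nonneg hG0.le hG0.le) hvG N
  have e : ∀ m, ((∑ σ : P → Option ι₁, v₁ σ * Phi P (fun p i => A p (Sum.inl i)) σ m) *
      ((∑ τ : P → Option ι₂, v₂ τ * Phi P (fun p i => A p (Sum.inr (Sum.inl i))) τ m) *
      (∑ τ : P → Option ι₃, v₃ τ * Phi P (fun p i => A p (Sum.inr (Sum.inr i))) τ m))) ^ 2 =
      (∑ ρ : P → Option (ι₁ ⊕ (ι₂ ⊕ ι₃)), v ρ * Phi P A ρ m) ^ 2 := fun m => by
    rw [← hv m, ← hv23 m]
  rw [Finset.sum_congr rfl fun m _ => e m]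
  refine h5.trans ?_
  have hm23 := mass_sum_le hF.prime a₂ a₃
  have hm := (mass_sum_le hF.prime a₁ (fun τ : P → Option (ι₂ ⊕ ι₃) =>
    a₂ (lft τ) * a₃ (rgt τ))).trans (mul_le_mul_of_nonneg_left hm23 hm1)
  have ht1 : 0 ≤ tot P a₁ := Finset.sum_nonneg fun ρ _ => h₁.nonneg ρ
  have ht23 := tot_sum_le a₂ a₃ h₂.nonneg h₃.nonneg
  have ht := (tot_sum_le a₁ (fun τ : P → Option (ι₂ ⊕ ι₃) =>
    a₂ (lft τ) * a₃ (rgt τ)) h₁.nonneg hC23.nonneg).trans (mul_le_mul_of_nonneg_left ht23 ht1)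
  have hm0 := up2_mass_nonneg hF.prime (fun ρ : P → Option (ι₁ ⊕ (ι₂ ⊕ ι₃)) =>
      a₁ (lft ρ) * (a₂ (lft (rgt ρ)) * a₃ (rgt (rgt ρ))))
  have ht0 : 0 ≤ tot P (fun ρ : P → Option (ι₁ ⊕ (ι₂ ⊕ ι₃)) =>
      a₁ (lft ρ) * (a₂ (lft (rgt ρ)) * a₃ (rgt (rgt ρ)))) :=
    Finset.sum_nonneg fun ρ _ => hC.nonneg ρ
  refine add_le_add (mul_le_mul_of_nonneg_left ?_ (Nat.cast_nonneg N)) ?_
  · have h6 : (G * G) ^ 2 * (1 + ε / 25) ≤ 1 + ε := by
      rw [show (G * G) ^ 2 = G ^ 4 by ring]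
      exact hG4
    exact mul_le_mul h6 hm hm0 (by positivity)
  · refine pow_le_pow_left₀ (by positivity) ?_ 2
    refine mul_le_mul_of_nonneg_right ?_ (by positivity)
    refine mul_le_mul ?_ ht ht0 (by norm_num)
    nlinarith

end Pool.Agent.H.MP_711652_nt.CH
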