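import Pool.Agent.H.MP_711652_nt.CH.ExpDefs
import Pool.Agent.H.MP_711652_nt.G2.NumBig

/-! # MP_711652, CH: the coefficients of `Ψ` -/

set_option autoImplicit false

namespace Pool.Agent.H.MP_711652_nt.CH

open Finset Pool.Agent.H.MP_711652_nt.LG Pool.Agent.H.MP_711652_nt.G2

variable {ι : Type*} [Fintype ι] [DecidableEq ι]

section aux

omit [Fintype ι]

private theorem cfs_rr_same {P : Finset ℕ} (σ : P → Option ι) (p : P) (i : ι) (h : σ p = none) :
    rr P (Function.update σ p (some i)) i = rr P σ i * (p : ℕ) := by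
  unfold rr
  have h1 : ∀ q : P, (if Function.update σ p (some i) q = some i then (q : ℕ) else 1) =
      (if σ q = some i then (q : ℕ) else 1) * (if q = p then (p : ℕ) else 1) := by
    intro q
    by_cases hq : q = p
    · subst hq
      simp [h]
    · rw [Function.update_of_ne hq, if_neg hq, mul_one]
  rw [prod_congr rfl (fun q _ => h1 q), prod_mul_distrib, prod_ite_eq' univ p, if_pos (mem_univ _)]

private theorem cfs_rr_ne {P : Finset ℕ} (σ : P → Option ι) (p : P) (i j : ι) (hj : j ≠ i)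
    (h : σ p = none) : rr P (Function.update σ p (some i)) j = rr P σ j := by
  unfold rr
  refine prod_congr rfl fun q _ => ?_
  by_cases hq : q = p
  · subst hq
    have h1 : ¬ (some i = some j) := fun hh => hj (Option.some.inj hh).symm
    rw [Function.update_self, if_neg h1, h, if_neg (by simp)]
  · rw [Function.update_of_ne hq]

private theorem cfs_DD {P : Finset ℕ} (σ : P → Option ι) (p : P) (i : ι) (h : σ p = none) :
    DD P (Function.update σ p (some i)) = DD P σ * (p : ℕ) := by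
  unfold DD
  have h1 : ∀ q : P, (if Function.update σ p (some i) q = none then 1 else (q : ℕ)) =
      (if σ q = none then 1 else (q : ℕ)) * (if q = p then (p : ℕ) else 1) := by
    intro q
    by_cases hq : q = p
    · subst hq
      simp [h]
    · rw [Function.update_of_ne hq, if_neg hq, mul_one]
  rw [prod_congr rfl (fun q _ => h1 q), prod_mul_distrib, prod_ite_eq' univ p, if_pos (mem_univ _)]

private theorem cfs_rr_pos {P : Finset ℕ} (hP : ∀ p ∈ P, p.Prime) (σ : P → Option ι) (i : ι) :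
    0 < rr P σ i := by
  unfold rr
  refine prod_pos fun q _ => ?_
  split_ifs
  · exact (hP q q.2).pos
  · exact one_pos

private theorem cfs_cop {P : Finset ℕ} (hP : ∀ p ∈ P, p.Prime) (σ : P → Option ι) (p : P) (i : ι)
    (h : σ p = none) : Nat.Coprime (rr P σ i) (p : ℕ) := by
  unfold rr
  refine Nat.Coprime.prod_left fun q _ => ?_
  by_cases hq : σ q = some i
  · rw [if_pos hq]
    refine (Nat.coprime_primes (hP q q.2) (hP p p.2)).2 fun hh => ?_
    have h3 : q = p := Subtype.ext hh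
    rw [h3, h] at hq
    exact absurd hq (by simp)
  · rw [if_neg hq]
    exact Nat.coprime_one_left _

private theorem cfs_chg {B : ℕ} {c : ℝ} (hc : 0 ≤ c) {r p : ℕ} (hr : 0 < r) (hp : p.Prime)
    (hcop : Nat.Coprime r p) (hlog : c ≤ Real.log p) :
    |chg (gw c) B (r * p)| ≤ |chg (gw c) B r| * (1 / ((p : ℝ) - 1)) := by
  have hp2 : (2 : ℝ) ≤ p := by exact_mod_cast hp.two_le
  have hp1 : (0 : ℝ) < (p : ℝ) - 1 := by linarith
  have hne : r * p ≠ 1 := by
    intro h
    have := Nat.eq_one_of_mul_eq_one_left h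
    exact hp.one_lt.ne' this
  have hR0 : 0 ≤ |chg (gw c) B r| * (1 / ((p : ℝ) - 1)) := by positivity
  unfold chg
  rw [if_neg hne]
  by_cases hB : r * p ≤ B
  · rw [if_pos hB, abs_neg, abs_of_nonneg (gw_nonneg hc _)]
    have h2rp : 2 ≤ r * p := by nlinarith [hp.two_le]
    have htot : ((Nat.totient (r * p) : ℕ) : ℝ) = (Nat.totient r : ℝ) * ((p : ℝ) - 1) := by
      rw [Nat.totient_mul hcop, Nat.totient_prime hp, Nat.cast_mul, Nat.cast_sub hp.one_le,
        Nat.cast_one]
    rw [gw_of_two_le c h2rp, htot]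
    by_cases h1 : r = 1
    · subst h1
      rw [if_pos rfl, abs_one, one_mul, Nat.totient_one, Nat.cast_one, one_mul, one_mul]
      have hlp : 0 < Real.log p := Real.log_pos (by linarith)
      rw [div_le_div_iff₀ (mul_pos hp1 hlp) hp1]
      nlinarith
    · have h2r : 2 ≤ r := by omega
      have hrB : r ≤ B := (Nat.le_mul_of_pos_right r hp.pos).trans hB
      rw [if_neg h1, if_pos hrB, abs_neg, abs_of_nonneg (gw_nonneg hc _), gw_of_two_le c h2r]
      have hφ : (0 : ℝ) < Nat.totient r := by exact_mod_cast Nat.totient_pos.2 hr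
      have hlr : 0 < Real.log r := Real.log_pos (by exact_mod_cast (show 1 < r by omega))
      have hr0 : (0 : ℝ) < r := by exact_mod_cast hr
      have hlrp : Real.log r ≤ Real.log ((r * p : ℕ) : ℝ) := by
        apply Real.log_le_log hr0
        push_cast
        nlinarith
      have e1 : c / ((Nat.totient r : ℝ) * Real.log r) * (1 / ((p : ℝ) - 1)) =
          c / ((Nat.totient r : ℝ) * ((p : ℝ) - 1) * Real.log r) := by
        field_simp
      rw [e1]
      apply div_le_div_of_nonneg_left hc (by positivity)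
      exact mul_le_mul_of_nonneg_left hlrp (by positivity)
  · rw [if_neg hB, abs_zero]
    exact hR0

end aux

/-- PROOF. `|cf σ| = [DD σ ≤ Y] ∏_i |chi (rr σ i)|` with `|chi 1| = 1`, `|chi r| = gw c r` for `1 < r ≤ B`, `0` beyond.  Putting `p` at `i` multiplies `rr σ i` by `p`:
`gw c (r p) ≤ gw c r / (p - 1)` (`φ(r p) = φ(r) (p-1)`, `log (r p) ≥ log r`) and for `r = 1`: `gw c p = c / ((p-1) log p) ≤ 1/(p-1)` by `Big.clog`. -/
theorem cf_coef {P : Finset ℕ} {B Y K : ℕ} {c D : ℝ} (hB : Big P B Y K c D) :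
    Coef P (fun σ => |cf P (LG.chi (fun _ : ι => gw c) B) Y σ|) Y := by
  refine ⟨hB.prime, fun σ => abs_nonneg _, ?_, ?_⟩
  · intro σ p i hp
    have hpp := hB.prime p p.2
    have hp2 : (2 : ℝ) ≤ ((p : ℕ) : ℝ) := by exact_mod_cast hpp.two_le
    have hp1 : (0 : ℝ) < ((p : ℕ) : ℝ) - 1 := by linarith
    have hR0 : 0 ≤ |cf P (LG.chi (fun _ : ι => gw c) B) Y σ| / (((p : ℕ) : ℝ) - 1) := by positivity
    have hlog : c ≤ Real.log ((p : ℕ) : ℝ) := hB.clog.trans
      (Real.log_le_log (by linarith [hB.hD]) (hB.ge p p.2))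
    by_cases hD : DD P (Function.update σ p (some i)) ≤ Y
    · have hD2 : DD P σ ≤ Y := by
        rw [cfs_DD σ p i hp] at hD
        exact (Nat.le_mul_of_pos_right _ hpp.pos).trans hD
      unfold cf
      rw [if_pos hD, if_pos hD2, abs_prod, abs_prod]
      have h1 : ∀ j : ι, |LG.chi (fun _ : ι => gw c) B j (rr P (Function.update σ p (some i)) j)| ≤
          |LG.chi (fun _ : ι => gw c) B j (rr P σ j)| *
            (if j = i then 1 / (((p : ℕ) : ℝ) - 1) else 1) := by
        intro j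
        by_cases hj : j = i
        · subst hj
          rw [if_pos rfl, cfs_rr_same σ p j hp]
          exact cfs_chg hB.hc (cfs_rr_pos hB.prime σ j) hpp (cfs_cop hB.prime σ p j hp) hlog
        · rw [if_neg hj, mul_one, cfs_rr_ne σ p i j hj hp]
      refine (prod_le_prod (fun j _ => abs_nonneg _) fun j _ => h1 j).trans ?_
      rw [prod_mul_distrib, prod_ite_eq' univ i, if_pos (mem_univ _), mul_one_div]
    · have h0 : cf P (LG.chi (fun _ : ι => gw c) B) Y (Function.update σ p (some i)) = 0 := by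
        unfold cf
        rw [if_neg hD]
      rw [h0, abs_zero]
      exact hR0
  · intro σ hσ
    by_contra hcon
    apply hσ
    unfold cf
    rw [if_neg hcon, abs_zero]

/-- PROOF. `G2.norm_le` or `sum_abs_cf`. -/
theorem cf_tot {P : Finset ℕ} {B Y K : ℕ} {c D : ℝ} (hB : Big P B Y K c D) :
    tot P (fun σ => |cf P (LG.chi (fun _ : ι => gw c) B) Y σ|) ≤ 2 ^ Fintype.card ι := by
  unfold tot
  exact LG.sum_abs_cf P hB.prime (fun _ => gw c) (fun _ n => gw_nonneg hB.hc n) B Y hB.hB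
    (fun _ => hB.sum)

theorem cf_one_le_mass {P : Finset ℕ} {B Y K : ℕ} {c D : ℝ} (hB : Big P B Y K c D) :
    1 ≤ mass P (fun σ => |cf P (LG.chi (fun _ : ι => gw c) B) Y σ|) := by
  unfold mass
  simp only [sq_abs]
  exact LG.one_le_diag P hB.prime _ (fun i => by simp [LG.chi, chg]) Y hB.hY

/-- The trivial small weights.  PROOF. All fields with `E 1 F = F 0`, `Lam = 1`. -/
theorem small_one (K : ℕ) : Small (ι := ι) 1 (fun _ _ => 1) K 1 0 1 := by
  refine ⟨one_pos, fun i m => ⟨1, by simp⟩, fun i => ?_, le_refl 1, zero_le_one, le_refl 0, ?_, ?_, ?_⟩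
  · have h := Tame.const 1 1
    rwa [abs_one] at h
  · intro S hS i hi
    simp [E]
  · intro U hU
    simp [E]
  · intro S T _ _ _
    simp [E]

/-- The bad points (some position is hit by no prime of `P`).
PROOF. `G2.f2b` with `small_one`, `hc = 1 ∤`: `Pw` and `Mw` with `Lam = 1` are `∑ cf Phi` and the mass. -/
theorem void_bad {P : Finset ℕ} {A : ℕ → ι → ℕ → Prop} (hF : Forms P A) {B Y K : ℕ} {c D : ℝ}
    (hB : Big P B Y K c D) (R : ℕ) (hR : Fintype.card ι ≤ R) (hsmall : (K : ℝ) * (2 * R / D) ≤ 1)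
    (s : ℝ) (hs : 0 ≤ s) (hsB : s * Real.log B ≤ 1) (N : ℕ) (S : Finset ℕ) (hSN : S ⊆ range N)
    (hbad : ∀ m ∈ S, ∃ i, ∀ p ∈ P, ¬ A p i m) :
    ∑ m ∈ S, (∑ σ : P → Option ι, cf P (LG.chi (fun _ : ι => gw c) B) Y σ * Phi P A σ m) ^ 2 ≤
      N * (R * (((B : ℝ) / Y) ^ s * Real.exp (R * (2 * s * c)) + (K * (2 / (D - 1))) ^ 2 +
        4 * K * R / D) * mass P (fun σ => |cf P (LG.chi (fun _ : ι => gw c) B) Y σ|)) +
        R * (2 ^ R * (Y : ℝ) ^ 2) ^ 2 := by
  have h := f2b (Lam := fun _ _ => 1) hF (small_one K)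
    (fun p hp h1 => (hB.prime p hp).one_lt.ne' (Nat.dvd_one.1 h1)) hB R hR hsmall s hs hsB N S hSN
    (fun m hm => by
      obtain ⟨i, hi⟩ := hbad m hm
      exact ⟨i, hi, rfl⟩)
  have e1 : ∀ m, Pw P A (fun _ _ => (1 : ℝ)) c B Y m =
      ∑ σ : P → Option ι, cf P (LG.chi (fun _ : ι => gw c) B) Y σ * Phi P A σ m := by
    intro m
    rw [Pw_eq]
    simp
  have e2 : Mw (ι := ι) P 1 (fun _ _ => (1 : ℝ)) c B Y =
      mass P (fun σ => |cf P (LG.chi (fun _ : ι => gw c) B) Y σ|) := by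
    rw [Mw_eq]
    unfold mass
    refine sum_congr rfl fun σ _ => ?_
    rw [sq_abs]
    simp [eS, E, LamS]
  simp only [e1, e2] at h
  have e3 : Nm R Y (K + 1) 1 = 2 ^ R * (Y : ℝ) ^ 2 := by
    unfold Nm
    rw [one_pow, mul_one]
  rw [e3] at h
  simpa only [mul_one] using h

/-- The weights for the primes of `(z, Y]`, cut at `B ≤ Y`.
PROOF. `QQ (Pbig z Y) B = QQ (Pbig z B) B`, `big_num`, `Pbig_level`. -/
theorem big_ext {z B Y K n : ℕ} (hz : 3 ≤ z) (hB : z ^ (2 ^ n) ≤ B) (hBY : B ≤ Y)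
    (hn : 8 * Real.exp 21 ≤ n) (hY : Y < z ^ (K + 1)) :
    Big (Pbig z Y) B Y K (1 / S1 (Pbig z B) B) z := by
  have hB1 : 1 ≤ B := (Nat.one_le_pow _ _ (by omega)).trans hB
  have hb := big_num (Y := Y) hz hB hn (hB1.trans hBY) hY
  have hQ : QQ (Pbig z Y) B = QQ (Pbig z B) B := by
    ext T
    rw [mem_QQ, mem_QQ]
    constructor
    · rintro ⟨h1, h2, h3⟩
      refine ⟨h1, fun p hp => ?_, h3⟩
      obtain ⟨h4, _, h6⟩ := mem_Pbig.1 (h2 hp)
      have h7 : p ∣ ∏ p ∈ T, p := dvd_prod_of_mem _ hp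
      have h8 : 0 < ∏ p ∈ T, p := prod_pos fun q hq => (Pbig_prime q (h2 hq)).pos
      exact mem_Pbig.2 ⟨h4, (Nat.le_of_dvd h8 h7).trans h3, h6⟩
    · rintro ⟨h1, h2, h3⟩
      refine ⟨h1, fun p hp => ?_, h3⟩
      obtain ⟨h4, h5, h6⟩ := mem_Pbig.1 (h2 hp)
      exact mem_Pbig.2 ⟨h4, h5.trans hBY, h6⟩
  exact
    { prime := Pbig_prime
      hB := hB1
      hY := hB1.trans hBY
      hc := hb.hc
      hD := hb.hD
      ge := fun p hp => by exact_mod_cast (mem_Pbig.1 hp).1.le
      clog := hb.clog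
      sum := by rw [hQ]; exact hb.sum
      level := Pbig_level hY }

end Pool.Agent.H.MP_711652_nt.CH
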