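import Pool.Agent.H.MP_711652_nt.CH.ExpDefs
import Pool.Agent.H.MP_711652_nt.G2.NumS1

/-! # MP_711652, CH: Selberg's weights for one position -/

set_option autoImplicit false

namespace Pool.Agent.H.MP_711652_nt.CH

open Finset Pool.Agent.H.MP_711652_nt.LG

/-- the normalising sum -/
noncomputable def JJ (P : Finset ℕ) (Y : ℕ) : ℝ :=
  ∑ σ : P → Option Unit, if DD P σ ≤ Y then 1 / ph P σ else 0

/-- the weights -/
noncomputable def bS (P : Finset ℕ) (Y : ℕ) (σ : P → Option Unit) : ℝ :=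
  if DD P σ ≤ Y then 1 / (JJ P Y * ph P σ) else 0

private theorem Selb_ph_pos {P : Finset ℕ} (hP : ∀ p ∈ P, p.Prime) (σ : P → Option Unit) :
    0 < ph P σ := by
  unfold ph
  refine prod_pos fun p _ => ?_
  split_ifs
  · exact one_pos
  · have h : (2 : ℝ) ≤ ((p : ℕ) : ℝ) := by exact_mod_cast (hP p p.2).two_le
    linarith

theorem one_le_JJ {P : Finset ℕ} (hP : ∀ p ∈ P, p.Prime) {Y : ℕ} (hY : 1 ≤ Y) : 1 ≤ JJ P Y := by
  have h1 : DD P (fun _ => (none : Option Unit)) = 1 := by simp [DD]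
  have h2 : ph P (fun _ => (none : Option Unit)) = 1 := by simp [ph]
  have h3 : (if DD P (fun _ => (none : Option Unit)) ≤ Y then
      1 / ph P (fun _ => (none : Option Unit)) else 0) = (1 : ℝ) := by
    rw [h1, if_pos hY, h2, div_one]
  unfold JJ
  refine h3.ge.trans ?_
  refine single_le_sum (f := fun σ : P → Option Unit => if DD P σ ≤ Y then 1 / ph P σ else 0)
    (fun σ _ => ?_) (mem_univ _)
  show 0 ≤ (if DD P σ ≤ Y then 1 / ph P σ else 0)
  split_ifs
  · exact (one_div_pos.2 (Selb_ph_pos hP σ)).le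
  · exact le_rfl

private theorem Selb_DD_update {P : Finset ℕ} (σ : P → Option Unit) (p : P) (i : Unit)
    (h : σ p = none) : DD P (Function.update σ p (some i)) = DD P σ * p := by
  classical
  unfold DD
  rw [← mul_prod_erase univ _ (mem_univ p), ← mul_prod_erase univ
    (fun q : P => if σ q = none then 1 else (q : ℕ)) (mem_univ p)]
  rw [Function.update_self, if_neg (by simp), if_pos h, one_mul, mul_comm]
  congr 1
  refine prod_congr rfl fun q hq => ?_
  rw [Function.update_of_ne (ne_of_mem_erase hq)]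

private theorem Selb_ph_update {P : Finset ℕ} (σ : P → Option Unit) (p : P) (i : Unit)
    (h : σ p = none) : ph P (Function.update σ p (some i)) = ph P σ * (((p : ℕ) : ℝ) - 1) := by
  classical
  unfold ph
  rw [← mul_prod_erase univ _ (mem_univ p), ← mul_prod_erase univ
    (fun q : P => if σ q = none then (1 : ℝ) else ((q : ℕ) : ℝ) - 1) (mem_univ p)]
  rw [Function.update_self, if_neg (by simp), if_pos h, one_mul, mul_comm]
  congr 1
  refine prod_congr rfl fun q hq => ?_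
  rw [Function.update_of_ne (ne_of_mem_erase hq)]

private theorem Selb_nonneg {P : Finset ℕ} (hP : ∀ p ∈ P, p.Prime) {Y : ℕ} (hY : 1 ≤ Y)
    (σ : P → Option Unit) : 0 ≤ bS P Y σ := by
  unfold bS
  split_ifs
  · have h1 := Selb_ph_pos hP σ
    have h2 := one_le_JJ hP hY
    positivity
  · exact le_rfl

theorem bS_coef {P : Finset ℕ} (hP : ∀ p ∈ P, p.Prime) {Y : ℕ} (hY : 1 ≤ Y) :
    Coef P (bS P Y) Y := by
  refine ⟨hP, Selb_nonneg hP hY, fun σ p i h => ?_, fun σ h => ?_⟩
  · have h2 : (2 : ℝ) ≤ ((p : ℕ) : ℝ) := by exact_mod_cast (hP p p.2).two_le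
    have h3 : (0 : ℝ) < ((p : ℕ) : ℝ) - 1 := by linarith
    by_cases h4 : DD P (Function.update σ p (some i)) ≤ Y
    · have h5 : DD P σ ≤ Y := by
        rw [Selb_DD_update σ p i h] at h4
        exact (Nat.le_mul_of_pos_right _ (hP p p.2).pos).trans h4
      unfold bS
      rw [if_pos h4, if_pos h5, Selb_ph_update σ p i h, ← mul_assoc, div_div]
    · have h6 : bS P Y (Function.update σ p (some i)) = 0 := if_neg h4
      rw [h6]
      exact div_nonneg (Selb_nonneg hP hY σ) h3.le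
  · by_contra hc
    exact h (if_neg hc)

theorem bS_tot {P : Finset ℕ} (hP : ∀ p ∈ P, p.Prime) {Y : ℕ} (hY : 1 ≤ Y) : tot P (bS P Y) = 1 := by
  have h0 : 0 < JJ P Y := lt_of_lt_of_le one_pos (one_le_JJ hP hY)
  have h1 : tot P (bS P Y) = 1 / JJ P Y * JJ P Y := by
    unfold tot
    rw [JJ, mul_sum]
    refine sum_congr rfl fun σ _ => ?_
    unfold bS
    split_ifs
    · rw [one_div_mul_one_div]
      rfl
    · rw [mul_zero]
  rw [h1, one_div_mul_cancel h0.ne']

theorem bS_mass {P : Finset ℕ} (hP : ∀ p ∈ P, p.Prime) {Y : ℕ} (hY : 1 ≤ Y) :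
    mass P (bS P Y) = 1 / JJ P Y := by
  have h0 : 0 < JJ P Y := lt_of_lt_of_le one_pos (one_le_JJ hP hY)
  have h1 : mass P (bS P Y) = 1 / JJ P Y * tot P (bS P Y) := by
    unfold mass tot
    rw [mul_sum]
    refine sum_congr rfl fun σ _ => ?_
    unfold bS
    have h2 := Selb_ph_pos hP σ
    split_ifs
    · field_simp
    · ring
  rw [h1, bS_tot hP hY, mul_one]

/-- If no prime hits the position, the value is 1. -/
theorem bS_one {P : Finset ℕ} (hP : ∀ p ∈ P, p.Prime) {Y : ℕ} (hY : 1 ≤ Y)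
    (A : ℕ → Unit → ℕ → Prop) (m : ℕ) (hm : ∀ p ∈ P, ¬ A p () m) :
    ∑ σ : P → Option Unit, bS P Y σ * Phi P A σ m = 1 := by
  rw [← bS_tot hP hY]
  unfold tot
  refine sum_congr rfl fun σ _ => ?_
  have h1 : Phi P A σ m = 1 := by
    unfold Phi
    refine prod_eq_one fun p _ => ?_
    rcases h : σ p with _ | i
    · rfl
    · exact if_neg (hm p p.2)
  rw [h1, mul_one]

private theorem Selb_mem {P : Finset ℕ} (σ : P → Option Unit) (p : P) :
    (p : ℕ) ∈ abs_supp P σ ↔ σ p ≠ none := by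
  unfold abs_supp
  rw [mem_map]
  constructor
  · rintro ⟨q, hq, hqp⟩
    have h1 : q = p := Subtype.ext hqp
    rw [← h1]
    exact (mem_filter.1 hq).2
  · intro h
    exact ⟨p, mem_filter.2 ⟨mem_univ _, h⟩, rfl⟩

private theorem Selb_AA (z Y : ℕ) : JJ (G2.Pbig z Y) Y = _root_.LG.AA z Y := by
  classical
  unfold JJ _root_.LG.AA
  rw [sum_filter]
  have hprs : _root_.LG.prs z Y = G2.Pbig z Y := rfl
  rw [hprs]
  refine sum_nbij' (fun σ => abs_supp (G2.Pbig z Y) σ)
    (fun S p => if (p : ℕ) ∈ S then some () else none) ?_ ?_ ?_ ?_ ?_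
  · intro σ _
    exact mem_powerset.2 (abs_supp_sub _ σ)
  · intro S _
    exact mem_univ _
  · intro σ _
    funext p
    by_cases h : σ p = none
    · have h1 : (p : ℕ) ∉ abs_supp (G2.Pbig z Y) σ := fun h2 => (Selb_mem σ p).1 h2 h
      simp only [if_neg h1, h]
    · simp only [if_pos ((Selb_mem σ p).2 h)]
      rcases h1 : σ p with _ | i
      · exact absurd h1 h
      · rfl
  · intro S hS
    rw [mem_powerset] at hS
    ext p
    by_cases hp : p ∈ G2.Pbig z Y
    · have h1 := Selb_mem (fun p : G2.Pbig z Y => if (p : ℕ) ∈ S then some () else none) ⟨p, hp⟩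
      rw [h1]
      by_cases h2 : p ∈ S
      · simp [h2]
      · simp [h2]
    · exact ⟨fun h => absurd (abs_supp_sub _ _ h) hp, fun h => absurd (hS h) hp⟩
  · intro σ _
    have h1 : _root_.LG.pr (abs_supp (G2.Pbig z Y) σ) = ((DD (G2.Pbig z Y) σ : ℕ) : ℝ) := by
      rw [mlc_pr, abs_DD_supp]
    have h2 : _root_.LG.ph (abs_supp (G2.Pbig z Y) σ) = ph (G2.Pbig z Y) σ :=
      abs_prod_supp (G2.Pbig z Y) σ fun p => (p : ℝ) - 1
    rw [h1, h2]
    simp only [Nat.cast_le]

/-- PROOF. The sum over `σ : P → Option Unit` is the sum over the subsets of `P`, `_root_.LG.AA z Y`; `AA_ge`, `VV_ge`. -/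
theorem JJ_ge {z Y : ℕ} (hz : 2 ≤ z) :
    Real.exp (-21) / 2 * (Real.log ((Y : ℝ) + 1) / Real.log z) ≤ JJ (G2.Pbig z Y) Y := by
  rw [Selb_AA]
  refine le_trans ?_ (_root_.LG.AA_ge z Y)
  have h1 := _root_.LG.VV_ge hz
  have h2 : 0 ≤ Real.log ((Y : ℝ) + 1) := Real.log_nonneg (by
    have := Nat.cast_nonneg (α := ℝ) Y
    linarith)
  calc Real.exp (-21) / 2 * (Real.log ((Y : ℝ) + 1) / Real.log z)
      = Real.exp (-21) / Real.log z * Real.log ((Y : ℝ) + 1) / 2 := by ring
    _ ≤ _root_.LG.VV z * Real.log ((Y : ℝ) + 1) / 2 := by gcongr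

end Pool.Agent.H.MP_711652_nt.CH
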