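import Pool.Agent.H.MP_711652_nt.CH.Up2
import Pool.Agent.H.MP_711652_nt.CH.Selb
import Pool.Agent.H.MP_711652_nt.CH.CfSub

/-!
# MP_711652, CH: the objects for the primes up to `2X`

`W` is the primorial of `log X / 100`, `n = nn X ν m` runs over a progression in `(X, 2X)`, `T` is a set of positions.
-/

set_option autoImplicit false

namespace Pool.Agent.H.MP_711652_nt.CH

open Finset Pool.Agent.H.MP_711652_nt.LG Pool.Agent.H.MP_711652_nt.G2

/-- the product of the primes up to `log X / 100` -/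
noncomputable def WW (X : ℕ) : ℕ := primorial ⌊Real.log X / 100⌋₊

/-- all primes of the weights are larger than `(log X)^20` -/
noncomputable def zz (X : ℕ) : ℕ := ⌊Real.log X ^ 20⌋₊

/-- the level `X^(1/100)` -/
noncomputable def YY (X : ℕ) : ℕ := ⌊(X : ℝ) ^ (1 / 100 : ℝ)⌋₊

/-- the cut `exp (log X / (400 log log X))` of the weights -/
noncomputable def BB (X : ℕ) : ℕ := ⌊Real.exp (Real.log X / (400 * Real.log (Real.log X)))⌋₊

/-- the number of points -/
noncomputable def NN (X : ℕ) : ℕ := X / WW X - 3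

/-- the point `n` -/
noncomputable def nn (X ν m : ℕ) : ℕ := WW X * (X / WW X + 1 + m) + ν

/-- the primes of the weights -/
noncomputable def PP (X : ℕ) : Finset ℕ := Pbig (zz X) (YY X)

/-- the constant of the weights -/
noncomputable def cc (X : ℕ) : ℝ := 1 / S1 (Pbig (zz X) (BB X)) (BB X)

/-- the bound for the number of primes of an assignment -/
noncomputable def kk (X : ℕ) : ℕ := ⌊Real.log X⌋₊

/-- `p` hits the position `t` -/
def hit (X ν : ℕ) (T : Finset ℕ) (p : ℕ) (t : T) (m : ℕ) : Prop := p ∣ nn X ν m + (t : ℕ)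

/-- the coefficients of `Ψ` -/
noncomputable def vv (X : ℕ) (T : Finset ℕ) (σ : PP X → Option T) : ℝ :=
  cf (PP X) (LG.chi (fun _ : T => gw (cc X)) (BB X)) (YY X) σ

/-- `Ψ` -/
noncomputable def Ps (X ν : ℕ) (T : Finset ℕ) (m : ℕ) : ℝ :=
  ∑ σ : PP X → Option T, vv X T σ * Phi (PP X) (hit X ν T) σ m

/-- the mass of `Ψ` -/
noncomputable def MM (X : ℕ) (T : Finset ℕ) : ℝ := mass (PP X) (fun σ => |vv X T σ|)

/-- the normalising sum of Selberg's weights -/
noncomputable def JX (X : ℕ) : ℝ := JJ (PP X) (YY X)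

/-- the exponent for Rankin's trick -/
noncomputable def ss (X : ℕ) : ℝ := 1 / Real.log (BB X)

/-- indicator of the primes -/
noncomputable def ip (x : ℕ) : ℝ := if x.Prime then 1 else 0

/-- What is used about the numbers of the construction; `R` bounds the number of positions, `Cr` is the constant of `rbv_rough`. -/
structure XF (Cr : ℝ) (X R : ℕ) : Prop where
  X3 : 10 ≤ X
  L1 : 1 ≤ Real.log X
  LL1 : 1 ≤ Real.log (Real.log X)
  N0 : 1 ≤ NN X
  zW : zz X ≤ WW X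
  zD : Real.log X / 100 < zz X
  YX : YY X ≤ X
  z100 : 100 ≤ zz X
  big : Big (PP X) (BB X) (YY X) (kk X) (cc X) (zz X)
  num : Num1 (PP X) (YY X ^ 3) (kk X) (R + 2) (zz X) (1 / 1000)
  rbv : (WW X * (YY X ^ 2) ^ 2) ^ 8 ≤ X
  lam : (20 * (R : ℝ)) ^ 4 ≤ zz X
  logB : 0 < Real.log (BB X)
  err1 : R * (((BB X : ℝ) / YY X) ^ ss X * Real.exp (R * (2 * ss X * cc X)) +
    (kk X * (2 / ((zz X : ℝ) - 1))) ^ 2 + 4 * kk X * R / zz X) ≤ 1 / (2 * Real.log X)
  err2 : 2000 * Real.log X * R * (2 ^ R * (YY X : ℝ) ^ 2) ^ 2 ≤ NN X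
  err2' : 2000 * (2 ^ R * (YY X : ℝ) ^ 2) ^ 2 ≤ NN X
  err3 : 2 * (4 * 2 ^ R * (YY X : ℝ) ^ 6) ^ 2 * (YY X : ℝ) ^ 2 ≤ NN X
  err4 : (1 + 1 / 1000) * Cr * (1 + Real.log X) ^ 5 * (zz X : ℝ) ^ (-(3 / 4 : ℝ)) ≤
    1 / Real.log X ^ 2

end Pool.Agent.H.MP_711652_nt.CH
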