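import Pool.Agent.H.MP_711652_nt.CH.LsDefs
import Pool.Agent.H.MP_711652_nt.G2.Defs

/-!
# MP_711652, chains (CH): definitions for the weighted prime sums
-/

set_option autoImplicit false

namespace Pool.Agent.H.MP_711652_nt.CH

open Finset Pool.Agent.H.MP_711652_nt.LG

/-- `f p` is a function modulo `p` for every `p ∈ P`. -/
structure Loc (P : Finset ℕ) (f : ℕ → ℕ → ℝ) : Prop where
  prime : ∀ p ∈ P, p.Prime
  per : ∀ p ∈ P, ∀ x, f p (x + p) = f p x

/-- The mean value of `f p` over the residues prime to `p`. -/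
noncomputable def mu1 (f : ℕ → ℕ → ℝ) (p : ℕ) : ℝ := (∑ x ∈ Ico 1 p, f p x) / ((p : ℝ) - 1)

/-- The mean value of `|f p - mu1 f p|` over the residues prime to `p`. -/
noncomputable def la1 (f : ℕ → ℕ → ℝ) (p : ℕ) : ℝ :=
  (∑ x ∈ Ico 1 p, |f p x - mu1 f p|) / ((p : ℝ) - 1)

variable {ι : Type*}

/-- The local factor at `x`: position `i` is hit by `p` iff `p ∣ x + κ i`. -/
noncomputable def Ez (κ : ι → ℤ) (p : ℕ) (t : Option ι) (x : ℕ) : ℝ :=
  match t with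
  | none => 1
  | some i => if (p : ℤ) ∣ (x : ℤ) + κ i then 1 - (p : ℝ) else 1

/-- `∏_p Ez`. -/
noncomputable def PhiZ (P : Finset ℕ) (κ : ι → ℤ) (σ : P → Option ι) (x : ℕ) : ℝ :=
  ∏ p : P, Ez κ p (σ p) x

/-- The offsets: different classes, none of them the class of `0`. -/
structure Offs (P : Finset ℕ) (κ : ι → ℤ) : Prop where
  prime : ∀ p ∈ P, p.Prime
  ne : ∀ p ∈ P, ∀ i, ¬ (p : ℤ) ∣ κ i
  disj : ∀ p ∈ P, ∀ i j, i ≠ j → ¬ (p : ℤ) ∣ κ i - κ j

/-- The mean value over the units of `Ez s * Ez t`. -/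
noncomputable def kz [DecidableEq ι] (p : ℕ) (s t : Option ι) : ℝ :=
  if s = t then (if s = none then 1 else (p : ℝ) - 1 / ((p : ℝ) - 1))
  else if s = none ∨ t = none then -(1 / ((p : ℝ) - 1)) else -(((p : ℝ) + 1) / ((p : ℝ) - 1))

/-- A bound for the mean deviation of `Ez s * Ez t`. -/
noncomputable def lz [DecidableEq ι] (p : ℕ) (s t : Option ι) : ℝ :=
  if s = t then (if s = none then 0 else 2 * (p : ℝ))
  else if s = none ∨ t = none then 4 else 6

/-- `φ` of one prime. -/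
noncomputable def phl (p : ℕ) (s : Option ι) : ℝ := if s.isNone then 1 else (p : ℝ) - 1

/-- Coefficients: nonnegative, a further prime `p` costs a factor `p - 1`, level `Y`. -/
structure Coef [DecidableEq ι] (P : Finset ℕ) (a : (P → Option ι) → ℝ) (Y : ℕ) : Prop where
  prime : ∀ p ∈ P, p.Prime
  nonneg : ∀ σ, 0 ≤ a σ
  sub : ∀ (σ : P → Option ι) (p : P) (i : ι), σ p = none →
    a (Function.update σ p (some i)) ≤ a σ / (((p : ℕ) : ℝ) - 1)
  level : ∀ σ, a σ ≠ 0 → DD P σ ≤ Y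

/-- `∑ a^2 φ` -/
noncomputable def mass [Fintype ι] [DecidableEq ι] (P : Finset ℕ) (a : (P → Option ι) → ℝ) : ℝ :=
  ∑ σ : P → Option ι, a σ ^ 2 * ph P σ

/-- `∑ a` -/
noncomputable def tot [Fintype ι] [DecidableEq ι] (P : Finset ℕ) (a : (P → Option ι) → ℝ) : ℝ :=
  ∑ σ : P → Option ι, a σ

/-- the first component of an assignment to `ι₁ ⊕ ι₂` -/
def lft {ι₁ ι₂ : Type*} {P : Finset ℕ} (ρ : P → Option (ι₁ ⊕ ι₂)) : P → Option ι₁ :=
  fun p => (ρ p).bind Sum.getLeft?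

/-- the second component of an assignment to `ι₁ ⊕ ι₂` -/
def rgt {ι₁ ι₂ : Type*} {P : Finset ℕ} (ρ : P → Option (ι₁ ⊕ ι₂)) : P → Option ι₂ :=
  fun p => (ρ p).bind Sum.getRight?

/-- the cost of shared primes -/
noncomputable def gam {ι₁ ι₂ : Type*} (R₁ R₂ : ℝ) (p : ℕ) (t : Option (ι₁ ⊕ ι₂)) : ℝ :=
  match t with
  | none => 1 + R₁ * R₂ / ((p : ℝ) - 1) ^ 2
  | some (Sum.inl _) => 1 + R₂ / ((p : ℝ) - 1)
  | some (Sum.inr _) => 1 + R₁ / ((p : ℝ) - 1)

/-- `log x` at the primes, `0` elsewhere -/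
noncomputable def thn (x : ℕ) : ℝ := if x.Prime then Real.log x else 0

end Pool.Agent.H.MP_711652_nt.CH
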