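import Pool.Agent.H.MP_711652_nt.CH.Rbv
import Pool.Agent.H.MP_711652_nt.CH.ExpDefs

/-! # MP_711652, CH: the sum over the rough conductors -/

set_option autoImplicit false

namespace Pool.Agent.H.MP_711652_nt.CH

open Finset

/-- The primes of `(X₁, X₂]` in the class `b` modulo `W`. -/
def clp (X₁ X₂ W b : ℕ) : Finset ℕ := ((Ioc X₁ X₂).filter (fun x => x ≡ b [MOD W])).filter Nat.Prime

/-- PROOF. `Zs (clp X₁ X₂ W b) ≤ Zs` for `X₂` plus `Zs` for `X₁`, and `rbv` (`X₁ ≥ X`). -/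
theorem rbv_Ioc : ∃ C : ℝ, 0 < C ∧ ∀ (X X₁ X₂ W b Q : ℕ) (R : Finset ℕ), 3 ≤ X → X ≤ X₁ → X₁ ≤ X₂ →
    X₂ ≤ 3 * X → 0 < W → Nat.Coprime b W →
    1 ≤ Q → (W * Q ^ 2) ^ 8 ≤ X → (∀ r ∈ R, 1 < r ∧ r ≤ Q ∧ Nat.Coprime W r) →
    ∑ r ∈ R, Zs (clp X₁ X₂ W b) thn r ≤ C * ((X : ℝ) / W) * (1 + Real.log X) ^ 5 := by
  obtain ⟨C, hC, h⟩ := rbv
  refine ⟨192 * C, by positivity, fun X X₁ X₂ W b Q R hX h1 h12 h2 hW hb hQ hXW hR => ?_⟩
  have hX0 : (0 : ℝ) < X := by positivity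
  have hX3 : (3 : ℝ) ≤ X := by exact_mod_cast hX
  have hW0 : (0 : ℝ) < W := by exact_mod_cast hW
  have hL0 : 0 ≤ Real.log X := Real.log_nonneg (by linarith)
  have key : ∀ Y : ℕ, X ≤ Y → Y ≤ 3 * X →
      ∑ r ∈ R, Zs ((cl Y W b).filter Nat.Prime) (fun x => Real.log x) r ≤
        96 * C * ((X : ℝ) / W) * (1 + Real.log X) ^ 5 := by
    intro Y hY1 hY2
    have hYX : (X : ℝ) ≤ Y := by exact_mod_cast hY1
    have hY3 : (Y : ℝ) ≤ 3 * X := by exact_mod_cast hY2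
    have hlY : Real.log Y ≤ 2 * Real.log X := by
      calc Real.log Y ≤ Real.log (3 * X) := Real.log_le_log (by linarith) hY3
        _ = Real.log 3 + Real.log X := Real.log_mul (by norm_num) hX0.ne'
        _ ≤ 2 * Real.log X := by
          have := Real.log_le_log (by norm_num) hX3
          linarith
    have hlY0 : 0 ≤ Real.log Y := Real.log_nonneg (by linarith)
    refine (h Y W b Q R (hX.trans hY1) hW hb hQ (hXW.trans hY1) hR).trans ?_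
    have e1 : (Y : ℝ) / W ≤ 3 * ((X : ℝ) / W) := by
      rw [← mul_div_assoc]
      exact div_le_div_of_nonneg_right hY3 hW0.le
    have e2 : (1 + Real.log Y) ^ 5 ≤ 32 * (1 + Real.log X) ^ 5 := by
      calc (1 + Real.log Y) ^ 5 ≤ (2 * (1 + Real.log X)) ^ 5 :=
            pow_le_pow_left₀ (by linarith) (by linarith) 5
        _ = 32 * (1 + Real.log X) ^ 5 := by ring
    calc C * ((Y : ℝ) / W) * (1 + Real.log Y) ^ 5
        ≤ C * (3 * ((X : ℝ) / W)) * (32 * (1 + Real.log X) ^ 5) := by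
          apply mul_le_mul _ e2 (by positivity) (by positivity)
          exact mul_le_mul_of_nonneg_left e1 hC.le
      _ = 96 * C * ((X : ℝ) / W) * (1 + Real.log X) ^ 5 := by ring
  have hZ : ∀ r ∈ R, Zs (clp X₁ X₂ W b) thn r ≤
      Zs ((cl X₂ W b).filter Nat.Prime) (fun x => Real.log x) r +
      Zs ((cl X₁ W b).filter Nat.Prime) (fun x => Real.log x) r := by
    intro r hr
    unfold Zs
    rw [← sum_add_distrib]
    refine sum_le_sum fun χ hχ => ?_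
    have hsub : (cl X₁ W b).filter Nat.Prime ⊆ (cl X₂ W b).filter Nat.Prime := by
      intro x hx
      simp only [cl, mem_filter, mem_Icc, mem_Ioc, mem_range] at hx ⊢
      refine ⟨⟨?_, hx.1.2⟩, hx.2⟩
      omega
    have hsd : clp X₁ X₂ W b = (cl X₂ W b).filter Nat.Prime \ (cl X₁ W b).filter Nat.Prime := by
      ext x
      simp only [clp, cl, mem_filter, mem_Icc, mem_Ioc, mem_range, mem_sdiff]
      constructor
      · rintro ⟨⟨⟨a1, a2⟩, a3⟩, a4⟩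
        have := a4.pos
        refine ⟨⟨⟨by omega, a3⟩, a4⟩, fun hh => ?_⟩
        obtain ⟨⟨hh1, _⟩, _⟩ := hh
        omega
      · rintro ⟨⟨⟨a1, a3⟩, a4⟩, a5⟩
        have := a4.pos
        refine ⟨⟨⟨?_, by omega⟩, a3⟩, a4⟩
        by_contra hcon
        exact a5 ⟨⟨by omega, a3⟩, a4⟩
    have hlog : ∑ x ∈ clp X₁ X₂ W b, (thn x : ℂ) * χ (x : ZMod r) =
        ∑ x ∈ clp X₁ X₂ W b, ((Real.log x : ℝ) : ℂ) * χ (x : ZMod r) := by
      refine sum_congr rfl fun x hx => ?_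
      have hp : x.Prime := by
        unfold clp at hx
        exact (mem_filter.1 hx).2
      rw [thn, if_pos hp]
    rw [hlog, hsd, sum_sdiff_eq_sub hsub]
    exact norm_sub_le _ _
  refine (sum_le_sum hZ).trans ?_
  rw [sum_add_distrib]
  have a1 := key X₂ (h1.trans h12) h2
  have a2 := key X₁ h1 (h12.trans h2)
  calc _ ≤ 96 * C * ((X : ℝ) / W) * (1 + Real.log X) ^ 5 +
        96 * C * ((X : ℝ) / W) * (1 + Real.log X) ^ 5 := add_le_add a1 a2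
    _ = _ := by ring

private theorem RbvUse_Zs_nonneg (S : Finset ℕ) (θ : ℕ → ℝ) (r : ℕ) : 0 ≤ Zs S θ r :=
  sum_nonneg fun _ _ => norm_nonneg _

private theorem RbvUse_inj {T T' : Finset ℕ} (hT : ∀ p ∈ T, p.Prime) (hT' : ∀ p ∈ T', p.Prime)
    (h : ∏ p ∈ T, p = ∏ p ∈ T', p) : T = T' := by
  have h1 : (∏ p ∈ T, p).primeFactors = T := Nat.primeFactors_prod hT
  have h2 : (∏ p ∈ T', p).primeFactors = T' := Nat.primeFactors_prod hT'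
  rw [← h1, ← h2, h]

/-- PROOF. `T ↦ r = ∏ T` is injective on the nonempty subsets of `P`; `w(T) = ∏_T λ / p ≤ r^(-3/4)` as `λ ≤ p^(1/4)`.  Split into `2^j ≤ r < 2^(j+1)`, `2^(j+1) > D`
(all `r ≥ D`); `rbv_Ioc` for each `j` with the same `Q`: the sum is at most `C (X/W) (1 + log X)^5 ∑_j 2^(-3j/4) ≤ 5 C (X/W) (1 + log X)^5 D^(-3/4)`. -/
theorem rbv_rough : ∃ C : ℝ, 0 < C ∧ ∀ (X X₁ X₂ W b Q : ℕ) (P : Finset ℕ) (D lam : ℝ), 3 ≤ X →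
    X ≤ X₁ → X₁ ≤ X₂ → X₂ ≤ 3 * X → 0 < W → Nat.Coprime b W →
    1 ≤ Q → (W * Q ^ 2) ^ 8 ≤ X → 2 ≤ D → (∀ p ∈ P, p.Prime ∧ D ≤ (p : ℝ) ∧ ¬ p ∣ W) →
    0 ≤ lam → lam ^ 4 ≤ D →
    ∑ T ∈ (P.powerset.erase ∅).filter (fun T => ∏ p ∈ T, p ≤ Q),
        (∏ p ∈ T, lam / p) * Zs (clp X₁ X₂ W b) thn (∏ p ∈ T, p) ≤
      C * ((X : ℝ) / W) * (1 + Real.log X) ^ 5 * D ^ (-(3 / 4 : ℝ)) := by
  obtain ⟨C, hC, h⟩ := rbv_Ioc
  obtain ⟨q, hq⟩ : ∃ q : ℝ, q = (2 : ℝ) ^ (-(3 / 4 : ℝ)) := ⟨_, rfl⟩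
  have hq0 : 0 < q := by rw [hq]; positivity
  have hq1 : q < 1 := by
    rw [hq]
    exact Real.rpow_lt_one_of_one_lt_of_neg (by norm_num) (by norm_num)
  have hqn : ∀ j : ℕ, q ^ j = ((2 : ℝ) ^ j) ^ (-(3 / 4 : ℝ)) := by
    intro j
    rw [hq, ← Real.rpow_natCast, ← Real.rpow_mul (by norm_num), ← Real.rpow_natCast,
      ← Real.rpow_mul (by norm_num), mul_comm]
  refine ⟨C / (q * (1 - q)), div_pos hC (mul_pos hq0 (by linarith)),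
    fun X X₁ X₂ W b Q P D lam hX h1 h12 h2 hW hb hQ hXW hD hP hl0 hl => ?_⟩
  have hX0 : (0 : ℝ) < X := by positivity
  have hX3 : (3 : ℝ) ≤ X := by exact_mod_cast hX
  have hW0 : (0 : ℝ) < W := by exact_mod_cast hW
  have hL0 : 0 ≤ Real.log X := Real.log_nonneg (by linarith)
  have hD0 : 0 < D := by linarith
  obtain ⟨M, hM⟩ : ∃ M : ℝ, M = C * ((X : ℝ) / W) * (1 + Real.log X) ^ 5 := ⟨_, rfl⟩
  have hM0 : 0 ≤ M := by rw [hM]; positivity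
  obtain ⟨I, hI⟩ : ∃ I, I = (P.powerset.erase ∅).filter (fun T => ∏ p ∈ T, p ≤ Q) := ⟨_, rfl⟩
  have hIm : ∀ T ∈ I, T ≠ ∅ ∧ T ⊆ P ∧ ∏ p ∈ T, p ≤ Q := by
    intro T hT
    rw [hI, mem_filter, mem_erase, mem_powerset] at hT
    exact ⟨hT.1.1, hT.1.2, hT.2⟩
  obtain ⟨Z, hZ⟩ : ∃ Z : ℕ → ℝ, Z = Zs (clp X₁ X₂ W b) thn := ⟨_, rfl⟩
  have hZ0 : ∀ r, 0 ≤ Z r := by
    intro r
    rw [hZ]
    exact RbvUse_Zs_nonneg _ _ _
  -- the weights
  have hw : ∀ T ∈ I, ∏ p ∈ T, lam / p ≤ ((∏ p ∈ T, p : ℕ) : ℝ) ^ (-(3 / 4 : ℝ)) := by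
    intro T hT
    push_cast
    rw [← Real.finset_prod_rpow T (fun p : ℕ => (p : ℝ)) (fun p _ => Nat.cast_nonneg p)]
    refine prod_le_prod (fun p _ => by positivity) fun p hp => ?_
    obtain ⟨hpp, hDp, _⟩ := hP p ((hIm T hT).2.1 hp)
    have hp0 : (0 : ℝ) < p := by linarith
    have h3 : lam ≤ (p : ℝ) ^ (1 / 4 : ℝ) := by
      have h4 : lam = (lam ^ 4) ^ (1 / 4 : ℝ) := by
        rw [← Real.rpow_natCast, ← Real.rpow_mul hl0]
        norm_num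
      rw [h4]
      exact Real.rpow_le_rpow (by positivity) (hl.trans hDp) (by norm_num)
    calc lam / p ≤ (p : ℝ) ^ (1 / 4 : ℝ) / p := div_le_div_of_nonneg_right h3 hp0.le
      _ = (p : ℝ) ^ (-(3 / 4 : ℝ)) := by
        rw [div_eq_mul_inv, ← Real.rpow_neg_one, ← Real.rpow_add hp0]
        norm_num
  -- the values
  obtain ⟨R, hR⟩ : ∃ R : Finset ℕ, R = I.image (fun T => ∏ p ∈ T, p) := ⟨_, rfl⟩
  have hRm : ∀ r ∈ R, 1 < r ∧ r ≤ Q ∧ Nat.Coprime W r ∧ D ≤ (r : ℝ) := by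
    intro r hr
    rw [hR, mem_image] at hr
    obtain ⟨T, hT, rfl⟩ := hr
    obtain ⟨hT0, hTP, hTQ⟩ := hIm T hT
    obtain ⟨p, hp⟩ := nonempty_iff_ne_empty.2 hT0
    have hpos : 0 < ∏ p ∈ T, p := prod_pos fun p hp => (hP p (hTP hp)).1.pos
    have hple : p ≤ ∏ p ∈ T, p := Nat.le_of_dvd hpos (dvd_prod_of_mem _ hp)
    refine ⟨lt_of_lt_of_le (hP p (hTP hp)).1.one_lt hple, hTQ, ?_, ?_⟩
    · refine Nat.Coprime.prod_right fun p hp => ?_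
      exact ((Nat.Prime.coprime_iff_not_dvd (hP p (hTP hp)).1).2 (hP p (hTP hp)).2.2).symm
    · exact (hP p (hTP hp)).2.1.trans (by exact_mod_cast hple)
  have hsum1 : ∑ T ∈ I, (∏ p ∈ T, lam / p) * Z (∏ p ∈ T, p) ≤
      ∑ r ∈ R, (r : ℝ) ^ (-(3 / 4 : ℝ)) * Z r := by
    rw [hR, sum_image (fun T hT T' hT' hTT => RbvUse_inj
      (fun p hp => (hP p ((hIm T hT).2.1 hp)).1) (fun p hp => (hP p ((hIm T' hT').2.1 hp)).1) hTT)]
    exact sum_le_sum fun T hT => mul_le_mul_of_nonneg_right (hw T hT) (hZ0 _)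
  -- dyadic decomposition
  obtain ⟨j0, hj0⟩ : ∃ j0, j0 = Nat.log 2 ⌈D⌉₊ := ⟨_, rfl⟩
  have hDj : D ≤ (2 : ℝ) ^ (j0 + 1) := by
    have h3 : ⌈D⌉₊ < 2 ^ (j0 + 1) := by
      rw [hj0]
      exact Nat.lt_pow_succ_log_self (by norm_num) _
    have h4 : ((⌈D⌉₊ : ℕ) : ℝ) ≤ (2 : ℝ) ^ (j0 + 1) := by exact_mod_cast h3.le
    exact (Nat.le_ceil D).trans h4
  have hmaps : ∀ r ∈ R, Nat.log 2 r ∈ Ico j0 (Nat.log 2 Q + 1) := by
    intro r hr
    obtain ⟨_, h4, _, h6⟩ := hRm r hr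
    rw [mem_Ico]
    refine ⟨?_, Nat.lt_succ_of_le (Nat.log_mono_right h4)⟩
    rw [hj0]
    exact Nat.log_mono_right (Nat.ceil_le.2 h6)
  have hsum2 : ∑ r ∈ R, (r : ℝ) ^ (-(3 / 4 : ℝ)) * Z r ≤
      ∑ j ∈ Ico j0 (Nat.log 2 Q + 1), q ^ j * M := by
    rw [← sum_fiberwise_of_maps_to hmaps]
    refine sum_le_sum fun j _ => ?_
    have h3 : ∀ r ∈ R.filter (fun r => Nat.log 2 r = j),
        (r : ℝ) ^ (-(3 / 4 : ℝ)) * Z r ≤ q ^ j * Z r := by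
      intro r hr
      rw [mem_filter] at hr
      refine mul_le_mul_of_nonneg_right ?_ (hZ0 r)
      rw [hqn]
      have h4 : 2 ^ j ≤ r := by
        rw [← hr.2]
        exact Nat.pow_log_le_self 2 (by have := (hRm r hr.1).1; omega)
      have h5 : (2 : ℝ) ^ j ≤ r := by exact_mod_cast h4
      exact Real.rpow_le_rpow_of_nonpos (by positivity) h5 (by norm_num)
    refine (sum_le_sum h3).trans ?_
    rw [← mul_sum]
    refine mul_le_mul_of_nonneg_left ?_ (by positivity)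
    rw [hZ, hM]
    exact h X X₁ X₂ W b Q _ hX h1 h12 h2 hW hb hQ hXW fun r hr => by
      obtain ⟨a1, a2, a3, _⟩ := hRm r (mem_filter.1 hr).1
      exact ⟨a1, a2, a3⟩
  have hgeo : ∑ j ∈ Ico j0 (Nat.log 2 Q + 1), q ^ j ≤ q ^ j0 / (1 - q) :=
    geom_sum_Ico_le_of_lt_one hq0.le hq1
  have hqD : q ^ j0 ≤ D ^ (-(3 / 4 : ℝ)) / q := by
    rw [le_div_iff₀ hq0, ← pow_succ, hqn]
    exact Real.rpow_le_rpow_of_nonpos hD0 hDj (by norm_num)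
  rw [← hI, ← hZ]
  refine hsum1.trans (hsum2.trans ?_)
  rw [← sum_mul]
  have h1q : 0 < 1 - q := by linarith
  calc (∑ j ∈ Ico j0 (Nat.log 2 Q + 1), q ^ j) * M
      ≤ (q ^ j0 / (1 - q)) * M := mul_le_mul_of_nonneg_right hgeo hM0
    _ ≤ (D ^ (-(3 / 4 : ℝ)) / q / (1 - q)) * M :=
        mul_le_mul_of_nonneg_right (div_le_div_of_nonneg_right hqD h1q.le) hM0
    _ = C / (q * (1 - q)) * ((X : ℝ) / W) * (1 + Real.log X) ^ 5 * D ^ (-(3 / 4 : ℝ)) := by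
        rw [hM]
        field_simp

end Pool.Agent.H.MP_711652_nt.CH
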