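import Pool.Agent.H.MP_711652_nt.CH.ExpDefs

/-! # MP_711652, CH: the coefficients of the characters of conductor `∏ T` -/

set_option autoImplicit false

namespace Pool.Agent.H.MP_711652_nt.CH

open Finset Pool.Agent.H.MP_711652_nt.LG

variable {ι : Type*} [Fintype ι] [DecidableEq ι]

private theorem coeff_avg {α β : Type*} [Fintype α] [DecidableEq α] [Fintype β]
    [DecidableEq β] (q : α) (f : (α → β) → ℝ) :
    ∑ σ : α → β, ∑ s : β, f (Function.update σ q s) =
      (Fintype.card β : ℝ) * ∑ σ : α → β, f σ := by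
  have h1 : ∑ z : (α → β) × β, f (Function.update z.1 q z.2) = ∑ z : (α → β) × β, f z.1 := by
    refine Fintype.sum_equiv (⟨fun z => (Function.update z.1 q z.2, z.1 q),
      fun z => (Function.update z.1 q z.2, z.1 q), ?_, ?_⟩) _ _ (fun z => rfl)
    · intro z
      simp
    · intro z
      simp
  rw [Fintype.sum_prod_type, Fintype.sum_prod_type] at h1
  rw [h1, mul_sum]
  refine sum_congr rfl fun σ _ => ?_
  simp

private theorem coeff_avg2 {α β : Type*} [Fintype α] [DecidableEq α] [Fintype β]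
    [DecidableEq β] (q : α) (f : (α → β) → (α → β) → ℝ) :
    ∑ σ : α → β, ∑ τ : α → β, ∑ s : β, ∑ t : β,
        f (Function.update σ q s) (Function.update τ q t) =
      (Fintype.card β : ℝ) ^ 2 * ∑ σ : α → β, ∑ τ : α → β, f σ τ := by
  have h1 : ∀ σ : α → β, ∑ τ : α → β, ∑ s : β, ∑ t : β,
      f (Function.update σ q s) (Function.update τ q t) =
      (Fintype.card β : ℝ) * ∑ s : β, ∑ τ : α → β, f (Function.update σ q s) τ := by
    intro σ
    rw [sum_comm, mul_sum]
    exact sum_congr rfl fun s _ => coeff_avg q (fun τ => f (Function.update σ q s) τ)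
  rw [sum_congr rfl fun σ _ => h1 σ, ← mul_sum,
    coeff_avg q (fun σ => ∑ τ : α → β, f σ τ)]
  ring

/-- The inequality for one prime. -/
private theorem coeff_local {q : ℕ} (hq : 6 * Fintype.card ι + 5 ≤ q) (α β : Option ι → ℝ)
    (hα0 : ∀ s, 0 ≤ α s) (hβ0 : ∀ s, 0 ≤ β s) (hα : ∀ i, α (some i) ≤ α none / ((q : ℝ) - 1))
    (hβ : ∀ i, β (some i) ≤ β none / ((q : ℝ) - 1)) :
    ∑ s : Option ι, ∑ t : Option ι, α s * β t * lz q s t ≤
      20 * (Fintype.card ι : ℝ) / q * ∑ s : Option ι, ∑ t : Option ι, α s * β t * |kz q s t| := by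
  obtain ⟨R, hR⟩ : ∃ R : ℝ, R = Fintype.card ι := ⟨_, rfl⟩
  have hR0 : 0 ≤ R := by rw [hR]; positivity
  have hqR : 6 * R + 5 ≤ (q : ℝ) := by
    rw [hR]
    exact_mod_cast hq
  have hq1 : (0 : ℝ) < (q : ℝ) - 1 := by linarith
  have hq0 : (0 : ℝ) < (q : ℝ) := by linarith
  obtain ⟨a, ha⟩ : ∃ a : ℝ, a = α none := ⟨_, rfl⟩
  obtain ⟨b, hb⟩ : ∃ b : ℝ, b = β none := ⟨_, rfl⟩
  have ha0 : 0 ≤ a := by rw [ha]; exact hα0 _
  have hb0 : 0 ≤ b := by rw [hb]; exact hβ0 _
  rw [← ha] at hα
  rw [← hb] at hβ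
  have hA : 0 ≤ a / ((q : ℝ) - 1) := div_nonneg ha0 hq1.le
  have hB : 0 ≤ b / ((q : ℝ) - 1) := div_nonneg hb0 hq1.le
  have hup : ∑ s : Option ι, ∑ t : Option ι, α s * β t * lz q s t ≤
      a * b * R * (11 / ((q : ℝ) - 1)) := by
    have e1 : ∀ t : Option ι, lz q (none : Option ι) t = if t = none then 0 else 4 := by
      intro t
      unfold lz
      rcases t with _ | j
      · simp
      · simp
    have h1 : ∑ t : Option ι, α none * β t * lz q none t ≤ a * (b / ((q : ℝ) - 1)) * 4 * R := by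
      rw [Fintype.sum_option, e1, ← ha]
      have h2 : ∀ j : ι, a * β (some j) * lz q none (some j) ≤ a * (b / ((q : ℝ) - 1)) * 4 := by
        intro j
        rw [e1]
        simp only [reduceCtorEq, if_false]
        have := hβ j
        gcongr
      refine (add_le_add le_rfl (sum_le_sum fun j _ => h2 j)).trans ?_
      rw [sum_const, card_univ, nsmul_eq_mul, ← hR]
      simp only [if_true, mul_zero, zero_add]
      exact le_of_eq (by ring)
    have h3 : ∀ i : ι, ∑ t : Option ι, α (some i) * β t * lz q (some i) t ≤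
        a / ((q : ℝ) - 1) * b * 4 + a / ((q : ℝ) - 1) * (b / ((q : ℝ) - 1)) *
          (2 * (q : ℝ) + 6 * R) := by
      intro i
      rw [Fintype.sum_option]
      refine add_le_add ?_ ?_
      · have e2 : lz q (some i) none = 4 := by
          unfold lz
          simp
        rw [e2, ← hb]
        have := hα i
        gcongr
      · have h4 : ∀ j : ι, α (some i) * β (some j) * lz q (some i) (some j) ≤
            a / ((q : ℝ) - 1) * (b / ((q : ℝ) - 1)) *
              ((if i = j then 2 * (q : ℝ) else 0) + 6) := by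
          intro j
          have h5 : lz q (some i) (some j) ≤ (if i = j then 2 * (q : ℝ) else 0) + 6 := by
            unfold lz
            by_cases hij : i = j
            · subst hij
              simp
            · simp [hij]
          have h6 : 0 ≤ lz q (some i) (some j) := by
            unfold lz
            by_cases hij : i = j
            · subst hij
              simp
            · simp [hij]
          have h7 : α (some i) * β (some j) ≤ a / ((q : ℝ) - 1) * (b / ((q : ℝ) - 1)) :=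
            mul_le_mul (hα i) (hβ j) (hβ0 _) hA
          exact mul_le_mul h7 h5 h6 (mul_nonneg hA hB)
        refine (sum_le_sum fun j _ => h4 j).trans ?_
        rw [← mul_sum, sum_add_distrib, sum_ite_eq, sum_const, card_univ, nsmul_eq_mul, ← hR]
        simp only [mem_univ, if_true]
        exact le_of_eq (by ring)
    rw [Fintype.sum_option]
    refine (add_le_add h1 (sum_le_sum fun i _ => h3 i)).trans ?_
    rw [sum_const, card_univ, nsmul_eq_mul, ← hR]
    have h8 : 2 * (q : ℝ) + 6 * R ≤ 3 * ((q : ℝ) - 1) := by linarith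
    have h9 : a / ((q : ℝ) - 1) * (b / ((q : ℝ) - 1)) * (2 * (q : ℝ) + 6 * R) ≤
        a / ((q : ℝ) - 1) * (b / ((q : ℝ) - 1)) * (3 * ((q : ℝ) - 1)) :=
      mul_le_mul_of_nonneg_left h8 (mul_nonneg hA hB)
    have h10 : a / ((q : ℝ) - 1) * (b / ((q : ℝ) - 1)) * (3 * ((q : ℝ) - 1)) =
        3 * (a * b) / ((q : ℝ) - 1) := by
      field_simp
    rw [h10] at h9
    have h11 := mul_le_mul_of_nonneg_left h9 hR0
    have h12 : a * (b / ((q : ℝ) - 1)) * 4 * R + R * (a / ((q : ℝ) - 1) * b * 4 +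
        a / ((q : ℝ) - 1) * (b / ((q : ℝ) - 1)) * (2 * (q : ℝ) + 6 * R)) =
        8 * (a * b * R) / ((q : ℝ) - 1) +
          R * (a / ((q : ℝ) - 1) * (b / ((q : ℝ) - 1)) * (2 * (q : ℝ) + 6 * R)) := by
      field_simp
      ring
    rw [h12]
    refine (add_le_add le_rfl h11).trans (le_of_eq ?_)
    field_simp
    ring
  have hlo : a * b ≤ ∑ s : Option ι, ∑ t : Option ι, α s * β t * |kz q s t| := by
    have h1 : ∀ s t : Option ι, 0 ≤ α s * β t * |kz q s t| := fun s t =>
      mul_nonneg (mul_nonneg (hα0 s) (hβ0 t)) (abs_nonneg _)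
    have h2 : a * b = α none * β none * |kz q (none : Option ι) none| := by
      unfold kz
      simp [ha, hb]
    rw [h2]
    refine le_trans ?_ (single_le_sum (f := fun s => ∑ t : Option ι, α s * β t * |kz q s t|)
      (fun s _ => sum_nonneg fun t _ => h1 s t) (mem_univ (none : Option ι)))
    exact single_le_sum (f := fun t => α none * β t * |kz q none t|)
      (fun t _ => h1 none t) (mem_univ (none : Option ι))
  rw [← hR]
  refine hup.trans ?_
  have h1 : a * b * R * (11 / ((q : ℝ) - 1)) ≤ 20 * R / q * (a * b) := by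
    have h2 : 11 / ((q : ℝ) - 1) ≤ 20 / q := by
      rw [div_le_div_iff₀ hq1 hq0]
      linarith
    have h3 : 0 ≤ a * b * R := mul_nonneg (mul_nonneg ha0 hb0) hR0
    refine (mul_le_mul_of_nonneg_left h2 h3).trans (le_of_eq ?_)
    ring
  exact h1.trans (mul_le_mul_of_nonneg_left hlo (by positivity))

private theorem coeff_step {P : Finset ℕ} {a : (P → Option ι) → ℝ} {Y : ℕ} (h : Coef P a Y)
    (hR : ∀ p ∈ P, 6 * Fintype.card ι + 5 ≤ p) (T : Finset ℕ) (q : ℕ) (hqP : q ∈ P)
    (hqT : q ∉ T) :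
    ∑ σ : P → Option ι, ∑ τ : P → Option ι, a σ * a τ *
        ∏ p : P, (if (p : ℕ) ∈ insert q T then lz (p : ℕ) (σ p) (τ p)
          else |kz (p : ℕ) (σ p) (τ p)|) ≤
      20 * (Fintype.card ι : ℝ) / q *
        ∑ σ : P → Option ι, ∑ τ : P → Option ι, a σ * a τ *
          ∏ p : P, (if (p : ℕ) ∈ T then lz (p : ℕ) (σ p) (τ p)
            else |kz (p : ℕ) (σ p) (τ p)|) := by
  classical
  obtain ⟨q', hq'⟩ : ∃ q' : P, q' = ⟨q, hqP⟩ := ⟨_, rfl⟩
  have hqq : (q' : ℕ) = q := by rw [hq']
  obtain ⟨rest, hrest⟩ : ∃ rest : (P → Option ι) → (P → Option ι) → ℝ, rest = fun σ τ =>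
      ∏ p ∈ univ.erase q', (if (p : ℕ) ∈ T then lz (p : ℕ) (σ p) (τ p)
        else |kz (p : ℕ) (σ p) (τ p)|) := ⟨_, rfl⟩
  have hlz0 : ∀ (p : ℕ) (s t : Option ι), 0 ≤ lz p s t := by
    intro p s t
    unfold lz
    split_ifs <;> positivity
  have hrest0 : ∀ σ τ, 0 ≤ rest σ τ := by
    intro σ τ
    rw [hrest]
    refine prod_nonneg fun p _ => ?_
    split_ifs
    · exact hlz0 _ _ _
    · exact abs_nonneg _
  have hru : ∀ σ τ s t, rest (Function.update σ q' s) (Function.update τ q' t) = rest σ τ := by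
    intro σ τ s t
    rw [hrest]
    refine prod_congr rfl fun p hp => ?_
    have h1 : p ≠ q' := ne_of_mem_erase hp
    rw [Function.update_of_ne h1, Function.update_of_ne h1]
  have h1 : ∀ σ τ : P → Option ι, ∏ p : P, (if (p : ℕ) ∈ insert q T then lz (p : ℕ) (σ p) (τ p)
      else |kz (p : ℕ) (σ p) (τ p)|) = lz q (σ q') (τ q') * rest σ τ := by
    intro σ τ
    rw [← mul_prod_erase univ _ (mem_univ q'), hrest]
    congr 1
    · rw [hqq, if_pos (mem_insert_self q T)]
    · refine prod_congr rfl fun p hp => ?_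
      have h2 : p ≠ q' := ne_of_mem_erase hp
      have h3 : (p : ℕ) ≠ q := fun e => h2 (Subtype.ext (by rw [hqq]; exact e))
      have h4 : ((p : ℕ) ∈ insert q T) ↔ (p : ℕ) ∈ T := by
        rw [mem_insert]
        exact or_iff_right h3
      simp only [h4]
  have h2 : ∀ σ τ : P → Option ι, ∏ p : P, (if (p : ℕ) ∈ T then lz (p : ℕ) (σ p) (τ p)
      else |kz (p : ℕ) (σ p) (τ p)|) = |kz q (σ q') (τ q')| * rest σ τ := by
    intro σ τ
    rw [← mul_prod_erase univ _ (mem_univ q'), hrest]
    congr 1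
    rw [hqq, if_neg hqT]
  simp only [h1, h2]
  have hcard : (0 : ℝ) < (Fintype.card (Option ι) : ℝ) ^ 2 := by
    have : 0 < Fintype.card (Option ι) := Fintype.card_pos
    positivity
  refine le_of_mul_le_mul_left ?_ hcard
  have hL := coeff_avg2 q' (fun σ τ : P → Option ι => a σ * a τ *
    (lz q (σ q') (τ q') * rest σ τ))
  have hRr := coeff_avg2 q' (fun σ τ : P → Option ι => a σ * a τ *
    (|kz q (σ q') (τ q')| * rest σ τ))
  rw [← hL]
  have hc : ∀ x y z : ℝ, x * (y * z) = y * (x * z) := fun x y z => by ring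
  rw [hc, ← hRr, mul_sum]
  refine sum_le_sum fun σ _ => ?_
  rw [mul_sum]
  refine sum_le_sum fun τ _ => ?_
  simp only [Function.update_self, hru]
  have h3 := coeff_local (ι := ι) (hR q hqP) (fun s => a (Function.update σ q' s))
    (fun s => a (Function.update τ q' s)) (fun s => h.nonneg _) (fun s => h.nonneg _)
    (fun i => by
      have h4 := h.sub (Function.update σ q' none) q' i (Function.update_self ..)
      rwa [Function.update_idem, hqq] at h4)
    (fun i => by
      have h4 := h.sub (Function.update τ q' none) q' i (Function.update_self ..)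
      rwa [Function.update_idem, hqq] at h4)
  have h4 := mul_le_mul_of_nonneg_right h3 (hrest0 σ τ)
  have e1 : ∑ s : Option ι, ∑ t : Option ι, a (Function.update σ q' s) *
      a (Function.update τ q' t) * (lz q s t * rest σ τ) =
      (∑ s : Option ι, ∑ t : Option ι, a (Function.update σ q' s) *
        a (Function.update τ q' t) * lz q s t) * rest σ τ := by
    rw [sum_mul]
    refine sum_congr rfl fun s _ => ?_
    rw [sum_mul]
    refine sum_congr rfl fun t _ => ?_
    ring
  have e2 : ∑ s : Option ι, ∑ t : Option ι, a (Function.update σ q' s) *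
      a (Function.update τ q' t) * (|kz q s t| * rest σ τ) =
      (∑ s : Option ι, ∑ t : Option ι, a (Function.update σ q' s) *
        a (Function.update τ q' t) * |kz q s t|) * rest σ τ := by
    rw [sum_mul]
    refine sum_congr rfl fun s _ => ?_
    rw [sum_mul]
    refine sum_congr rfl fun t _ => ?_
    ring
  rw [e1, e2, ← mul_assoc]
  exact h4

/-- PROOF. Induction on `T` (add one prime `q` to `T`): for fixed values of `σ`, `τ` away from `q` and with `σ₀`, `τ₀` = the assignments with `q` nowhere,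
`∑_{s,t} a(σ₀[q := s]) a(τ₀[q := t]) lz q s t ≤ a σ₀ a τ₀ ∑_{s,t} lz q s t (q-1)^(-[s ≠ none] - [t ≠ none])` by `Coef.sub`, and the sum is
`2 R 4 / (q-1) + R 2 q / (q-1)^2 + R (R-1) 6 / (q-1)^2 ≤ 20 R / q` (as `q ≥ 6 R + 2`, `q ≥ 5`); finally
`a σ₀ a τ₀ (rest) ≤ ∑_{s,t} a(σ₀[q := s]) a(τ₀[q := t]) |kz q s t| (rest)` (the term `s = t = none` has `kz = 1`). -/
theorem coeff {P : Finset ℕ} {a : (P → Option ι) → ℝ} {Y : ℕ} (h : Coef P a Y)
    (hR : ∀ p ∈ P, 6 * Fintype.card ι + 5 ≤ p) (T : Finset ℕ) (hT : T ⊆ P) :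
    ∑ σ : P → Option ι, ∑ τ : P → Option ι, a σ * a τ *
        ∏ p : P, (if (p : ℕ) ∈ T then lz (p : ℕ) (σ p) (τ p) else |kz (p : ℕ) (σ p) (τ p)|) ≤
      (∏ p ∈ T, 20 * (Fintype.card ι : ℝ) / p) *
        ∑ σ : P → Option ι, ∑ τ : P → Option ι, a σ * a τ * ∏ p : P, |kz (p : ℕ) (σ p) (τ p)| := by
  induction T using Finset.induction_on with
  | empty => simp
  | insert q T hqT ih =>
    have h1 := ih ((subset_insert q T).trans hT)
    have hqP : q ∈ P := hT (mem_insert_self q T)
    refine (coeff_step h hR T q hqP hqT).trans ?_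
    rw [prod_insert hqT, mul_assoc]
    exact mul_le_mul_of_nonneg_left h1 (by positivity)

/-- PROOF. If a term is not zero, every `p ∈ T` is somewhere in `σ` or in `τ` (`lz none none = 0`), so `∏ T` divides `DD σ * DD τ ≤ Y^2`. -/
theorem coeff_zero {P : Finset ℕ} {a : (P → Option ι) → ℝ} {Y : ℕ} (h : Coef P a Y)
    (T : Finset ℕ) (hT : T ⊆ P) (hY : Y ^ 2 < ∏ p ∈ T, p) (σ τ : P → Option ι) :
    a σ * a τ *
        ∏ p : P, (if (p : ℕ) ∈ T then lz (p : ℕ) (σ p) (τ p) else |kz (p : ℕ) (σ p) (τ p)|) = 0 := by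
  classical
  by_cases hσ : a σ = 0
  · rw [hσ, zero_mul, zero_mul]
  by_cases hτ : a τ = 0
  · rw [hτ, mul_zero, zero_mul]
  have h1 := h.level σ hσ
  have h2 := h.level τ hτ
  by_cases hex : ∃ p : P, (p : ℕ) ∈ T ∧ σ p = none ∧ τ p = none
  · obtain ⟨p, hp, hp1, hp2⟩ := hex
    rw [prod_eq_zero (mem_univ p) (by rw [if_pos hp, hp1, hp2]; simp [lz]), mul_zero]
  · exfalso
    have h3 : ∏ p ∈ T, p ≤ DD P σ * DD P τ := by
      have h4 : ∏ p ∈ T, p = ∏ p : P, (if (p : ℕ) ∈ T then (p : ℕ) else 1) := by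
        rw [prod_coe_sort P (fun p => if p ∈ T then p else 1), prod_ite_mem,
          inter_eq_right.2 hT]
      rw [h4]
      unfold DD
      rw [← prod_mul_distrib]
      refine prod_le_prod' fun p _ => ?_
      have hp1 : 1 ≤ (p : ℕ) := (h.prime p p.2).one_lt.le
      by_cases hp : (p : ℕ) ∈ T
      · rw [if_pos hp]
        by_cases hs : σ p = none
        · have ht : τ p ≠ none := fun ht => hex ⟨p, hp, hs, ht⟩
          rw [if_pos hs, if_neg ht, one_mul]
        · rw [if_neg hs]
          split_ifs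
          · rw [mul_one]
          · exact Nat.le_mul_of_pos_right _ hp1
      · rw [if_neg hp]
        split_ifs
        · simp
        · simpa using hp1
        · simpa using hp1
        · exact Nat.one_le_iff_ne_zero.2 (by positivity)
    have h5 : DD P σ * DD P τ ≤ Y ^ 2 := by
      rw [sq]
      exact Nat.mul_le_mul h1 h2
    omega

end Pool.Agent.H.MP_711652_nt.CH
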