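import Pool.Agent.H.MP_711652_nt.CH.Schur

/-! # MP_711652, CH: the Gram matrix over the units is almost diagonal -/

set_option autoImplicit false

namespace Pool.Agent.H.MP_711652_nt.CH

open Finset Pool.Agent.H.MP_711652_nt.LG

variable {ι : Type*} [Fintype ι] [DecidableEq ι]

omit [Fintype ι] in
private theorem GramZ_symm (p : ℕ) (s t : Option ι) : kz p s t = kz p t s := by
  by_cases h : s = t
  · rw [h]
  · have h' : ¬ t = s := fun e => h e.symm
    unfold kz
    rw [if_neg h, if_neg h']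
    by_cases h1 : s = none ∨ t = none
    · rw [if_pos h1, if_pos h1.symm]
    · rw [if_neg h1, if_neg fun h2 => h1 h2.symm]

omit [Fintype ι] in
private theorem GramZ_diag {p : ℕ} (h3 : 3 ≤ p) (s : Option ι) :
    (if s = none then (1 : ℝ) else (p : ℝ) - 1) ≤ kz p s s := by
  have hp : (3 : ℝ) ≤ p := by exact_mod_cast h3
  unfold kz
  rw [if_pos rfl]
  by_cases h : s = none
  · rw [if_pos h, if_pos h]
  · rw [if_neg h, if_neg h]
    have h1 : 1 / ((p : ℝ) - 1) ≤ 1 := by
      rw [div_le_one (by linarith)]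
      linarith
    linarith

/-- the local row sum -/
private theorem GramZ_row {p : ℕ} (h3 : 3 ≤ p) (s : Option ι) :
    ∑ t : Option ι, |kz p s t| * (phl p s / phl p t) ≤
      (if s = none then (1 : ℝ) else (p : ℝ) - 1) * (if s = none then
        1 + (Fintype.card ι : ℝ) / ((p : ℝ) - 1) ^ 2
        else 1 + (2 * (Fintype.card ι : ℝ) + 2) / ((p : ℝ) - 1)) := by
  have hp : (3 : ℝ) ≤ p := by exact_mod_cast h3
  have hp1 : (0 : ℝ) < (p : ℝ) - 1 := by linarith
  rw [Fintype.sum_option]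
  cases s with
  | none =>
    have e1 : ∀ i : ι, |kz p none (some i)| * (phl p (none : Option ι) / phl p (some i)) =
        1 / ((p : ℝ) - 1) ^ 2 := by
      intro i
      have e2 : kz p (none : Option ι) (some i) = -(1 / ((p : ℝ) - 1)) := by
        simp [kz]
      have e3 : phl p (none : Option ι) = 1 := by simp [phl]
      have e4 : phl p (some i) = (p : ℝ) - 1 := by simp [phl]
      rw [e2, e3, e4, abs_neg, abs_of_pos (by positivity)]
      field_simp
    have e5 : |kz p (none : Option ι) none| * (phl p (none : Option ι) / phl p (none : Option ι)) =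
        1 := by
      have e2 : kz p (none : Option ι) none = 1 := by
        simp [kz]
      have e3 : phl p (none : Option ι) = 1 := by simp [phl]
      rw [e2, e3]
      simp
    rw [e5, sum_congr rfl fun i _ => e1 i, sum_const, card_univ, nsmul_eq_mul, if_pos rfl,
      if_pos rfl]
    exact le_of_eq (by ring)
  | some i =>
    have e4 : ∀ j : ι, phl p (some j) = (p : ℝ) - 1 := fun j => by simp [phl]
    have e3 : phl p (none : Option ι) = 1 := by simp [phl]
    have e5 : |kz p (some i) none| * (phl p (some i) / phl p (none : Option ι)) = 1 := by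
      have e2 : kz p (some i) none = -(1 / ((p : ℝ) - 1)) := by
        simp [kz]
      rw [e2, e3, e4, abs_neg, abs_of_pos (by positivity)]
      field_simp
    have e6 : ∀ j : ι, |kz p (some i) (some j)| * (phl p (some i) / phl p (some j)) ≤
        2 + if j = i then (p : ℝ) - 2 else 0 := by
      intro j
      rw [e4, e4, div_self hp1.ne', mul_one]
      by_cases h : j = i
      · subst h
        rw [if_pos rfl]
        have e2 : kz p (some j) (some j) = (p : ℝ) - 1 / ((p : ℝ) - 1) := by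
          simp [kz]
        have h1 : 1 / ((p : ℝ) - 1) ≤ 1 := by
          rw [div_le_one (by linarith)]
          linarith
        have h2 : 0 < 1 / ((p : ℝ) - 1) := by positivity
        rw [e2, abs_of_nonneg (by linarith)]
        linarith
      · rw [if_neg h]
        have h' : ¬ i = j := fun e => h e.symm
        have e2 : kz p (some i) (some j) = -(((p : ℝ) + 1) / ((p : ℝ) - 1)) := by
          simp [kz, h']
        rw [e2, abs_neg, abs_of_pos (by positivity), add_zero, div_le_iff₀ hp1]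
        linarith
    have e7 : ∑ j : ι, |kz p (some i) (some j)| * (phl p (some i) / phl p (some j)) ≤
        2 * (Fintype.card ι : ℝ) + ((p : ℝ) - 2) := by
      refine (sum_le_sum fun j _ => e6 j).trans (le_of_eq ?_)
      rw [sum_add_distrib, sum_const, card_univ, nsmul_eq_mul, sum_ite_eq' univ i,
        if_pos (mem_univ i)]
      ring
    rw [e5, if_neg (Option.some_ne_none i), if_neg (Option.some_ne_none i)]
    have e8 : ((p : ℝ) - 1) * (1 + (2 * (Fintype.card ι : ℝ) + 2) / ((p : ℝ) - 1)) =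
        (p : ℝ) - 1 + (2 * (Fintype.card ι : ℝ) + 2) := by
      field_simp
    rw [e8]
    linarith

/-- PROOF. `schur` with `B = |kz|`.  With `R = card ι`: for `s = none` the local factor is `1 + R / (p - 1)^2`; for `s = some i` it is
`1 + (p - 1 / (p - 1)) + (R - 1) (p + 1) / (p - 1) ≤ (p - 1) (1 + (2 R + 2) / (p - 1))` (`p ≥ 3`). -/
theorem gramZ_abs (P : Finset ℕ) (hP : ∀ p ∈ P, p.Prime) (h3 : ∀ p ∈ P, 3 ≤ p)
    (a : (P → Option ι) → ℝ) (ha : ∀ σ, 0 ≤ a σ) (ε : ℝ)
    (hε : ∀ σ, a σ ≠ 0 → (∏ p : P, if σ p = none then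
        1 + (Fintype.card ι : ℝ) / (((p : ℕ) : ℝ) - 1) ^ 2
        else 1 + (2 * (Fintype.card ι : ℝ) + 2) / (((p : ℕ) : ℝ) - 1)) ≤ 1 + ε) :
    ∑ σ : P → Option ι, ∑ τ : P → Option ι, a σ * a τ * ∏ p : P, |kz (p : ℕ) (σ p) (τ p)| ≤
      (1 + ε) * ∑ σ : P → Option ι, a σ ^ 2 * ph P σ := by
  refine (schur P hP a ha (fun p s t => |kz p s t|) (fun _ _ _ => abs_nonneg _)
    (fun p s t => by rw [GramZ_symm])).trans ?_
  rw [mul_sum]
  refine sum_le_sum fun σ _ => ?_
  by_cases h : a σ = 0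
  · rw [h]
    simp
  have h1 : ∏ p : P, ∑ t : Option ι, |kz (p : ℕ) (σ p) t| *
      (phl (p : ℕ) (σ p) / phl (p : ℕ) t) ≤ ph P σ * (1 + ε) := by
    refine le_trans ?_ (mul_le_mul_of_nonneg_left (hε σ h) (ph_nonneg P hP σ))
    unfold ph
    rw [← prod_mul_distrib]
    refine prod_le_prod (fun p _ => ?_) fun p _ => GramZ_row (h3 p p.2) (σ p)
    refine sum_nonneg fun t _ => mul_nonneg (abs_nonneg _) ?_
    have hp : (3 : ℝ) ≤ ((p : ℕ) : ℝ) := by exact_mod_cast h3 p p.2
    refine div_nonneg ?_ ?_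
    · unfold phl
      split_ifs
      · exact zero_le_one
      · linarith
    · unfold phl
      split_ifs
      · exact zero_le_one
      · linarith
  calc a σ ^ 2 * ∏ p : P, ∑ t : Option ι, |kz (p : ℕ) (σ p) t| *
      (phl (p : ℕ) (σ p) / phl (p : ℕ) t) ≤ a σ ^ 2 * (ph P σ * (1 + ε)) :=
        mul_le_mul_of_nonneg_left h1 (sq_nonneg _)
    _ = (1 + ε) * (a σ ^ 2 * ph P σ) := by ring

/-- PROOF. The diagonal terms are at least `v σ^2 ph σ` (`p - 1 / (p - 1) ≥ p - 1`), the others are bounded by `gramZ_abs` for `|v|` minus its diagonal. -/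
theorem gramZ_lower (P : Finset ℕ) (hP : ∀ p ∈ P, p.Prime) (h3 : ∀ p ∈ P, 3 ≤ p)
    (v : (P → Option ι) → ℝ) (ε : ℝ)
    (hε : ∀ σ, v σ ≠ 0 → (∏ p : P, if σ p = none then
        1 + (Fintype.card ι : ℝ) / (((p : ℕ) : ℝ) - 1) ^ 2
        else 1 + (2 * (Fintype.card ι : ℝ) + 2) / (((p : ℕ) : ℝ) - 1)) ≤ 1 + ε) :
    (1 - ε) * ∑ σ : P → Option ι, v σ ^ 2 * ph P σ ≤
      ∑ σ : P → Option ι, ∑ τ : P → Option ι, v σ * v τ * ∏ p : P, kz (p : ℕ) (σ p) (τ p) := by
  have h1 := gramZ_abs P hP h3 (fun σ => |v σ|) (fun σ => abs_nonneg _) ε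
    (fun σ h => hε σ (fun h0 => h (by simp [h0])))
  simp only [sq_abs] at h1
  have hd : ∀ σ : P → Option ι, ph P σ ≤ ∏ p : P, kz (p : ℕ) (σ p) (σ p) := by
    intro σ
    unfold ph
    refine prod_le_prod (fun p _ => ?_) fun p _ => GramZ_diag (h3 p p.2) (σ p)
    have hp : (3 : ℝ) ≤ ((p : ℕ) : ℝ) := by exact_mod_cast h3 p p.2
    split_ifs
    · exact zero_le_one
    · linarith
  have hk : ∀ σ : P → Option ι, ∏ p : P, |kz (p : ℕ) (σ p) (σ p)| =
      ∏ p : P, kz (p : ℕ) (σ p) (σ p) := by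
    intro σ
    refine prod_congr rfl fun p _ => abs_of_nonneg ?_
    refine le_trans ?_ (GramZ_diag (h3 p p.2) (σ p))
    have hp : (3 : ℝ) ≤ ((p : ℕ) : ℝ) := by exact_mod_cast h3 p p.2
    split_ifs
    · exact zero_le_one
    · linarith
  have h2 : ∑ σ : P → Option ι, ∑ τ : P → Option ι,
      ((if σ = τ then 2 * (v σ ^ 2 * ph P σ) else 0) -
        |v σ| * |v τ| * ∏ p : P, |kz (p : ℕ) (σ p) (τ p)|) ≤
      ∑ σ : P → Option ι, ∑ τ : P → Option ι,
        v σ * v τ * ∏ p : P, kz (p : ℕ) (σ p) (τ p) := by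
    refine sum_le_sum fun σ _ => sum_le_sum fun τ _ => ?_
    by_cases h : σ = τ
    · subst h
      rw [if_pos rfl, hk]
      have e1 : |v σ| * |v σ| = v σ * v σ := abs_mul_abs_self _
      rw [e1]
      have h3 := mul_le_mul_of_nonneg_left (hd σ) (mul_self_nonneg (v σ))
      nlinarith [h3]
    · rw [if_neg h, zero_sub, ← abs_prod, ← abs_mul, ← abs_mul]
      exact neg_abs_le _
  simp only [sum_sub_distrib] at h2
  rw [gram2_diag P (fun σ => 2 * (v σ ^ 2 * ph P σ)), ← mul_sum] at h2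
  linarith

end Pool.Agent.H.MP_711652_nt.CH
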