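import Pool.Agent.H.MP_711652_nt.CH.ExpDefs

/-! # MP_711652, CH: the means of the local functions -/

set_option autoImplicit false

namespace Pool.Agent.H.MP_711652_nt.CH

open Finset

variable {ι : Type*} [DecidableEq ι]

private theorem Loc2_root {p : ℕ} (hp : p.Prime) {k : ℤ} (hk : ¬ (p : ℤ) ∣ k) :
    ∃ a ∈ Ico 1 p, ∀ x ∈ Ico 1 p, ((p : ℤ) ∣ (x : ℤ) + k ↔ x = a) := by
  have hp0 : (0:ℤ) < p := by exact_mod_cast hp.pos
  have h0 := Int.emod_nonneg (-k) hp0.ne'
  have h1 := Int.emod_lt_of_pos (-k) hp0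
  have hne : (-k) % (p : ℤ) ≠ 0 := by
    intro h
    exact hk ((Int.dvd_neg).1 (Int.dvd_of_emod_eq_zero h))
  have hd : (p : ℤ) ∣ (-k) % (p : ℤ) + k := by
    have h3 : (p : ℤ) ∣ (-k) - (-k) % (p : ℤ) := Int.dvd_self_sub_emod
    have h4 := (Int.dvd_neg).2 h3
    have h5 : -((-k) - (-k) % (p : ℤ)) = (-k) % (p : ℤ) + k := by ring
    rwa [h5] at h4
  refine ⟨((-k) % (p : ℤ)).toNat, ?_, ?_⟩
  · rw [Finset.mem_Ico]; omega
  · intro x hx
    rw [Finset.mem_Ico] at hx
    constructor
    · intro h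
      have h6 : (p : ℤ) ∣ ((x : ℤ) + k) - ((-k) % (p : ℤ) + k) := dvd_sub h hd
      have h7 : ((x : ℤ) + k) - ((-k) % (p : ℤ) + k) = (x : ℤ) - (-k) % (p : ℤ) := by ring
      rw [h7] at h6
      have h8 : (x : ℤ) - (-k) % (p : ℤ) = 0 := by
        apply Int.eq_zero_of_abs_lt_dvd h6
        rw [abs_lt]
        constructor <;> omega
      omega
    · intro h
      have h9 : (x : ℤ) = (-k) % (p : ℤ) := by
        rw [h, Int.toNat_of_nonneg h0]
      rw [h9]
      exact hd

private theorem Loc2_sum_one {p : ℕ} (hp : p.Prime) :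
    (∑ _x ∈ Ico 1 p, (1 : ℝ)) = (p : ℝ) - 1 := by
  rw [Finset.sum_const, Nat.card_Ico, nsmul_eq_mul, mul_one, Nat.cast_sub hp.one_lt.le,
    Nat.cast_one]

private theorem Loc2_sum_ind {p a : ℕ} (ha : a ∈ Ico 1 p) (c : ℝ) :
    (∑ x ∈ Ico 1 p, c * (if x = a then (1 : ℝ) else 0)) = c := by
  rw [← Finset.mul_sum, Finset.sum_ite_eq' (Ico 1 p) a (fun _ => (1 : ℝ)), if_pos ha, mul_one]

private theorem Loc2_Ez {p : ℕ} {κ : ι → ℤ} {i : ι} {x a : ℕ}
    (h : (p : ℤ) ∣ (x : ℤ) + κ i ↔ x = a) :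
    Ez κ p (some i) x = 1 - (p : ℝ) * (if x = a then (1 : ℝ) else 0) := by
  unfold Ez
  by_cases hx : x = a
  · simp only [hx, if_true]
    rw [if_pos (by rw [← hx]; exact h.2 hx)]
    ring
  · simp only [hx, if_false]
    rw [if_neg (fun h2 => hx (h.1 h2))]
    ring

theorem Ez_per (κ : ι → ℤ) (p : ℕ) (t : Option ι) (x : ℕ) : Ez κ p t (x + p) = Ez κ p t x := by
  cases t with
  | none => rfl
  | some i =>
    unfold Ez
    have h : (p : ℤ) ∣ ((x + p : ℕ) : ℤ) + κ i ↔ (p : ℤ) ∣ (x : ℤ) + κ i := by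
      have h2 : ((x + p : ℕ) : ℤ) + κ i = ((x : ℤ) + κ i) + (p : ℤ) := by push_cast; ring
      rw [h2, dvd_add_self_right]
    simp only [h]

/-- the sums of `Ez s * Ez t` and of its absolute value -/
private theorem Loc2_two {P : Finset ℕ} {κ : ι → ℤ} (h : Offs P κ) (p : ℕ) (hp : p ∈ P)
    (i j : ι) :
    (∑ x ∈ Ico 1 p, Ez κ p (some i) x * Ez κ p (some j) x
      = if i = j then (p : ℝ) ^ 2 - p - 1 else -(p : ℝ) - 1) ∧
    (∑ x ∈ Ico 1 p, |Ez κ p (some i) x * Ez κ p (some j) x|
      = if i = j then (p : ℝ) ^ 2 - p - 1 else 3 * (p : ℝ) - 5) := by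
  have hpp := h.prime p hp
  have hp2 : (2 : ℝ) ≤ p := by exact_mod_cast hpp.two_le
  obtain ⟨a, ha, hA⟩ := Loc2_root hpp (h.ne p hp i)
  obtain ⟨b, hb, hB⟩ := Loc2_root hpp (h.ne p hp j)
  have hab : a = b ↔ i = j := by
    constructor
    · intro e
      by_contra hij
      have h1 := (hA a ha).2 rfl
      have h2 := (hB b hb).2 rfl
      rw [← e] at h2
      have h3 := dvd_sub h1 h2
      have h4 : ((a : ℤ) + κ i) - ((a : ℤ) + κ j) = κ i - κ j := by ring
      rw [h4] at h3
      exact h.disj p hp i j hij h3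
    · intro e
      subst e
      exact (hB a ha).1 ((hA a ha).2 rfl)
  have habs : ∀ x c : ℕ, |1 - (p : ℝ) * (if x = c then (1 : ℝ) else 0)|
      = 1 + ((p : ℝ) - 2) * (if x = c then (1 : ℝ) else 0) := by
    intro x c
    split_ifs
    · rw [abs_of_nonpos (by linarith)]; ring
    · simp
  have hsq : ∀ x : ℕ, (if x = a then (1 : ℝ) else 0) * (if x = b then (1 : ℝ) else 0)
      = (if i = j then (1 : ℝ) else 0) * (if x = a then (1 : ℝ) else 0) := by
    intro x
    by_cases hij : i = j
    · have e := hab.2 hij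
      subst e
      simp only [hij, if_true, one_mul]
      split_ifs <;> simp
    · have e : a ≠ b := fun e => hij (hab.1 e)
      simp only [hij, if_false, zero_mul]
      by_cases hx : x = a
      · have : x ≠ b := fun h2 => e (hx ▸ h2)
        simp [this]
      · simp [hx]
  constructor
  · have h1 : ∀ x ∈ Ico 1 p, Ez κ p (some i) x * Ez κ p (some j) x
        = 1 + ((-(p : ℝ)) * (if x = a then (1 : ℝ) else 0)
          + ((-(p : ℝ)) * (if x = b then (1 : ℝ) else 0)
          + ((p : ℝ) ^ 2 * (if i = j then (1 : ℝ) else 0)) * (if x = a then (1 : ℝ) else 0))) := by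
      intro x hx
      rw [Loc2_Ez (hA x hx), Loc2_Ez (hB x hx)]
      have := hsq x
      linear_combination ((p : ℝ) ^ 2) * this
    rw [Finset.sum_congr rfl h1, Finset.sum_add_distrib, Finset.sum_add_distrib,
      Finset.sum_add_distrib, Loc2_sum_one hpp, Loc2_sum_ind ha, Loc2_sum_ind hb, Loc2_sum_ind ha]
    split_ifs <;> ring
  · have h1 : ∀ x ∈ Ico 1 p, |Ez κ p (some i) x * Ez κ p (some j) x|
        = 1 + (((p : ℝ) - 2) * (if x = a then (1 : ℝ) else 0)
          + (((p : ℝ) - 2) * (if x = b then (1 : ℝ) else 0)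
          + (((p : ℝ) - 2) ^ 2 * (if i = j then (1 : ℝ) else 0))
            * (if x = a then (1 : ℝ) else 0))) := by
      intro x hx
      rw [Loc2_Ez (hA x hx), Loc2_Ez (hB x hx), abs_mul, habs, habs]
      have := hsq x
      linear_combination (((p : ℝ) - 2) ^ 2) * this
    rw [Finset.sum_congr rfl h1, Finset.sum_add_distrib, Finset.sum_add_distrib,
      Finset.sum_add_distrib, Loc2_sum_one hpp, Loc2_sum_ind ha, Loc2_sum_ind hb, Loc2_sum_ind ha]
    split_ifs <;> ring

private theorem Loc2_one {P : Finset ℕ} {κ : ι → ℤ} (h : Offs P κ) (p : ℕ) (hp : p ∈ P)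
    (i : ι) :
    (∑ x ∈ Ico 1 p, Ez κ p (some i) x = -1) ∧
    (∑ x ∈ Ico 1 p, |Ez κ p (some i) x| = 2 * (p : ℝ) - 3) := by
  have hpp := h.prime p hp
  have hp2 : (2 : ℝ) ≤ p := by exact_mod_cast hpp.two_le
  obtain ⟨a, ha, hA⟩ := Loc2_root hpp (h.ne p hp i)
  have habs : ∀ x c : ℕ, |1 - (p : ℝ) * (if x = c then (1 : ℝ) else 0)|
      = 1 + ((p : ℝ) - 2) * (if x = c then (1 : ℝ) else 0) := by
    intro x c
    split_ifs
    · rw [abs_of_nonpos (by linarith)]; ring
    · simp
  constructor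
  · have h1 : ∀ x ∈ Ico 1 p, Ez κ p (some i) x
        = 1 + (-(p : ℝ)) * (if x = a then (1 : ℝ) else 0) := by
      intro x hx
      rw [Loc2_Ez (hA x hx)]
      ring
    rw [Finset.sum_congr rfl h1, Finset.sum_add_distrib, Loc2_sum_one hpp, Loc2_sum_ind ha]
    ring
  · have h1 : ∀ x ∈ Ico 1 p, |Ez κ p (some i) x|
        = 1 + ((p : ℝ) - 2) * (if x = a then (1 : ℝ) else 0) := by
      intro x hx
      rw [Loc2_Ez (hA x hx), habs]
    rw [Finset.sum_congr rfl h1, Finset.sum_add_distrib, Loc2_sum_one hpp, Loc2_sum_ind ha]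
    ring

/-- PROOF. Exactly one `x ∈ Ico 1 p` is hit at position `i` (the class of `-κ i`, a unit), different positions have different classes. -/
theorem mu_pair {P : Finset ℕ} {κ : ι → ℤ} (h : Offs P κ) (p : ℕ) (hp : p ∈ P) (s t : Option ι) :
    mu1 (fun p x => Ez κ p s x * Ez κ p t x) p = kz p s t := by
  have hpp := h.prime p hp
  have hp2 : (2 : ℝ) ≤ p := by exact_mod_cast hpp.two_le
  have hp1 : (p : ℝ) - 1 ≠ 0 := by linarith
  unfold mu1 kz
  cases s with
  | none =>
    cases t with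
    | none =>
      have h1 : ∀ x ∈ Ico 1 p, Ez κ p (none : Option ι) x * Ez κ p none x = (1 : ℝ) := by
        intro x _
        simp [Ez]
      rw [Finset.sum_congr rfl h1, Loc2_sum_one hpp]
      simp [hp1]
    | some j =>
      have h1 : ∀ x ∈ Ico 1 p, Ez κ p (none : Option ι) x * Ez κ p (some j) x
          = Ez κ p (some j) x := by
        intro x _
        simp [Ez]
      rw [Finset.sum_congr rfl h1, (Loc2_one h p hp j).1]
      simp [neg_div]
  | some i =>
    cases t with
    | none =>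
      have h1 : ∀ x ∈ Ico 1 p, Ez κ p (some i) x * Ez κ p (none : Option ι) x
          = Ez κ p (some i) x := by
        intro x _
        simp [Ez]
      rw [Finset.sum_congr rfl h1, (Loc2_one h p hp i).1]
      simp [neg_div]
    | some j =>
      rw [(Loc2_two h p hp i j).1]
      by_cases hij : i = j
      · subst hij
        simp only [if_true, reduceCtorEq, if_false]
        field_simp
      · have : ¬ (some i = some j) := fun e => hij (Option.some.inj e)
        simp only [hij, this, if_false, reduceCtorEq, or_self]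
        field_simp
        ring

/-- PROOF. `∑ |f - m| ≤ 2 ∑ |f|` over the units. -/
theorem la_pair {P : Finset ℕ} {κ : ι → ℤ} (h : Offs P κ) (p : ℕ) (hp : p ∈ P) (s t : Option ι) :
    la1 (fun p x => Ez κ p s x * Ez κ p t x) p ≤ lz p s t := by
  have hpp := h.prime p hp
  have hp2 : (2 : ℝ) ≤ p := by exact_mod_cast hpp.two_le
  have hp1 : 0 < (p : ℝ) - 1 := by linarith
  have hgen : ∀ B : ℝ, (∑ x ∈ Ico 1 p, |Ez κ p s x * Ez κ p t x|) ≤ B * ((p : ℝ) - 1) →
      la1 (fun p x => Ez κ p s x * Ez κ p t x) p ≤ 2 * B := by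
    intro B hB
    unfold la1
    rw [div_le_iff₀ hp1]
    have hm : |mu1 (fun p x => Ez κ p s x * Ez κ p t x) p| * ((p : ℝ) - 1)
        ≤ ∑ x ∈ Ico 1 p, |Ez κ p s x * Ez κ p t x| := by
      unfold mu1
      rw [abs_div, abs_of_pos hp1, div_mul_cancel₀ _ hp1.ne']
      exact Finset.abs_sum_le_sum_abs _ _
    calc ∑ x ∈ Ico 1 p, |Ez κ p s x * Ez κ p t x - mu1 (fun p x => Ez κ p s x * Ez κ p t x) p|
        ≤ ∑ x ∈ Ico 1 p, (|Ez κ p s x * Ez κ p t x|
          + |mu1 (fun p x => Ez κ p s x * Ez κ p t x) p|) :=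
          Finset.sum_le_sum (fun x _ => abs_sub _ _)
      _ = (∑ x ∈ Ico 1 p, |Ez κ p s x * Ez κ p t x|)
          + |mu1 (fun p x => Ez κ p s x * Ez κ p t x) p| * ((p : ℝ) - 1) := by
          rw [Finset.sum_add_distrib]
          congr 1
          rw [Finset.sum_const, Nat.card_Ico, nsmul_eq_mul, Nat.cast_sub hpp.one_lt.le,
            Nat.cast_one, mul_comm]
      _ ≤ 2 * B * ((p : ℝ) - 1) := by nlinarith
  cases s with
  | none =>
    cases t with
    | none =>
      have hm := mu_pair h p hp (none : Option ι) none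
      unfold la1
      rw [hm]
      simp [kz, lz, Ez]
    | some j =>
      have h1 : ∀ x ∈ Ico 1 p, |Ez κ p (none : Option ι) x * Ez κ p (some j) x|
          = |Ez κ p (some j) x| := by
        intro x _
        simp [Ez]
      have := hgen 2 (by
        rw [Finset.sum_congr rfl h1, (Loc2_one h p hp j).2]
        linarith)
      simp only [lz, reduceCtorEq, if_false, true_or, if_true]
      linarith
  | some i =>
    cases t with
    | none =>
      have h1 : ∀ x ∈ Ico 1 p, |Ez κ p (some i) x * Ez κ p (none : Option ι) x|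
          = |Ez κ p (some i) x| := by
        intro x _
        simp [Ez]
      have := hgen 2 (by
        rw [Finset.sum_congr rfl h1, (Loc2_one h p hp i).2]
        linarith)
      simp only [lz, reduceCtorEq, if_false, or_true, if_true]
      linarith
    | some j =>
      by_cases hij : i = j
      · subst hij
        have := hgen (p : ℝ) (by
          rw [(Loc2_two h p hp i i).2, if_pos rfl]
          nlinarith)
        simp only [lz, reduceCtorEq, if_false, if_true]
        exact this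
      · have := hgen 3 (by
          rw [(Loc2_two h p hp i j).2, if_neg hij]
          linarith)
        have h3 : ¬ (some i = some j) := fun e => hij (Option.some.inj e)
        simp only [lz, h3, reduceCtorEq, if_false, or_self]
        linarith

theorem la1_nonneg {p : ℕ} (hp : p.Prime) (f : ℕ → ℕ → ℝ) : 0 ≤ la1 f p := by
  unfold la1
  apply div_nonneg
  · exact Finset.sum_nonneg (fun x _ => abs_nonneg _)
  · have : (1 : ℝ) ≤ p := by exact_mod_cast hp.one_lt.le
    linarith

end Pool.Agent.H.MP_711652_nt.CH
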