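import Pool.Agent.H.MP_711652_nt.CH.ExpB
import Pool.Agent.H.MP_711652_nt.CH.Loc2
import Pool.Agent.H.MP_711652_nt.CH.GramZ
import Pool.Agent.H.MP_711652_nt.CH.Coeff

/-! # MP_711652, CH: the lower bound for `∑ θ(x) Ψ(x)^2` -/

set_option autoImplicit false

namespace Pool.Agent.H.MP_711652_nt.CH

open Finset Pool.Agent.H.MP_711652_nt.LG

variable {ι : Type*} [Fintype ι] [DecidableEq ι]

theorem WSum_Zs_nonneg (S : Finset ℕ) (θ : ℕ → ℝ) (r : ℕ) : 0 ≤ Zs S θ r :=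
  Finset.sum_nonneg fun _ _ => norm_nonneg _

/-- an assignment extended by `none` -/
def WSumEx {P : Finset ℕ} (σ : P → Option ι) (p : ℕ) : Option ι :=
  if h : p ∈ P then σ ⟨p, h⟩ else none

omit [Fintype ι] [DecidableEq ι] in
theorem WSumEx_coe {P : Finset ℕ} (σ : P → Option ι) (p : P) : WSumEx σ p = σ p := by
  unfold WSumEx
  rw [dif_pos p.2]

/-- the local functions of a pair of assignments -/
noncomputable def WSumF (κ : ι → ℤ) {P : Finset ℕ} (σ τ : P → Option ι) (p x : ℕ) : ℝ :=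
  Ez κ p (WSumEx σ p) x * Ez κ p (WSumEx τ p) x

omit [Fintype ι] [DecidableEq ι] in
theorem WSum_Phi (κ : ι → ℤ) {P : Finset ℕ} (σ τ : P → Option ι) (x : ℕ) :
    PhiZ P κ σ x * PhiZ P κ τ x = ∏ p ∈ P, WSumF κ σ τ p x := by
  unfold PhiZ
  rw [← Finset.prod_mul_distrib, ← Finset.prod_coe_sort P (fun p => WSumF κ σ τ p x)]
  refine Finset.prod_congr rfl fun p _ => ?_
  unfold WSumF
  rw [WSumEx_coe, WSumEx_coe]

/-- the bound of one error term -/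
noncomputable def WSumE {P : Finset ℕ} (T : Finset ℕ) (σ τ : P → Option ι) : ℝ :=
  ∏ p : P, (if (p : ℕ) ∈ T then lz (p : ℕ) (σ p) (τ p) else |kz (p : ℕ) (σ p) (τ p)|)

omit [Fintype ι] in
theorem WSum_exp {P : Finset ℕ} {κ : ι → ℤ} (hO : Offs P κ) (S : Finset ℕ) (θ : ℕ → ℝ)
    (hS : ∀ x ∈ S, ∀ p ∈ P, ¬ p ∣ x) (σ τ : P → Option ι) :
    |∑ x ∈ S, θ x * ∏ p ∈ P, WSumF κ σ τ p x -
        (∏ p : P, kz (p : ℕ) (σ p) (τ p)) * ∑ x ∈ S, θ x| ≤
      ∑ T ∈ P.powerset.erase ∅, WSumE T σ τ * Zs S θ (∏ p ∈ T, p) := by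
  have hloc : Loc P (WSumF κ σ τ) := ⟨hO.prime, fun p _ x => by
    unfold WSumF
    rw [Ez_per, Ez_per]⟩
  have hmu : ∀ p ∈ P, mu1 (WSumF κ σ τ) p = kz p (WSumEx σ p) (WSumEx τ p) :=
    fun p hp => mu_pair hO p hp _ _
  have hla : ∀ p ∈ P, la1 (WSumF κ σ τ) p ≤ lz p (WSumEx σ p) (WSumEx τ p) :=
    fun p hp => la_pair hO p hp _ _
  have h1 := expansion hloc S θ hS
  have h2 : ∏ p ∈ P, mu1 (WSumF κ σ τ) p = ∏ p : P, kz (p : ℕ) (σ p) (τ p) := by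
    rw [Finset.prod_congr rfl hmu,
      ← Finset.prod_coe_sort P (fun p => kz p (WSumEx σ p) (WSumEx τ p))]
    refine Finset.prod_congr rfl fun p _ => ?_
    rw [WSumEx_coe, WSumEx_coe]
  rw [h2] at h1
  refine h1.trans (Finset.sum_le_sum fun T hT => ?_)
  have hTP : T ⊆ P := Finset.mem_powerset.1 (Finset.mem_erase.1 hT).2
  refine mul_le_mul_of_nonneg_right ?_ (WSum_Zs_nonneg S θ _)
  have h3 : WSumE T σ τ = (∏ p ∈ T, lz p (WSumEx σ p) (WSumEx τ p)) *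
      ∏ p ∈ P \ T, |kz p (WSumEx σ p) (WSumEx τ p)| := by
    have h4 : WSumE T σ τ = ∏ p ∈ P, (if p ∈ T then lz p (WSumEx σ p) (WSumEx τ p)
        else |kz p (WSumEx σ p) (WSumEx τ p)|) := by
      rw [← Finset.prod_coe_sort P]
      unfold WSumE
      refine Finset.prod_congr rfl fun p _ => ?_
      rw [WSumEx_coe, WSumEx_coe]
    rw [h4, ← Finset.prod_sdiff hTP, mul_comm]
    congr 1
    · exact Finset.prod_congr rfl fun p hp => if_pos hp
    · exact Finset.prod_congr rfl fun p hp => if_neg (Finset.mem_sdiff.1 hp).2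
  rw [h3]
  have h5 : ∏ p ∈ P \ T, |mu1 (WSumF κ σ τ) p| =
      ∏ p ∈ P \ T, |kz p (WSumEx σ p) (WSumEx τ p)| :=
    Finset.prod_congr rfl fun p hp => by rw [hmu p (Finset.mem_sdiff.1 hp).1]
  rw [h5]
  refine mul_le_mul_of_nonneg_right ?_ (Finset.prod_nonneg fun _ _ => abs_nonneg _)
  exact Finset.prod_le_prod (fun p hp => la1_nonneg (hO.prime p (hTP hp)) _)
    fun p hp => hla p (hTP hp)

/-- PROOF. Expand the square: `∑_{σ,τ} v σ v τ ∑_x θ x ∏_{p ∈ P} f p x`, `f p x = Ez κ p (σ p) x * Ez κ p (τ p) x` (extended by `none` off `P`).  `expansion` for each pair;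
the main terms are `gramZ_lower` (times `∑ θ ≥ 0`), the errors are, by `mu_pair`, `la_pair`, `coeff`, `coeff_zero` and `gramZ_abs`, at most
`∑_{T ≠ ∅, ∏ T ≤ Y^2} (∏_T 20 R / p) (1 + ε) M Zs S θ (∏ T)`. -/
theorem wsum {P : Finset ℕ} {κ : ι → ℤ} (hO : Offs P κ) {v : (P → Option ι) → ℝ} {Y : ℕ}
    (h : Coef P (fun σ => |v σ|) Y) (hR : ∀ p ∈ P, 6 * Fintype.card ι + 5 ≤ p) (ε : ℝ)
    (hε0 : 0 ≤ ε)
    (hε : ∀ σ, v σ ≠ 0 → (∏ p : P, if σ p = none then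
        1 + (Fintype.card ι : ℝ) / (((p : ℕ) : ℝ) - 1) ^ 2
        else 1 + (2 * (Fintype.card ι : ℝ) + 2) / (((p : ℕ) : ℝ) - 1)) ≤ 1 + ε)
    (S : Finset ℕ) (θ : ℕ → ℝ) (hθ : ∀ x ∈ S, 0 ≤ θ x) (hS : ∀ x ∈ S, ∀ p ∈ P, ¬ p ∣ x) :
    (∑ σ : P → Option ι, v σ ^ 2 * ph P σ) * ((1 - ε) * ∑ x ∈ S, θ x -
      (1 + ε) * ∑ T ∈ (P.powerset.erase ∅).filter (fun T => ∏ p ∈ T, p ≤ Y ^ 2),
        (∏ p ∈ T, 20 * (Fintype.card ι : ℝ) / p) * Zs S θ (∏ p ∈ T, p)) ≤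
      ∑ x ∈ S, θ x * (∑ σ : P → Option ι, v σ * PhiZ P κ σ x) ^ 2 := by
  classical
  set Θ : ℝ := ∑ x ∈ S, θ x with hΘ
  have hΘ0 : 0 ≤ Θ := Finset.sum_nonneg hθ
  set M : ℝ := ∑ σ : P → Option ι, v σ ^ 2 * ph P σ with hM
  have h3 : ∀ p ∈ P, 3 ≤ p := fun p hp => by
    have := hR p hp
    omega
  set W : (P → Option ι) → (P → Option ι) → ℝ := fun σ τ =>
    ∑ x ∈ S, θ x * ∏ p ∈ P, WSumF κ σ τ p x with hW
  have hsq : ∑ x ∈ S, θ x * (∑ σ : P → Option ι, v σ * PhiZ P κ σ x) ^ 2 =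
      ∑ σ : P → Option ι, ∑ τ : P → Option ι, v σ * v τ * W σ τ := by
    have h1 : ∀ x, θ x * (∑ σ : P → Option ι, v σ * PhiZ P κ σ x) ^ 2 =
        ∑ σ : P → Option ι, ∑ τ : P → Option ι,
          v σ * v τ * (θ x * ∏ p ∈ P, WSumF κ σ τ p x) := by
      intro x
      rw [sq, Finset.sum_mul_sum, Finset.mul_sum]
      refine Finset.sum_congr rfl fun σ _ => ?_
      rw [Finset.mul_sum]
      refine Finset.sum_congr rfl fun τ _ => ?_
      rw [← WSum_Phi]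
      ring
    rw [Finset.sum_congr rfl fun x _ => h1 x, Finset.sum_comm]
    refine Finset.sum_congr rfl fun σ _ => ?_
    rw [Finset.sum_comm]
    refine Finset.sum_congr rfl fun τ _ => ?_
    rw [hW, ← Finset.mul_sum]
  set K : (P → Option ι) → (P → Option ι) → ℝ := fun σ τ =>
    ∏ p : P, kz (p : ℕ) (σ p) (τ p) with hK
  set G : Finset ℕ → ℝ := fun T => ∑ σ : P → Option ι, ∑ τ : P → Option ι,
    |v σ| * |v τ| * WSumE T σ τ with hG
  have hmain := gramZ_lower P hO.prime h3 v ε hε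
  have hmain' : (1 - ε) * M * Θ ≤ (∑ σ : P → Option ι, ∑ τ : P → Option ι,
      v σ * v τ * K σ τ) * Θ := mul_le_mul_of_nonneg_right hmain hΘ0
  have hdiff : |∑ σ : P → Option ι, ∑ τ : P → Option ι, v σ * v τ * W σ τ -
      (∑ σ : P → Option ι, ∑ τ : P → Option ι, v σ * v τ * K σ τ) * Θ| ≤
      ∑ T ∈ P.powerset.erase ∅, G T * Zs S θ (∏ p ∈ T, p) := by
    have e1 : ∑ σ : P → Option ι, ∑ τ : P → Option ι, v σ * v τ * W σ τ -
        (∑ σ : P → Option ι, ∑ τ : P → Option ι, v σ * v τ * K σ τ) * Θ =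
        ∑ σ : P → Option ι, ∑ τ : P → Option ι, v σ * v τ * (W σ τ - K σ τ * Θ) := by
      rw [Finset.sum_mul, ← Finset.sum_sub_distrib]
      refine Finset.sum_congr rfl fun σ _ => ?_
      rw [Finset.sum_mul, ← Finset.sum_sub_distrib]
      refine Finset.sum_congr rfl fun τ _ => ?_
      ring
    rw [e1]
    calc |∑ σ : P → Option ι, ∑ τ : P → Option ι, v σ * v τ * (W σ τ - K σ τ * Θ)|
        ≤ ∑ σ : P → Option ι, ∑ τ : P → Option ι, |v σ * v τ * (W σ τ - K σ τ * Θ)| :=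
          (Finset.abs_sum_le_sum_abs _ _).trans
            (Finset.sum_le_sum fun σ _ => Finset.abs_sum_le_sum_abs _ _)
      _ ≤ ∑ σ : P → Option ι, ∑ τ : P → Option ι, ∑ T ∈ P.powerset.erase ∅,
          |v σ| * |v τ| * WSumE T σ τ * Zs S θ (∏ p ∈ T, p) := by
          refine Finset.sum_le_sum fun σ _ => Finset.sum_le_sum fun τ _ => ?_
          rw [abs_mul, abs_mul]
          refine (mul_le_mul_of_nonneg_left (WSum_exp hO S θ hS σ τ)
            (mul_nonneg (abs_nonneg _) (abs_nonneg _))).trans (le_of_eq ?_)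
          rw [Finset.mul_sum]
          refine Finset.sum_congr rfl fun T _ => ?_
          ring
      _ = ∑ T ∈ P.powerset.erase ∅, G T * Zs S θ (∏ p ∈ T, p) := by
          rw [Finset.sum_congr rfl fun σ _ => Finset.sum_comm, Finset.sum_comm]
          refine Finset.sum_congr rfl fun T _ => ?_
          rw [hG, Finset.sum_mul]
          refine Finset.sum_congr rfl fun σ _ => ?_
          rw [Finset.sum_mul]
  have habs := gramZ_abs P hO.prime h3 (fun σ => |v σ|) (fun σ => abs_nonneg _) ε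
    (fun σ hσ => hε σ (abs_ne_zero.1 hσ))
  have hM' : ∑ σ : P → Option ι, |v σ| ^ 2 * ph P σ = M :=
    Finset.sum_congr rfl fun σ _ => by rw [sq_abs]
  simp only [hM'] at habs
  have hG1 : ∀ T ⊆ P, G T ≤ (∏ p ∈ T, 20 * (Fintype.card ι : ℝ) / p) * ((1 + ε) * M) := by
    intro T hT
    refine (coeff h hR T hT).trans (mul_le_mul_of_nonneg_left habs ?_)
    exact Finset.prod_nonneg fun p _ => by positivity
  have hG2 : ∀ T ⊆ P, Y ^ 2 < ∏ p ∈ T, p → G T = 0 := by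
    intro T hT hY
    exact Finset.sum_eq_zero fun σ _ => Finset.sum_eq_zero fun τ _ => coeff_zero h T hT hY σ τ
  have herr : ∑ T ∈ P.powerset.erase ∅, G T * Zs S θ (∏ p ∈ T, p) ≤
      M * ((1 + ε) * ∑ T ∈ (P.powerset.erase ∅).filter (fun T => ∏ p ∈ T, p ≤ Y ^ 2),
        (∏ p ∈ T, 20 * (Fintype.card ι : ℝ) / p) * Zs S θ (∏ p ∈ T, p)) := by
    rw [← Finset.sum_filter_add_sum_filter_not (P.powerset.erase ∅)
      (fun T => ∏ p ∈ T, p ≤ Y ^ 2)]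
    have z1 : ∑ T ∈ (P.powerset.erase ∅).filter (fun T => ¬ ∏ p ∈ T, p ≤ Y ^ 2),
        G T * Zs S θ (∏ p ∈ T, p) = 0 := by
      refine Finset.sum_eq_zero fun T hT => ?_
      obtain ⟨h1, h2⟩ := Finset.mem_filter.1 hT
      rw [hG2 T (Finset.mem_powerset.1 (Finset.mem_erase.1 h1).2) (not_le.1 h2), zero_mul]
    rw [z1, add_zero, Finset.mul_sum, Finset.mul_sum]
    refine Finset.sum_le_sum fun T hT => ?_
    obtain ⟨h1, _⟩ := Finset.mem_filter.1 hT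
    refine (mul_le_mul_of_nonneg_right (hG1 T (Finset.mem_powerset.1 (Finset.mem_erase.1 h1).2))
      (WSum_Zs_nonneg S θ _)).trans (le_of_eq ?_)
    ring
  rw [hsq]
  have h4 := (abs_le.1 hdiff).1
  have h5 : M * ((1 - ε) * Θ - (1 + ε) *
      ∑ T ∈ (P.powerset.erase ∅).filter (fun T => ∏ p ∈ T, p ≤ Y ^ 2),
        (∏ p ∈ T, 20 * (Fintype.card ι : ℝ) / p) * Zs S θ (∏ p ∈ T, p)) =
      (1 - ε) * M * Θ - M * ((1 + ε) *
        ∑ T ∈ (P.powerset.erase ∅).filter (fun T => ∏ p ∈ T, p ≤ Y ^ 2),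
        (∏ p ∈ T, 20 * (Fintype.card ι : ℝ) / p) * Zs S θ (∏ p ∈ T, p)) := by ring
  rw [h5]
  linarith

end Pool.Agent.H.MP_711652_nt.CH
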