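import Pool.Agent.H.MP_711652_nt.CH.PsiUp
import Pool.Agent.H.MP_711652_nt.CH.WSum
import Pool.Agent.H.MP_711652_nt.CH.RbvUse

/-! # MP_711652, CH: `Ψ^2` at the primes, lower bound -/

set_option autoImplicit false

namespace Pool.Agent.H.MP_711652_nt.CH

open Finset Pool.Agent.H.MP_711652_nt.LG Pool.Agent.H.MP_711652_nt.G2

/-- `Cr` is a constant of `rbv_rough`. -/
def RbvC (Cr : ℝ) : Prop := 0 < Cr ∧ ∀ (X X₁ X₂ W b Q : ℕ) (P : Finset ℕ) (D lam : ℝ), 3 ≤ X →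
    X ≤ X₁ → X₁ ≤ X₂ → X₂ ≤ 3 * X → 0 < W → Nat.Coprime b W →
    1 ≤ Q → (W * Q ^ 2) ^ 8 ≤ X → 2 ≤ D → (∀ p ∈ P, p.Prime ∧ D ≤ (p : ℝ) ∧ ¬ p ∣ W) →
    0 ≤ lam → lam ^ 4 ≤ D →
    ∑ T ∈ (P.powerset.erase ∅).filter (fun T => ∏ p ∈ T, p ≤ Q),
        (∏ p ∈ T, lam / p) * Zs (clp X₁ X₂ W b) thn (∏ p ∈ T, p) ≤
      Cr * ((X : ℝ) / W) * (1 + Real.log X) ^ 5 * D ^ (-(3 / 4 : ℝ))

variable {Cr : ℝ} {X R : ℕ}

/-- the sum over `p` -/
private theorem psiPr_sum_sq (n0 : ℕ) (hn0 : 3 ≤ n0) (k : ℕ) :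
    ∑ n ∈ Ico n0 (n0 + k), 1 / ((n : ℝ) - 1) ^ 2 ≤ 1 / ((n0 : ℝ) - 2) - 1 / ((n0 + k : ℝ) - 2) := by
  have h0 : (3 : ℝ) ≤ n0 := by exact_mod_cast hn0
  induction k with
  | zero => simp
  | succ k ih =>
    rw [← add_assoc, Finset.sum_Ico_succ_top (by omega)]
    have hk : (0 : ℝ) ≤ k := Nat.cast_nonneg k
    have h1 : 1 / (((n0 + k : ℕ) : ℝ) - 1) ^ 2 ≤
        1 / ((n0 + k : ℝ) - 2) - 1 / ((n0 + (k + 1 : ℕ) : ℝ) - 2) := by
      push_cast
      have hx : (0 : ℝ) < (n0 : ℝ) + k - 2 := by linarith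
      have hy : (0 : ℝ) < (n0 : ℝ) + k - 1 := by linarith
      have e : 1 / ((n0 : ℝ) + k - 2) - 1 / ((n0 : ℝ) + (k + 1) - 2) =
          1 / (((n0 : ℝ) + k - 2) * ((n0 : ℝ) + k - 1)) := by
        have hz : (n0 : ℝ) + (k + 1) - 2 = (n0 : ℝ) + k - 1 := by ring
        rw [hz, div_sub_div _ _ hx.ne' hy.ne']
        congr 1
        ring
      rw [e]
      apply one_div_le_one_div_of_le (mul_pos hx hy)
      nlinarith
    linarith

private theorem psiPr_sum_sq_le {P : Finset ℕ} {D : ℝ} (hD : 100 ≤ D)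
    (hP : ∀ p ∈ P, D ≤ (p : ℝ)) : ∑ p ∈ P, 1 / ((p : ℝ) - 1) ^ 2 ≤ 1 / (D - 2) := by
  set n0 : ℕ := ⌈D⌉₊ with hn0
  have h1 : D ≤ n0 := Nat.le_ceil D
  have h3 : 3 ≤ n0 := by
    have : (3 : ℝ) ≤ n0 := by linarith
    exact_mod_cast this
  have hsub : P ⊆ Ico n0 (n0 + (P.sup id + 1)) := by
    intro p hp
    rw [Finset.mem_Ico]
    refine ⟨Nat.ceil_le.2 (hP p hp), ?_⟩
    have : p ≤ P.sup id := Finset.le_sup (f := id) hp
    omega
  refine (Finset.sum_le_sum_of_subset_of_nonneg hsub fun n _ _ => by positivity).trans ?_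
  refine (psiPr_sum_sq n0 h3 _).trans ?_
  have h4 : 0 ≤ 1 / (((n0 : ℝ) + ((P.sup id + 1 : ℕ) : ℝ)) - 2) := by
    apply div_nonneg zero_le_one
    have : (0 : ℝ) ≤ ((P.sup id + 1 : ℕ) : ℝ) := Nat.cast_nonneg _
    linarith
  have h5 : 1 / ((n0 : ℝ) - 2) ≤ 1 / (D - 2) :=
    one_div_le_one_div_of_le (by linarith) (by linarith)
  linarith

/-- PROOF. `m ↦ nn X ν m + t` is a bijection from `range (NN X)` onto the `x ∈ (X₁, X₂]` with `x ≡ ν + t` modulo `W`, `X₁ = W (X/W + 1) + ν + t - 1`,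
`X₂ = W (X/W + NN X) + ν + t`; terms that are not prime vanish. -/
theorem sum_clp (h : XF Cr X R) (ν t : ℕ) (ht : 1 ≤ t) (F : ℕ → ℝ) :
    ∑ x ∈ clp (WW X * (X / WW X + 1) + ν + t - 1) (WW X * (X / WW X + NN X) + ν + t) (WW X) (ν + t),
        thn x * F x =
      ∑ m ∈ range (NN X), thn (nn X ν m + t) * F (nn X ν m + t) := by
  have hW : 0 < WW X := primorial_pos _
  have hN := h.N0
  unfold clp
  rw [Finset.sum_filter_of_ne (p := Nat.Prime) (fun x _ hx => by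
    by_contra hc
    exact hx (by rw [thn, if_neg hc, zero_mul]))]
  symm
  refine Finset.sum_nbij (fun m => nn X ν m + t) ?_ ?_ ?_ (fun m _ => rfl)
  · intro m hm
    rw [mem_range] at hm
    rw [mem_filter, mem_Ioc]
    unfold nn
    refine ⟨⟨?_, ?_⟩, ?_⟩
    · have h1 : WW X * (X / WW X + 1) ≤ WW X * (X / WW X + 1 + m) :=
        Nat.mul_le_mul_left _ (by omega)
      omega
    · have h1 : WW X * (X / WW X + 1 + m) ≤ WW X * (X / WW X + NN X) :=
        Nat.mul_le_mul_left _ (by omega)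
      omega
    · rw [Nat.ModEq, add_assoc, Nat.mul_add_mod]
  · intro m _ m' _ hmm
    simp only [nn] at hmm
    have h1 : WW X * (X / WW X + 1 + m) = WW X * (X / WW X + 1 + m') := by omega
    have h2 := Nat.eq_of_mul_eq_mul_left hW h1
    omega
  · intro x hx
    rw [mem_coe, mem_filter, mem_Ioc] at hx
    obtain ⟨⟨hx1, hx2⟩, hx3⟩ := hx
    have hle : ν + t ≤ x := by
      have := Nat.zero_le (WW X * (X / WW X + 1))
      omega
    obtain ⟨k, hk⟩ := (Nat.modEq_iff_dvd' hle).1 hx3.symm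
    have hxk : x = ν + t + WW X * k := by omega
    have h1 : X / WW X + 1 ≤ k := by
      by_contra hc
      have h2 : WW X * k ≤ WW X * (X / WW X) := Nat.mul_le_mul_left _ (by omega)
      have h3 : WW X * (X / WW X + 1) = WW X * (X / WW X) + WW X := by ring
      omega
    have h2 : k ≤ X / WW X + NN X := by
      by_contra hc
      have h3 : WW X * (X / WW X + NN X + 1) ≤ WW X * k := Nat.mul_le_mul_left _ (by omega)
      have h4 : WW X * (X / WW X + NN X + 1) = WW X * (X / WW X + NN X) + WW X := by ring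
      omega
    refine ⟨k - (X / WW X + 1), ?_, ?_⟩
    · rw [mem_coe, mem_range]
      omega
    · simp only [nn]
      have h3 : X / WW X + 1 + (k - (X / WW X + 1)) = k := by omega
      rw [h3]
      omega

/-- PROOF. `p ∣ x + κ i`, `κ i = i - t`, `x = nn X ν m + t`, means `p ∣ nn X ν m + i`. -/
theorem PhiZ_eq (T : Finset ℕ) (ν t m : ℕ) (σ : PP X → Option T) :
    PhiZ (PP X) (fun i : T => ((i : ℕ) : ℤ) - t) σ (nn X ν m + t) =
      Phi (PP X) (hit X ν T) σ m := by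
  unfold PhiZ Phi
  refine Finset.prod_congr rfl fun p _ => ?_
  rcases σ p with _ | i
  · rfl
  · simp only [Ez, Ef, hit]
    have h1 : ((nn X ν m + t : ℕ) : ℤ) + (((i : ℕ) : ℤ) - t) = ((nn X ν m + (i : ℕ) : ℕ) : ℤ) := by
      push_cast
      ring
    rw [h1]
    by_cases h2 : (p : ℕ) ∣ nn X ν m + (i : ℕ)
    · rw [if_pos h2, if_pos (Int.natCast_dvd_natCast.2 h2)]
    · rw [if_neg h2, if_neg (fun h3 => h2 (Int.natCast_dvd_natCast.1 h3))]

private theorem psiPr_num (h : XF Cr X R) (T : Finset ℕ) (hR : T.card ≤ R)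
    (σ : PP X → Option T) (hσ : vv X T σ ≠ 0) :
    (∏ p : PP X, if σ p = none then 1 + (Fintype.card T : ℝ) / (((p : ℕ) : ℝ) - 1) ^ 2
      else 1 + (2 * (Fintype.card T : ℝ) + 2) / (((p : ℕ) : ℝ) - 1)) ≤ 1 + 1 / 1000 := by
  classical
  obtain ⟨D, hDdef⟩ : ∃ D : ℝ, D = (zz X : ℝ) := ⟨_, rfl⟩
  obtain ⟨r, hr⟩ : ∃ r : ℝ, r = (Fintype.card T : ℝ) := ⟨_, rfl⟩
  have hD100 : 100 ≤ D := by
    rw [hDdef]
    exact_mod_cast h.z100
  have hD : 0 < D := by linarith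
  have hge : ∀ p ∈ PP X, D ≤ (p : ℝ) := by
    intro p hp
    rw [hDdef]
    exact h.num.ge p hp
  have hsmall := h.num.small
  rw [← hDdef, div_le_iff₀ hD] at hsmall
  have hr0 : 0 ≤ r := by rw [hr]; exact Nat.cast_nonneg _
  have hrR : r ≤ R := by
    rw [hr, Fintype.card_coe]
    exact_mod_cast hR
  have hR0 : (0 : ℝ) ≤ R := Nat.cast_nonneg R
  have hK0 : (0 : ℝ) ≤ kk X := Nat.cast_nonneg _
  push_cast at hsmall
  rw [← hr]
  have hcard : ((abs_supp (PP X) σ).card : ℝ) ≤ kk X := by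
    have h1 : DD (PP X) σ ≤ YY X := abs_cf_DD _ _ _ _ hσ
    exact_mod_cast h.big.level _ (abs_supp_sub (PP X) σ) (by rw [abs_DD_supp]; exact h1)
  obtain ⟨a, ha⟩ : ∃ a : ℝ, a = (2 * r + 2) / (D - 1) := ⟨_, rfl⟩
  have ha0 : 0 ≤ a := by
    rw [ha]
    exact div_nonneg (by linarith) (by linarith)
  have hloc : ∀ p : PP X, (if σ p = none then 1 + r / (((p : ℕ) : ℝ) - 1) ^ 2
      else 1 + (2 * r + 2) / (((p : ℕ) : ℝ) - 1)) ≤ (if σ p = none then (1 : ℝ) else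
      Real.exp a) * Real.exp (r * (1 / (((p : ℕ) : ℝ) - 1) ^ 2)) := by
    intro p
    have hpp := hge p p.2
    have hpos : 0 < ((p : ℕ) : ℝ) - 1 := by linarith
    by_cases hp : σ p = none
    · rw [if_pos hp, if_pos hp, one_mul, mul_one_div, add_comm]
      exact Real.add_one_le_exp _
    · rw [if_neg hp, if_neg hp]
      have h3 : 1 + (2 * r + 2) / (((p : ℕ) : ℝ) - 1) ≤ Real.exp a := by
        refine le_trans ?_ (Real.add_one_le_exp _)
        have : (2 * r + 2) / (((p : ℕ) : ℝ) - 1) ≤ a := by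
          rw [ha]
          exact div_le_div_of_nonneg_left (by linarith) (by linarith) (by linarith)
        linarith
      exact h3.trans (le_mul_of_one_le_right (Real.exp_pos _).le
        (Real.one_le_exp (by positivity)))
  have hnn : ∀ p : PP X, 0 ≤ (if σ p = none then 1 + r / (((p : ℕ) : ℝ) - 1) ^ 2
      else 1 + (2 * r + 2) / (((p : ℕ) : ℝ) - 1)) := by
    intro p
    have hpp := hge p p.2
    have hpos : 0 < ((p : ℕ) : ℝ) - 1 := by linarith
    split_ifs <;> positivity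
  refine (Finset.prod_le_prod (fun p _ => hnn p) fun p _ => hloc p).trans ?_
  rw [Finset.prod_mul_distrib]
  have h4 : (∏ p : PP X, if σ p = none then (1 : ℝ) else Real.exp a) ≤
      Real.exp (kk X * a) := by
    have h5 := abs_prod_supp (PP X) σ (fun _ => Real.exp a)
    rw [← h5, Finset.prod_const, ← Real.exp_nat_mul]
    apply Real.exp_le_exp.2
    exact mul_le_mul_of_nonneg_right hcard ha0
  have h6 : (∏ p : PP X, Real.exp (r * (1 / (((p : ℕ) : ℝ) - 1) ^ 2))) ≤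
      Real.exp (r * (1 / (D - 2))) := by
    rw [← Real.exp_sum, ← Finset.mul_sum]
    apply Real.exp_le_exp.2
    refine mul_le_mul_of_nonneg_left ?_ hr0
    have h7 := psiPr_sum_sq_le hD100 hge
    rwa [← Finset.sum_coe_sort (PP X) (fun p => 1 / ((p : ℝ) - 1) ^ 2)] at h7
  refine (mul_le_mul h4 h6 (Finset.prod_nonneg fun p _ => (Real.exp_pos _).le)
    (Real.exp_pos _).le).trans ?_
  rw [← Real.exp_add]
  have h8 : (kk X : ℝ) * a ≤ (kk X * (2 * r + 2)) / (D - 2) := by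
    rw [ha, ← mul_div_assoc]
    exact div_le_div_of_nonneg_left (by positivity) (by linarith) (by linarith)
  have h9 : (kk X * (2 * r + 2) : ℝ) / (D - 2) + r * (1 / (D - 2)) =
      (kk X * (2 * r + 2) + r) / (D - 2) := by
    ring
  have h10 : (kk X * (2 * r + 2) + r) / (D - 2) ≤ 1 / 4000 := by
    rw [div_le_iff₀ (by linarith)]
    have h11 : (kk X : ℝ) * r ≤ kk X * R := mul_le_mul_of_nonneg_left hrR hK0
    nlinarith [mul_nonneg hK0 hR0, sq_nonneg (R : ℝ)]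
  have h12 : (kk X : ℝ) * a + r * (1 / (D - 2)) ≤ 1 / 4000 := by linarith
  refine (Real.exp_le_exp.2 h12).trans ?_
  have h13 := Real.exp_bound_div_one_sub_of_interval (x := 1 / 4000) (by norm_num) (by norm_num)
  refine h13.trans ?_
  norm_num

/-- PROOF. `wsum` with `S = clp ..` as in `sum_clp`, `θ = thn`, `κ i = i - t`, `ε = 1/1000`; `hε` as in `Up2` (from `h.num`); the sum over the sets of primes is `RbvC` with `Q = YY X ^ 2`,
`lam = 20 * card`, `D = zz X`, and `h.err4`.  `X₁ ≥ X`, `X₂ ≤ 3 X` as `H < zz X`, `ν < W`. -/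
theorem psi_prime (h : XF Cr X R) (hC : RbvC Cr) (ν H : ℕ) (hν : ν < WW X) (hH : H < zz X)
    (T : Finset ℕ) (hT : ∀ t ∈ T, t ≤ H) (hR : T.card ≤ R) (t : ℕ) (ht1 : 1 ≤ t) (ht : t ≤ H)
    (htT : t ∉ T) (hco : Nat.Coprime (ν + t) (WW X)) :
    MM X T * ((1 - 1 / 1000) * ∑ m ∈ range (NN X), thn (nn X ν m + t) -
        (X : ℝ) / WW X / Real.log X ^ 2) ≤
      ∑ m ∈ range (NN X), Ps X ν T m ^ 2 * thn (nn X ν m + t) := by
  classical
  obtain ⟨hCr, hC⟩ := hC
  have hW : 0 < WW X := primorial_pos _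
  have hN := h.N0
  have hzW := h.zW
  have hz100 := h.z100
  have hX10 := h.X3
  -- the primes
  have hPz : ∀ p ∈ PP X, zz X < p := G2.Pbig_lt
  have hPp : ∀ p ∈ PP X, p.Prime := G2.Pbig_prime
  have hsmallint : ∀ p ∈ PP X, ∀ d : ℤ, d ≠ 0 → |d| ≤ H → ¬ (p : ℤ) ∣ d := by
    intro p hp d hd0 hdH hdvd
    have h1 := Int.le_of_dvd (abs_pos.2 hd0) ((dvd_abs _ _).2 hdvd)
    have h2 := hPz p hp
    omega
  have hO : Offs (PP X) (fun i : T => ((i : ℕ) : ℤ) - t) := by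
    refine ⟨hPp, fun p hp i => ?_, fun p hp i j hij => ?_⟩
    · have h1 := hT i i.2
      have h2 : (i : ℕ) ≠ t := fun h3 => htT (h3 ▸ i.2)
      refine hsmallint p hp _ ?_ ?_
      · omega
      · rw [abs_le]
        omega
    · have h1 := hT i i.2
      have h2 := hT j j.2
      have h3 : (i : ℕ) ≠ j := fun h4 => hij (Subtype.ext h4)
      have h5 : ((i : ℕ) : ℤ) - t - (((j : ℕ) : ℤ) - t) = ((i : ℕ) : ℤ) - (j : ℕ) := by ring
      rw [h5]
      refine hsmallint p hp _ ?_ ?_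
      · omega
      · rw [abs_le]
        omega
  have hcoef : Coef (PP X) (fun σ : PP X → Option T => |vv X T σ|) (YY X) := cf_coef h.big
  -- sizes
  have hcardR : (Fintype.card T : ℝ) ≤ R := by
    rw [Fintype.card_coe]
    exact_mod_cast hR
  have hcard0 : (0 : ℝ) ≤ Fintype.card T := Nat.cast_nonneg _
  have hlam : (20 * (Fintype.card T : ℝ)) ^ 4 ≤ zz X :=
    (pow_le_pow_left₀ (by positivity) (by linarith) 4).trans h.lam
  have h20R : 20 * R ≤ zz X := by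
    have h1 : ((20 * R) ^ 4 : ℕ) ≤ zz X := by
      have h2 := h.lam
      exact_mod_cast h2
    exact (Nat.le_self_pow (by norm_num) _).trans h1
  have hR6 : ∀ p ∈ PP X, 6 * Fintype.card T + 5 ≤ p := by
    intro p hp
    have h1 := hPz p hp
    rw [Fintype.card_coe]
    omega
  obtain ⟨X₁, hX₁⟩ : ∃ X₁, X₁ = WW X * (X / WW X + 1) + ν + t - 1 := ⟨_, rfl⟩
  obtain ⟨X₂, hX₂⟩ : ∃ X₂, X₂ = WW X * (X / WW X + NN X) + ν + t := ⟨_, rfl⟩
  have hXX₁ : X ≤ X₁ := by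
    have h1 := Nat.lt_mul_div_succ X hW
    rw [hX₁]
    omega
  have hX₁₂ : X₁ ≤ X₂ := by
    have h1 : WW X * (X / WW X + 1) ≤ WW X * (X / WW X + NN X) := Nat.mul_le_mul_left _ (by omega)
    rw [hX₁, hX₂]
    omega
  have hX₂X : X₂ ≤ 3 * X := by
    have h1 : WW X * (X / WW X) ≤ X := Nat.mul_div_le _ _
    have h2 : WW X * (X / WW X + NN X) + 3 * WW X = 2 * (WW X * (X / WW X)) := by
      have h3 : NN X + 3 = X / WW X := by
        unfold NN at hN ⊢
        omega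
      calc WW X * (X / WW X + NN X) + 3 * WW X = WW X * (X / WW X + (NN X + 3)) := by ring
        _ = 2 * (WW X * (X / WW X)) := by rw [h3]; ring
    rw [hX₂]
    omega
  have hpS : ∀ x ∈ clp X₁ X₂ (WW X) (ν + t), x.Prime ∧ X < x := by
    intro x hx
    unfold clp at hx
    rw [mem_filter, mem_filter, mem_Ioc] at hx
    exact ⟨hx.2, lt_of_le_of_lt hXX₁ hx.1.1.1⟩
  have hθ : ∀ x ∈ clp X₁ X₂ (WW X) (ν + t), 0 ≤ thn x := by
    intro x hx
    unfold thn
    split_ifs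
    · exact Real.log_natCast_nonneg x
    · exact le_refl _
  have hS : ∀ x ∈ clp X₁ X₂ (WW X) (ν + t), ∀ p ∈ PP X, ¬ p ∣ x := by
    intro x hx p hp hdvd
    obtain ⟨h1, h2⟩ := hpS x hx
    have h3 := (Nat.prime_dvd_prime_iff_eq (hPp p hp) h1).1 hdvd
    have h4 : p ≤ YY X := G2.Pbig_le p hp
    have h5 := h.YX
    omega
  have hw := wsum hO hcoef hR6 (1 / 1000) (by norm_num)
    (fun σ hσ => psiPr_num h T hR σ hσ) (clp X₁ X₂ (WW X) (ν + t)) thn hθ hS
  have hmass : ∑ σ : PP X → Option T, vv X T σ ^ 2 * ph (PP X) σ = MM X T := by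
    unfold MM mass
    exact Finset.sum_congr rfl fun σ _ => by rw [sq_abs]
  have hmass0 : 0 ≤ MM X T := by
    rw [← hmass]
    refine Finset.sum_nonneg fun σ _ => mul_nonneg (sq_nonneg _) ?_
    unfold ph
    refine Finset.prod_nonneg fun p _ => ?_
    split_ifs
    · exact zero_le_one
    · have : (1 : ℝ) ≤ ((p : ℕ) : ℝ) := by exact_mod_cast (hPp p p.2).one_le
      linarith
  have hsum1 : ∑ x ∈ clp X₁ X₂ (WW X) (ν + t), thn x =
      ∑ m ∈ range (NN X), thn (nn X ν m + t) := by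
    have h1 := sum_clp h ν t ht1 (fun _ => 1)
    simp only [mul_one] at h1
    rw [hX₁, hX₂]
    exact h1
  have hsum2 : ∑ x ∈ clp X₁ X₂ (WW X) (ν + t), thn x * (∑ σ : PP X → Option T, vv X T σ *
      PhiZ (PP X) (fun i : T => ((i : ℕ) : ℤ) - t) σ x) ^ 2 =
      ∑ m ∈ range (NN X), Ps X ν T m ^ 2 * thn (nn X ν m + t) := by
    have h1 := sum_clp h ν t ht1 (fun x => (∑ σ : PP X → Option T, vv X T σ *
      PhiZ (PP X) (fun i : T => ((i : ℕ) : ℤ) - t) σ x) ^ 2)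
    rw [hX₁, hX₂, h1]
    refine Finset.sum_congr rfl fun m _ => ?_
    rw [mul_comm]
    congr 2
    unfold Ps
    exact Finset.sum_congr rfl fun σ _ => by rw [PhiZ_eq]
  rw [hmass, hsum1, hsum2] at hw
  refine le_trans ?_ hw
  refine mul_le_mul_of_nonneg_left ?_ hmass0
  -- the error
  have hrbv := hC X X₁ X₂ (WW X) (ν + t) (YY X ^ 2) (PP X) (zz X)
    (20 * (Fintype.card T : ℝ)) (by omega) hXX₁ hX₁₂ hX₂X hW hco
    (Nat.one_le_pow _ _ (by have := h.big.hY; omega)) h.rbv (by exact_mod_cast (by omega : 2 ≤ zz X))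
    (fun p hp => ⟨hPp p hp, by exact_mod_cast (hPz p hp).le, fun hd => by
      unfold WW at hd
      have h1 := (hPp p hp).dvd_primorial_iff.1 hd
      have h2 : ((p : ℕ) : ℝ) ≤ Real.log X / 100 := by
        refine le_trans (by exact_mod_cast h1) (Nat.floor_le ?_)
        have := h.L1
        linarith
      have h3 := h.zD
      have h4 : ((zz X : ℕ) : ℝ) < p := by exact_mod_cast hPz p hp
      linarith⟩) (by positivity) hlam
  have hXW : (0 : ℝ) ≤ (X : ℝ) / WW X := by positivity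
  have herr : (1 + 1 / 1000) * (Cr * ((X : ℝ) / WW X) * (1 + Real.log X) ^ 5 *
      (zz X : ℝ) ^ (-(3 / 4 : ℝ))) ≤ (X : ℝ) / WW X / Real.log X ^ 2 := by
    have h1 := mul_le_mul_of_nonneg_left h.err4 hXW
    have h2 : (X : ℝ) / WW X * (1 / Real.log X ^ 2) = (X : ℝ) / WW X / Real.log X ^ 2 := by ring
    rw [h2] at h1
    refine le_trans (le_of_eq ?_) h1
    ring
  have h3 := mul_le_mul_of_nonneg_left hrbv (show (0 : ℝ) ≤ 1 + 1 / 1000 by norm_num)
  linarith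

end Pool.Agent.H.MP_711652_nt.CH
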