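import Mathlib

/-! # MP_711652, CH: the abstract last step -/

set_option autoImplicit false

namespace Pool.Agent.H.MP_711652_nt.CH

open Finset

/-- PROOF. Otherwise `Nh - (K+3) Ph ≤ K` at all points which are not bad.  Then `∑_{not bad} q Nh ≤ K (1 + ε) + (K + 3) C4` and
`∑_{bad} q Nh ≤ √(C3 ε2)` (Cauchy-Schwarz) for every `ν`; sum over `ν`. -/
theorem abs_fin (W N K : ℕ) (q Nh Ph : ℕ → ℕ → ℝ) (bad : ℕ → ℕ → Prop) (ε ε2 C3 C4 lam : ℝ)
    (hW : 0 < W) (hq : ∀ ν < W, ∀ m < N, 0 ≤ q ν m) (hP : ∀ ν < W, ∀ m < N, 0 ≤ Ph ν m)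
    (hC4 : 0 ≤ C4)
    (h1 : ∀ ν < W, ∑ m ∈ range N, q ν m ≤ 1 + ε)
    (h2 : ∀ ν < W, ∀ S ⊆ range N, (∀ m ∈ S, bad ν m) → ∑ m ∈ S, q ν m ≤ ε2)
    (h3 : ∀ ν < W, ∑ m ∈ range N, q ν m * Nh ν m ^ 2 ≤ C3)
    (h4 : ∀ ν < W, ∑ m ∈ range N, q ν m * Ph ν m ≤ C4)
    (h5 : W * lam ≤ ∑ ν ∈ range W, ∑ m ∈ range N, q ν m * Nh ν m)
    (h : K * (1 + ε) + (K + 3) * C4 + Real.sqrt (C3 * ε2) < lam) :
    ∃ ν < W, ∃ m < N, ¬ bad ν m ∧ K < Nh ν m - (K + 3) * Ph ν m := by
  classical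
  have _ := hC4
  by_contra hcon
  push Not at hcon
  have hK : (0 : ℝ) ≤ K := Nat.cast_nonneg K
  have key : ∀ ν < W, ∑ m ∈ range N, q ν m * Nh ν m ≤
      K * (1 + ε) + (K + 3) * C4 + Real.sqrt (C3 * ε2) := by
    intro ν hν
    rw [← sum_filter_add_sum_filter_not (range N) (fun m => ¬ bad ν m)]
    have hg : ∑ m ∈ (range N).filter (fun m => ¬ bad ν m), q ν m * Nh ν m ≤
        K * (1 + ε) + (K + 3) * C4 := by
      have e1 : ∑ m ∈ (range N).filter (fun m => ¬ bad ν m), q ν m * Nh ν m ≤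
          ∑ m ∈ (range N).filter (fun m => ¬ bad ν m), q ν m * (K + (K + 3) * Ph ν m) := by
        refine sum_le_sum fun m hm => ?_
        rw [mem_filter, mem_range] at hm
        refine mul_le_mul_of_nonneg_left ?_ (hq ν hν m hm.1)
        have := hcon ν hν m hm.1 hm.2
        linarith
      have e2 : ∑ m ∈ (range N).filter (fun m => ¬ bad ν m), q ν m * (K + (K + 3) * Ph ν m) ≤
          ∑ m ∈ range N, q ν m * (K + (K + 3) * Ph ν m) := by
        refine sum_le_sum_of_subset_of_nonneg (filter_subset _ _) fun m hm _ => ?_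
        rw [mem_range] at hm
        refine mul_nonneg (hq ν hν m hm) ?_
        have := hP ν hν m hm
        positivity
      have e3 : ∑ m ∈ range N, q ν m * (K + (K + 3) * Ph ν m) =
          K * ∑ m ∈ range N, q ν m + (K + 3) * ∑ m ∈ range N, q ν m * Ph ν m := by
        rw [mul_sum, mul_sum, ← sum_add_distrib]
        refine sum_congr rfl fun m _ => ?_
        ring
      have e4 := mul_le_mul_of_nonneg_left (h1 ν hν) hK
      have e5 := mul_le_mul_of_nonneg_left (h4 ν hν) (by linarith : (0 : ℝ) ≤ K + 3)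
      linarith
    have hb : ∑ m ∈ (range N).filter (fun m => ¬ ¬ bad ν m), q ν m * Nh ν m ≤
        Real.sqrt (C3 * ε2) := by
      refine Real.le_sqrt_of_sq_le ?_
      have hpos : ∀ m ∈ (range N).filter (fun m => ¬ ¬ bad ν m), 0 ≤ q ν m := by
        intro m hm
        rw [mem_filter, mem_range] at hm
        exact hq ν hν m hm.1
      have e1 := sum_sq_le_sum_mul_sum_of_sq_le_mul ((range N).filter (fun m => ¬ ¬ bad ν m))
        (r := fun m => q ν m * Nh ν m) (f := fun m => q ν m * Nh ν m ^ 2) (g := fun m => q ν m)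
        (fun m hm => mul_nonneg (hpos m hm) (sq_nonneg _)) hpos (fun m _ => le_of_eq (by ring))
      refine e1.trans ?_
      have e2 : ∑ m ∈ (range N).filter (fun m => ¬ ¬ bad ν m), q ν m ≤ ε2 := by
        refine h2 ν hν _ (filter_subset _ _) fun m hm => ?_
        rw [mem_filter] at hm
        exact not_not.1 hm.2
      have e3 : ∑ m ∈ (range N).filter (fun m => ¬ ¬ bad ν m), q ν m * Nh ν m ^ 2 ≤ C3 := by
        refine le_trans ?_ (h3 ν hν)
        refine sum_le_sum_of_subset_of_nonneg (filter_subset _ _) fun m hm _ => ?_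
        rw [mem_range] at hm
        exact mul_nonneg (hq ν hν m hm) (sq_nonneg _)
      have e4 : 0 ≤ ∑ m ∈ (range N).filter (fun m => ¬ ¬ bad ν m), q ν m := sum_nonneg hpos
      have e5 : 0 ≤ ∑ m ∈ (range N).filter (fun m => ¬ ¬ bad ν m), q ν m * Nh ν m ^ 2 :=
        sum_nonneg fun m hm => mul_nonneg (hpos m hm) (sq_nonneg _)
      exact mul_le_mul e3 e2 e4 (e5.trans e3)
    linarith
  have h6 : ∑ ν ∈ range W, ∑ m ∈ range N, q ν m * Nh ν m ≤
      W * (K * (1 + ε) + (K + 3) * C4 + Real.sqrt (C3 * ε2)) := by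
    refine (sum_le_sum fun ν hν => key ν (mem_range.1 hν)).trans (le_of_eq ?_)
    rw [sum_const, card_range, nsmul_eq_mul]
  have hWR : (0 : ℝ) < W := by exact_mod_cast hW
  have h7 := mul_lt_mul_of_pos_left h hWR
  linarith

end Pool.Agent.H.MP_711652_nt.CH
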