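import Mathlib

/-! # MP_711652, CH: many primes in holes and few pairs give a chain of gaps -/

set_option autoImplicit false

namespace Pool.Agent.H.MP_711652_nt.CH

open Finset

/-- the number of primes of the hole `j` behind `n` -/
def cnt (n s v j : ℕ) : ℕ := ((Ioc (n + j * (s + v)) (n + j * (s + v) + s)).filter Nat.Prime).card

/-- Pigeonhole. PROOF. Cut `range k` at the `j` with `c j ≥ 2`: at most `M + 1` runs, `M = #{c j ≥ 2}`, and `K * (M + 1) < #{c j = 1}`.  (Or induction on `k`:
strengthen to: either the conclusion, or `#{c = 1} ≤ K * M + (number of c = 1 after the last c ≥ 2)` and the latter is `≤ K`.)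
The result is a sequence of `K + 1` indices with `c = 1` with `c = 0` at all other indices in between. -/
theorem pigeon (k K : ℕ) (c : ℕ → ℕ)
    (h : K * (((range k).filter (fun j => 2 ≤ c j)).card + 1) <
      ((range k).filter (fun j => c j = 1)).card) :
    ∃ j : ℕ → ℕ, (∀ i ≤ K, j i < k ∧ c (j i) = 1) ∧ (∀ i < K, j i < j (i + 1)) ∧
      ∀ i, j 0 ≤ i → i ≤ j K → c i = 0 ∨ ∃ l ≤ K, i = j l := by
  classical
  obtain ⟨f, hf⟩ : ∃ f : ℕ → ℕ, ∀ j, f j = ((range j).filter (fun i => 2 ≤ c i)).card :=
    ⟨_, fun _ => rfl⟩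
  have hmono : ∀ a b, a ≤ b → f a ≤ f b := by
    intro a b hab
    rw [hf, hf]
    exact card_le_card (filter_subset_filter _ (range_subset_range.2 hab))
  have hstrict : ∀ a b, a < b → 2 ≤ c a → f a < f b := by
    intro a b hab hc
    have h1 : f (a + 1) = f a + 1 := by
      rw [hf, hf, range_add_one, filter_insert, if_pos hc, card_insert_of_notMem (by simp)]
    have h2 := hmono (a + 1) b hab
    omega
  have hmaps : ∀ j ∈ (range k).filter (fun j => c j = 1),
      f j ∈ range (((range k).filter (fun j => 2 ≤ c j)).card + 1) := by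
    intro j hj
    rw [mem_filter, mem_range] at hj
    rw [mem_range, Nat.lt_succ_iff, ← hf k]
    exact hmono j k hj.1.le
  obtain ⟨y, _, hy⟩ := exists_lt_card_fiber_of_mul_lt_card_of_maps_to
    (n := K) hmaps (by rw [card_range, mul_comm]; exact h)
  obtain ⟨S, hS⟩ : ∃ S, S = ((range k).filter (fun j => c j = 1)).filter (fun j => f j = y) :=
    ⟨_, rfl⟩
  rw [← hS] at hy
  have hSm : ∀ i, i ∈ S ↔ i < k ∧ c i = 1 ∧ f i = y := by
    intro i
    rw [hS, mem_filter, mem_filter, mem_range, and_assoc]
  obtain ⟨g, hg⟩ : ∃ g : ℕ → ℕ, ∀ i (hi : i < S.card), g i = S.orderEmbOfFin rfl ⟨i, hi⟩ :=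
    ⟨fun i => if hi : i < S.card then S.orderEmbOfFin rfl ⟨i, hi⟩ else 0, fun i hi => dif_pos hi⟩
  have hgm : ∀ i, i < S.card → g i ∈ S := by
    intro i hi
    rw [hg i hi]
    exact orderEmbOfFin_mem S rfl _
  have hglt : ∀ a b, a < b → b < S.card → g a < g b := by
    intro a b hab hb
    rw [hg a (hab.trans hb), hg b hb]
    exact (S.orderEmbOfFin rfl).strictMono (by simpa using hab)
  refine ⟨g, fun i hi => ?_, fun i hi => hglt i (i + 1) (Nat.lt_succ_self i) (by omega), ?_⟩
  · have := (hSm _).1 (hgm i (by omega))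
    exact ⟨this.1, this.2.1⟩
  · intro i h0 hK
    have e0 := (hSm _).1 (hgm 0 (by omega))
    have eK := (hSm _).1 (hgm K hy)
    have hi2 : ¬ 2 ≤ c i := by
      intro hc
      have hne : i ≠ g K := by
        rintro rfl
        omega
      have h1 := hstrict i (g K) (lt_of_le_of_ne hK hne) hc
      have h2 := hmono (g 0) i h0
      omega
    rcases Nat.eq_zero_or_pos (c i) with hc | hc
    · exact Or.inl hc
    · right
      have hc1 : c i = 1 := by omega
      have hik : i < k := lt_of_le_of_lt hK eK.1
      have hfi : f i = y := by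
        have h1 := hmono (g 0) i h0
        have h2 := hmono i (g K) hK
        omega
      have hiS : i ∈ S := (hSm i).2 ⟨hik, hc1, hfi⟩
      have hr : i ∈ Set.range (S.orderEmbOfFin rfl) := by
        rw [range_orderEmbOfFin]
        exact hiS
      obtain ⟨⟨l, hl⟩, hli⟩ := hr
      refine ⟨l, ?_, by rw [hg l hl, hli]⟩
      by_contra hcon
      push Not at hcon
      have h3 := hglt K l hcon hl
      rw [hg l hl, hli] at h3
      omega

/-- PROOF. `c ≤ [c = 1] + 2 choose(c, 2)` and `[c ≥ 2] ≤ choose(c, 2)`, so `#{c = 1} ≥ ∑ c - 2 ∑ choose > K + (K+1) ∑ choose ≥ K + (K + 1) #{c ≥ 2}`. -/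
theorem pigeon_count (k K : ℕ) (c : ℕ → ℕ)
    (h : K + (K + 3) * ∑ j ∈ range k, (c j).choose 2 < ∑ j ∈ range k, c j) :
    K * (((range k).filter (fun j => 2 ≤ c j)).card + 1) <
      ((range k).filter (fun j => c j = 1)).card := by
  have h1 : ∑ j ∈ range k, c j ≤ ((range k).filter (fun j => c j = 1)).card +
      2 * ∑ j ∈ range k, (c j).choose 2 := by
    rw [card_filter, mul_sum, ← sum_add_distrib]
    refine sum_le_sum fun j _ => ?_
    rcases Nat.lt_or_ge (c j) 2 with h2 | h2
    · interval_cases hc : c j
      · simp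
      · simp
    · have h3 : 2 * (c j).choose 2 = c j * (c j - 1) := by
        rw [Nat.choose_two_right, Nat.mul_div_cancel' (Nat.even_mul_pred_self (c j)).two_dvd]
      have h4 : c j ≤ c j * (c j - 1) := Nat.le_mul_of_pos_right _ (by omega)
      omega
  have h2 : ((range k).filter (fun j => 2 ≤ c j)).card ≤ ∑ j ∈ range k, (c j).choose 2 := by
    rw [card_filter]
    refine sum_le_sum fun j _ => ?_
    split_ifs with h3
    · exact Nat.choose_pos h3
    · exact Nat.zero_le _
  nlinarith [Nat.mul_le_mul_left K h2]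

/-- PROOF. `pigeon`, `pigeon_count` give `K + 1` holes with one prime each and no other primes between (the voids are composite), i.e. `K + 1` consecutive primes;
with `i = Nat.count Nat.Prime` of the first of them, `Nat.nth_count`, `Nat.count`.  Primes in different holes have distance `> v`. -/
theorem chain_of_counts (n s v k K : ℕ)
    (hvoid : ∀ j < k, ∀ t, j * (s + v) + s < t → t ≤ (j + 1) * (s + v) → ¬ (n + t).Prime)
    (h : K + (K + 3) * ∑ j ∈ range k, (cnt n s v j).choose 2 < ∑ j ∈ range k, cnt n s v j) :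
    ∃ i : ℕ, n < Nat.nth Nat.Prime i ∧ Nat.nth Nat.Prime (i + K) ≤ n + k * (s + v) ∧
      ∀ l < K, Nat.nth Nat.Prime (i + l) + v < Nat.nth Nat.Prime (i + l + 1) := by
  classical
  obtain ⟨j, hj1, hj2, hj3⟩ := pigeon k K (cnt n s v) (pigeon_count k K (cnt n s v) h)
  have hjm : ∀ a b, a < b → b ≤ K → j a < j b := by
    intro a b hab
    induction b with
    | zero => omega
    | succ b ih =>
      intro hb
      rcases Nat.lt_or_ge a b with h1 | h1
      · exact (ih h1 (by omega)).trans (hj2 b (by omega))
      · have : a = b := by omega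
        subst this
        exact hj2 a (by omega)
  have hjm' : ∀ a b, a ≤ b → b ≤ K → j a ≤ j b := by
    intro a b hab hb
    rcases Nat.lt_or_ge a b with h1 | h1
    · exact (hjm a b h1 hb).le
    · have : a = b := by omega
      rw [this]
  have hex : ∀ l, ∃ q, l ≤ K →
      (Ioc (n + j l * (s + v)) (n + j l * (s + v) + s)).filter Nat.Prime = {q} := by
    intro l
    by_cases hl : l ≤ K
    · obtain ⟨q, hq⟩ := card_eq_one.1 (hj1 l hl).2
      exact ⟨q, fun _ => hq⟩
    · exact ⟨0, fun h => absurd h hl⟩
  choose q hq using hex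
  have hqm : ∀ l, l ≤ K → n + j l * (s + v) < q l ∧ q l ≤ n + j l * (s + v) + s ∧
      (q l).Prime := by
    intro l hl
    have h1 : q l ∈ (Ioc (n + j l * (s + v)) (n + j l * (s + v) + s)).filter Nat.Prime := by
      rw [hq l hl]
      exact mem_singleton_self _
    rw [mem_filter, mem_Ioc] at h1
    exact ⟨h1.1.1, h1.1.2, h1.2⟩
  have hqu : ∀ l, l ≤ K → ∀ r, n + j l * (s + v) < r → r ≤ n + j l * (s + v) + s → r.Prime →
      r = q l := by
    intro l hl r h1 h2 h3
    have h4 : r ∈ (Ioc (n + j l * (s + v)) (n + j l * (s + v) + s)).filter Nat.Prime := by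
      rw [mem_filter, mem_Ioc]
      exact ⟨⟨h1, h2⟩, h3⟩
    rw [hq l hl, mem_singleton] at h4
    exact h4
  have hqv : ∀ l, l < K → q l + v < q (l + 1) := by
    intro l hl
    have h1 := hqm l hl.le
    have h2 := hqm (l + 1) hl
    have h3 : (j l + 1) * (s + v) ≤ j (l + 1) * (s + v) := Nat.mul_le_mul_right _ (hj2 l hl)
    have h4 : (j l + 1) * (s + v) = j l * (s + v) + s + v := by ring
    omega
  -- no primes in between
  have hno : ∀ l, l < K → ∀ r, q l < r → r < q (l + 1) → ¬ r.Prime := by
    intro l hl r h1 h2 hr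
    have a1 := hqm l hl.le
    have a2 := hqm (l + 1) hl
    have hs : 0 < s := by omega
    have hsv : 0 < s + v := by omega
    obtain ⟨t, ht⟩ : ∃ t, r = n + t := ⟨r - n, by omega⟩
    have ht0 : 0 < t := by omega
    obtain ⟨i, hi⟩ : ∃ i, i = (t - 1) / (s + v) := ⟨_, rfl⟩
    have hi1 : i * (s + v) < t := by
      have := Nat.div_mul_le_self (t - 1) (s + v)
      rw [← hi] at this
      omega
    have hi2 : t ≤ (i + 1) * (s + v) := by
      have := Nat.lt_mul_div_succ (t - 1) hsv
      rw [← hi, mul_comm] at this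
      omega
    have hli : j l ≤ i := by
      by_contra hcon
      push Not at hcon
      have h5 : (i + 1) * (s + v) ≤ j l * (s + v) := Nat.mul_le_mul_right _ hcon
      omega
    have hil : i ≤ j (l + 1) := by
      by_contra hcon
      push Not at hcon
      have h5 : (j (l + 1) + 1) * (s + v) ≤ i * (s + v) := Nat.mul_le_mul_right _ hcon
      have h6 : (j (l + 1) + 1) * (s + v) = j (l + 1) * (s + v) + s + v := by ring
      omega
    have hik : i < k := lt_of_le_of_lt hil (hj1 (l + 1) hl).1
    rcases Nat.lt_or_ge (i * (s + v) + s) t with h5 | h5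
    · exact hvoid i hik t h5 hi2 (by rw [← ht]; exact hr)
    · have hc : cnt n s v i ≠ 0 := by
        have h6 : r ∈ (Ioc (n + i * (s + v)) (n + i * (s + v) + s)).filter Nat.Prime := by
          rw [mem_filter, mem_Ioc]
          exact ⟨⟨by omega, by omega⟩, hr⟩
        exact (card_pos.2 ⟨r, h6⟩).ne'
      rcases hj3 i ((hjm' 0 l (Nat.zero_le _) hl.le).trans hli)
        (hil.trans (hjm' (l + 1) K hl (le_refl K))) with h6 | ⟨l', hl', hl'i⟩
      · exact hc h6
      · have h7 : l ≤ l' := by
          by_contra hcon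
          push Not at hcon
          have := hjm l' l hcon hl.le
          omega
        have h8 : l' ≤ l + 1 := by
          by_contra hcon
          push Not at hcon
          have := hjm (l + 1) l' hcon hl'
          omega
        have h9 := hqu l' hl' r (by rw [← hl'i]; omega) (by rw [← hl'i]; omega) hr
        rcases Nat.eq_or_lt_of_le h7 with h10 | h10
        · rw [← h10] at h9
          omega
        · have h11 : l' = l + 1 := by omega
          rw [h11] at h9
          omega
  have hcount : ∀ l, l ≤ K → Nat.count Nat.Prime (q l) = Nat.count Nat.Prime (q 0) + l := by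
    intro l
    induction l with
    | zero => intro _; rfl
    | succ l ih =>
      intro hl
      have h1 := ih (by omega)
      have h2 : (range (q (l + 1))).filter Nat.Prime = insert (q l) ((range (q l)).filter Nat.Prime) := by
        have h3 := hqv l (by omega)
        have h4 := (hqm l (by omega)).2.2
        ext r
        simp only [mem_filter, mem_range, mem_insert]
        constructor
        · rintro ⟨h5, h6⟩
          by_cases h7 : q l < r
          · exact absurd h6 (hno l (by omega) r h7 h5)
          · rcases Nat.eq_or_lt_of_le (not_lt.1 h7) with h8 | h8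
            · exact Or.inl h8
            · exact Or.inr ⟨h8, h6⟩
        · rintro (h5 | ⟨h5, h6⟩)
          · subst h5
            exact ⟨by omega, h4⟩
          · exact ⟨by omega, h6⟩
      rw [Nat.count_eq_card_filter_range, h2, card_insert_of_notMem (by simp),
        ← Nat.count_eq_card_filter_range, h1]
      ring
  have hnth : ∀ l, l ≤ K → Nat.nth Nat.Prime (Nat.count Nat.Prime (q 0) + l) = q l := by
    intro l hl
    rw [← hcount l hl]
    exact Nat.nth_count (hqm l hl).2.2
  refine ⟨Nat.count Nat.Prime (q 0), ?_, ?_, ?_⟩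
  · have h1 := hnth 0 (Nat.zero_le K)
    rw [add_zero] at h1
    rw [h1]
    have := (hqm 0 (Nat.zero_le K)).1
    omega
  · rw [hnth K (le_refl K)]
    have h1 := (hqm K (le_refl K)).2.1
    have h2 : (j K + 1) * (s + v) ≤ k * (s + v) := Nat.mul_le_mul_right _ (hj1 K (le_refl K)).1
    have h4 : (j K + 1) * (s + v) = j K * (s + v) + s + v := by ring
    omega
  · intro l hl
    rw [hnth l hl.le, add_assoc, hnth (l + 1) hl]
    exact hqv l hl

end Pool.Agent.H.MP_711652_nt.CH
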