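import Pool.Agent.H.MP_711652_nt.G2.SvJ

/-! # MP_711652, CH: few positions of an interval are prime to the primorial, every residue -/

set_option autoImplicit false

namespace Pool.Agent.H.MP_711652_nt.CH

open Finset

private theorem sv_dvd {a b : ℕ} (h : a ≤ b) : primorial a ∣ primorial b := by
  unfold primorial
  apply Finset.prod_dvd_prod_of_subset
  intro p hp
  rw [Finset.mem_filter, Finset.mem_range] at hp ⊢
  exact ⟨by omega, hp.2⟩

/-- PROOF. `svJ` with `D = ⌊L^(1/3)⌋` (which divides the primorial, `D ≤ L/100`, `D^2 ≤ len`), shift `ν + a`; `log D ≥ (1/4) log L`.  See `window_card` in `G2/CoreDS.lean`. -/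
theorem sv_int {L : ℝ} (hL : 10 ^ 9 ≤ L) (ν a len : ℕ) (hlen : L ^ (2 / 3 : ℝ) ≤ len) :
    (((Ioc a (a + len)).filter (fun k => Nat.Coprime (ν + k) (primorial ⌊L / 100⌋₊))).card : ℝ) ≤
      84 * (len / Real.log L) := by
  have hL0 : (0 : ℝ) < L := by linarith [show (0 : ℝ) < 10 ^ 9 by norm_num]
  have hL1 : (1 : ℝ) < L := by linarith [show (1 : ℝ) < 10 ^ 9 by norm_num]
  set x : ℝ := L ^ (1 / 3 : ℝ) with hx
  have hx0 : 0 < x := Real.rpow_pos_of_pos hL0 _
  have hx3 : x ^ 3 = L := by
    rw [hx, ← Real.rpow_natCast, ← Real.rpow_mul hL0.le]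
    norm_num
  have hx2 : x ^ 2 = L ^ (2 / 3 : ℝ) := by
    rw [hx, ← Real.rpow_natCast, ← Real.rpow_mul hL0.le]
    norm_num
  have hx1000 : 1000 ≤ x := by
    by_contra hcon
    push Not at hcon
    have : x ^ 3 < 1000 ^ 3 := pow_lt_pow_left₀ hcon hx0.le (by norm_num)
    rw [hx3] at this
    norm_num at this hL
    linarith
  set D : ℕ := ⌊x⌋₊ with hD
  have hDx : (D : ℝ) ≤ x := Nat.floor_le hx0.le
  have hxD : x - 1 < D := by
    have := Nat.lt_floor_add_one x
    rw [← hD] at this
    linarith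
  have hD2 : 2 ≤ D := Nat.le_floor (by norm_num; linarith)
  have hDlen : D ^ 2 ≤ len := by
    have h1 : ((D ^ 2 : ℕ) : ℝ) ≤ len := by
      push_cast
      calc (D : ℝ) ^ 2 ≤ x ^ 2 := pow_le_pow_left₀ (Nat.cast_nonneg D) hDx 2
        _ = L ^ (2 / 3 : ℝ) := hx2
        _ ≤ len := hlen
    exact_mod_cast h1
  have hDL : D ≤ ⌊L / 100⌋₊ := by
    apply Nat.floor_le_floor
    have h1 : x ^ 3 = x * x ^ 2 := by ring
    have h2 : (1000 : ℝ) ^ 2 ≤ x ^ 2 := pow_le_pow_left₀ (by norm_num) hx1000 2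
    rw [← hx3, h1, le_div_iff₀ (by norm_num)]
    nlinarith
  have hlogD : Real.log L / 4 ≤ Real.log D := by
    have h1 : Real.log L / 4 = Real.log (L ^ (1 / 4 : ℝ)) := by
      rw [Real.log_rpow hL0]
      ring
    rw [h1]
    apply Real.log_le_log (Real.rpow_pos_of_pos hL0 _)
    set w : ℝ := L ^ (1 / 12 : ℝ) with hw
    have hw0 : 0 < w := Real.rpow_pos_of_pos hL0 _
    have hw4 : w ^ 4 = x := by
      rw [hw, ← Real.rpow_natCast, ← Real.rpow_mul hL0.le, hx]
      norm_num
    have hw3 : w ^ 3 = L ^ (1 / 4 : ℝ) := by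
      rw [hw, ← Real.rpow_natCast, ← Real.rpow_mul hL0.le]
      norm_num
    have hw2 : 2 ≤ w := by
      by_contra hcon
      push Not at hcon
      have : w ^ 4 < 2 ^ 4 := pow_lt_pow_left₀ hcon hw0.le (by norm_num)
      rw [hw4] at this
      norm_num at this
      linarith
    rw [← hw3]
    have h2 : w ^ 3 * 2 ≤ w ^ 4 := by
      have : w ^ 4 = w ^ 3 * w := by ring
      rw [this]
      exact mul_le_mul_of_nonneg_left hw2 (by positivity)
    have h3 : (1 : ℝ) ≤ w ^ 3 := by
      calc (1 : ℝ) = 1 ^ 3 := by norm_num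
        _ ≤ w ^ 3 := pow_le_pow_left₀ (by norm_num) (by linarith) 3
    linarith
  have hlL : 0 < Real.log L := Real.log_pos hL1
  have hlD : 0 < Real.log D := by linarith
  have hcard : ((Ioc a (a + len)).filter
      (fun k => Nat.Coprime (ν + k) (primorial ⌊L / 100⌋₊))).card ≤
      ((Ioc 0 len).filter fun k => Nat.Coprime ((ν + a) + k) (primorial D)).card := by
    apply Finset.card_le_card_of_injOn (fun k => k - a)
    · intro k hk
      simp only [coe_filter, mem_Ioc, Set.mem_setOf_eq] at hk ⊢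
      obtain ⟨⟨h1, h2⟩, h3⟩ := hk
      refine ⟨⟨by omega, by omega⟩, ?_⟩
      have h4 : ν + a + (k - a) = ν + k := by omega
      rw [h4]
      exact Nat.Coprime.coprime_dvd_right (sv_dvd hDL) h3
    · intro k hk l hl hkl
      simp only [coe_filter, mem_Ioc, Set.mem_setOf_eq] at hk hl
      simp only at hkl
      omega
  calc (((Ioc a (a + len)).filter
      (fun k => Nat.Coprime (ν + k) (primorial ⌊L / 100⌋₊))).card : ℝ)
      ≤ (((Ioc 0 len).filter fun k => Nat.Coprime ((ν + a) + k) (primorial D)).card : ℝ) := by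
        exact_mod_cast hcard
    _ ≤ 21 * (len / Real.log D) := G2.svJ hD2 hDlen (ν + a)
    _ ≤ 84 * (len / Real.log L) := by
        have h1 : (len : ℝ) / Real.log D ≤ len / (Real.log L / 4) :=
          div_le_div_of_nonneg_left (Nat.cast_nonneg len) (by linarith) hlogD
        have h2 : (len : ℝ) / (Real.log L / 4) = 4 * (len / Real.log L) := by
          field_simp
        rw [h2] at h1
        linarith

end Pool.Agent.H.MP_711652_nt.CH
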