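import Pool.Agent.H.MP_711652_nt.CH.LD
import Pool.Agent.H.MP_711652_nt.CH.Comb
import Pool.Agent.H.MP_711652_nt.CH.Sv

/-! # MP_711652, CH: the positions in the holes and in the voids -/

set_option autoImplicit false

namespace Pool.Agent.H.MP_711652_nt.CH

open Finset Pool.Agent.H.MP_711652_nt.LG Pool.Agent.H.MP_711652_nt.G2

/-- the positions of the hole `j` which are prime to `W` -/
noncomputable def hs (X ν s v j : ℕ) : Finset ℕ :=
  (Ioc (j * (s + v)) (j * (s + v) + s)).filter (fun t => Nat.Coprime (ν + t) (WW X))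

/-- the positions of the voids which are prime to `W` -/
noncomputable def vs (X ν k s v : ℕ) : Finset ℕ :=
  (range k).biUnion fun j =>
    (Ioc (j * (s + v) + s) ((j + 1) * (s + v))).filter (fun t => Nat.Coprime (ν + t) (WW X))

/-- all hole positions which are prime to `W` -/
noncomputable def hu (X ν k s v : ℕ) : Finset ℕ := (range k).biUnion fun j => hs X ν s v j

variable {Cr : ℝ} {X R : ℕ}

theorem hs_le {ν k s v j t : ℕ} (hj : j < k) (ht : t ∈ hs X ν s v j) :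
    1 ≤ t ∧ t ≤ k * (s + v) ∧ Nat.Coprime (ν + t) (WW X) := by
  unfold hs at ht
  rw [mem_filter, mem_Ioc] at ht
  obtain ⟨⟨h1, h2⟩, h3⟩ := ht
  have h4 : (j + 1) * (s + v) ≤ k * (s + v) := Nat.mul_le_mul_right _ hj
  rw [add_mul, one_mul] at h4
  exact ⟨by omega, by omega, h3⟩

theorem vs_le {ν k s v t : ℕ} (ht : t ∈ vs X ν k s v) : 1 ≤ t ∧ t ≤ k * (s + v) := by
  unfold vs at ht
  rw [mem_biUnion] at ht
  obtain ⟨j, hj, ht⟩ := ht
  rw [mem_filter, mem_Ioc] at ht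
  rw [mem_range] at hj
  obtain ⟨⟨h1, h2⟩, -⟩ := ht
  have h4 : (j + 1) * (s + v) ≤ k * (s + v) := Nat.mul_le_mul_right _ hj
  exact ⟨by omega, by omega⟩

theorem vs_hs_disj (ν k s v j : ℕ) : Disjoint (vs X ν k s v) (hs X ν s v j) := by
  rw [Finset.disjoint_left]
  intro t ht ht'
  unfold vs at ht
  unfold hs at ht'
  rw [mem_biUnion] at ht
  obtain ⟨i, -, ht⟩ := ht
  rw [mem_filter, mem_Ioc] at ht ht'
  obtain ⟨⟨h1, h2⟩, -⟩ := ht
  obtain ⟨⟨h3, h4⟩, -⟩ := ht'
  rcases lt_trichotomy i j with h | h | h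
  · have h5 : (i + 1) * (s + v) ≤ j * (s + v) := Nat.mul_le_mul_right _ h
    omega
  · subst h
    omega
  · have h5 : (j + 1) * (s + v) ≤ i * (s + v) := Nat.mul_le_mul_right _ h
    rw [add_mul, one_mul] at h5
    omega

theorem hs_disj (ν s v : ℕ) {i j : ℕ} (hij : i ≠ j) : Disjoint (hs X ν s v i) (hs X ν s v j) := by
  rw [Finset.disjoint_left]
  intro t ht ht'
  unfold hs at ht ht'
  rw [mem_filter, mem_Ioc] at ht ht'
  obtain ⟨⟨h1, h2⟩, -⟩ := ht
  obtain ⟨⟨h3, h4⟩, -⟩ := ht'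
  rcases lt_or_gt_of_ne hij with h | h
  · have h5 : (i + 1) * (s + v) ≤ j * (s + v) := Nat.mul_le_mul_right _ h
    rw [add_mul, one_mul] at h5
    omega
  · have h5 : (j + 1) * (s + v) ≤ i * (s + v) := Nat.mul_le_mul_right _ h
    rw [add_mul, one_mul] at h5
    omega

/-- PROOF. `sv_int`. -/
theorem hs_card (hL : 10 ^ 9 ≤ Real.log X) (ν s v j : ℕ) (hs' : Real.log X ^ (2 / 3 : ℝ) ≤ s) :
    ((hs X ν s v j).card : ℝ) ≤ 84 * (s / Real.log (Real.log X)) := by
  unfold hs WW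
  exact sv_int hL ν (j * (s + v)) s hs'

/-- PROOF. `sv_int` for each void, `card_biUnion_le`. -/
theorem vs_card (hL : 10 ^ 9 ≤ Real.log X) (ν k s v : ℕ) (hv' : Real.log X ^ (2 / 3 : ℝ) ≤ v) :
    ((vs X ν k s v).card : ℝ) ≤ 84 * (k * v / Real.log (Real.log X)) := by
  have h1 : ((vs X ν k s v).card : ℝ) ≤ ∑ j ∈ range k,
      (((Ioc (j * (s + v) + s) ((j + 1) * (s + v))).filter
        (fun t => Nat.Coprime (ν + t) (WW X))).card : ℝ) := by
    have h2 := card_biUnion_le (s := range k) (t := fun j =>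
      (Ioc (j * (s + v) + s) ((j + 1) * (s + v))).filter (fun t => Nat.Coprime (ν + t) (WW X)))
    unfold vs
    exact_mod_cast h2
  have h3 : ∀ j ∈ range k, (((Ioc (j * (s + v) + s) ((j + 1) * (s + v))).filter
      (fun t => Nat.Coprime (ν + t) (WW X))).card : ℝ) ≤
        84 * (v / Real.log (Real.log X)) := by
    intro j _
    have h4 : (j + 1) * (s + v) = j * (s + v) + s + v := by ring
    rw [h4]
    unfold WW
    exact sv_int hL ν (j * (s + v) + s) v hv'
  have h5 := sum_le_sum h3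
  rw [sum_const, card_range, nsmul_eq_mul] at h5
  have h6 : (k : ℝ) * (84 * (v / Real.log (Real.log X))) =
      84 * (k * v / Real.log (Real.log X)) := by ring
  linarith

theorem Holes_pos (X : ℕ) : 0 < WW X := primorial_pos _

theorem Holes_lt (X ν m : ℕ) : X < nn X ν m := by
  have h1 : X < WW X * (X / WW X + 1) := Nat.lt_mul_div_succ X (Holes_pos X)
  have h2 : WW X * (X / WW X + 1) ≤ WW X * (X / WW X + 1 + m) :=
    Nat.mul_le_mul_left _ (Nat.le_add_right _ _)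
  unfold nn
  omega

/-- `nn` is larger than `X` and the last positions are below `2X`.
PROOF. `W (X/W + 1) > X`; `W (X/W + 1 + m) + ν + t ≤ W (2 (X/W) - 2) + t ≤ 2X - 2W + t`, `t < zz X ≤ WW X`. -/
theorem nn_range (h : XF Cr X R) {ν m t : ℕ} (hν : ν < WW X) (hm : m < NN X) (ht : t ≤ WW X) :
    X < nn X ν m ∧ nn X ν m + t ≤ 2 * X := by
  have hW : 0 < WW X := Holes_pos X
  refine ⟨Holes_lt X ν m, ?_⟩
  have h1 : WW X * (X / WW X) ≤ X := Nat.mul_div_le X (WW X)
  unfold nn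
  unfold NN at hm
  obtain ⟨r, hr⟩ : ∃ r, X / WW X = m + 4 + r := ⟨X / WW X - (m + 4), by omega⟩
  rw [hr] at h1 ⊢
  have h2 : WW X * (m + 4 + r + 1 + m) + 3 * WW X ≤ 2 * (WW X * (m + 4 + r)) := by
    have h3 : 2 * (WW X * (m + 4 + r)) = WW X * (m + 4 + r + 1 + m) + 3 * WW X + WW X * r := by
      ring
    omega
  omega

/-- A prime `n + t` is prime to `W`, as it is larger than `X`. -/
theorem coprime_of_prime (h : XF Cr X R) {ν m t : ℕ} (hp : (nn X ν m + t).Prime) :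
    Nat.Coprime (ν + t) (WW X) := by
  by_contra hcon
  obtain ⟨q, hq, hq1, hq2⟩ := Nat.Prime.not_coprime_iff_dvd.1 hcon
  have h1 : q ∣ nn X ν m + t := by
    unfold nn
    rw [add_assoc]
    exact dvd_add (hq2.mul_right _) hq1
  have h2 : q = nn X ν m + t := (Nat.prime_dvd_prime_iff_eq hq hp).1 h1
  have h3 : q ≤ WW X := Nat.le_of_dvd (Holes_pos X) hq2
  have h4 := Holes_lt X ν m
  have h5 : WW X ≤ X := by
    have h6 := h.N0
    unfold NN at h6
    by_contra h7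
    rw [Nat.div_eq_of_lt (not_le.1 h7)] at h6
    omega
  omega

/-- PROOF. `coprime_of_prime` and the shift `t ↦ n + t`. -/
theorem cnt_eq (h : XF Cr X R) (ν m s v j : ℕ) :
    cnt (nn X ν m) s v j = ((hs X ν s v j).filter (fun t => (nn X ν m + t).Prime)).card := by
  unfold cnt
  symm
  refine card_nbij' (fun t => nn X ν m + t) (fun y => y - nn X ν m) ?_ ?_ ?_ ?_
  · intro t ht
    unfold hs at ht
    simp only [coe_filter, mem_filter, mem_Ioc, Set.mem_ofPred_eq] at ht ⊢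
    obtain ⟨⟨⟨h1, h2⟩, -⟩, h3⟩ := ht
    exact ⟨⟨by omega, by omega⟩, h3⟩
  · intro y hy
    unfold hs
    simp only [coe_filter, mem_filter, mem_Ioc, Set.mem_ofPred_eq] at hy ⊢
    obtain ⟨⟨h1, h2⟩, h3⟩ := hy
    have h4 : nn X ν m + (y - nn X ν m) = y := by omega
    rw [h4]
    refine ⟨⟨⟨by omega, by omega⟩, ?_⟩, h3⟩
    exact coprime_of_prime (t := y - nn X ν m) h (by rw [h4]; exact h3)
  · intro t _
    simp
  · intro y hy
    simp only [coe_filter, mem_Ioc, Set.mem_ofPred_eq] at hy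
    obtain ⟨⟨h1, h2⟩, h3⟩ := hy
    show nn X ν m + (y - nn X ν m) = y
    omega

theorem cnt_eq_sum (h : XF Cr X R) (ν m s v j : ℕ) :
    (cnt (nn X ν m) s v j : ℝ) = ∑ t ∈ hs X ν s v j, ip (nn X ν m + t) := by
  rw [cnt_eq h]
  unfold ip
  rw [sum_boole]

theorem Holes_PP {p : ℕ} (hp : p ∈ PP X) : p.Prime ∧ p ≤ YY X := by
  unfold PP at hp
  have h1 := mem_Pbig.1 hp
  exact ⟨h1.2.2, h1.2.1⟩

/-- If every void position prime to `W` is hit by a prime of `PP X`, the voids are free of primes.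
PROOF. `t ∉ vs`: a prime `q ≤ log X / 100` divides `ν + t` and `W`, so also `n + t > X`; `t ∈ vs`: `p ≤ YY X ≤ X < n + t` divides `n + t`. -/
theorem void_of_hit (h : XF Cr X R) (ν m k s v : ℕ)
    (hh : ∀ t ∈ vs X ν k s v, ∃ p ∈ PP X, p ∣ nn X ν m + t) :
    ∀ j < k, ∀ t, j * (s + v) + s < t → t ≤ (j + 1) * (s + v) → ¬ (nn X ν m + t).Prime := by
  intro j hj t h1 h2 hp
  have hc := coprime_of_prime h hp
  have ht : t ∈ vs X ν k s v := by
    unfold vs
    rw [mem_biUnion]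
    exact ⟨j, mem_range.2 hj, mem_filter.2 ⟨mem_Ioc.2 ⟨h1, h2⟩, hc⟩⟩
  obtain ⟨p, hpP, hpd⟩ := hh t ht
  obtain ⟨hpp, hpY⟩ := Holes_PP hpP
  have h3 : p = nn X ν m + t := (Nat.prime_dvd_prime_iff_eq hpp hp).1 hpd
  have h4 := Holes_lt X ν m
  have h5 := h.YX
  omega

end Pool.Agent.H.MP_711652_nt.CH
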