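import Pool.Agent.H.MP_711652_nt.CH.PsiPr
import Pool.Agent.H.MP_711652_nt.CH.Holes
import Pool.Agent.H.MP_711652_nt.CH.Cheb

/-! # MP_711652, CH: the weighted number of primes in the holes, all residues -/

set_option autoImplicit false

namespace Pool.Agent.H.MP_711652_nt.CH

open Finset Pool.Agent.H.MP_711652_nt.LG Pool.Agent.H.MP_711652_nt.G2

variable {Cr : ℝ} {X R : ℕ}

private theorem low_range (f : ℕ → ℝ) (W N : ℕ) :
    ∑ m ∈ range N, ∑ ν ∈ range W, f (W * m + ν) = ∑ i ∈ range (W * N), f i := by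
  induction N with
  | zero => simp
  | succ N ih =>
    rw [Finset.sum_range_succ, ih, Nat.mul_succ, Finset.sum_range_add]

private theorem low_Ioc (f : ℕ → ℝ) (a M : ℕ) (ha : 1 ≤ a) :
    ∑ i ∈ range M, f (a + i) = ∑ x ∈ Ioc (a - 1) (a + M - 1), f x := by
  have h1 : Ioc (a - 1) (a + M - 1) = Ico a (a + M) := by
    ext x
    rw [Finset.mem_Ioc, Finset.mem_Ico]
    omega
  rw [h1, Finset.sum_Ico_eq_sum_range, Nat.add_sub_cancel_left]

private theorem low_hu (ν k s v : ℕ) (g : ℕ → ℝ) :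
    ∑ t ∈ hu X ν k s v, g t = ∑ j ∈ range k, ∑ t ∈ hs X ν s v j, g t := by
  unfold hu
  rw [Finset.sum_biUnion]
  intro i _ j _ hij
  exact hs_disj ν s v hij

private theorem low_one (h : XF Cr X R) {t : ℕ} (ht1 : 1 ≤ t) (ht : t < zz X)
    (hX : ∀ x₁ x₂ : ℕ, (x₁ : ℝ) ≤ (1 + 1 / 100) * X →
      (2 - 1 / 100) * X ≤ (x₂ : ℝ) → (X : ℝ) / 2 ≤ ∑ x ∈ Ioc x₁ x₂, thn x)
    (hW : 1000 * (WW X : ℝ) ≤ X) :
    (X : ℝ) / 2 ≤ ∑ ν ∈ range (WW X), ∑ m ∈ range (NN X), thn (nn X ν m + t) := by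
  have hW' : 1000 * WW X ≤ X := by exact_mod_cast hW
  have hzW := h.zW
  have hN0 := h.N0
  have hWpos : 0 < WW X := by
    unfold WW
    exact primorial_pos _
  set W := WW X with hWdef
  set q := X / W with hq
  have hq1 : W * q ≤ X := Nat.mul_div_le X W
  have hq2 : X < W * q + W := by
    have := Nat.lt_mul_div_succ X hWpos
    rw [← hq] at this
    linarith [this, Nat.mul_succ W q]
  have hN : NN X = q - 3 := rfl
  have hq4 : 4 ≤ q := by
    rw [hN] at hN0
    omega
  have e1 : ∑ ν ∈ range W, ∑ m ∈ range (NN X), thn (nn X ν m + t) =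
      ∑ x ∈ Ioc (W * (q + 1) + t - 1) (W * (q + 1) + t + W * NN X - 1), thn x := by
    rw [Finset.sum_comm, ← low_Ioc thn _ _ (by omega), ← low_range]
    refine Finset.sum_congr rfl fun m _ => Finset.sum_congr rfl fun ν _ => ?_
    congr 1
    show W * (q + 1 + m) + ν + t = _
    ring
  rw [e1]
  apply hX
  · have h1 : W * (q + 1) + t - 1 ≤ X + W + W := by
      have : W * (q + 1) = W * q + W := by ring
      omega
    have h2 : ((W * (q + 1) + t - 1 : ℕ) : ℝ) ≤ X + W + W := by exact_mod_cast h1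
    linarith
  · have h3 : W * NN X + W * 3 = W * q := by
      rw [hN, ← Nat.mul_add]
      congr 1
      omega
    have h1 : 2 * X ≤ W * (q + 1) + t + W * NN X - 1 + 4 * W := by
      have : W * (q + 1) = W * q + W := by ring
      omega
    have h2 : (2 * X : ℝ) ≤ ((W * (q + 1) + t + W * NN X - 1 : ℕ) : ℝ) + 4 * W := by
      exact_mod_cast h1
    linarith

/-- PROOF. Positions which are not prime to `W` contribute nothing (`coprime_of_prime`); exchange the sums: for each hole position `t` the numbers `nn X ν m + t`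
(`ν < W`, `m < NN X`) are exactly `(W (X/W + 1) + t - 1, W (X/W + 1 + NN X) + t - 1]`. -/
theorem theta_sum (h : XF Cr X R) (k s v : ℕ) (hH : k * (s + v) < zz X)
    (hX : ∀ x₁ x₂ : ℕ, (x₁ : ℝ) ≤ (1 + 1 / 100) * X →
      (2 - 1 / 100) * X ≤ (x₂ : ℝ) → (X : ℝ) / 2 ≤ ∑ x ∈ Ioc x₁ x₂, thn x)
    (hW : 1000 * (WW X : ℝ) ≤ X) :
    k * s * ((X : ℝ) / 2) ≤ ∑ ν ∈ range (WW X), ∑ t ∈ hu X ν k s v,
      ∑ m ∈ range (NN X), thn (nn X ν m + t) := by
  have e1 : ∀ ν, ∑ t ∈ hu X ν k s v, ∑ m ∈ range (NN X), thn (nn X ν m + t) =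
      ∑ j ∈ range k, ∑ t ∈ Ioc (j * (s + v)) (j * (s + v) + s),
        ∑ m ∈ range (NN X), thn (nn X ν m + t) := by
    intro ν
    rw [low_hu]
    refine Finset.sum_congr rfl fun j _ => ?_
    unfold hs
    rw [Finset.sum_filter]
    refine Finset.sum_congr rfl fun t _ => ?_
    split_ifs with hc
    · rfl
    · symm
      refine Finset.sum_eq_zero fun m _ => ?_
      unfold thn
      rw [if_neg]
      intro hp
      exact hc (coprime_of_prime h hp)
  have e2 : ∑ ν ∈ range (WW X), ∑ t ∈ hu X ν k s v, ∑ m ∈ range (NN X), thn (nn X ν m + t) =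
      ∑ j ∈ range k, ∑ t ∈ Ioc (j * (s + v)) (j * (s + v) + s),
        ∑ ν ∈ range (WW X), ∑ m ∈ range (NN X), thn (nn X ν m + t) := by
    rw [Finset.sum_congr rfl fun ν _ => e1 ν, Finset.sum_comm]
    refine Finset.sum_congr rfl fun j _ => ?_
    rw [Finset.sum_comm]
  rw [e2]
  have e3 : (k : ℝ) * s * ((X : ℝ) / 2) = ∑ _j ∈ range k, ∑ _t ∈ Ioc (_j * (s + v)) (_j * (s + v) + s),
      ((X : ℝ) / 2) := by
    simp only [Finset.sum_const, Nat.card_Ioc, Finset.card_range, nsmul_eq_mul,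
      Nat.add_sub_cancel_left]
    ring
  rw [e3]
  refine Finset.sum_le_sum fun j hj => Finset.sum_le_sum fun t ht => ?_
  rw [Finset.mem_Ioc] at ht
  rw [Finset.mem_range] at hj
  refine low_one h (by omega) (lt_of_le_of_lt ?_ hH) hX hW
  have h1 : (j + 1) * (s + v) ≤ k * (s + v) := Nat.mul_le_mul_right _ hj
  have h2 : (j + 1) * (s + v) = j * (s + v) + (s + v) := by ring
  omega

private theorem low_card (ν k s v : ℕ) : ((hu X ν k s v).card : ℝ) ≤ k * s := by
  have h1 : (hu X ν k s v).card ≤ ∑ j ∈ range k, (hs X ν s v j).card := Finset.card_biUnion_le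
  have h2 : ∑ j ∈ range k, (hs X ν s v j).card ≤ ∑ _j ∈ range k, s := by
    refine Finset.sum_le_sum fun j _ => ?_
    refine (Finset.card_filter_le _ _).trans ?_
    rw [Nat.card_Ioc, Nat.add_sub_cancel_left]
  rw [Finset.sum_const, Finset.card_range, smul_eq_mul] at h2
  exact_mod_cast h1.trans h2

/-- PROOF. `psi_prime` for `t ∈ hu`, `thn (n + t) ≤ log (2 X) ip (n + t)` (`nn_range`), `theta_sum`, `card hu ≤ k s`, `NN X * WW X ≤ X`:
the sum is at least `(1 / (N log 2X)) (0.999 k s X / 2 - W k s (X / W) / L^2) ≥ W * 0.45 k s / L` for `L ≥ 100`. -/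
theorem low (h : XF Cr X R) (hC : RbvC Cr) (hL : 100 ≤ Real.log X) (k s v : ℕ)
    (hH : k * (s + v) < zz X)
    (hX : ∀ x₁ x₂ : ℕ, (x₁ : ℝ) ≤ (1 + 1 / 100) * X →
      (2 - 1 / 100) * X ≤ (x₂ : ℝ) → (X : ℝ) / 2 ≤ ∑ x ∈ Ioc x₁ x₂, thn x)
    (hW : 1000 * (WW X : ℝ) ≤ X) (hR : ∀ ν, (vs X ν k s v).card ≤ R) :
    (WW X : ℝ) * (45 / 100 * (k * s / Real.log X)) ≤ ∑ ν ∈ range (WW X), ∑ m ∈ range (NN X),
      Ps X ν (vs X ν k s v) m ^ 2 / (NN X * MM X (vs X ν k s v)) *
        ∑ j ∈ range k, (cnt (nn X ν m) s v j : ℝ) := by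
  have hX10 : (10 : ℝ) ≤ X := by exact_mod_cast h.X3
  have hX0 : (0 : ℝ) < X := by linarith
  have hN0 : (0 : ℝ) < NN X := by exact_mod_cast h.N0
  have hW0 : (0 : ℝ) < WW X := by
    have : 0 < WW X := by
      unfold WW
      exact primorial_pos _
    exact_mod_cast this
  set L := Real.log X with hLdef
  have hL0 : 0 < L := by linarith
  have hl2 : 0 < Real.log (2 * X) := Real.log_pos (by linarith)
  -- one residue
  have hν : ∀ ν ∈ range (WW X), (1 / (NN X * Real.log (2 * X))) *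
      ((1 - 1 / 1000) * ∑ t ∈ hu X ν k s v, ∑ m ∈ range (NN X), thn (nn X ν m + t) -
        k * s * ((X : ℝ) / WW X / L ^ 2)) ≤
      ∑ m ∈ range (NN X), Ps X ν (vs X ν k s v) m ^ 2 / (NN X * MM X (vs X ν k s v)) *
        ∑ j ∈ range k, (cnt (nn X ν m) s v j : ℝ) := by
    intro ν hν
    rw [Finset.mem_range] at hν
    have hM : 0 < MM X (vs X ν k s v) := lt_of_lt_of_le one_pos (MM_one_le h _)
    set M := MM X (vs X ν k s v) with hMdef
    -- positions
    have hpos : ∀ t ∈ hu X ν k s v, 1 ≤ t ∧ t ≤ k * (s + v) ∧ Nat.Coprime (ν + t) (WW X) ∧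
        t ∉ vs X ν k s v := by
      intro t ht
      unfold hu at ht
      rw [Finset.mem_biUnion] at ht
      obtain ⟨j, hj, hjt⟩ := ht
      rw [Finset.mem_range] at hj
      obtain ⟨h1, h2, h3⟩ := hs_le hj hjt
      refine ⟨h1, h2, h3, fun h4 => ?_⟩
      exact Finset.disjoint_left.1 (vs_hs_disj ν k s v j) h4 hjt
    have e1 : ∀ m, ∑ j ∈ range k, (cnt (nn X ν m) s v j : ℝ) =
        ∑ t ∈ hu X ν k s v, ip (nn X ν m + t) := by
      intro m
      rw [low_hu]
      exact Finset.sum_congr rfl fun j _ => cnt_eq_sum h ν m s v j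
    have e2 : ∀ m ∈ range (NN X), ∀ t ∈ hu X ν k s v,
        thn (nn X ν m + t) / Real.log (2 * X) ≤ ip (nn X ν m + t) := by
      intro m hm t ht
      rw [Finset.mem_range] at hm
      obtain ⟨h1, h2, -, -⟩ := hpos t ht
      have hzW := h.zW
      obtain ⟨h3, h4⟩ := nn_range h (t := t) hν hm (by omega)
      unfold thn ip
      split_ifs with hp
      · rw [div_le_one hl2]
        refine Real.log_le_log ?_ ?_
        · exact_mod_cast hp.pos
        · exact_mod_cast h4
      · simp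
    have e3 : ∀ t ∈ hu X ν k s v,
        (1 / (NN X * Real.log (2 * X))) * ((1 - 1 / 1000) *
          ∑ m ∈ range (NN X), thn (nn X ν m + t) - (X : ℝ) / WW X / L ^ 2) ≤
        ∑ m ∈ range (NN X), Ps X ν (vs X ν k s v) m ^ 2 / (NN X * M) * ip (nn X ν m + t) := by
      intro t ht
      obtain ⟨h1, h2, h3, h4⟩ := hpos t ht
      have h5 := psi_prime h hC ν (k * (s + v)) hν hH (vs X ν k s v)
        (fun t ht => (vs_le ht).2) (hR ν) t h1 h2 h4 h3
      calc (1 / (NN X * Real.log (2 * X))) * ((1 - 1 / 1000) *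
          ∑ m ∈ range (NN X), thn (nn X ν m + t) - (X : ℝ) / WW X / L ^ 2)
          = (1 / (NN X * M * Real.log (2 * X))) * (M * ((1 - 1 / 1000) *
            ∑ m ∈ range (NN X), thn (nn X ν m + t) - (X : ℝ) / WW X / L ^ 2)) := by
            field_simp
        _ ≤ (1 / (NN X * M * Real.log (2 * X))) *
            ∑ m ∈ range (NN X), Ps X ν (vs X ν k s v) m ^ 2 * thn (nn X ν m + t) := by
            refine mul_le_mul_of_nonneg_left h5 ?_
            positivity
        _ = ∑ m ∈ range (NN X), Ps X ν (vs X ν k s v) m ^ 2 / (NN X * M) *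
            (thn (nn X ν m + t) / Real.log (2 * X)) := by
            rw [Finset.mul_sum]
            refine Finset.sum_congr rfl fun m _ => ?_
            field_simp
        _ ≤ _ := by
            refine Finset.sum_le_sum fun m hm => ?_
            refine mul_le_mul_of_nonneg_left (e2 m hm t ht) ?_
            positivity
    have e4 : ∑ m ∈ range (NN X), Ps X ν (vs X ν k s v) m ^ 2 / (NN X * M) *
        ∑ j ∈ range k, (cnt (nn X ν m) s v j : ℝ) =
        ∑ t ∈ hu X ν k s v, ∑ m ∈ range (NN X),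
          Ps X ν (vs X ν k s v) m ^ 2 / (NN X * M) * ip (nn X ν m + t) := by
      rw [Finset.sum_comm]
      refine Finset.sum_congr rfl fun m _ => ?_
      rw [e1, Finset.mul_sum]
    rw [e4]
    refine le_trans ?_ (Finset.sum_le_sum e3)
    rw [← Finset.mul_sum, Finset.sum_sub_distrib, ← Finset.mul_sum, Finset.sum_const, nsmul_eq_mul]
    refine mul_le_mul_of_nonneg_left ?_ (by positivity)
    have h6 := low_card (X := X) ν k s v
    have h7 : (0 : ℝ) ≤ (X : ℝ) / WW X / L ^ 2 := by positivity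
    have h8 := mul_le_mul_of_nonneg_right h6 h7
    linarith
  refine le_trans ?_ (Finset.sum_le_sum hν)
  rw [← Finset.mul_sum, Finset.sum_sub_distrib, ← Finset.mul_sum, Finset.sum_const,
    Finset.card_range, nsmul_eq_mul]
  have h1 := theta_sum h k s v hH hX hW
  have hks : (0 : ℝ) ≤ k * s := by positivity
  have hNW : (NN X : ℝ) * WW X ≤ X := by
    have h2 : NN X * WW X ≤ X := by
      refine (Nat.mul_le_mul_right _ (Nat.sub_le _ _)).trans ?_
      exact Nat.div_mul_le_self X (WW X)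
    exact_mod_cast h2
  have hlog : Real.log (2 * X) ≤ (1 + 7 / 1000) * L := by
    rw [Real.log_mul (by norm_num) hX0.ne']
    have := Real.log_two_lt_d9
    linarith
  have hL2 : 1 / L ^ 2 ≤ 1 / 10000 := by
    refine one_div_le_one_div_of_le (by norm_num) ?_
    nlinarith
  have e5 : (WW X : ℝ) * (k * s * ((X : ℝ) / WW X / L ^ 2)) = k * s * (X * (1 / L ^ 2)) := by
    field_simp
  rw [e5, one_div_mul_eq_div, le_div_iff₀ (by positivity)]
  have h3 : (k : ℝ) * s * (X * (4994 / 10000)) ≤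
      (1 - 1 / 1000) * ∑ ν ∈ range (WW X), ∑ t ∈ hu X ν k s v,
        ∑ m ∈ range (NN X), thn (nn X ν m + t) - k * s * (X * (1 / L ^ 2)) := by
    have h4 : (k : ℝ) * s * (X * (1 / L ^ 2)) ≤ k * s * (X * (1 / 10000)) :=
      mul_le_mul_of_nonneg_left (mul_le_mul_of_nonneg_left hL2 hX0.le) hks
    nlinarith
  refine le_trans ?_ h3
  calc (WW X : ℝ) * (45 / 100 * (k * s / L)) * (NN X * Real.log (2 * X))
      ≤ (WW X : ℝ) * (45 / 100 * (k * s / L)) * (NN X * ((1 + 7 / 1000) * L)) := by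
        gcongr
    _ = (k : ℝ) * s * (45 / 100 * (1 + 7 / 1000)) * (NN X * WW X) := by
        field_simp
    _ ≤ (k : ℝ) * s * (45 / 100 * (1 + 7 / 1000)) * X := by
        gcongr
    _ ≤ (k : ℝ) * s * (X * (4994 / 10000)) := by
        have h5 : (0 : ℝ) ≤ k * s * X := by positivity
        nlinarith

end Pool.Agent.H.MP_711652_nt.CH
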