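import Pool.Agent.H.MP_711652_nt.CH.Mom
import Pool.Agent.H.MP_711652_nt.CH.Low
import Pool.Agent.H.MP_711652_nt.CH.AbsFin

/-! # MP_711652, CH: one scale -/

set_option autoImplicit false

namespace Pool.Agent.H.MP_711652_nt.CH

open Finset Filter Pool.Agent.H.MP_711652_nt.LG Pool.Agent.H.MP_711652_nt.G2

/-- The constant `84 * 4000 * exp 21`. -/
noncomputable def AA0 : ℝ := 336000 * Real.exp 21

/-- One scale.  PROOF. `abs_fin` with `q ν m = Ps^2 / (N M)`, `Nh = ∑ cnt`, `Ph = ∑ choose(cnt, 2)`, `bad ν m = ¬ ∀ t ∈ vs, ∃ p ∈ PP, p ∣ n + t`, `ε = 1/100`, `ε2 = 1/L`,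
`C3 = 2 (k (A s/L)) + 2 (k (A s/L))^2`, `C4 = k (A s/L)^2`, `lam = 0.45 k s / L`: (1) `psi_up`, (2) `psi_bad`, (3) `mom_sq` for `U = hu`, `card hu ≤ ∑ card hs_j`, `hs_card`, `JX_ge`, (4) `mom_pair` for each
`hs_j`, `cnt_eq`, (5) `low`; then `void_of_hit`, `chain_of_counts`, `nn_range`. -/
theorem one_scale {Cr : ℝ} {X R : ℕ} (h : XF Cr X R) (hC : RbvC Cr) (hL : 10 ^ 9 ≤ Real.log X)
    (k s v K : ℕ) (hH : k * (s + v) < zz X)
    (hX : ∀ x₁ x₂ : ℕ, (x₁ : ℝ) ≤ (1 + 1 / 100) * X →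
      (2 - 1 / 100) * X ≤ (x₂ : ℝ) → (X : ℝ) / 2 ≤ ∑ x ∈ Ioc x₁ x₂, thn x)
    (hW : 1000 * (WW X : ℝ) ≤ X) (hR : ∀ ν, (vs X ν k s v).card ≤ R)
    (hs' : Real.log X ^ (2 / 3 : ℝ) ≤ s)
    (hfin : K * (1 + 1 / 100) + (K + 3) * (k * (AA0 * (s / Real.log X)) ^ 2) +
      Real.sqrt ((2 * (k * (AA0 * (s / Real.log X))) + 2 * (k * (AA0 * (s / Real.log X))) ^ 2) *
        (1 / Real.log X)) < 45 / 100 * (k * s / Real.log X)) :
    ∃ i : ℕ, X < Nat.nth Nat.Prime i ∧ Nat.nth Nat.Prime (i + K) ≤ 2 * X ∧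
      Nat.nth Nat.Prime (i + K) ≤ Nat.nth Nat.Prime i + k * (s + v) ∧
      ∀ l < K, Nat.nth Nat.Prime (i + l) + v < Nat.nth Nat.Prime (i + l + 1) := by
  classical
  have hL0 : 0 < Real.log X := by linarith [h.L1]
  have hLL0 : 0 < Real.log (Real.log X) := by linarith [h.LL1]
  have hN : (0 : ℝ) < NN X := by
    have := h.N0
    exact_mod_cast this
  have hM : ∀ T : Finset ℕ, 0 < MM X T := fun T => by linarith [MM_one_le h T]
  have hNM : ∀ T : Finset ℕ, (0 : ℝ) < NN X * MM X T := fun T => mul_pos hN (hM T)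
  have he : 0 < Real.exp 21 := Real.exp_pos _
  have hA0 : 0 < AA0 := by
    unfold AA0
    positivity
  have hW0 : 0 < WW X := lt_of_lt_of_le (by omega) h.zW
  -- positions
  have hTle : ∀ ν, ∀ t ∈ vs X ν k s v, t ≤ k * (s + v) := fun ν t ht => (vs_le ht).2
  have hhs : ∀ ν, ∀ j ∈ range k, ∀ t ∈ hs X ν s v j, t ≤ k * (s + v) := fun ν j hj t ht =>
    (hs_le (mem_range.1 hj) ht).2.1
  have hhu : ∀ ν, ∀ t ∈ hu X ν k s v, t ≤ k * (s + v) := by
    intro ν t ht
    unfold hu at ht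
    rw [mem_biUnion] at ht
    obtain ⟨j, hj, ht⟩ := ht
    exact hhs ν j hj t ht
  have hdu : ∀ ν, Disjoint (vs X ν k s v) (hu X ν k s v) := by
    intro ν
    unfold hu
    rw [disjoint_biUnion_right]
    intro j _
    exact vs_hs_disj ν k s v j
  -- the numbers of positions
  have hJ := JX_ge h
  have hJ0 : 0 < JX X := by
    refine lt_of_lt_of_le ?_ hJ
    have : 0 < Real.exp (-21) := Real.exp_pos _
    positivity
  have hcj : ∀ ν j, ((hs X ν s v j).card : ℝ) / JX X ≤ AA0 * (s / Real.log X) := by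
    intro ν j
    rw [div_le_iff₀ hJ0]
    have h1 := hs_card hL ν s v j hs'
    have hs0 : (0 : ℝ) ≤ s := Nat.cast_nonneg s
    have h2 : AA0 * (s / Real.log X) *
        (Real.exp (-21) / 4000 * (Real.log X / Real.log (Real.log X))) ≤
        AA0 * (s / Real.log X) * JX X :=
      mul_le_mul_of_nonneg_left hJ (by positivity)
    have h3 : AA0 * (s / Real.log X) *
        (Real.exp (-21) / 4000 * (Real.log X / Real.log (Real.log X))) =
        84 * (s / Real.log (Real.log X)) := by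
      unfold AA0
      rw [Real.exp_neg]
      field_simp
      ring
    linarith
  have hcu : ∀ ν, ((hu X ν k s v).card : ℝ) / JX X ≤ k * (AA0 * (s / Real.log X)) := by
    intro ν
    have h1 : ((hu X ν k s v).card : ℝ) ≤ ∑ j ∈ range k, ((hs X ν s v j).card : ℝ) := by
      unfold hu
      exact_mod_cast card_biUnion_le
    calc ((hu X ν k s v).card : ℝ) / JX X ≤ (∑ j ∈ range k, ((hs X ν s v j).card : ℝ)) / JX X :=
          div_le_div_of_nonneg_right h1 hJ0.le
      _ = ∑ j ∈ range k, ((hs X ν s v j).card : ℝ) / JX X := by rw [sum_div]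
      _ ≤ ∑ j ∈ range k, AA0 * (s / Real.log X) := sum_le_sum fun j _ => hcj ν j
      _ = k * (AA0 * (s / Real.log X)) := by rw [sum_const, card_range, nsmul_eq_mul]
  have hNh : ∀ ν m, ∑ j ∈ range k, (cnt (nn X ν m) s v j : ℝ) =
      ∑ t ∈ hu X ν k s v, ip (nn X ν m + t) := by
    intro ν m
    unfold hu
    rw [sum_biUnion]
    · exact sum_congr rfl fun j _ => cnt_eq_sum h ν m s v j
    · intro i _ j _ hij
      exact hs_disj ν s v hij
  have key := abs_fin (WW X) (NN X) K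
    (fun ν m => Ps X ν (vs X ν k s v) m ^ 2 / (NN X * MM X (vs X ν k s v)))
    (fun ν m => ∑ j ∈ range k, (cnt (nn X ν m) s v j : ℝ))
    (fun ν m => ∑ j ∈ range k, (((cnt (nn X ν m) s v j).choose 2 : ℕ) : ℝ))
    (fun ν m => ¬ ∀ t ∈ vs X ν k s v, ∃ p ∈ PP X, p ∣ nn X ν m + t)
    (1 / 100) (1 / Real.log X)
    (2 * (k * (AA0 * (s / Real.log X))) + 2 * (k * (AA0 * (s / Real.log X))) ^ 2)
    (k * (AA0 * (s / Real.log X)) ^ 2) (45 / 100 * (k * s / Real.log X))
    hW0 ?_ ?_ ?_ ?_ ?_ ?_ ?_ ?_ hfin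
  · obtain ⟨ν, hν, m, hm, hgood, hK⟩ := key
    rw [not_not] at hgood
    have hK' : K + (K + 3) * ∑ j ∈ range k, (cnt (nn X ν m) s v j).choose 2 <
        ∑ j ∈ range k, cnt (nn X ν m) s v j := by
      have h1 : ((K + (K + 3) * ∑ j ∈ range k, (cnt (nn X ν m) s v j).choose 2 : ℕ) : ℝ) <
          ((∑ j ∈ range k, cnt (nn X ν m) s v j : ℕ) : ℝ) := by
        push_cast
        linarith
      exact_mod_cast h1
    obtain ⟨i, h1, h2, h3⟩ := chain_of_counts (nn X ν m) s v k K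
      (void_of_hit h ν m k s v hgood) hK'
    have h4 := nn_range h hν hm (t := k * (s + v)) (hH.le.trans h.zW)
    exact ⟨i, by omega, by omega, by omega, h3⟩
  · intro ν _ m _
    exact div_nonneg (sq_nonneg _) (hNM _).le
  · intro ν _ m _
    exact sum_nonneg fun j _ => Nat.cast_nonneg _
  · positivity
  · intro ν _
    rw [← sum_div, div_le_iff₀ (hNM _)]
    exact psi_up h ν (k * (s + v)) hH _ (hTle ν) (hR ν)
  · intro ν _ S hS hb
    rw [← sum_div, div_le_iff₀ (hNM _)]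
    refine psi_bad h ν (k * (s + v)) hH _ (hTle ν) (hR ν) S hS ?_
    intro m hm
    have := hb m hm
    push Not at this
    exact this
  · intro ν _
    have h1 := mom_sq h ν (k * (s + v)) hH _ (hTle ν) (hR ν) _ (hhu ν) (hdu ν)
    have h2 : ∑ m ∈ range (NN X), Ps X ν (vs X ν k s v) m ^ 2 / (NN X * MM X (vs X ν k s v)) *
        (∑ j ∈ range k, (cnt (nn X ν m) s v j : ℝ)) ^ 2 =
        (∑ m ∈ range (NN X), Ps X ν (vs X ν k s v) m ^ 2 *
          (∑ t ∈ hu X ν k s v, ip (nn X ν m + t)) ^ 2) / (NN X * MM X (vs X ν k s v)) := by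
      rw [sum_div]
      refine sum_congr rfl fun m _ => ?_
      rw [hNh]
      ring
    rw [h2, div_le_iff₀ (hNM _)]
    refine h1.trans (mul_le_mul_of_nonneg_right ?_ (hNM _).le)
    have h3 := hcu ν
    have h4 : (0 : ℝ) ≤ (hu X ν k s v).card / JX X := div_nonneg (Nat.cast_nonneg _) hJ0.le
    have h5 : ((hu X ν k s v).card / JX X) ^ 2 ≤ (k * (AA0 * (s / Real.log X))) ^ 2 :=
      pow_le_pow_left₀ h4 h3 2
    linarith
  · intro ν _
    have h2 : ∑ m ∈ range (NN X), Ps X ν (vs X ν k s v) m ^ 2 / (NN X * MM X (vs X ν k s v)) *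
        (∑ j ∈ range k, (((cnt (nn X ν m) s v j).choose 2 : ℕ) : ℝ)) =
        ∑ j ∈ range k, (∑ m ∈ range (NN X), Ps X ν (vs X ν k s v) m ^ 2 *
          (((cnt (nn X ν m) s v j).choose 2 : ℕ) : ℝ)) / (NN X * MM X (vs X ν k s v)) := by
      calc ∑ m ∈ range (NN X), Ps X ν (vs X ν k s v) m ^ 2 /
              (NN X * MM X (vs X ν k s v)) *
              (∑ j ∈ range k, (((cnt (nn X ν m) s v j).choose 2 : ℕ) : ℝ))
          = ∑ m ∈ range (NN X), ∑ j ∈ range k, Ps X ν (vs X ν k s v) m ^ 2 /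
              (NN X * MM X (vs X ν k s v)) *
              (((cnt (nn X ν m) s v j).choose 2 : ℕ) : ℝ) :=
            sum_congr rfl fun m _ => Finset.mul_sum _ _ _
        _ = ∑ j ∈ range k, ∑ m ∈ range (NN X), Ps X ν (vs X ν k s v) m ^ 2 /
              (NN X * MM X (vs X ν k s v)) *
              (((cnt (nn X ν m) s v j).choose 2 : ℕ) : ℝ) := Finset.sum_comm
        _ = _ := by
            refine sum_congr rfl fun j _ => ?_
            rw [Finset.sum_div]
            refine sum_congr rfl fun m _ => ?_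
            ring
    rw [h2]
    have h6 : ∀ j ∈ range k, (∑ m ∈ range (NN X), Ps X ν (vs X ν k s v) m ^ 2 *
          (((cnt (nn X ν m) s v j).choose 2 : ℕ) : ℝ)) / (NN X * MM X (vs X ν k s v)) ≤
          (AA0 * (s / Real.log X)) ^ 2 := by
      intro j hj
      rw [div_le_iff₀ (hNM _)]
      have h1 := mom_pair h ν (k * (s + v)) hH _ (hTle ν) (hR ν) _ (hhs ν j hj)
        (vs_hs_disj ν k s v j)
      have h7 : ∀ m, cnt (nn X ν m) s v j =
          ((hs X ν s v j).filter (fun t => (nn X ν m + t).Prime)).card := fun m =>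
        cnt_eq h ν m s v j
      rw [sum_congr rfl fun m _ => by rw [h7 m]]
      refine h1.trans (mul_le_mul_of_nonneg_right ?_ (hNM _).le)
      exact pow_le_pow_left₀ (div_nonneg (Nat.cast_nonneg _) hJ0.le) (hcj ν j) 2
    refine (sum_le_sum h6).trans (le_of_eq ?_)
    rw [sum_const, card_range, nsmul_eq_mul]
  · exact low h hC (by linarith) k s v hH hX hW hR

end Pool.Agent.H.MP_711652_nt.CH
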