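import Pool.Agent.H.MP_711652_nt.CH.PsiUp

/-! # MP_711652, CH: `Ψ^2` at the primes, upper bounds -/

set_option autoImplicit false

namespace Pool.Agent.H.MP_711652_nt.CH

open Finset Pool.Agent.H.MP_711652_nt.LG Pool.Agent.H.MP_711652_nt.G2

variable {Cr : ℝ} {X R : ℕ}

private theorem PsiOne_mem {P : Finset ℕ} (σ : P → Option Unit) (p : P) :
    (p : ℕ) ∈ abs_supp P σ ↔ σ p ≠ none := by
  unfold abs_supp
  rw [mem_map]
  constructor
  · rintro ⟨q, hq, hqp⟩
    have h1 : q = p := Subtype.ext hqp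
    rw [← h1]
    exact (mem_filter.1 hq).2
  · intro h
    exact ⟨p, mem_filter.2 ⟨mem_univ _, h⟩, rfl⟩

private theorem PsiOne_inj {P : Finset ℕ} (hP : ∀ p ∈ P, p.Prime) {σ τ : P → Option Unit}
    (h : DD P σ = DD P τ) : σ = τ := by
  rw [← abs_DD_supp, ← abs_DD_supp] at h
  have h1 : (∏ p ∈ abs_supp P σ, p).primeFactors = abs_supp P σ :=
    Nat.primeFactors_prod fun p hp => hP p (abs_supp_sub P σ hp)
  have h2 : (∏ p ∈ abs_supp P τ, p).primeFactors = abs_supp P τ :=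
    Nat.primeFactors_prod fun p hp => hP p (abs_supp_sub P τ hp)
  have h3 : abs_supp P σ = abs_supp P τ := by rw [← h1, ← h2, h]
  funext p
  have h4 := PsiOne_mem σ p
  have h5 := PsiOne_mem τ p
  rw [h3, h5] at h4
  rcases h6 : σ p with _ | i
  · rcases h7 : τ p with _ | j
    · rfl
    · rw [h6, h7] at h4
      simp at h4
  · rcases h7 : τ p with _ | j
    · rw [h6, h7] at h4
      simp at h4
    · rfl

private theorem PsiOne_pos {P : Finset ℕ} (hP : ∀ p ∈ P, p.Prime) (σ : P → Option Unit) :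
    0 < DD P σ := by
  unfold DD
  refine prod_pos fun p _ => ?_
  split_ifs
  · exact one_pos
  · exact (hP p p.2).pos

private theorem PsiOne_ph {P : Finset ℕ} (hP : ∀ p ∈ P, p.Prime) (σ : P → Option Unit) :
    1 ≤ ph P σ := by
  unfold ph
  have h1 : (1 : ℝ) = ∏ _p : P, (1 : ℝ) := by simp
  refine h1.trans_le (prod_le_prod (fun _ _ => zero_le_one) fun p _ => ?_)
  split_ifs
  · exact le_rfl
  · have : (2 : ℝ) ≤ ((p : ℕ) : ℝ) := by exact_mod_cast (hP p p.2).two_le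
    linarith

private theorem PsiOne_card {T : Finset ℕ} {R : ℕ} (hR : T.card ≤ R) : Fintype.card T ≤ R := by
  rw [Fintype.card_coe]
  exact hR

/-- PROOF. Different `σ : P → Option Unit` have different `DD σ ≥ 1`, `ph σ ≥ 1`. -/
theorem JX_le (h : XF Cr X R) : JX X ≤ YY X := by
  unfold JX JJ
  rw [← sum_filter]
  have hP := h.big.prime
  have h1 : ∀ σ : PP X → Option Unit, 1 / ph (PP X) σ ≤ 1 := by
    intro σ
    have h2 := PsiOne_ph hP σ
    exact (div_le_one (by linarith)).2 h2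
  refine (sum_le_sum fun σ _ => h1 σ).trans ?_
  rw [sum_const, nsmul_eq_mul, mul_one]
  have h3 : ((univ : Finset (PP X → Option Unit)).filter (fun σ => DD (PP X) σ ≤ YY X)).card ≤
      (Icc 1 (YY X)).card := by
    refine card_le_card_of_injOn (fun σ => DD (PP X) σ) (fun σ hσ => ?_) fun σ _ τ _ hst =>
      PsiOne_inj hP hst
    rw [coe_filter] at hσ
    rw [coe_Icc]
    exact ⟨PsiOne_pos hP σ, hσ.2⟩
  rw [Nat.card_Icc, Nat.add_sub_cancel] at h3
  exact_mod_cast h3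

private theorem PsiOne_nn (h : XF Cr X R) (ν m : ℕ) : X < nn X ν m := by
  have hW : 0 < WW X := primorial_pos _
  unfold nn
  have h1 : X < WW X * (X / WW X + 1) := Nat.lt_mul_div_succ X hW
  have h2 : WW X * (X / WW X + 1 + m) = WW X * (X / WW X + 1) + WW X * m := by ring
  omega

/-- PROOF. `bS_one`: if `n + t` is prime it is larger than `X ≥ YY X`, so no `p ∈ PP X` divides it; `nn X ν m > X`. -/
theorem sel_one (h : XF Cr X R) (ν m t : ℕ) (hp : (nn X ν m + t).Prime) :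
    ∑ σ : PP X → Option Unit, bS (PP X) (YY X) σ *
      Phi (PP X) (fun p _ m => p ∣ nn X ν m + t) σ m = 1 := by
  refine bS_one h.big.prime h.big.hY (fun p _ m => p ∣ nn X ν m + t) m fun p hpP hdvd => ?_
  have hpp := h.big.prime p hpP
  have h1 := (Nat.prime_dvd_prime_iff_eq hpp hp).1 hdvd
  have h2 : p ≤ YY X := by
    unfold PP at hpP
    exact (mem_Pbig.1 hpP).2.1
  have h3 := h.YX
  have h4 := PsiOne_nn h ν m
  omega

/-- PROOF. `ip ≤ S^2` with `S` the sum of `sel_one`; `up2` on `T ⊕ Unit` (`forms_gen` with `e = Sum.elim (·) (fun _ => t)`), `Y₁ = Y₂ = YY X`, `v₂ = bS`, `a₂ = bS`;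
`N (1.001 M / J) + (2 * 2^R * Y^4)^2 ≤ 2 N M / J` by `err3`, `JX_le`, `MM_one_le`. -/
theorem psi_one (h : XF Cr X R) (ν H : ℕ) (hH : H < zz X) (T : Finset ℕ) (hT : ∀ t ∈ T, t ≤ H)
    (hR : T.card ≤ R) (t : ℕ) (ht : t ≤ H) (htT : t ∉ T) :
    ∑ m ∈ range (NN X), Ps X ν T m ^ 2 * ip (nn X ν m + t) ≤ 2 / JX X * (NN X * MM X T) := by
  have hP := h.big.prime
  have hY1 := h.big.hY
  have hYr : (1 : ℝ) ≤ YY X := by exact_mod_cast hY1
  have hJ1 : 1 ≤ JX X := one_le_JJ hP hY1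
  have hJ0 : 0 < JX X := by linarith
  have hJY := JX_le h
  have hM1 := MM_one_le h T
  obtain ⟨e, he⟩ : ∃ e : T ⊕ Unit → ℕ, e = Sum.elim (fun i : T => (i : ℕ)) (fun _ => t) :=
    ⟨_, rfl⟩
  have hinj : Function.Injective e := by
    rw [he]
    refine Function.Injective.sumElim Subtype.coe_injective (fun _ _ _ => rfl) ?_
    rintro ⟨a, ha⟩ b hab
    simp only at hab
    exact htT (hab ▸ ha)
  have heH : ∀ i, e i ≤ H := by
    rw [he]
    rintro (i | i)
    · exact hT i i.2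
    · exact ht
  have hF := forms_gen h ν H hH e hinj heH
  have hc1 := cf_coef (ι := T) h.big
  have hc2 := bS_coef hP hY1
  have hYY : YY X * YY X ≤ YY X ^ 3 := by
    calc YY X * YY X = YY X * YY X * 1 := (mul_one _).symm
      _ ≤ YY X * YY X * YY X := Nat.mul_le_mul_left _ hY1
      _ = YY X ^ 3 := by ring
  have hcard : Fintype.card T + Fintype.card Unit ≤ R + 2 := by
    have := PsiOne_card hR
    rw [Fintype.card_unit]
    omega
  have key := up2 (A := fun p i m => p ∣ nn X ν m + e i) hF hc1 hc2 hYY h.num hcard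
    (vv X T) (bS (PP X) (YY X)) (fun σ => le_refl _)
    (fun σ => (abs_of_nonneg (hc2.nonneg σ)).le) (NN X)
  have hmass : mass (PP X) (bS (PP X) (YY X)) = 1 / JX X := bS_mass hP hY1
  have htot : tot (PP X) (bS (PP X) (YY X)) = 1 := bS_tot hP hY1
  have htot1 : tot (PP X) (fun σ => |cf (PP X) (LG.chi (fun _ : T => gw (cc X)) (BB X)) (YY X) σ|) ≤
      2 ^ R := by
    refine (cf_tot (ι := T) h.big).trans ?_
    exact pow_le_pow_right₀ (by norm_num) (PsiOne_card hR)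
  have htot0 : 0 ≤ tot (PP X) (fun σ => |cf (PP X) (LG.chi (fun _ : T => gw (cc X)) (BB X)) (YY X) σ|) :=
    sum_nonneg fun _ _ => abs_nonneg _
  rw [hmass, htot] at key
  have hlhs : ∑ m ∈ range (NN X), Ps X ν T m ^ 2 * ip (nn X ν m + t) ≤
      ∑ m ∈ range (NN X), ((∑ σ : PP X → Option T, vv X T σ *
        Phi (PP X) (fun p i => (fun p i m => p ∣ nn X ν m + e i) p (Sum.inl i)) σ m) *
        (∑ τ : PP X → Option Unit, bS (PP X) (YY X) τ *
        Phi (PP X) (fun p i => (fun p i m => p ∣ nn X ν m + e i) p (Sum.inr i)) τ m)) ^ 2 := by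
    refine sum_le_sum fun m _ => ?_
    have e1 : (∑ σ : PP X → Option T, vv X T σ *
        Phi (PP X) (fun p i => (fun p i m => p ∣ nn X ν m + e i) p (Sum.inl i)) σ m) =
        Ps X ν T m := by
      rw [he]
      rfl
    rw [e1]
    unfold ip
    split_ifs with hpr
    · have e2 : (∑ τ : PP X → Option Unit, bS (PP X) (YY X) τ *
          Phi (PP X) (fun p i => (fun p i m => p ∣ nn X ν m + e i) p (Sum.inr i)) τ m) = 1 := by
        rw [he]
        exact sel_one h ν m t hpr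
      rw [e2, mul_one, mul_one]
    · rw [mul_zero]
      exact sq_nonneg _
  refine hlhs.trans (key.trans ?_)
  have hMM : mass (PP X) (fun σ => |cf (PP X) (LG.chi (fun _ : T => gw (cc X)) (BB X)) (YY X) σ|) =
      MM X T := rfl
  rw [hMM]
  have hN0 : (0 : ℝ) ≤ NN X := Nat.cast_nonneg _
  -- the error term
  obtain ⟨E, hE⟩ : ∃ E : ℝ, E = (4 * 2 ^ R * (YY X : ℝ) ^ 6) ^ 2 := ⟨_, rfl⟩
  have hE0 : 0 ≤ E := by rw [hE]; positivity
  have herr : (2 * (tot (PP X) (fun σ => |cf (PP X) (LG.chi (fun _ : T => gw (cc X)) (BB X))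
      (YY X) σ|) * 1) * (((YY X ^ 3 : ℕ) : ℝ)) ^ 2) ^ 2 ≤ E / 4 := by
    have h1 : (2 * (tot (PP X) (fun σ => |cf (PP X) (LG.chi (fun _ : T => gw (cc X)) (BB X))
        (YY X) σ|) * 1) * (((YY X ^ 3 : ℕ) : ℝ)) ^ 2) ^ 2 ≤
        (2 * (2 ^ R * 1) * (((YY X ^ 3 : ℕ) : ℝ)) ^ 2) ^ 2 := by gcongr
    refine h1.trans (le_of_eq ?_)
    rw [hE]
    push_cast
    ring
  have hbig : 2 * E * YY X ≤ NN X * MM X T / JX X := by
    rw [le_div_iff₀ hJ0]
    have h1 := h.err3
    rw [← hE] at h1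
    calc 2 * E * YY X * JX X ≤ 2 * E * YY X * YY X := by gcongr
      _ = 2 * E * (YY X : ℝ) ^ 2 := by ring
      _ ≤ NN X := h1
      _ = NN X * 1 := (mul_one _).symm
      _ ≤ NN X * MM X T := by gcongr
  have hE2 : E / 4 ≤ (1 / 2) * (NN X * MM X T / JX X) := by
    nlinarith
  have h5 : (0 : ℝ) ≤ NN X * MM X T / JX X := by positivity
  calc (NN X : ℝ) * ((1 + 1 / 1000) * (MM X T * (1 / JX X))) +
        (2 * (tot (PP X) (fun σ => |cf (PP X) (LG.chi (fun _ : T => gw (cc X)) (BB X))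
      (YY X) σ|) * 1) * (((YY X ^ 3 : ℕ) : ℝ)) ^ 2) ^ 2
      ≤ (NN X : ℝ) * ((1 + 1 / 1000) * (MM X T * (1 / JX X))) + E / 4 := by gcongr
    _ = (1 + 1 / 1000) * (NN X * MM X T / JX X) + E / 4 := by ring
    _ ≤ 2 * (NN X * MM X T / JX X) := by linarith
    _ = 2 / JX X * (NN X * MM X T) := by ring

/-- PROOF. As `psi_one` with `up3` on `T ⊕ (Unit ⊕ Unit)`. -/
theorem psi_two (h : XF Cr X R) (ν H : ℕ) (hH : H < zz X) (T : Finset ℕ) (hT : ∀ t ∈ T, t ≤ H)
    (hR : T.card ≤ R) (t t' : ℕ) (ht : t ≤ H) (ht' : t' ≤ H) (htT : t ∉ T) (htT' : t' ∉ T)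
    (hne : t ≠ t') :
    ∑ m ∈ range (NN X), Ps X ν T m ^ 2 * (ip (nn X ν m + t) * ip (nn X ν m + t')) ≤
      2 / JX X ^ 2 * (NN X * MM X T) := by
  have hP := h.big.prime
  have hY1 := h.big.hY
  have hYr : (1 : ℝ) ≤ YY X := by exact_mod_cast hY1
  have hJ1 : 1 ≤ JX X := one_le_JJ hP hY1
  have hJ0 : 0 < JX X := by linarith
  have hJY := JX_le h
  have hM1 := MM_one_le h T
  obtain ⟨e, he⟩ : ∃ e : T ⊕ (Unit ⊕ Unit) → ℕ,
      e = Sum.elim (fun i : T => (i : ℕ)) (Sum.elim (fun _ => t) (fun _ => t')) := ⟨_, rfl⟩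
  have hinj : Function.Injective e := by
    rw [he]
    refine Function.Injective.sumElim Subtype.coe_injective
      (Function.Injective.sumElim (fun _ _ _ => rfl) (fun _ _ _ => rfl) fun _ _ => hne) ?_
    rintro ⟨a, ha⟩ (b | b) hab
    · simp only [Sum.elim_inl] at hab
      exact htT (hab ▸ ha)
    · simp only [Sum.elim_inr] at hab
      exact htT' (hab ▸ ha)
  have heH : ∀ i, e i ≤ H := by
    rw [he]
    rintro (i | i | i)
    · exact hT i i.2
    · exact ht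
    · exact ht'
  have hF := forms_gen h ν H hH e hinj heH
  have hc1 := cf_coef (ι := T) h.big
  have hc2 := bS_coef hP hY1
  have hYY : YY X * (YY X * YY X) ≤ YY X ^ 3 := by
    apply le_of_eq
    ring
  have hcard : Fintype.card T + (Fintype.card Unit + Fintype.card Unit) ≤ R + 2 := by
    have := PsiOne_card hR
    rw [Fintype.card_unit]
    omega
  have key := up3 (A := fun p i m => p ∣ nn X ν m + e i) hF hc1 hc2 hc2 hYY h.num hcard
    (vv X T) (bS (PP X) (YY X)) (bS (PP X) (YY X)) (fun σ => le_refl _)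
    (fun σ => (abs_of_nonneg (hc2.nonneg σ)).le)
    (fun σ => (abs_of_nonneg (hc2.nonneg σ)).le) (NN X)
  have hmass : mass (PP X) (bS (PP X) (YY X)) = 1 / JX X := bS_mass hP hY1
  have htot : tot (PP X) (bS (PP X) (YY X)) = 1 := bS_tot hP hY1
  have htot1 : tot (PP X) (fun σ => |cf (PP X) (LG.chi (fun _ : T => gw (cc X)) (BB X)) (YY X) σ|) ≤
      2 ^ R := by
    refine (cf_tot (ι := T) h.big).trans ?_
    exact pow_le_pow_right₀ (by norm_num) (PsiOne_card hR)
  have htot0 : 0 ≤ tot (PP X) (fun σ => |cf (PP X) (LG.chi (fun _ : T => gw (cc X)) (BB X)) (YY X) σ|) :=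
    sum_nonneg fun _ _ => abs_nonneg _
  rw [hmass, htot] at key
  have hlhs : ∑ m ∈ range (NN X), Ps X ν T m ^ 2 * (ip (nn X ν m + t) * ip (nn X ν m + t')) ≤
      ∑ m ∈ range (NN X), ((∑ σ : PP X → Option T, vv X T σ *
        Phi (PP X) (fun p i => (fun p i m => p ∣ nn X ν m + e i) p (Sum.inl i)) σ m) *
        ((∑ τ : PP X → Option Unit, bS (PP X) (YY X) τ *
        Phi (PP X) (fun p i => (fun p i m => p ∣ nn X ν m + e i) p (Sum.inr (Sum.inl i))) τ m) *
        (∑ τ : PP X → Option Unit, bS (PP X) (YY X) τ *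
        Phi (PP X) (fun p i => (fun p i m => p ∣ nn X ν m + e i) p (Sum.inr (Sum.inr i))) τ m))) ^ 2 := by
    refine sum_le_sum fun m _ => ?_
    have e1 : (∑ σ : PP X → Option T, vv X T σ *
        Phi (PP X) (fun p i => (fun p i m => p ∣ nn X ν m + e i) p (Sum.inl i)) σ m) =
        Ps X ν T m := by
      rw [he]
      rfl
    rw [e1]
    by_cases hpr : (nn X ν m + t).Prime ∧ (nn X ν m + t').Prime
    · have e2 : (∑ τ : PP X → Option Unit, bS (PP X) (YY X) τ *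
          Phi (PP X) (fun p i => (fun p i m => p ∣ nn X ν m + e i) p (Sum.inr (Sum.inl i))) τ m) = 1 := by
        rw [he]
        exact sel_one h ν m t hpr.1
      have e3 : (∑ τ : PP X → Option Unit, bS (PP X) (YY X) τ *
          Phi (PP X) (fun p i => (fun p i m => p ∣ nn X ν m + e i) p (Sum.inr (Sum.inr i))) τ m) = 1 := by
        rw [he]
        exact sel_one h ν m t' hpr.2
      rw [e2, e3, ip, ip, if_pos hpr.1, if_pos hpr.2]
      apply le_of_eq
      ring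
    · have e4 : ip (nn X ν m + t) * ip (nn X ν m + t') = 0 := by
        unfold ip
        by_cases h1 : (nn X ν m + t).Prime
        · have h2 : ¬ (nn X ν m + t').Prime := fun h2 => hpr ⟨h1, h2⟩
          rw [if_neg h2, mul_zero]
        · rw [if_neg h1, zero_mul]
      rw [e4, mul_zero]
      exact sq_nonneg _
  refine hlhs.trans (key.trans ?_)
  have hMM : mass (PP X) (fun σ => |cf (PP X) (LG.chi (fun _ : T => gw (cc X)) (BB X)) (YY X) σ|) =
      MM X T := rfl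
  rw [hMM]
  have hN0 : (0 : ℝ) ≤ NN X := Nat.cast_nonneg _
  -- the error term
  obtain ⟨E, hE⟩ : ∃ E : ℝ, E = (4 * 2 ^ R * (YY X : ℝ) ^ 6) ^ 2 := ⟨_, rfl⟩
  have hE0 : 0 ≤ E := by rw [hE]; positivity
  have herr : (4 * (tot (PP X) (fun σ => |cf (PP X) (LG.chi (fun _ : T => gw (cc X)) (BB X))
      (YY X) σ|) * (1 * 1)) * (((YY X ^ 3 : ℕ) : ℝ)) ^ 2) ^ 2 ≤ E := by
    have h1 : (4 * (tot (PP X) (fun σ => |cf (PP X) (LG.chi (fun _ : T => gw (cc X)) (BB X))
        (YY X) σ|) * (1 * 1)) * (((YY X ^ 3 : ℕ) : ℝ)) ^ 2) ^ 2 ≤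
        (4 * (2 ^ R * (1 * 1)) * (((YY X ^ 3 : ℕ) : ℝ)) ^ 2) ^ 2 := by gcongr
    refine h1.trans (le_of_eq ?_)
    rw [hE]
    push_cast
    ring
  have hbig : 2 * E ≤ NN X * MM X T / JX X ^ 2 := by
    rw [le_div_iff₀ (by positivity)]
    have h1 := h.err3
    rw [← hE] at h1
    calc 2 * E * JX X ^ 2 ≤ 2 * E * (YY X : ℝ) ^ 2 := by gcongr
      _ ≤ (NN X : ℝ) := h1
      _ = (NN X : ℝ) * 1 := (mul_one _).symm
      _ ≤ (NN X : ℝ) * MM X T := by gcongr
  have h5 : (0 : ℝ) ≤ NN X * MM X T / JX X ^ 2 := by positivity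
  calc (NN X : ℝ) * ((1 + 1 / 1000) * (MM X T * (1 / JX X * (1 / JX X)))) +
        (4 * (tot (PP X) (fun σ => |cf (PP X) (LG.chi (fun _ : T => gw (cc X)) (BB X))
      (YY X) σ|) * (1 * 1)) * (((YY X ^ 3 : ℕ) : ℝ)) ^ 2) ^ 2
      ≤ (NN X : ℝ) * ((1 + 1 / 1000) * (MM X T * (1 / JX X * (1 / JX X)))) + E := by gcongr
    _ = (1 + 1 / 1000) * (NN X * MM X T / JX X ^ 2) + E := by ring
    _ ≤ 2 * (NN X * MM X T / JX X ^ 2) := by linarith
    _ = 2 / JX X ^ 2 * (NN X * MM X T) := by ring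

end Pool.Agent.H.MP_711652_nt.CH
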