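import Mathlib

/-! # MP_711652, CH: the choice of the numbers of the layout -/

set_option autoImplicit false

namespace Pool.Agent.H.MP_711652_nt.CH

private theorem layP_log (r c : ℝ) (hr : 0 < r) (hc : 0 < c) :
    ∃ L₀ : ℝ, ∀ L : ℝ, L₀ ≤ L → 1000000 ≤ L ∧ c * Real.log L ≤ L ^ r := by
  have h1 := (isLittleO_log_rpow_atTop hr).bound (show (0 : ℝ) < 1 / c by positivity)
  obtain ⟨L₁, hL₁⟩ := Filter.eventually_atTop.1 (h1.and (Filter.eventually_ge_atTop (1000000 : ℝ)))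
  refine ⟨L₁, fun L hL => ?_⟩
  obtain ⟨h2, h3⟩ := hL₁ L hL
  have hL0 : 0 < L := by linarith
  refine ⟨h3, ?_⟩
  rw [Real.norm_of_nonneg (Real.rpow_nonneg hL0.le _)] at h2
  have h4 : Real.log L ≤ 1 / c * L ^ r := (le_abs_self _).trans h2
  calc c * Real.log L ≤ c * (1 / c * L ^ r) := mul_le_mul_of_nonneg_left h4 hc.le
    _ = L ^ r := by field_simp

/-- PROOF. `δ = 1 / (20 A^2 (K + 3))`, `s = ⌊δ L⌋`, `k = ⌈4 (K + 1) L / s⌉`, `v = ⌊y / k⌋ - s`, `C = 2600 A^2`.  As `K^2 ≤ log L`, `δ L ≥ (21/20) L^(2/3)` and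
`s ≥ (80/81) δ L`; `k ≤ 4 (K+1) L / s + 1 ≤ 81 A^2 (K+1)(K+3) + 1 ≤ 649 A^2 K^2`, so `y / k ≥ 4 y / (C K^2) ≥ y / (C K^2) + 1 + s`. -/
theorem lay (A : ℝ) (hA : 1 ≤ A) : ∃ L₀ : ℝ, ∀ L : ℝ, L₀ ≤ L → ∀ K : ℕ, 1 ≤ K →
    (K : ℝ) ^ 2 ≤ Real.log L → ∀ y : ℝ, 2600 * A ^ 2 * K ^ 2 * L ≤ y →
    ∃ k s v : ℕ, ((k * (s + v) : ℕ) : ℝ) ≤ y ∧ L ^ (2 / 3 : ℝ) ≤ s ∧ L ^ (2 / 3 : ℝ) ≤ v ∧
      y / (2600 * A ^ 2 * K ^ 2) ≤ v ∧ 4 * (K + 1) ≤ k * s / L ∧ k * s / L ≤ 4 * (K + 1) + 1 ∧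
      (K + 3) * (s / L) ≤ 1 / (20 * A ^ 2) := by
  have hA2 : 1 ≤ A ^ 2 := one_le_pow₀ hA
  obtain ⟨L₀, hL₀⟩ := layP_log (1 / 3) (84 * A ^ 2) (by norm_num) (by positivity)
  refine ⟨L₀, fun L hL K hK hKL y hy => ?_⟩
  obtain ⟨hL6, hlog⟩ := hL₀ L hL
  have hL0 : 0 < L := by linarith
  have hK1 : (1 : ℝ) ≤ K := by exact_mod_cast hK
  obtain ⟨t, ht⟩ : ∃ t : ℝ, t = L ^ (1 / 3 : ℝ) := ⟨_, rfl⟩
  have ht0 : 0 < t := by rw [ht]; positivity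
  have ht2 : L ^ (2 / 3 : ℝ) = t ^ 2 := by
    rw [ht, ← Real.rpow_natCast, ← Real.rpow_mul hL0.le]
    norm_num
  have ht3 : L = t ^ 3 := by
    rw [ht, ← Real.rpow_natCast, ← Real.rpow_mul hL0.le]
    norm_num
  rw [← ht] at hlog
  have htK : 84 * (A ^ 2 * K ^ 2) ≤ t := by
    have h1 : 84 * A ^ 2 * (K : ℝ) ^ 2 ≤ 84 * A ^ 2 * Real.log L :=
      mul_le_mul_of_nonneg_left hKL (by positivity)
    linarith
  have hKK : (1 : ℝ) ≤ (K : ℝ) ^ 2 := one_le_pow₀ hK1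
  have hAK : 1 ≤ A ^ 2 * (K : ℝ) ^ 2 := one_le_mul_of_one_le_of_one_le hA2 hKK
  have ht84 : 84 ≤ t := by linarith
  obtain ⟨D, hD⟩ : ∃ D : ℝ, D = 20 * A ^ 2 * (K + 3) := ⟨_, rfl⟩
  have hD0 : 0 < D := by rw [hD]; positivity
  have hD1 : 80 ≤ D := by rw [hD]; nlinarith
  have hDK : D ≤ 80 * (A ^ 2 * K ^ 2) := by
    have h1 : (K : ℝ) + 3 ≤ 4 * K ^ 2 := by nlinarith
    have h2 : A ^ 2 * ((K : ℝ) + 3) ≤ A ^ 2 * (4 * K ^ 2) := mul_le_mul_of_nonneg_left h1 (by positivity)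
    rw [hD]
    linarith
  have hDt : 21 * D ≤ 20 * t := by linarith
  have hLD : 21 / 20 * t ^ 2 ≤ L / D := by
    rw [le_div_iff₀ hD0, ht3]
    have h1 : 21 * D * t ^ 2 ≤ 20 * t * t ^ 2 := mul_le_mul_of_nonneg_right hDt (by positivity)
    nlinarith
  have ht22 : 84 * 84 ≤ t ^ 2 := by nlinarith
  obtain ⟨s, hs⟩ : ∃ s : ℕ, s = ⌊L / D⌋₊ := ⟨_, rfl⟩
  have hs1 : (s : ℝ) ≤ L / D := by rw [hs]; exact Nat.floor_le (by positivity)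
  have hs2 : L / D - 1 < s := by rw [hs]; exact Nat.sub_one_lt_floor _
  have hst : t ^ 2 ≤ s := by linarith
  have hs0 : (0 : ℝ) < s := by linarith
  have hs3 : 80 / 81 * (L / D) ≤ s := by linarith
  have hs4 : L ≤ 81 / 80 * D * s := by
    have h1 : L / D ≤ 81 / 80 * s := by linarith
    rw [div_le_iff₀ hD0] at h1
    linarith
  have hsL : (s : ℝ) * D ≤ L := by
    rwa [le_div_iff₀ hD0] at hs1
  have hs5 : (s : ℝ) * 80 ≤ L := by nlinarith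
  obtain ⟨k, hk⟩ : ∃ k : ℕ, k = ⌈4 * ((K : ℝ) + 1) * L / s⌉₊ := ⟨_, rfl⟩
  have hk1 : 4 * ((K : ℝ) + 1) * L / s ≤ k := by rw [hk]; exact Nat.le_ceil _
  have hk2 : (k : ℝ) < 4 * ((K : ℝ) + 1) * L / s + 1 := by
    rw [hk]; exact Nat.ceil_lt_add_one (by positivity)
  have hk3 : 4 * ((K : ℝ) + 1) * L ≤ k * s := by rwa [div_le_iff₀ hs0] at hk1
  have hk4 : (k : ℝ) * s ≤ 4 * ((K : ℝ) + 1) * L + s := by
    have h1 : (k : ℝ) * s ≤ (4 * ((K : ℝ) + 1) * L / s + 1) * s :=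
      mul_le_mul_of_nonneg_right hk2.le hs0.le
    have h2 : (4 * ((K : ℝ) + 1) * L / s + 1) * s = 4 * ((K : ℝ) + 1) * L + s := by field_simp
    rwa [h2] at h1
  have hk0 : (0 : ℝ) < k := by
    by_contra h
    have h1 : (k : ℝ) = 0 := le_antisymm (not_lt.1 h) (Nat.cast_nonneg _)
    rw [h1, zero_mul] at hk3
    have : 0 < 4 * ((K : ℝ) + 1) * L := by positivity
    linarith
  have hk5 : (k : ℝ) ≤ 649 * (A ^ 2 * K ^ 2) := by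
    have h1 : (k : ℝ) * s ≤ (4 * ((K : ℝ) + 1) * (81 / 80 * D) + 1) * s := by
      have h2 : 4 * ((K : ℝ) + 1) * L ≤ 4 * ((K : ℝ) + 1) * (81 / 80 * D * s) :=
        mul_le_mul_of_nonneg_left hs4 (by positivity)
      linarith
    have h3 := le_of_mul_le_mul_right h1 hs0
    have h4 : ((K : ℝ) + 1) * (K + 3) ≤ 8 * K ^ 2 := by nlinarith
    have h5 : A ^ 2 * (((K : ℝ) + 1) * (K + 3)) ≤ A ^ 2 * (8 * K ^ 2) :=
      mul_le_mul_of_nonneg_left h4 (by positivity)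
    rw [hD] at h3
    linarith
  obtain ⟨Y, hY⟩ : ∃ Y : ℝ, Y = y / (2600 * A ^ 2 * K ^ 2) := ⟨_, rfl⟩
  have hC0 : 0 < 2600 * A ^ 2 * (K : ℝ) ^ 2 := by positivity
  have hYy : y = Y * (2600 * A ^ 2 * K ^ 2) := by rw [hY]; field_simp
  have hYL : L ≤ Y := by
    rw [hY, le_div_iff₀ hC0]
    linarith
  have hY0 : 0 < Y := by linarith
  have hy0 : 0 ≤ y := by rw [hYy]; positivity
  have hky : 4 * Y ≤ y / k := by
    rw [le_div_iff₀ hk0, hYy]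
    have h1 : 4 * Y * k ≤ 4 * Y * (649 * (A ^ 2 * K ^ 2)) := mul_le_mul_of_nonneg_left hk5 (by positivity)
    have h2 : 0 ≤ Y * (A ^ 2 * (K : ℝ) ^ 2) := by positivity
    linarith
  obtain ⟨w, hw⟩ : ∃ w : ℕ, w = ⌊y / k⌋₊ := ⟨_, rfl⟩
  have hw1 : (w : ℝ) ≤ y / k := by rw [hw]; exact Nat.floor_le (by positivity)
  have hw2 : y / k - 1 < w := by rw [hw]; exact Nat.sub_one_lt_floor _
  have hsw : s ≤ w := by
    have h1 : (s : ℝ) ≤ w := by linarith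
    exact_mod_cast h1
  have hvw : ((w - s : ℕ) : ℝ) = w - s := Nat.cast_sub hsw
  have hvY : Y ≤ ((w - s : ℕ) : ℝ) := by
    rw [hvw]
    linarith
  have htL : t ^ 2 ≤ L := by
    rw [ht3]
    nlinarith
  refine ⟨k, s, w - s, ?_, ?_, ?_, ?_, ?_, ?_, ?_⟩
  · rw [Nat.add_sub_cancel' hsw, Nat.cast_mul]
    rw [le_div_iff₀ hk0] at hw1
    linarith
  · rw [ht2]; exact hst
  · rw [ht2]; linarith
  · rw [← hY]; exact hvY
  · rw [le_div_iff₀ hL0]; exact hk3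
  · rw [div_le_iff₀ hL0]
    linarith
  · rw [le_div_iff₀ (by positivity), ← mul_div_assoc, div_mul_eq_mul_div, div_le_iff₀ hL0]
    rw [hD] at hsL
    linarith

/-- PROOF. With `u = k s / L`: `C4 = A^2 u (s / L)`, `(K+3) C4 ≤ u / 20`; `C3 ≤ 4 A^2 u^2`, `√(C3 / L) ≤ 2 A u / √L ≤ 2 A (4 K + 5) / √L ≤ 1/100` for `K^2 ≤ log L`;
`1.01 K + u / 20 + 0.01 < 0.45 u` as `u ≥ 4 (K + 1)`. -/
theorem lay_fin (A : ℝ) (hA : 1 ≤ A) : ∃ L₀ : ℝ, ∀ L : ℝ, L₀ ≤ L → ∀ K : ℕ, 1 ≤ K →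
    (K : ℝ) ^ 2 ≤ Real.log L → ∀ k s : ℝ, 0 ≤ k → 0 ≤ s → 4 * (K + 1) ≤ k * s / L →
      k * s / L ≤ 4 * (K + 1) + 1 → (K + 3) * (s / L) ≤ 1 / (20 * A ^ 2) →
    K * (1 + 1 / 100) + (K + 3) * (k * (A * (s / L)) ^ 2) +
      Real.sqrt ((2 * (k * (A * (s / L))) + 2 * (k * (A * (s / L))) ^ 2) * (1 / L)) <
      45 / 100 * (k * s / L) := by
  obtain ⟨L₀, hL₀⟩ := layP_log (1 / 2) (1800 * A) (by norm_num) (by positivity)
  refine ⟨L₀, fun L hL K hK hKL k s hk hs h1 h2 h3 => ?_⟩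
  obtain ⟨hL6, hlog⟩ := hL₀ L hL
  have hL0 : 0 < L := by linarith
  have hA0 : 0 < A := by linarith
  have hK1 : (1 : ℝ) ≤ K := by exact_mod_cast hK
  obtain ⟨t, ht⟩ : ∃ t : ℝ, t = L ^ (1 / 2 : ℝ) := ⟨_, rfl⟩
  have ht0 : 0 < t := by rw [ht]; positivity
  have ht2 : L = t ^ 2 := by
    rw [ht, ← Real.rpow_natCast, ← Real.rpow_mul hL0.le]
    norm_num
  rw [← ht] at hlog
  obtain ⟨u, hu⟩ : ∃ u : ℝ, u = k * s / L := ⟨_, rfl⟩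
  have e1 : k * (A * (s / L)) = A * u := by rw [hu]; ring
  have e2 : k * (A * (s / L)) ^ 2 = A ^ 2 * u * (s / L) := by rw [hu]; ring
  rw [e2, e1, ← hu]
  rw [← hu] at h1 h2
  have hu0 : 0 ≤ u := by linarith
  have hu1 : 1 ≤ u := by linarith
  -- the middle term
  have h4 : (K + 3) * (A ^ 2 * u * (s / L)) ≤ u / 20 := by
    have h5 : A ^ 2 * u * ((K + 3) * (s / L)) ≤ A ^ 2 * u * (1 / (20 * A ^ 2)) :=
      mul_le_mul_of_nonneg_left h3 (by positivity)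
    have h6 : A ^ 2 * u * (1 / (20 * A ^ 2)) = u / 20 := by
      field_simp
    rw [h6] at h5
    linarith
  -- the root
  have h7 : Real.sqrt ((2 * (A * u) + 2 * (A * u) ^ 2) * (1 / L)) ≤ 1 / 100 := by
    have h8 : u ≤ 9 * Real.log L := by nlinarith
    have h9 : 200 * (A * u) ≤ t := by
      have h10 : A * u ≤ A * (9 * Real.log L) := mul_le_mul_of_nonneg_left h8 hA0.le
      linarith
    have h11 : 1 ≤ A * u := one_le_mul_of_one_le_of_one_le hA hu1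
    have h12 : 2 * (A * u) + 2 * (A * u) ^ 2 ≤ 4 * (A * u) ^ 2 := by nlinarith
    have h13 : 40000 * (A * u) ^ 2 ≤ t ^ 2 := by
      have h14 : (200 * (A * u)) ^ 2 ≤ t ^ 2 := pow_le_pow_left₀ (by positivity) h9 2
      linarith
    rw [Real.sqrt_le_left (by norm_num), mul_one_div, div_le_iff₀ hL0, ht2]
    linarith
  linarith

end Pool.Agent.H.MP_711652_nt.CH
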