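import Pool.Agent.H.MP_711652_nt.CH.LD
import Pool.Agent.H.MP_711652_nt.G2.Num

/-! # MP_711652, CH: numerical facts, first part -/

set_option autoImplicit false

namespace Pool.Agent.H.MP_711652_nt.CH

open Finset Filter Pool.Agent.H.MP_711652_nt.LG Pool.Agent.H.MP_711652_nt.G2

/-- PROOF. `primorial_le_four_pow` (name in Mathlib: see `G2`): `W ≤ 4^(L/100) = exp (L log 4 / 100)`. -/
theorem WW_le : ∀ᶠ X : ℕ in atTop, (WW X : ℝ) ≤ (X : ℝ) ^ (1 / 70 : ℝ) := by
  filter_upwards [num_ev_log 1, eventually_gt_atTop 0] with X hL hX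
  have h2 : (WW X : ℝ) ≤ (4 : ℝ) ^ ⌊Real.log X / 100⌋₊ := by
    unfold WW
    exact_mod_cast primorial_le_four_pow _
  refine h2.trans ?_
  rw [num_rpow_eq hX, ← Real.rpow_natCast, Real.rpow_def_of_pos (by norm_num)]
  apply Real.exp_le_exp.2
  have h3 : ((⌊Real.log X / 100⌋₊ : ℕ) : ℝ) ≤ Real.log X / 100 := Nat.floor_le (by positivity)
  have h4 : Real.log 4 = 2 * Real.log 2 := by
    rw [show (4 : ℝ) = 2 ^ 2 by norm_num, Real.log_pow]
    norm_num
  have h5 := Real.log_two_lt_d9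
  have h6 : 0 < Real.log 2 := Real.log_pos (by norm_num)
  calc Real.log 4 * ((⌊Real.log X / 100⌋₊ : ℕ) : ℝ) ≤ Real.log 4 * (Real.log X / 100) :=
        mul_le_mul_of_nonneg_left h3 (by rw [h4]; positivity)
    _ ≤ (100 / 70) * (Real.log X / 100) :=
        mul_le_mul_of_nonneg_right (by rw [h4]; linarith) (by positivity)
    _ = 1 / 70 * Real.log X := by ring

private theorem XFa_theta : ∀ᶠ n : ℕ in atTop,
    20 * Real.log (100 * ((n : ℝ) + 1)) ≤ Real.log (primorial n) := by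
  have h := (isLittleO_log_rpow_atTop (r := 1 / 2) (by norm_num)).bound
    (show (0 : ℝ) < 1 / 100 by norm_num)
  have h2 := (tendsto_natCast_atTop_atTop.comp (tendsto_add_atTop_nat 1)).eventually h
  filter_upwards [h2, eventually_ge_atTop 1000] with n h3 hn
  have hn' : (1000 : ℝ) ≤ n := by exact_mod_cast hn
  have h4 := Chebyshev.theta_ge n
  rw [Chebyshev.theta_eq_log_primorial, Nat.floor_natCast] at h4
  simp only [Function.comp_apply, Nat.cast_add, Nat.cast_one] at h3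
  have hl : 0 ≤ Real.log ((n : ℝ) + 1) := Real.log_nonneg (by linarith)
  have hln : 0 ≤ Real.log (n : ℝ) := Real.log_nonneg (by linarith)
  rw [Real.norm_of_nonneg hl, Real.norm_of_nonneg (by positivity), ← Real.sqrt_eq_rpow] at h3
  have h5 : Real.sqrt ((n : ℝ) + 1) ≤ (n : ℝ) + 1 := by
    rw [Real.sqrt_le_left (by linarith)]
    nlinarith
  have h6 : Real.log (n : ℝ) ≤ Real.log ((n : ℝ) + 1) := Real.log_le_log (by linarith) (by linarith)
  have h7 : Real.sqrt (n : ℝ) ≤ Real.sqrt ((n : ℝ) + 1) := Real.sqrt_le_sqrt (by linarith)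
  have h8 : Real.sqrt (n : ℝ) * Real.log (n : ℝ) ≤ 1 / 100 * ((n : ℝ) + 1) := by
    calc Real.sqrt (n : ℝ) * Real.log (n : ℝ)
        ≤ Real.sqrt ((n : ℝ) + 1) * (1 / 100 * Real.sqrt ((n : ℝ) + 1)) :=
          mul_le_mul h7 (h6.trans h3) hln (Real.sqrt_nonneg _)
      _ = 1 / 100 * (Real.sqrt ((n : ℝ) + 1) * Real.sqrt ((n : ℝ) + 1)) := by ring
      _ = 1 / 100 * ((n : ℝ) + 1) := by rw [Real.mul_self_sqrt (by linarith)]
  have h9 : Real.log ((n : ℝ) + 1) ≤ 1 / 100 * ((n : ℝ) + 1) :=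
    h3.trans (mul_le_mul_of_nonneg_left h5 (by norm_num))
  have h10 : Real.log (100 * ((n : ℝ) + 1)) = Real.log 100 + Real.log ((n : ℝ) + 1) :=
    Real.log_mul (by norm_num) (by linarith)
  have h11 : Real.log 100 ≤ 7 := by
    have h12 : Real.log (100 : ℝ) ≤ Real.log (2 ^ 7 : ℝ) := Real.log_le_log (by norm_num) (by norm_num)
    rw [Real.log_pow] at h12
    have := Real.log_two_lt_d9
    push_cast at h12
    linarith
  have h12 := Real.log_two_gt_d9
  rw [h10]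
  nlinarith [h4, h8, h9, h11, mul_le_mul_of_nonneg_left h12.le (show (0 : ℝ) ≤ n by linarith)]

/-- PROOF. A lower bound for the primorial: see `G2` (the files `Num*`, `Core*` need one too), e.g. Chebyshev's lower bound for `theta`; any bound `exp (c L)` or even
`L^20 ≤ W` is enough. -/
theorem zz_le_WW : ∀ᶠ X : ℕ in atTop, zz X ≤ WW X := by
  have h1 : Tendsto (fun X : ℕ => ⌊Real.log X / 100⌋₊) atTop atTop := by
    refine tendsto_nat_floor_atTop.comp ?_
    exact num_log_tendsto.atTop_div_const (by norm_num)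
  filter_upwards [h1.eventually XFa_theta, num_ev_log 1] with X h2 hL
  unfold zz WW
  set n := ⌊Real.log X / 100⌋₊ with hn
  have h3 : Real.log X ≤ 100 * ((n : ℝ) + 1) := by
    have := Nat.lt_floor_add_one (Real.log X / 100)
    rw [← hn] at this
    linarith
  have hp : (0 : ℝ) < primorial n := by exact_mod_cast primorial_pos n
  have h4 : (100 * ((n : ℝ) + 1)) ^ 20 ≤ (primorial n : ℝ) := by
    rw [← Real.log_le_log_iff (by positivity) hp, Real.log_pow]
    exact_mod_cast h2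
  have h5 : Real.log X ^ 20 ≤ (primorial n : ℝ) :=
    (pow_le_pow_left₀ (by linarith) h3 20).trans h4
  exact Nat.floor_le_of_le h5

theorem xf_basic : ∀ᶠ X : ℕ in atTop, 10 ≤ X ∧ (10 ^ 9 : ℝ) ≤ Real.log X ∧
    1 ≤ Real.log (Real.log X) ∧ 1 ≤ NN X ∧ Real.log X / 100 < zz X ∧ YY X ≤ X ∧
    100 ≤ zz X ∧ (WW X * (YY X ^ 2) ^ 2) ^ 8 ≤ X ∧ 1000 * (WW X : ℝ) ≤ X := by
  filter_upwards [WW_le, eventually_ge_atTop 10, num_ev_log (10 ^ 9), num_ev_loglog 1,
    num_ev_const 1000 (69 / 70) (by norm_num)] with X hW hX hL hLL hC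
  have hX0 : (0 : ℝ) < X := by
    have : (10 : ℝ) ≤ X := by exact_mod_cast hX
    linarith
  have hX1 : (1 : ℝ) ≤ X := by
    have : (10 : ℝ) ≤ X := by exact_mod_cast hX
    linarith
  have hW0 : 0 < WW X := primorial_pos _
  have hWR : (0 : ℝ) < WW X := by exact_mod_cast hW0
  have h1 : 1000 * (WW X : ℝ) ≤ X := by
    calc 1000 * (WW X : ℝ) ≤ (X : ℝ) ^ (69 / 70 : ℝ) * (X : ℝ) ^ (1 / 70 : ℝ) :=
          mul_le_mul hC hW hWR.le (by positivity)
      _ = X := by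
          rw [← Real.rpow_add hX0]
          norm_num
  have h2 : (1 : ℝ) ≤ Real.log X ^ 20 := one_le_pow₀ (by linarith)
  have h3 : Real.log X ≤ Real.log X ^ 20 := by
    calc Real.log X = Real.log X ^ 1 := (pow_one _).symm
      _ ≤ Real.log X ^ 20 := pow_le_pow_right₀ (by linarith) (by norm_num)
  have h4 : Real.log X - 1 < zz X := by
    have := Nat.lt_floor_add_one (Real.log X ^ 20)
    unfold zz
    linarith
  have hY : (YY X : ℝ) ≤ (X : ℝ) ^ (1 / 100 : ℝ) := Nat.floor_le (by positivity)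
  refine ⟨hX, hL, hLL, ?_, by linarith, ?_, ?_, ?_, h1⟩
  · unfold NN
    have h5 : 1000 * WW X ≤ X := by exact_mod_cast h1
    have h6 : 1000 ≤ X / WW X := (Nat.le_div_iff_mul_le hW0).2 h5
    omega
  · have h5 : (X : ℝ) ^ (1 / 100 : ℝ) ≤ (X : ℝ) ^ (1 : ℝ) :=
      Real.rpow_le_rpow_of_exponent_le hX1 (by norm_num)
    rw [Real.rpow_one] at h5
    exact_mod_cast hY.trans h5
  · have : (100 : ℝ) ≤ zz X := by linarith
    exact_mod_cast this
  · have h5 : ((WW X : ℝ) * ((YY X : ℝ) ^ 2) ^ 2) ^ 8 ≤ X := by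
      calc ((WW X : ℝ) * ((YY X : ℝ) ^ 2) ^ 2) ^ 8
          ≤ ((X : ℝ) ^ (1 / 70 : ℝ) * (((X : ℝ) ^ (1 / 100 : ℝ)) ^ 2) ^ 2) ^ 8 := by
            gcongr
        _ = (X : ℝ) ^ (8 / 70 + 32 / 100 : ℝ) := by
            rw [← Real.rpow_natCast, ← Real.rpow_natCast, ← Real.rpow_natCast, ← Real.rpow_mul hX0.le,
              ← Real.rpow_mul hX0.le, ← Real.rpow_add hX0, ← Real.rpow_mul hX0.le]
            norm_num
        _ ≤ (X : ℝ) ^ (1 : ℝ) := Real.rpow_le_rpow_of_exponent_le hX1 (by norm_num)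
        _ = X := Real.rpow_one _
    exact_mod_cast h5

theorem xf_err4 (Cr : ℝ) : ∀ᶠ X : ℕ in atTop,
    (1 + 1 / 1000) * Cr * (1 + Real.log X) ^ 5 * (zz X : ℝ) ^ (-(3 / 4 : ℝ)) ≤
      1 / Real.log X ^ 2 := by
  filter_upwards [num_ev_log (1000 * (|Cr| + 1))] with X hL
  have hC : 0 ≤ |Cr| := abs_nonneg Cr
  set L := Real.log X with hLd
  have hL1 : 1000 ≤ L := by linarith
  have hL0 : 0 < L := by linarith
  have h1 : L ^ 20 / 2 ≤ (zz X : ℝ) := by
    have h2 := Nat.lt_floor_add_one (L ^ 20)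
    have h3 : (2 : ℝ) ≤ L ^ 20 := by
      calc (2 : ℝ) ≤ L := by linarith
        _ = L ^ 1 := (pow_one _).symm
        _ ≤ L ^ 20 := pow_le_pow_right₀ (by linarith) (by norm_num)
    unfold zz
    rw [← hLd]
    linarith
  have h2 : (zz X : ℝ) ^ (-(3 / 4 : ℝ)) ≤ 2 / L ^ 15 := by
    calc (zz X : ℝ) ^ (-(3 / 4 : ℝ)) ≤ (L ^ 20 / 2) ^ (-(3 / 4 : ℝ)) :=
          Real.rpow_le_rpow_of_nonpos (by positivity) h1 (by norm_num)
      _ = (L ^ 20) ^ (-(3 / 4 : ℝ)) / (2 : ℝ) ^ (-(3 / 4 : ℝ)) :=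
          Real.div_rpow (by positivity) (by norm_num) _
      _ ≤ 2 / L ^ 15 := by
          have e1 : (L ^ 20) ^ (-(3 / 4 : ℝ)) = (L ^ 15)⁻¹ := by
            rw [← Real.rpow_natCast, ← Real.rpow_mul hL0.le, ← Real.rpow_natCast,
              ← Real.rpow_neg hL0.le]
            norm_num
          have e2 : (1 / 2 : ℝ) ≤ (2 : ℝ) ^ (-(3 / 4 : ℝ)) := by
            calc (1 / 2 : ℝ) = (2 : ℝ) ^ (-1 : ℝ) := by
                  rw [Real.rpow_neg_one]
                  norm_num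
              _ ≤ (2 : ℝ) ^ (-(3 / 4 : ℝ)) :=
                Real.rpow_le_rpow_of_exponent_le (by norm_num) (by norm_num)
          rw [e1, div_le_div_iff₀ (by linarith) (by positivity),
            inv_mul_cancel₀ (by positivity)]
          linarith
  have h3 : (1 + L) ^ 5 ≤ 2 * L ^ 5 := by
    have h4 : (1 + L) ^ 5 ≤ (L * (1 + 1 / 1000)) ^ 5 := by
      refine pow_le_pow_left₀ (by linarith) ?_ 5
      linarith
    refine h4.trans ?_
    rw [mul_pow]
    have : (0 : ℝ) < L ^ 5 := by positivity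
    have h5 : ((1 : ℝ) + 1 / 1000) ^ 5 ≤ 2 := by norm_num
    nlinarith
  have h4 : (1 + 1 / 1000) * Cr ≤ 2 * |Cr| := by
    have := le_abs_self Cr
    linarith
  have hz0 : 0 ≤ (zz X : ℝ) ^ (-(3 / 4 : ℝ)) := Real.rpow_nonneg (by positivity) _
  calc (1 + 1 / 1000) * Cr * (1 + L) ^ 5 * (zz X : ℝ) ^ (-(3 / 4 : ℝ))
      ≤ 2 * |Cr| * (1 + L) ^ 5 * (zz X : ℝ) ^ (-(3 / 4 : ℝ)) := by
        refine mul_le_mul_of_nonneg_right ?_ hz0
        exact mul_le_mul_of_nonneg_right h4 (by positivity)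
    _ ≤ 2 * |Cr| * (2 * L ^ 5) * (2 / L ^ 15) := by
        refine mul_le_mul ?_ h2 hz0 (by positivity)
        exact mul_le_mul_of_nonneg_left h3 (by positivity)
    _ = 8 * |Cr| / L ^ 10 := by
        field_simp
        ring
    _ ≤ 1 / L ^ 2 := by
        rw [div_le_div_iff₀ (by positivity) (by positivity)]
        have h5 : 8 * |Cr| ≤ L ^ 8 := by
          calc 8 * |Cr| ≤ L := by linarith
            _ = L ^ 1 := (pow_one _).symm
            _ ≤ L ^ 8 := pow_le_pow_right₀ (by linarith) (by norm_num)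
        calc 8 * |Cr| * L ^ 2 ≤ L ^ 8 * L ^ 2 := mul_le_mul_of_nonneg_right h5 (by positivity)
          _ = 1 * L ^ 10 := by ring

end Pool.Agent.H.MP_711652_nt.CH
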