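import Pool.Agent.H.MP_711652_nt.CH.LD
import Pool.Agent.H.MP_711652_nt.G2.Num

/-! # MP_711652, CH: numerical facts, second part -/

set_option autoImplicit false

namespace Pool.Agent.H.MP_711652_nt.CH

open Finset Filter Pool.Agent.H.MP_711652_nt.LG Pool.Agent.H.MP_711652_nt.G2

/-- numerical facts for large `X` -/
private theorem xfb_ev : ∀ᶠ X : ℕ in atTop, 0 < X ∧ 4000 ≤ Real.log X ∧
    8 * Real.exp 21 + 200 ≤ Real.log (Real.log X) ∧
    8000 * (2 : ℝ) ^ ⌊Real.log (Real.log X)⌋₊ * Real.log (Real.log X) ^ 2 ≤ Real.log X ∧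
    160400 * Real.log (Real.log X) ≤ Real.log X := by
  have h1 := (isLittleO_log_rpow_rpow_atTop (s := 3 / 10) (2 : ℝ) (by norm_num)).bound
    (show (0 : ℝ) < 1 / 8000 by norm_num)
  have h2 := num_log_tendsto.eventually h1
  have h3 := (isLittleO_log_rpow_rpow_atTop (s := 1) (1 : ℝ) (by norm_num)).bound
    (show (0 : ℝ) < 1 / 160400 by norm_num)
  have h4 := num_log_tendsto.eventually h3
  filter_upwards [h2, h4, eventually_gt_atTop 0, num_ev_log 4000,
    num_ev_loglog (8 * Real.exp 21 + 200)] with X g1 g2 g3 g4 g5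
  have hLL : 0 < Real.log (Real.log X) := by
    have := Real.exp_pos 21
    linarith
  have hL0 : 0 < Real.log X := by linarith
  refine ⟨g3, g4, g5, ?_, ?_⟩
  · rw [Real.rpow_ofNat, Real.norm_of_nonneg (by positivity),
      Real.norm_of_nonneg (Real.rpow_nonneg hL0.le _)] at g1
    have k1 : (2 : ℝ) ^ ⌊Real.log (Real.log X)⌋₊ ≤ Real.log X ^ (7 / 10 : ℝ) := by
      rw [← Real.rpow_natCast]
      calc (2 : ℝ) ^ ((⌊Real.log (Real.log X)⌋₊ : ℕ) : ℝ) ≤ 2 ^ Real.log (Real.log X) :=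
            Real.rpow_le_rpow_of_exponent_le (by norm_num) (Nat.floor_le hLL.le)
        _ = Real.exp (Real.log 2 * Real.log (Real.log X)) := Real.rpow_def_of_pos (by norm_num) _
        _ ≤ Real.exp (Real.log (Real.log X) * (7 / 10)) := by
            apply Real.exp_le_exp.2
            have := Real.log_two_lt_d9
            nlinarith
        _ = Real.log X ^ (7 / 10 : ℝ) := (Real.rpow_def_of_pos hL0 _).symm
    have k2 : Real.log X ^ (7 / 10 : ℝ) * Real.log X ^ (3 / 10 : ℝ) = Real.log X := by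
      rw [← Real.rpow_add hL0]
      norm_num
    have k3 : 0 ≤ Real.log X ^ (7 / 10 : ℝ) := Real.rpow_nonneg hL0.le _
    calc 8000 * (2 : ℝ) ^ ⌊Real.log (Real.log X)⌋₊ * Real.log (Real.log X) ^ 2
        = (2 : ℝ) ^ ⌊Real.log (Real.log X)⌋₊ * (8000 * Real.log (Real.log X) ^ 2) := by ring
      _ ≤ Real.log X ^ (7 / 10 : ℝ) * (8000 * Real.log (Real.log X) ^ 2) :=
          mul_le_mul_of_nonneg_right k1 (by positivity)
      _ ≤ Real.log X ^ (7 / 10 : ℝ) * Real.log X ^ (3 / 10 : ℝ) :=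
          mul_le_mul_of_nonneg_left (by linarith) k3
      _ = Real.log X := k2
  · rw [Real.rpow_one, Real.rpow_one, Real.norm_of_nonneg hLL.le,
      Real.norm_of_nonneg hL0.le] at g2
    linarith

/-- `z ^ (2 ^ n) ≤ B` -/
private theorem xfb_zB {X : ℕ} (h1 : 4000 ≤ Real.log X)
    (h2 : 8 * Real.exp 21 + 200 ≤ Real.log (Real.log X))
    (h3 : 8000 * (2 : ℝ) ^ ⌊Real.log (Real.log X)⌋₊ * Real.log (Real.log X) ^ 2 ≤ Real.log X) :
    zz X ^ (2 ^ ⌊Real.log (Real.log X)⌋₊) ≤ BB X := by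
  have hLL : 0 < Real.log (Real.log X) := by
    have := Real.exp_pos 21
    linarith
  have hL0 : 0 < Real.log X := by linarith
  apply Nat.le_floor
  have e1 : ((zz X : ℕ) : ℝ) ≤ Real.exp (20 * Real.log (Real.log X)) := by
    have h4 : ((zz X : ℕ) : ℝ) ≤ Real.log X ^ 20 := Nat.floor_le (by positivity)
    have h5 : Real.exp (20 * Real.log (Real.log X)) = Real.log X ^ 20 := by
      rw [show (20 : ℝ) * Real.log (Real.log X) = ((20 : ℕ) : ℝ) * Real.log (Real.log X) by
        norm_num, Real.exp_nat_mul, Real.exp_log hL0]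
    rw [h5]
    exact h4
  rw [Nat.cast_pow]
  refine (pow_le_pow_left₀ (Nat.cast_nonneg _) e1 _).trans ?_
  rw [← Real.exp_nat_mul]
  apply Real.exp_le_exp.2
  rw [le_div_iff₀ (by positivity)]
  push_cast
  nlinarith

private theorem xfb_z3 {X : ℕ} (h1 : 4000 ≤ Real.log X) : 3 ≤ zz X := by
  apply Nat.le_floor
  have : Real.log X ^ 1 ≤ Real.log X ^ 20 := pow_le_pow_right₀ (by linarith) (by norm_num)
  push_cast
  linarith

private theorem xfb_B {X : ℕ} (h1 : 4000 ≤ Real.log X)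
    (h2 : 8 * Real.exp 21 + 200 ≤ Real.log (Real.log X))
    (h4 : 160400 * Real.log (Real.log X) ≤ Real.log X) :
    Real.log X / (400 * Real.log (Real.log X)) * (400 / 401) ≤ Real.log (BB X) ∧
      Real.log (BB X) ≤ Real.log X / (400 * Real.log (Real.log X)) := by
  have hLL : 0 < Real.log (Real.log X) := by
    have := Real.exp_pos 21
    linarith
  have hE : 401 ≤ Real.log X / (400 * Real.log (Real.log X)) := by
    rw [le_div_iff₀ (by positivity)]
    linarith
  set E : ℝ := Real.log X / (400 * Real.log (Real.log X)) with hEdef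
  have h5 : 2 ≤ Real.exp E := by
    have := Real.add_one_le_exp E
    linarith
  have h6 : ((BB X : ℕ) : ℝ) ≤ Real.exp E := Nat.floor_le (Real.exp_pos _).le
  have h7 : Real.exp E / 2 ≤ ((BB X : ℕ) : ℝ) := by
    have := Nat.lt_floor_add_one (Real.exp E)
    have h8 : ((BB X : ℕ) : ℝ) = ((⌊Real.exp E⌋₊ : ℕ) : ℝ) := rfl
    rw [h8]
    linarith
  constructor
  · have h8 := Real.log_le_log (by positivity) h7
    rw [Real.log_div (Real.exp_pos _).ne' (by norm_num), Real.log_exp] at h8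
    have h9 := Real.log_two_lt_d9
    linarith
  · have h8 := Real.log_le_log (by linarith) h6
    rwa [Real.log_exp] at h8

/-- PROOF. `big_ext` with `n = ⌊log log X⌋`: `2^n * 20 LL ≤ L / (400 LL) - 1` as `2^LL ≤ L^(7/10)`. -/
theorem xf_big : ∀ᶠ X : ℕ in atTop, Big (PP X) (BB X) (YY X) (kk X) (cc X) (zz X) := by
  filter_upwards [xfb_ev] with X hX
  obtain ⟨h0, h1, h2, h3, h4⟩ := hX
  have hLL : 0 < Real.log (Real.log X) := by
    have := Real.exp_pos 21
    linarith
  have hL0 : 0 < Real.log X := by linarith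
  refine big_ext (n := ⌊Real.log (Real.log X)⌋₊) (xfb_z3 h1) (xfb_zB h1 h2 h3) ?_ ?_ ?_
  · apply Nat.floor_le_floor
    rw [num_rpow_eq h0]
    apply Real.exp_le_exp.2
    have h5 : Real.log X / (400 * Real.log (Real.log X)) ≤ Real.log X / 100 :=
      div_le_div_of_nonneg_left hL0.le (by norm_num) (by linarith [Real.exp_pos 21])
    linarith
  · have := Nat.lt_floor_add_one (Real.log (Real.log X))
    linarith
  · have h5 : ((YY X : ℕ) : ℝ) ≤ Real.exp (1 / 100 * Real.log X) := by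
      rw [← num_rpow_eq h0]
      exact Nat.floor_le (by positivity)
    have h6 : Real.exp (1 / 100 * Real.log X) < Real.exp ((kk X : ℝ) + 1) := by
      apply Real.exp_lt_exp.2
      have := Nat.lt_floor_add_one (Real.log X)
      have h7 : ((kk X : ℕ) : ℝ) = ((⌊Real.log X⌋₊ : ℕ) : ℝ) := rfl
      rw [h7]
      linarith
    have h7 : Real.exp ((kk X : ℝ) + 1) ≤ (zz X : ℝ) ^ (kk X + 1) := by
      have h8 : (kk X : ℝ) + 1 = ((kk X + 1 : ℕ) : ℝ) * 1 := by push_cast; ring
      rw [h8, Real.exp_nat_mul]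
      refine pow_le_pow_left₀ (Real.exp_pos _).le ?_ _
      have h9 := Real.exp_one_lt_d9
      have h10 : (3 : ℝ) ≤ zz X := by exact_mod_cast xfb_z3 h1
      linarith
    have h8 : ((YY X : ℕ) : ℝ) < (zz X : ℝ) ^ (kk X + 1) := h5.trans_lt (h6.trans_le h7)
    exact_mod_cast h8

/-- PROOF. `c_big_le` with `n = ⌊log log X⌋`, `log (zz X) ≤ 20 log log X`. -/
theorem cc_le : ∀ᶠ X : ℕ in atTop, cc X ≤ 161 * Real.exp 21 := by
  filter_upwards [xfb_ev] with X hX
  obtain ⟨h0, h1, h2, h3, h4⟩ := hX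
  have he := Real.exp_pos 21
  have hLL : 0 < Real.log (Real.log X) := by linarith
  have hL0 : 0 < Real.log X := by linarith
  have h5 := Nat.lt_floor_add_one (Real.log (Real.log X))
  have h6 := c_big_le (z := zz X) (B := BB X) (n := ⌊Real.log (Real.log X)⌋₊)
    (by have := xfb_z3 h1; omega) (xfb_zB h1 h2 h3) (by linarith)
  refine h6.trans ?_
  have h7 : Real.log (zz X) ≤ 20 * Real.log (Real.log X) := by
    have h8 : ((zz X : ℕ) : ℝ) ≤ Real.log X ^ 20 := Nat.floor_le (by positivity)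
    have h9 : (0 : ℝ) < zz X := by
      have := xfb_z3 h1
      exact_mod_cast (by omega : 0 < zz X)
    have h10 := Real.log_le_log h9 h8
    rw [Real.log_pow] at h10
    exact_mod_cast h10
  have hn : (0 : ℝ) < (⌊Real.log (Real.log X)⌋₊ : ℝ) := by linarith
  rw [div_le_iff₀ hn]
  have h8 : 8 * Real.exp 21 * Real.log (zz X) ≤
      8 * Real.exp 21 * (20 * Real.log (Real.log X)) :=
    mul_le_mul_of_nonneg_left h7 (by positivity)
  have h9 : 160 * Real.log (Real.log X) ≤ 161 * (⌊Real.log (Real.log X)⌋₊ : ℝ) := by linarith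
  have h10 := mul_le_mul_of_nonneg_left h9 he.le
  linarith

/-- PROOF. `BB X ≥ exp (L / (400 LL)) / 2`. -/
theorem ss_le : ∀ᶠ X : ℕ in atTop, 0 < Real.log (BB X) ∧
    ss X ≤ 401 * (Real.log (Real.log X) / Real.log X) := by
  filter_upwards [xfb_ev] with X hX
  obtain ⟨h0, h1, h2, h3, h4⟩ := hX
  have he := Real.exp_pos 21
  have hLL : 0 < Real.log (Real.log X) := by linarith
  have hL0 : 0 < Real.log X := by linarith
  have h5 := (xfb_B h1 h2 h4).1
  have h6 : 0 < Real.log X / (400 * Real.log (Real.log X)) * (400 / 401) := by positivity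
  refine ⟨h6.trans_le h5, ?_⟩
  unfold ss
  refine (one_div_le_one_div_of_le h6 h5).trans (le_of_eq ?_)
  field_simp

/-- PROOF. `(B / Y)^s = exp (1 - log Y / log B)`, `log Y ≥ L / 100 - 1`, `log B ≤ L / (400 LL)`. -/
theorem rankin_le : ∀ᶠ X : ℕ in atTop, ((BB X : ℝ) / YY X) ^ ss X ≤ 3 * Real.log X ^ (-(39 / 10 : ℝ)) := by
  filter_upwards [xfb_ev, num_ev_const 2 (1 / 100) (by norm_num)] with X hX hY2
  obtain ⟨h0, h1, h2, h3, h4⟩ := hX
  have he := Real.exp_pos 21
  have hLL : 0 < Real.log (Real.log X) := by linarith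
  have hL0 : 0 < Real.log X := by linarith
  obtain ⟨h5, h6⟩ := xfb_B h1 h2 h4
  have hE : 0 < Real.log X / (400 * Real.log (Real.log X)) * (400 / 401) := by positivity
  have hlB : 0 < Real.log (BB X) := hE.trans_le h5
  obtain ⟨-, -, y1, y2, y3⟩ := num_floor hY2 h0
  have hYp : (0 : ℝ) < YY X := by
    have : 0 < YY X := by
      unfold YY
      omega
    exact_mod_cast this
  have hBp : (0 : ℝ) < BB X := by
    by_contra hcon
    have : (BB X : ℝ) = 0 := le_antisymm (not_lt.1 hcon) (Nat.cast_nonneg _)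
    rw [this, Real.log_zero] at hlB
    exact lt_irrefl _ hlB
  have y1' : 1 / 100 * Real.log X - 1 ≤ Real.log (YY X) := y1
  rw [Real.rpow_def_of_pos (div_pos hBp hYp), Real.log_div hBp.ne' hYp.ne']
  have e1 : (Real.log (BB X) - Real.log (YY X)) * ss X = 1 - Real.log (YY X) / Real.log (BB X) := by
    unfold ss
    field_simp
  have e2 : 4 * Real.log (Real.log X) - 400 * Real.log (Real.log X) / Real.log X ≤
      Real.log (YY X) / Real.log (BB X) := by
    have k1 : (1 / 100 * Real.log X - 1) / (Real.log X / (400 * Real.log (Real.log X))) ≤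
        Real.log (YY X) / Real.log (BB X) := by
      refine div_le_div₀ ?_ y1' hlB h6
      linarith
    refine le_trans (le_of_eq ?_) k1
    field_simp
    ring
  have e3 : 400 * Real.log (Real.log X) / Real.log X ≤ 1 / 10 * Real.log (Real.log X) := by
    rw [div_le_iff₀ hL0]
    nlinarith
  rw [e1, Real.rpow_def_of_pos hL0]
  calc Real.exp (1 - Real.log (YY X) / Real.log (BB X)) ≤
      Real.exp (1 + Real.log (Real.log X) * (-(39 / 10))) := by
        apply Real.exp_le_exp.2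
        linarith
    _ = Real.exp 1 * Real.exp (Real.log (Real.log X) * (-(39 / 10))) := Real.exp_add _ _
    _ ≤ 3 * Real.exp (Real.log (Real.log X) * (-(39 / 10))) := by
        refine mul_le_mul_of_nonneg_right ?_ (Real.exp_pos _).le
        have := Real.exp_one_lt_d9
        linarith

/-- PROOF. `exp (R * 2 * ss * cc) ≤ exp (LL * 129122 / 300000) ≤ L^(1/2)`; the other two terms are `≤ L^(-10)`. -/
theorem xf_err1 : ∀ᶠ X : ℕ in atTop, ∀ R : ℕ, (R : ℝ) ≤ Real.log X / (300000 * Real.exp 21) →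
    R * (((BB X : ℝ) / YY X) ^ ss X * Real.exp (R * (2 * ss X * cc X)) +
    (kk X * (2 / ((zz X : ℝ) - 1))) ^ 2 + 4 * kk X * R / zz X) ≤ 1 / (2 * Real.log X) := by
  filter_upwards [xfb_ev, cc_le, ss_le, rankin_le] with X hX hcc hss hrk R hR
  obtain ⟨h0, h1, h2, h3, h4⟩ := hX
  obtain ⟨hlB, hss⟩ := hss
  have he := Real.exp_pos 21
  have he1 : 1 ≤ Real.exp 21 := Real.one_le_exp (by norm_num)
  have hLL : 0 < Real.log (Real.log X) := by linarith
  have hL0 : 0 < Real.log X := by linarith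
  have hL1 : 1 ≤ Real.log X := by linarith
  have hR0 : (0 : ℝ) ≤ R := Nat.cast_nonneg _
  have hRL : (R : ℝ) ≤ Real.log X / 300000 := by
    refine hR.trans (div_le_div_of_nonneg_left hL0.le (by norm_num) ?_)
    linarith
  have hk0 : (0 : ℝ) ≤ kk X := Nat.cast_nonneg _
  have hk1 : (kk X : ℝ) ≤ Real.log X := Nat.floor_le hL0.le
  have hs0 : 0 ≤ ss X := by
    unfold ss
    positivity
  set L : ℝ := Real.log X with hLdef
  set M : ℝ := Real.log L with hMdef
  -- the exponential factor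
  have a1 : (R : ℝ) * (2 * ss X * cc X) ≤ M * (1 / 2) := by
    have b1 : 2 * ss X * cc X ≤ 2 * (401 * (M / L)) * (161 * Real.exp 21) := by
      have b2 : 2 * ss X * cc X ≤ 2 * ss X * (161 * Real.exp 21) :=
        mul_le_mul_of_nonneg_left hcc (by positivity)
      refine b2.trans (mul_le_mul_of_nonneg_right ?_ (by positivity))
      linarith
    have b3 : 0 ≤ 2 * (401 * (M / L)) * (161 * Real.exp 21) := by positivity
    calc (R : ℝ) * (2 * ss X * cc X) ≤ R * (2 * (401 * (M / L)) * (161 * Real.exp 21)) :=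
          mul_le_mul_of_nonneg_left b1 hR0
      _ ≤ L / (300000 * Real.exp 21) * (2 * (401 * (M / L)) * (161 * Real.exp 21)) :=
          mul_le_mul_of_nonneg_right hR b3
      _ = M * (129122 / 300000) := by
          field_simp
          ring
      _ ≤ M * (1 / 2) := mul_le_mul_of_nonneg_left (by norm_num) hLL.le
  have a2 : Real.exp (R * (2 * ss X * cc X)) ≤ L ^ (1 / 2 : ℝ) := by
    rw [Real.rpow_def_of_pos hL0]
    exact Real.exp_le_exp.2 a1
  have a3 : ((BB X : ℝ) / YY X) ^ ss X * Real.exp (R * (2 * ss X * cc X)) ≤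
      3 * L ^ (-(34 / 10 : ℝ)) := by
    calc ((BB X : ℝ) / YY X) ^ ss X * Real.exp (R * (2 * ss X * cc X)) ≤
        3 * L ^ (-(39 / 10 : ℝ)) * L ^ (1 / 2 : ℝ) :=
          mul_le_mul hrk a2 (Real.exp_pos _).le (by positivity)
      _ = 3 * L ^ (-(34 / 10 : ℝ)) := by
          rw [mul_assoc, ← Real.rpow_add hL0]
          norm_num
  have a4 : L ^ (-(34 / 10 : ℝ)) ≤ 1 / L ^ 3 := by
    have b1 : L ^ (-(34 / 10 : ℝ)) ≤ L ^ (-(3 : ℝ)) :=
      Real.rpow_le_rpow_of_exponent_le hL1 (by norm_num)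
    refine b1.trans (le_of_eq ?_)
    rw [Real.rpow_neg hL0.le, one_div]
    norm_num
  -- the other two terms
  have hz : L ^ 20 / 2 ≤ (zz X : ℝ) - 1 := by
    have b1 := Nat.lt_floor_add_one (L ^ 20)
    have b2 : ((zz X : ℕ) : ℝ) = ((⌊L ^ 20⌋₊ : ℕ) : ℝ) := rfl
    have b3 : L ^ 1 ≤ L ^ 20 := pow_le_pow_right₀ hL1 (by norm_num)
    rw [b2]
    linarith
  have hzp : 0 < (zz X : ℝ) - 1 := lt_of_lt_of_le (by positivity) hz
  have a5 : (kk X : ℝ) * (2 / ((zz X : ℝ) - 1)) ≤ 4 / L ^ 19 := by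
    calc (kk X : ℝ) * (2 / ((zz X : ℝ) - 1)) ≤ L * (2 / (L ^ 20 / 2)) := by
          refine mul_le_mul hk1 ?_ (by positivity) hL0.le
          exact div_le_div_of_nonneg_left (by norm_num) (by positivity) hz
      _ = 4 / L ^ 19 := by
          field_simp
          ring
  have a6 : ((kk X : ℝ) * (2 / ((zz X : ℝ) - 1))) ^ 2 ≤ 16 / L ^ 3 := by
    have b1 : ((kk X : ℝ) * (2 / ((zz X : ℝ) - 1))) ^ 2 ≤ (4 / L ^ 19) ^ 2 :=
      pow_le_pow_left₀ (by positivity) a5 2
    refine b1.trans ?_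
    rw [div_pow, ← pow_mul, div_le_div_iff₀ (by positivity) (by positivity)]
    have b2 : L ^ 3 ≤ L ^ (19 * 2) := pow_le_pow_right₀ hL1 (by norm_num)
    nlinarith
  have a7 : 4 * (kk X : ℝ) * R / zz X ≤ 8 / L ^ 3 := by
    have b0 : L ^ 20 / 2 ≤ (zz X : ℝ) := by linarith
    have b4 : (R : ℝ) ≤ L := by linarith
    calc 4 * (kk X : ℝ) * R / zz X ≤ 4 * L * L / (L ^ 20 / 2) := by
          refine div_le_div₀ (by positivity) ?_ (by positivity) b0
          exact mul_le_mul (by linarith) b4 hR0 (by positivity)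
      _ = 8 / L ^ 18 := by
          field_simp
          ring
      _ ≤ 8 / L ^ 3 := by
          refine div_le_div_of_nonneg_left (by norm_num) (by positivity) ?_
          exact pow_le_pow_right₀ hL1 (by norm_num)
  have a8 : ((BB X : ℝ) / YY X) ^ ss X * Real.exp (R * (2 * ss X * cc X)) +
      (kk X * (2 / ((zz X : ℝ) - 1))) ^ 2 + 4 * kk X * R / zz X ≤ 27 / L ^ 3 := by
    have b1 : 3 * L ^ (-(34 / 10 : ℝ)) ≤ 3 / L ^ 3 := by
      have := mul_le_mul_of_nonneg_left a4 (show (0 : ℝ) ≤ 3 by norm_num)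
      refine this.trans (le_of_eq ?_)
      ring
    have b2 : 27 / L ^ 3 = 3 / L ^ 3 + 16 / L ^ 3 + 8 / L ^ 3 := by ring
    rw [b2]
    exact add_le_add (add_le_add (a3.trans b1) a6) a7
  calc (R : ℝ) * (((BB X : ℝ) / YY X) ^ ss X * Real.exp (R * (2 * ss X * cc X)) +
      (kk X * (2 / ((zz X : ℝ) - 1))) ^ 2 + 4 * kk X * R / zz X) ≤
      L / 300000 * (27 / L ^ 3) := mul_le_mul hRL a8 (by positivity) (by positivity)
    _ = 27 / 300000 / L ^ 2 := by
        field_simp
    _ ≤ 1 / (2 * L) := by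
        rw [div_le_div_iff₀ (by positivity) (by positivity)]
        nlinarith

end Pool.Agent.H.MP_711652_nt.CH
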