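import Pool.Agent.H.MP_711652_nt.CH.LD
import Pool.Agent.H.MP_711652_nt.CH.XFa
import Pool.Agent.H.MP_711652_nt.G2.Num

/-! # MP_711652, CH: numerical facts, third part -/

set_option autoImplicit false

namespace Pool.Agent.H.MP_711652_nt.CH

open Finset Filter Pool.Agent.H.MP_711652_nt.LG Pool.Agent.H.MP_711652_nt.G2

private theorem xfc_YY {X : ℕ} (hX : 0 < X) : (YY X : ℝ) ≤ Real.exp (Real.log X / 100) := by
  unfold YY
  refine (Nat.floor_le (Real.rpow_nonneg (Nat.cast_nonneg X) _)).trans ?_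
  rw [num_rpow_eq hX]
  exact le_of_eq (by congr 1; ring)

/-- PROOF. A product of `j` primes `> zz X` which is `≤ YY^3 ≤ X^(3/100)`: `j * log (zz X) ≤ (3 / 100) L`, so `j ≤ ⌊L⌋`. -/
theorem xf_num : ∀ᶠ X : ℕ in atTop, ∀ R : ℕ, (R : ℝ) ≤ Real.log X →
    Num1 (PP X) (YY X ^ 3) (kk X) (R + 2) (zz X) (1 / 1000) ∧ (20 * (R : ℝ)) ^ 4 ≤ zz X := by
  filter_upwards [num_ev_log (10 ^ 9), eventually_gt_atTop 0] with X hL hX R hR
  set L := Real.log X with hLdef
  have hL0 : 0 < L := by linarith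
  have hR0 : (0 : ℝ) ≤ R := Nat.cast_nonneg R
  have hz : L ^ 20 - 1 < (zz X : ℝ) := by
    have := Nat.lt_floor_add_one (L ^ 20)
    unfold zz
    rw [← hLdef]
    linarith
  have h4 : (10 : ℝ) ^ 9 * L ^ 4 ≤ L ^ 20 - 1 := by
    have h5 : (1 : ℝ) ≤ L ^ 4 := one_le_pow₀ (by linarith)
    have h16 : ((10 : ℝ) ^ 9) ^ 16 ≤ L ^ 16 := pow_le_pow_left₀ (by norm_num) hL 16
    have h6 : (10 : ℝ) ^ 9 + 1 ≤ L ^ 16 := le_trans (by norm_num) h16
    have h7 : ((10 : ℝ) ^ 9 + 1) * L ^ 4 ≤ L ^ 16 * L ^ 4 :=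
      mul_le_mul_of_nonneg_right h6 (by positivity)
    have h8 : L ^ 16 * L ^ 4 = L ^ 20 := by ring
    rw [h8] at h7
    linarith
  have hz4 : (10 : ℝ) ^ 9 * L ^ 4 ≤ zz X := by linarith
  have hL24 : L ^ 2 ≤ L ^ 4 := pow_le_pow_right₀ (by linarith) (by norm_num)
  have hL4 : (1 : ℝ) ≤ L ^ 4 := one_le_pow₀ (by linarith)
  have hzpos : (0 : ℝ) < zz X := by linarith
  refine ⟨⟨?_, ?_, ?_, by omega, ?_, by norm_num⟩, ?_⟩
  · linarith
  · intro p hp
    have := (mem_Pbig.1 hp).1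
    exact_mod_cast this.le
  · intro T hT hprod
    unfold kk
    apply Nat.le_floor
    have h1 : (2 : ℝ) ^ T.card ≤ ((YY X ^ 3 : ℕ) : ℝ) := by
      have h2 : 2 ^ T.card ≤ ∏ p ∈ T, p :=
        Finset.pow_card_le_prod T _ _ fun p hp => (mem_Pbig.1 (hT hp)).2.2.two_le
      exact_mod_cast h2.trans hprod
    have h3 : ((YY X ^ 3 : ℕ) : ℝ) ≤ Real.exp (3 * L / 100) := by
      rw [Nat.cast_pow]
      refine (pow_le_pow_left₀ (Nat.cast_nonneg _) (xfc_YY hX) 3).trans (le_of_eq ?_)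
      rw [← Real.exp_nat_mul]
      congr 1
      push_cast
      ring
    have h5 := Real.log_le_log (by positivity) (h1.trans h3)
    rw [Real.log_exp, Real.log_pow] at h5
    have h6 := Real.log_two_gt_d9
    have h7 : (T.card : ℝ) * (3 / 100) ≤ T.card * Real.log 2 :=
      mul_le_mul_of_nonneg_left (by linarith) (Nat.cast_nonneg _)
    linarith
  · rw [div_le_iff₀ hzpos]
    have hk : ((kk X : ℕ) : ℝ) ≤ L := by
      unfold kk
      exact Nat.floor_le hL0.le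
    have hk0 : (0 : ℝ) ≤ (kk X : ℕ) := Nat.cast_nonneg _
    push_cast
    have h1 : ((kk X : ℝ) + 1) * ((R : ℝ) + 2) ≤ (2 * L) * (2 * L) := by
      apply mul_le_mul <;> linarith
    have h2 : ((R : ℝ) + 2) ^ 2 ≤ (2 * L) ^ 2 := pow_le_pow_left₀ (by linarith) (by linarith) 2
    nlinarith
  · have h1 : (20 * (R : ℝ)) ^ 4 ≤ (20 * L) ^ 4 := pow_le_pow_left₀ (by positivity) (by linarith) 4
    have h2 : (20 * L) ^ 4 = 160000 * L ^ 4 := by ring
    nlinarith

private theorem xfc_NN : ∀ᶠ X : ℕ in atTop, Real.exp (9 / 10 * Real.log X) ≤ NN X := by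
  filter_upwards [WW_le, num_ev_log 100, eventually_gt_atTop 0] with X hW hL hX
  set L := Real.log X with hLdef
  have hX0 : (0 : ℝ) < X := by exact_mod_cast hX
  have hW0 : 0 < WW X := primorial_pos _
  have hWR : (0 : ℝ) < WW X := by exact_mod_cast hW0
  rw [num_rpow_eq hX] at hW
  have h1 : (X : ℝ) / WW X < ((X / WW X : ℕ) : ℝ) + 1 := by
    rw [div_lt_iff₀ hWR]
    have h3 := Nat.lt_div_mul_add (a := X) hW0
    have h4 : X < (X / WW X + 1) * WW X := by
      rw [add_mul, one_mul]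
      exact h3
    exact_mod_cast h4
  have h2 : Real.exp (69 / 70 * L) ≤ (X : ℝ) / WW X := by
    rw [le_div_iff₀ hWR]
    calc Real.exp (69 / 70 * L) * WW X ≤ Real.exp (69 / 70 * L) * Real.exp (1 / 70 * L) :=
          mul_le_mul_of_nonneg_left hW (Real.exp_pos _).le
      _ = X := by
          rw [← Real.exp_add, show 69 / 70 * L + 1 / 70 * L = L by ring, hLdef, Real.exp_log hX0]
  have h3 : ((X / WW X : ℕ) : ℝ) ≤ (NN X : ℝ) + 3 := by
    have : X / WW X ≤ NN X + 3 := by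
      unfold NN
      omega
    exact_mod_cast this
  have h4 : Real.exp (69 / 70 * L) = Real.exp (9 / 10 * L) * Real.exp (3 / 35 * L) := by
    rw [← Real.exp_add]
    congr 1
    ring
  have h5 : 5 ≤ Real.exp (3 / 35 * L) := by
    have := Real.add_one_le_exp (3 / 35 * L)
    linarith
  have h6 : 1 ≤ Real.exp (9 / 10 * L) := Real.one_le_exp (by linarith)
  have h7 : Real.exp (9 / 10 * L) * 5 ≤ Real.exp (9 / 10 * L) * Real.exp (3 / 35 * L) :=
    mul_le_mul_of_nonneg_left h5 (by linarith)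
  linarith

/-- PROOF. `2^R ≤ X^(1/1000)`, `YY X ≤ X^(1/100)`, `NN X ≥ X^(9/10)` (by `WW_le`), `num_ev_logpow`. -/
theorem xf_err23 : ∀ᶠ X : ℕ in atTop, ∀ R : ℕ, (R : ℝ) ≤ Real.log X / 1000 →
    2000 * Real.log X * R * (2 ^ R * (YY X : ℝ) ^ 2) ^ 2 ≤ NN X ∧
    2000 * (2 ^ R * (YY X : ℝ) ^ 2) ^ 2 ≤ NN X ∧
    2 * (4 * 2 ^ R * (YY X : ℝ) ^ 6) ^ 2 * (YY X : ℝ) ^ 2 ≤ NN X := by
  filter_upwards [xfc_NN, num_ev_logpow 2000 2 (1 / 10) (by norm_num), num_ev_log 100,
    eventually_gt_atTop 0] with X hN hlog hL hX R hR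
  set L := Real.log X with hLdef
  rw [num_rpow_eq hX] at hlog
  have hL0 : 0 < L := by linarith
  have hR0 : (0 : ℝ) ≤ R := Nat.cast_nonneg R
  have hy := xfc_YY hX
  rw [← hLdef] at hy hlog
  have hy0 : (0 : ℝ) ≤ YY X := Nat.cast_nonneg _
  have ht : (2 : ℝ) ^ R ≤ Real.exp (L / 1000) := by
    rw [← Real.rpow_natCast, Real.rpow_def_of_pos (by norm_num)]
    apply Real.exp_le_exp.2
    have h1 := Real.log_two_lt_d9
    have h2 : Real.log 2 * (R : ℝ) ≤ 1 * R := mul_le_mul_of_nonneg_right (by linarith) hR0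
    linarith
  have h1000 : 2000 ≤ Real.exp (1 / 10 * L) := by
    have : (2000 : ℝ) * 1 ≤ 2000 * L ^ 2 :=
      mul_le_mul_of_nonneg_left (one_le_pow₀ (by linarith)) (by norm_num)
    linarith
  have hy2 : (YY X : ℝ) ^ 2 ≤ Real.exp (2 * L / 100) := by
    refine (pow_le_pow_left₀ hy0 hy 2).trans (le_of_eq ?_)
    rw [← Real.exp_nat_mul]
    congr 1
    push_cast
    ring
  have hy6 : (YY X : ℝ) ^ 6 ≤ Real.exp (6 * L / 100) := by
    refine (pow_le_pow_left₀ hy0 hy 6).trans (le_of_eq ?_)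
    rw [← Real.exp_nat_mul]
    congr 1
    push_cast
    ring
  have hA : (2 ^ R * (YY X : ℝ) ^ 2) ^ 2 ≤ Real.exp (42 / 1000 * L) := by
    have h1 : 2 ^ R * (YY X : ℝ) ^ 2 ≤ Real.exp (L / 1000) * Real.exp (2 * L / 100) :=
      mul_le_mul ht hy2 (by positivity) (Real.exp_pos _).le
    refine (pow_le_pow_left₀ (by positivity) h1 2).trans (le_of_eq ?_)
    rw [← Real.exp_add, ← Real.exp_nat_mul]
    congr 1
    push_cast
    ring
  have hB : (4 * 2 ^ R * (YY X : ℝ) ^ 6) ^ 2 ≤ 16 * Real.exp (122 / 1000 * L) := by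
    have h1 : 4 * 2 ^ R * (YY X : ℝ) ^ 6 ≤ 4 * Real.exp (L / 1000) * Real.exp (6 * L / 100) :=
      mul_le_mul (mul_le_mul_of_nonneg_left ht (by norm_num)) hy6 (by positivity) (by positivity)
    refine (pow_le_pow_left₀ (by positivity) h1 2).trans (le_of_eq ?_)
    rw [mul_assoc, ← Real.exp_add, mul_pow, ← Real.exp_nat_mul]
    norm_num
    ring
  have hfin : Real.exp (1 / 10 * L) * Real.exp (142 / 1000 * L) ≤ Real.exp (9 / 10 * L) := by
    rw [← Real.exp_add]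
    apply Real.exp_le_exp.2
    linarith
  have h42 : Real.exp (42 / 1000 * L) ≤ Real.exp (142 / 1000 * L) := by
    apply Real.exp_le_exp.2
    linarith
  refine ⟨?_, ?_, ?_⟩
  · refine le_trans ?_ (hfin.trans hN)
    refine mul_le_mul ?_ (hA.trans h42) (by positivity) (Real.exp_pos _).le
    refine le_trans ?_ hlog
    have h1 : 2000 * L * (R : ℝ) ≤ 2000 * L * L :=
      mul_le_mul_of_nonneg_left (by linarith) (by positivity)
    calc 2000 * L * (R : ℝ) ≤ 2000 * L * L := h1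
      _ = 2000 * L ^ 2 := by ring
  · refine le_trans ?_ (hfin.trans hN)
    exact mul_le_mul h1000 (hA.trans h42) (by positivity) (Real.exp_pos _).le
  · refine le_trans ?_ (hfin.trans hN)
    have h1 : (4 * 2 ^ R * (YY X : ℝ) ^ 6) ^ 2 * (YY X : ℝ) ^ 2 ≤
        16 * Real.exp (122 / 1000 * L) * Real.exp (2 * L / 100) :=
      mul_le_mul hB hy2 (by positivity) (by positivity)
    have h2 : 16 * Real.exp (122 / 1000 * L) * Real.exp (2 * L / 100) =
        16 * Real.exp (142 / 1000 * L) := by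
      rw [mul_assoc, ← Real.exp_add]
      congr 2
      ring
    have h3 : 2000 * Real.exp (142 / 1000 * L) ≤ Real.exp (1 / 10 * L) * Real.exp (142 / 1000 * L) :=
      mul_le_mul_of_nonneg_right h1000 (Real.exp_pos _).le
    have h4 := Real.exp_pos (142 / 1000 * L)
    rw [mul_assoc]
    linarith

end Pool.Agent.H.MP_711652_nt.CH
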