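import Pool.Agent.H.MP_711652_nt.CH.OneSc
import Pool.Agent.H.MP_711652_nt.CH.LayP
import Pool.Agent.H.MP_711652_nt.CH.XFa
import Pool.Agent.H.MP_711652_nt.CH.XFb
import Pool.Agent.H.MP_711652_nt.CH.XFc

/-! # MP_711652, CH: the theorem on chains of large gaps -/

set_option autoImplicit false

namespace Pool.Agent.H.MP_711652_nt.CH

open Finset Filter Pool.Agent.H.MP_711652_nt.LG Pool.Agent.H.MP_711652_nt.G2

theorem xf_ev (Cr : ℝ) : ∀ᶠ X : ℕ in atTop, ∀ R : ℕ,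
    (R : ℝ) ≤ Real.log X / (300000 * Real.exp 21) → XF Cr X R := by
  filter_upwards [xf_basic, zz_le_WW, xf_err4 Cr, xf_big, xf_err1, ss_le, xf_num, xf_err23] with
    X h1 h2 h3 h4 h5 h6 h7 h8
  intro R hR
  obtain ⟨a1, a2, a3, a4, a5, a6, a7, a8, a9⟩ := h1
  have hL0 : (0 : ℝ) ≤ Real.log X := by linarith
  have he : (1 : ℝ) ≤ Real.exp 21 := Real.one_le_exp (by norm_num)
  have hR1 : (R : ℝ) ≤ Real.log X / 1000 := by
    refine hR.trans (div_le_div_of_nonneg_left hL0 (by norm_num) ?_)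
    nlinarith
  have hR2 : (R : ℝ) ≤ Real.log X := by
    refine hR1.trans (div_le_self hL0 (by norm_num))
  exact
    { X3 := a1
      L1 := by linarith
      LL1 := a3
      N0 := a4
      zW := h2
      zD := a5
      YX := a6
      z100 := a7
      big := h4
      num := (h7 R hR2).1
      rbv := a8
      lam := (h7 R hR2).2
      logB := h6.1
      err1 := h5 R hR
      err2 := (h8 R hR1).1
      err2' := (h8 R hR1).2.1
      err3 := (h8 R hR1).2.2
      err4 := h3 }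

/-- PROOF. `A = AA0`, `C = 2600 A^2`, `c = 1 / (2600 A^2)`, `R = ⌊84 c L⌋`; `lay`, `lay_fin`, `vs_card`, `xf_ev`, `rbv_rough`, `theta_diff`, `one_scale`. -/
theorem chains : ∃ c C : ℝ, 0 < c ∧ 0 < C ∧ ∃ X₀ : ℕ, ∀ X : ℕ, X₀ ≤ X → ∀ K : ℕ, 1 ≤ K →
    ∀ y : ℝ, C * K ^ 2 * Real.log X ≤ y → y ≤ c * Real.log X * Real.log (Real.log X) →
    ∃ i : ℕ, X < Nat.nth Nat.Prime i ∧ Nat.nth Nat.Prime (i + K) ≤ 2 * X ∧
      (Nat.nth Nat.Prime (i + K) : ℝ) ≤ Nat.nth Nat.Prime i + y ∧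
      ∀ l < K, (Nat.nth Nat.Prime (i + l) : ℝ) + c * y / K ^ 2 ≤ Nat.nth Nat.Prime (i + l + 1) := by
  obtain ⟨Cr, hCr⟩ := rbv_rough
  have hE : (1 : ℝ) ≤ Real.exp 21 := Real.one_le_exp (by norm_num)
  have hA1 : (1 : ℝ) ≤ AA0 := by
    unfold AA0
    nlinarith
  have hAe : AA0 = 336000 * Real.exp 21 := rfl
  obtain ⟨A, hA⟩ : ∃ A : ℝ, A = AA0 := ⟨_, rfl⟩
  rw [← hA] at hA1 hAe
  have hA2 : (1 : ℝ) ≤ A ^ 2 := one_le_pow₀ hA1
  obtain ⟨L₁, hlay⟩ := lay A hA1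
  obtain ⟨L₂, hfin⟩ := lay_fin A hA1
  obtain ⟨X₁, hth⟩ := theta_diff
  have hlog : Tendsto (fun X : ℕ => Real.log (X : ℝ)) atTop atTop :=
    Real.tendsto_log_atTop.comp tendsto_natCast_atTop_atTop
  have hev := (xf_ev Cr).and (xf_basic.and ((hlog.eventually_ge_atTop L₁).and
    ((hlog.eventually_ge_atTop L₂).and (eventually_ge_atTop X₁))))
  obtain ⟨X₀, hX₀⟩ := eventually_atTop.1 hev
  have hcpos : (0 : ℝ) < 1 / (2600 * A ^ 2) := by positivity
  refine ⟨1 / (2600 * A ^ 2), 2600 * A ^ 2, hcpos, by positivity, X₀, ?_⟩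
  intro X hX K hK y hy1 hy2
  obtain ⟨hxf, ⟨-, hL9, hLL, -, -, -, -, -, hW⟩, hL1, hL2, hX1⟩ := hX₀ X hX
  obtain ⟨L, hLdef⟩ : ∃ L : ℝ, L = Real.log X := ⟨_, rfl⟩
  rw [← hLdef] at hL9 hLL hL1 hL2 hy1 hy2
  have hLpos : (0 : ℝ) < L := by linarith
  have hK1 : (1 : ℝ) ≤ K := by exact_mod_cast hK
  have hLLpos : (0 : ℝ) < Real.log L := by linarith
  have hc1 : 1 / (2600 * A ^ 2) ≤ (1 : ℝ) := by
    rw [div_le_one (by positivity)]
    linarith
  -- the number of primes of the chain is small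
  have hKL : (K : ℝ) ^ 2 ≤ Real.log L := by
    have h1 : 2600 * A ^ 2 * K ^ 2 * L ≤ 1 / (2600 * A ^ 2) * L * Real.log L := hy1.trans hy2
    have h2 : 1 / (2600 * A ^ 2) * L * Real.log L ≤ L * Real.log L := by
      have h3 : 1 / (2600 * A ^ 2) * L ≤ 1 * L := mul_le_mul_of_nonneg_right hc1 hLpos.le
      rw [one_mul] at h3
      exact mul_le_mul_of_nonneg_right h3 hLLpos.le
    have h4 : (K : ℝ) ^ 2 * L ≤ 2600 * A ^ 2 * K ^ 2 * L := by
      have h5 : (K : ℝ) ^ 2 ≤ 2600 * A ^ 2 * K ^ 2 := by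
        have h6 : (1 : ℝ) ≤ 2600 * A ^ 2 := by linarith
        exact le_mul_of_one_le_left (by positivity) h6
      exact mul_le_mul_of_nonneg_right h5 hLpos.le
    have h7 : (K : ℝ) ^ 2 * L ≤ Real.log L * L := by
      rw [mul_comm (Real.log L)]
      linarith
    exact le_of_mul_le_mul_right h7 hLpos
  obtain ⟨k, s, v, g1, g2, g3, g4, g5, g6, g7⟩ := hlay L hL1 K hK hKL y hy1
  have hkv : (k : ℝ) * v ≤ y := by
    refine le_trans ?_ g1
    push_cast
    have h1 : (0 : ℝ) ≤ (k : ℝ) * s := by positivity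
    linarith [mul_add (k : ℝ) s v]
  -- the bound for the number of positions
  have hcard : ∀ ν, (vs X ν k s v).card ≤ ⌊84 * (1 / (2600 * A ^ 2) * L)⌋₊ := by
    intro ν
    refine Nat.le_floor ?_
    have h1 := vs_card (X := X) (by rw [← hLdef]; exact hL9) ν k s v (by rw [← hLdef]; exact g3)
    rw [← hLdef] at h1
    refine h1.trans ?_
    refine mul_le_mul_of_nonneg_left ?_ (by norm_num)
    rw [div_le_iff₀ hLLpos]
    exact hkv.trans hy2
  have hRle : ((⌊84 * (1 / (2600 * A ^ 2) * L)⌋₊ : ℕ) : ℝ) ≤ Real.log X / (300000 * Real.exp 21) := by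
    rw [← hLdef]
    refine (Nat.floor_le (by positivity)).trans ?_
    have h1 : 84 * (1 / (2600 * A ^ 2)) ≤ 1 / (300000 * Real.exp 21) := by
      rw [← mul_div_assoc, mul_one, div_le_div_iff₀ (by positivity) (by positivity), hAe]
      nlinarith [sq_nonneg (Real.exp 21)]
    have h2 := mul_le_mul_of_nonneg_right h1 hLpos.le
    calc 84 * (1 / (2600 * A ^ 2) * L) = 84 * (1 / (2600 * A ^ 2)) * L := by ring
      _ ≤ 1 / (300000 * Real.exp 21) * L := h2
      _ = L / (300000 * Real.exp 21) := by ring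
  have hXF := hxf _ hRle
  have hH : k * (s + v) < zz X := by
    unfold zz
    rw [← hLdef]
    refine Nat.lt_of_succ_le (Nat.le_floor ?_)
    have h1 : Real.log L ≤ L := (Real.log_le_sub_one_of_pos hLpos).trans (by linarith)
    have h2 : 1 / (2600 * A ^ 2) * L * Real.log L ≤ L * L := by
      have h3 : 1 / (2600 * A ^ 2) * L ≤ 1 * L := mul_le_mul_of_nonneg_right hc1 hLpos.le
      rw [one_mul] at h3
      exact mul_le_mul h3 h1 hLLpos.le hLpos.le
    have h4 : ((k * (s + v) : ℕ) : ℝ) ≤ L * L := g1.trans (hy2.trans h2)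
    have h5 : L * L + 1 ≤ L ^ 3 := by nlinarith [mul_pos hLpos hLpos]
    have h6 : L ^ 3 ≤ L ^ 20 := pow_le_pow_right₀ (by linarith) (by norm_num)
    rw [Nat.succ_eq_add_one, Nat.cast_add, Nat.cast_one]
    linarith
  have hfin' := hfin L hL2 K hK hKL k s (by positivity) (by positivity) g5 g6 g7
  rw [hLdef, hA] at hfin'
  obtain ⟨i, b1, b2, b3, b4⟩ := one_scale (Cr := Cr) (X := X)
    (R := ⌊84 * (1 / (2600 * A ^ 2) * L)⌋₊) hXF hCr (by rw [← hLdef]; exact hL9) k s v K hH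
    (hth X hX1) hW hcard (by rw [← hLdef]; exact g2) hfin'
  refine ⟨i, b1, b2, ?_, fun l hl => ?_⟩
  · have h1 : (Nat.nth Nat.Prime (i + K) : ℝ) ≤ Nat.nth Nat.Prime i + ((k * (s + v) : ℕ) : ℝ) := by
      exact_mod_cast b3
    linarith
  · have h1 : (Nat.nth Nat.Prime (i + l) : ℝ) + v ≤ Nat.nth Nat.Prime (i + l + 1) := by
      exact_mod_cast (b4 l hl).le
    have h2 : 1 / (2600 * A ^ 2) * y / K ^ 2 = y / (2600 * A ^ 2 * K ^ 2) := by
      field_simp
    rw [h2]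
    linarith

end Pool.Agent.H.MP_711652_nt.CH
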