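import Pool.Agent.H.MP_711652_nt.CH.PsiOne

/-! # MP_711652, CH: moments of the number of primes in a set of positions -/

set_option autoImplicit false

namespace Pool.Agent.H.MP_711652_nt.CH

open Finset Pool.Agent.H.MP_711652_nt.LG Pool.Agent.H.MP_711652_nt.G2

variable {Cr : ℝ} {X R : ℕ}

/-- PROOF. `JJ_ge`, `log (YY X + 1) ≥ log X / 100`, `log (zz X) ≤ 20 log log X`. -/
theorem JX_ge (h : XF Cr X R) :
    Real.exp (-21) / 4000 * (Real.log X / Real.log (Real.log X)) ≤ JX X := by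
  have hz2 : 2 ≤ zz X := le_trans (by norm_num) h.z100
  have h1 := JJ_ge (z := zz X) (Y := YY X) hz2
  refine le_trans ?_ h1
  have hL := h.L1
  have hLL := h.LL1
  have hX : (0 : ℝ) < X := by
    have := h.X3
    have h2 : (10 : ℝ) ≤ X := by exact_mod_cast this
    linarith
  have h3 : Real.log X / 100 ≤ Real.log ((YY X : ℝ) + 1) := by
    have h4 : (X : ℝ) ^ (1 / 100 : ℝ) ≤ (YY X : ℝ) + 1 := (Nat.lt_floor_add_one _).le
    have h5 := Real.log_le_log (Real.rpow_pos_of_pos hX _) h4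
    rw [Real.log_rpow hX] at h5
    linarith
  have hz0 : (0 : ℝ) < zz X := by
    have : 0 < zz X := by omega
    exact_mod_cast this
  have h6 : Real.log (zz X) ≤ 20 * Real.log (Real.log X) := by
    have h7 : (zz X : ℝ) ≤ Real.log X ^ 20 := Nat.floor_le (by positivity)
    have h8 := Real.log_le_log hz0 h7
    rw [Real.log_pow] at h8
    exact_mod_cast h8
  have h9 : 0 < Real.log (zz X) := Real.log_pos (by
    have : 1 < zz X := by omega
    exact_mod_cast this)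
  have h10 : Real.log X / 100 / (20 * Real.log (Real.log X)) ≤
      Real.log ((YY X : ℝ) + 1) / Real.log (zz X) := by
    have h11 : 0 ≤ Real.log X / 100 := by linarith
    exact div_le_div₀ (h11.trans h3) h3 h9 h6
  calc Real.exp (-21) / 4000 * (Real.log X / Real.log (Real.log X))
      = Real.exp (-21) / 2 * (Real.log X / 100 / (20 * Real.log (Real.log X))) := by
        have : Real.log (Real.log X) ≠ 0 := by linarith
        field_simp
        norm_num
    _ ≤ _ := mul_le_mul_of_nonneg_left h10 (by positivity)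

theorem Mom_ip_sq (x : ℕ) : ip x * ip x = ip x := by
  unfold ip
  split_ifs
  · rw [mul_one]
  · rw [mul_zero]

theorem Mom_sq (U : Finset ℕ) (g : ℕ → ℝ) (hg : ∀ t, g t * g t = g t) :
    (∑ t ∈ U, g t) ^ 2 = ∑ t ∈ U, g t + ∑ z ∈ U.offDiag, g z.1 * g z.2 := by
  have h1 : ∑ t ∈ U, g t = ∑ z ∈ U.diag, g z.1 * g z.2 := by
    rw [Finset.sum_diag]
    exact Finset.sum_congr rfl fun t _ => (hg t).symm
  rw [sq, Finset.sum_mul_sum, ← Finset.sum_product', h1,
    ← Finset.sum_union (Finset.disjoint_diag_offDiag U), Finset.diag_union_offDiag]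

theorem Mom_off (h : XF Cr X R) (ν H : ℕ) (hH : H < zz X) (T : Finset ℕ) (hT : ∀ t ∈ T, t ≤ H)
    (hR : T.card ≤ R) (U : Finset ℕ) (hU : ∀ t ∈ U, t ≤ H) (hd : Disjoint T U) :
    ∑ m ∈ range (NN X), Ps X ν T m ^ 2 *
        ∑ z ∈ U.offDiag, ip (nn X ν m + z.1) * ip (nn X ν m + z.2) ≤
      2 * (U.card / JX X) ^ 2 * (NN X * MM X T) := by
  have hM := MM_one_le h T
  have hNM : 0 ≤ (NN X : ℝ) * MM X T := mul_nonneg (Nat.cast_nonneg _) (by linarith)
  have h1 : ∑ m ∈ range (NN X), Ps X ν T m ^ 2 *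
        ∑ z ∈ U.offDiag, ip (nn X ν m + z.1) * ip (nn X ν m + z.2) =
      ∑ z ∈ U.offDiag, ∑ m ∈ range (NN X), Ps X ν T m ^ 2 *
        (ip (nn X ν m + z.1) * ip (nn X ν m + z.2)) := by
    rw [Finset.sum_comm]
    exact Finset.sum_congr rfl fun m _ => Finset.mul_sum _ _ _
  have hc : 0 ≤ 2 / JX X ^ 2 * (NN X * MM X T) := mul_nonneg (by positivity) hNM
  rw [h1]
  refine (Finset.sum_le_sum fun z hz => ?_).trans (b := ∑ _z ∈ U.offDiag,
    2 / JX X ^ 2 * (NN X * MM X T)) ?_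
  · obtain ⟨h2, h3, h4⟩ := Finset.mem_offDiag.1 hz
    exact psi_two h ν H hH T hT hR z.1 z.2 (hU _ h2) (hU _ h3)
      (fun h5 => (Finset.disjoint_left.1 hd h5) h2) (fun h5 => (Finset.disjoint_left.1 hd h5) h3) h4
  · rw [Finset.sum_const, nsmul_eq_mul, Finset.offDiag_card]
    have h2 : ((U.card * U.card - U.card : ℕ) : ℝ) ≤ (U.card : ℝ) ^ 2 := by
      rw [sq]
      exact_mod_cast Nat.sub_le _ _
    calc ((U.card * U.card - U.card : ℕ) : ℝ) * (2 / JX X ^ 2 * (NN X * MM X T))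
        ≤ (U.card : ℝ) ^ 2 * (2 / JX X ^ 2 * (NN X * MM X T)) :=
          mul_le_mul_of_nonneg_right h2 hc
      _ = _ := by
          rw [div_pow]
          ring

/-- PROOF. `(∑ ip)^2 = ∑ ip + ∑_{t ≠ t'} ip ip'` (`ip^2 = ip`), `psi_one`, `psi_two`. -/
theorem mom_sq (h : XF Cr X R) (ν H : ℕ) (hH : H < zz X) (T : Finset ℕ) (hT : ∀ t ∈ T, t ≤ H)
    (hR : T.card ≤ R) (U : Finset ℕ) (hU : ∀ t ∈ U, t ≤ H) (hd : Disjoint T U) :
    ∑ m ∈ range (NN X), Ps X ν T m ^ 2 * (∑ t ∈ U, ip (nn X ν m + t)) ^ 2 ≤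
      (2 * (U.card / JX X) + 2 * (U.card / JX X) ^ 2) * (NN X * MM X T) := by
  have h1 : ∑ m ∈ range (NN X), Ps X ν T m ^ 2 * (∑ t ∈ U, ip (nn X ν m + t)) ^ 2 =
      ∑ m ∈ range (NN X), Ps X ν T m ^ 2 * ∑ t ∈ U, ip (nn X ν m + t) +
      ∑ m ∈ range (NN X), Ps X ν T m ^ 2 *
        ∑ z ∈ U.offDiag, ip (nn X ν m + z.1) * ip (nn X ν m + z.2) := by
    rw [← Finset.sum_add_distrib]
    refine Finset.sum_congr rfl fun m _ => ?_
    rw [Mom_sq U (fun t => ip (nn X ν m + t)) fun t => Mom_ip_sq _, mul_add]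
  have h2 := Mom_off h ν H hH T hT hR U hU hd
  have h3 : ∑ m ∈ range (NN X), Ps X ν T m ^ 2 * ∑ t ∈ U, ip (nn X ν m + t) ≤
      2 * (U.card / JX X) * (NN X * MM X T) := by
    have h4 : ∑ m ∈ range (NN X), Ps X ν T m ^ 2 * ∑ t ∈ U, ip (nn X ν m + t) =
        ∑ t ∈ U, ∑ m ∈ range (NN X), Ps X ν T m ^ 2 * ip (nn X ν m + t) := by
      rw [Finset.sum_comm]
      exact Finset.sum_congr rfl fun m _ => Finset.mul_sum _ _ _
    rw [h4]
    refine (Finset.sum_le_sum fun t ht => psi_one h ν H hH T hT hR t (hU t ht)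
      (fun h5 => (Finset.disjoint_left.1 hd h5) ht)).trans (le_of_eq ?_)
    rw [Finset.sum_const, nsmul_eq_mul]
    ring
  rw [h1, add_mul]
  exact add_le_add h3 h2

/-- PROOF. `2 choose(#, 2) = ∑_{t ≠ t'} ip ip'`, `psi_two`. -/
theorem mom_pair (h : XF Cr X R) (ν H : ℕ) (hH : H < zz X) (T : Finset ℕ) (hT : ∀ t ∈ T, t ≤ H)
    (hR : T.card ≤ R) (U : Finset ℕ) (hU : ∀ t ∈ U, t ≤ H) (hd : Disjoint T U) :
    ∑ m ∈ range (NN X), Ps X ν T m ^ 2 *
        (((U.filter (fun t => (nn X ν m + t).Prime)).card.choose 2 : ℕ) : ℝ) ≤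
      (U.card / JX X) ^ 2 * (NN X * MM X T) := by
  have h2 := Mom_off h ν H hH T hT hR U hU hd
  have h1 : ∀ m, (((U.filter (fun t => (nn X ν m + t).Prime)).card.choose 2 : ℕ) : ℝ) =
      (∑ z ∈ U.offDiag, ip (nn X ν m + z.1) * ip (nn X ν m + z.2)) / 2 := by
    intro m
    have h3 : (((U.filter (fun t => (nn X ν m + t).Prime)).card : ℕ) : ℝ) =
        ∑ t ∈ U, ip (nn X ν m + t) := by
      rw [Finset.card_filter, Nat.cast_sum]
      refine Finset.sum_congr rfl fun t _ => ?_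
      unfold ip
      split_ifs <;> simp
    rw [Nat.cast_choose_two, h3]
    have h4 := Mom_sq U (fun t => ip (nn X ν m + t)) fun t => Mom_ip_sq _
    linarith
  have h3 : ∑ m ∈ range (NN X), Ps X ν T m ^ 2 *
        (((U.filter (fun t => (nn X ν m + t).Prime)).card.choose 2 : ℕ) : ℝ) =
      (∑ m ∈ range (NN X), Ps X ν T m ^ 2 *
        ∑ z ∈ U.offDiag, ip (nn X ν m + z.1) * ip (nn X ν m + z.2)) / 2 := by
    rw [Finset.sum_div]
    refine Finset.sum_congr rfl fun m _ => ?_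
    rw [h1, mul_div_assoc]
  rw [h3]
  linarith

end Pool.Agent.H.MP_711652_nt.CH
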