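import Pool.Agent.H.MP_711652_nt.CH.LD

/-! # MP_711652, CH: the mean square of `Ψ` and the bad points -/

set_option autoImplicit false

namespace Pool.Agent.H.MP_711652_nt.CH

open Finset Pool.Agent.H.MP_711652_nt.LG Pool.Agent.H.MP_711652_nt.G2

variable {Cr : ℝ} {X R : ℕ}

theorem MM_one_le (h : XF Cr X R) (T : Finset ℕ) : 1 ≤ MM X T :=
  cf_one_le_mass h.big

private theorem PsiUp_cop (h : XF Cr X R) {p : ℕ} (hp : p ∈ PP X) : Nat.Coprime p (WW X) := by
  have hpp : p.Prime := Pbig_prime p hp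
  rw [Nat.Prime.coprime_iff_not_dvd hpp]
  intro hd
  have h1 : p ≤ ⌊Real.log X / 100⌋₊ := (Nat.Prime.dvd_primorial_iff hpp).1 hd
  have h2 : (p : ℝ) ≤ Real.log X / 100 := by
    have h3 : 0 ≤ Real.log X / 100 := by
      have := h.L1
      positivity
    exact (Nat.le_floor_iff h3).1 h1
  have h3 : (zz X : ℝ) < p := by exact_mod_cast Pbig_lt p hp
  have h4 := h.zD
  linarith

/-- `f t = W (X/W + 1 + m) + ν + e t` with offsets `e` different modulo all `p > zz X`.
PROOF. `p > z > log X / 100`, so `p` is prime to `W`; `e i ≤ H`, `e i ≠ e j` and `H < z < p`. -/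
theorem forms_gen {ι : Type*} (h : XF Cr X R) (ν H : ℕ) (hH : H < zz X) (e : ι → ℕ)
    (he : Function.Injective e) (heH : ∀ i, e i ≤ H) :
    Forms (PP X) (fun p i m => p ∣ nn X ν m + e i) where
  prime := Pbig_prime
  per := by
    intro p hp i m
    have h1 : nn X ν (m + p) + e i = (nn X ν m + e i) + p * WW X := by
      unfold nn
      ring
    simp only [h1]
    exact Nat.dvd_add_left (Dvd.intro _ rfl)
  one := by
    intro p hp i
    have hpp : p.Prime := Pbig_prime p hp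
    have hcop := PsiUp_cop h hp
    have hcop' : Nat.Coprime (WW X) p := hcop.symm
    haveI : NeZero p := ⟨hpp.ne_zero⟩
    let u : (ZMod p)ˣ := ZMod.unitOfCoprime (WW X) hcop'
    have hu : ((u : (ZMod p)ˣ) : ZMod p) = (WW X : ZMod p) := ZMod.coe_unitOfCoprime _ _
    set b : ℕ := WW X * (X / WW X + 1) + ν + e i with hb
    let r : ZMod p := -((u⁻¹ : (ZMod p)ˣ) : ZMod p) * (b : ZMod p)
    refine ⟨r.val, ZMod.val_lt r, ?_⟩
    intro m hm
    have h1 : nn X ν m + e i = WW X * m + b := by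
      rw [hb]
      unfold nn
      ring
    have h2 : (p ∣ nn X ν m + e i) ↔ (WW X : ZMod p) * (m : ZMod p) + (b : ZMod p) = 0 := by
      rw [h1, ← ZMod.natCast_eq_zero_iff]
      push_cast
      rfl
    have h3 : (WW X : ZMod p) * (m : ZMod p) + (b : ZMod p) = 0 ↔ (m : ZMod p) = r := by
      rw [← hu]
      constructor
      · intro h4
        have h5 : ((u : (ZMod p)ˣ) : ZMod p) * (m : ZMod p) = -(b : ZMod p) :=
          eq_neg_of_add_eq_zero_left h4
        have h6 : (m : ZMod p) = ((u⁻¹ : (ZMod p)ˣ) : ZMod p) * (((u : (ZMod p)ˣ) : ZMod p) *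
            (m : ZMod p)) := by
          rw [← mul_assoc, Units.inv_mul, one_mul]
        rw [h6, h5]
        simp only [r]
        ring
      · intro h4
        rw [h4]
        simp only [r]
        have h7 : ((u : (ZMod p)ˣ) : ZMod p) * (-((u⁻¹ : (ZMod p)ˣ) : ZMod p) * (b : ZMod p)) =
            -(((u : (ZMod p)ˣ) : ZMod p) * ((u⁻¹ : (ZMod p)ˣ) : ZMod p) * (b : ZMod p)) := by ring
        rw [h7, Units.mul_inv, one_mul, neg_add_cancel]
    show (p ∣ nn X ν m + e i) ↔ m = r.val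
    rw [h2, h3]
    constructor
    · intro h4
      rw [← h4, ZMod.val_natCast_of_lt hm]
    · intro h4
      rw [h4, ZMod.natCast_zmod_val]
  disj := by
    intro p hp i j m hij h1 h2
    have hpz : zz X < p := Pbig_lt p hp
    apply hij
    apply he
    have h3 : (p : ℤ) ∣ ((e i : ℕ) : ℤ) - ((e j : ℕ) : ℤ) := by
      have h4 : (p : ℤ) ∣ ((nn X ν m + e i : ℕ) : ℤ) := by exact_mod_cast h1
      have h5 : (p : ℤ) ∣ ((nn X ν m + e j : ℕ) : ℤ) := by exact_mod_cast h2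
      have h6 := dvd_sub h4 h5
      push_cast at h6
      have h7 : (nn X ν m : ℤ) + (e i : ℤ) - ((nn X ν m : ℤ) + (e j : ℤ)) =
          (e i : ℤ) - (e j : ℤ) := by ring
      rwa [h7] at h6
    have h4 : |((e i : ℕ) : ℤ) - ((e j : ℕ) : ℤ)| < p := by
      have a1 := heH i
      have a2 := heH j
      rw [abs_lt]
      constructor <;> omega
    have h5 := Int.eq_zero_of_abs_lt_dvd h3 h4
    omega

/-- The hypotheses of `up1`, `up2` for smaller numbers. -/
theorem num_mono {P : Finset ℕ} {Y Y' K R R' : ℕ} {D ε : ℝ} (hN : Num1 P Y K R D ε) (hY : Y' ≤ Y)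
    (hR : R' ≤ R) (hR1 : 1 ≤ R') : Num1 P Y' K R' D ε where
  hD := hN.hD
  ge := hN.ge
  level := fun T hT h => hN.level T hT (h.trans hY)
  R1 := hR1
  small := by
    have hD : 0 < D := lt_of_lt_of_le (by norm_num) hN.hD
    refine le_trans ?_ hN.small
    have h1 : (R' : ℝ) ≤ R := by exact_mod_cast hR
    have h2 : (0 : ℝ) ≤ R' := Nat.cast_nonneg _
    have h3 : (0 : ℝ) ≤ K := Nat.cast_nonneg _
    have h4 : (R' : ℝ) ^ 2 ≤ (R : ℝ) ^ 2 := pow_le_pow_left₀ h2 h1 2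
    have h5 : (K + 1 : ℝ) * R' ≤ (K + 1 : ℝ) * R := mul_le_mul_of_nonneg_left h1 (by positivity)
    exact div_le_div_of_nonneg_right (by linarith) hD.le
  ε1 := hN.ε1

/-- PROOF. `up1` with `Num1 (PP X) (YY X) (kk X) (R + 2)`, `cf_coef`, `cf_tot`, `err2'`, `MM_one_le`. -/
theorem psi_up (h : XF Cr X R) (ν H : ℕ) (hH : H < zz X) (T : Finset ℕ) (hT : ∀ t ∈ T, t ≤ H)
    (hR : T.card ≤ R) :
    ∑ m ∈ range (NN X), Ps X ν T m ^ 2 ≤ (1 + 1 / 100) * (NN X * MM X T) := by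
  have hF : Forms (PP X) (hit X ν T) :=
    forms_gen h ν H hH (fun t : T => (t : ℕ)) Subtype.val_injective fun t => hT _ t.2
  have hY1 : 1 ≤ YY X := h.big.hY
  have hYY : YY X ≤ YY X ^ 3 := Nat.le_self_pow (by norm_num) _
  have hN := num_mono h.num hYY le_rfl (by omega)
  have hc : Fintype.card T ≤ R + 2 := by
    rw [Fintype.card_coe]
    omega
  have h1 := up1 hF (cf_coef (ι := T) h.big) hN hc (vv X T) (fun σ => le_rfl) (NN X)
  have h2 : tot (PP X) (fun σ => |vv X T σ|) ≤ 2 ^ R := by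
    refine (cf_tot (ι := T) h.big).trans ?_
    rw [Fintype.card_coe]
    exact pow_le_pow_right₀ (by norm_num) hR
  have h3 : 0 ≤ tot (PP X) (fun σ => |vv X T σ|) := sum_nonneg fun σ _ => abs_nonneg _
  have h4 : (tot (PP X) (fun σ => |vv X T σ|) * (YY X : ℝ) ^ 2) ^ 2 ≤
      (2 ^ R * (YY X : ℝ) ^ 2) ^ 2 := by gcongr
  have h5 := h.err2'
  have h6 := MM_one_le h T
  have hN0 : (0 : ℝ) ≤ NN X := Nat.cast_nonneg _
  have h7 : (NN X : ℝ) ≤ NN X * MM X T := le_mul_of_one_le_right hN0 h6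
  have h8 : ∑ m ∈ range (NN X), Ps X ν T m ^ 2 ≤
      NN X * ((1 + 1 / 1000) * MM X T) +
        (tot (PP X) (fun σ => |vv X T σ|) * (YY X : ℝ) ^ 2) ^ 2 := h1
  nlinarith

/-- PROOF. `void_bad` with `s = ss X`, `err1`, `err2`, `MM_one_le`. -/
theorem psi_bad (h : XF Cr X R) (ν H : ℕ) (hH : H < zz X) (T : Finset ℕ) (hT : ∀ t ∈ T, t ≤ H)
    (hR : T.card ≤ R) (S : Finset ℕ) (hS : S ⊆ range (NN X))
    (hbad : ∀ m ∈ S, ∃ t ∈ T, ∀ p ∈ PP X, ¬ p ∣ nn X ν m + t) :
    ∑ m ∈ S, Ps X ν T m ^ 2 ≤ 1 / Real.log X * (NN X * MM X T) := by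
  have hF : Forms (PP X) (hit X ν T) :=
    forms_gen h ν H hH (fun t : T => (t : ℕ)) Subtype.val_injective fun t => hT _ t.2
  have hL : 0 < Real.log X := lt_of_lt_of_le one_pos h.L1
  have hz : (100 : ℝ) ≤ zz X := by exact_mod_cast h.z100
  have hz0 : (0 : ℝ) < zz X := by linarith
  have hK0 : (0 : ℝ) ≤ kk X := Nat.cast_nonneg _
  have hR0 : (0 : ℝ) ≤ R := Nat.cast_nonneg _
  have hsmall : (kk X : ℝ) * (2 * R / zz X) ≤ 1 := by
    have h1 := h.num.small
    rw [div_le_iff₀ hz0] at h1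
    push_cast at h1
    rw [show (kk X : ℝ) * (2 * R / zz X) = (2 * (kk X * R)) / zz X by ring, div_le_iff₀ hz0]
    nlinarith [mul_nonneg hK0 hR0]
  have hs0 : 0 ≤ ss X := by
    unfold ss
    exact one_div_nonneg.2 h.logB.le
  have hsB : ss X * Real.log (BB X) ≤ 1 := by
    unfold ss
    rw [one_div_mul_cancel h.logB.ne']
  have hc : Fintype.card T ≤ R := by
    rw [Fintype.card_coe]
    exact hR
  have h1 := void_bad (ι := T) hF h.big R hc hsmall (ss X) hs0 hsB (NN X) S hS (by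
    intro m hm
    obtain ⟨t, ht, h2⟩ := hbad m hm
    exact ⟨⟨t, ht⟩, h2⟩)
  have h2 : ∑ m ∈ S, Ps X ν T m ^ 2 ≤
      NN X * (R * (((BB X : ℝ) / YY X) ^ ss X * Real.exp (R * (2 * ss X * cc X)) +
        (kk X * (2 / ((zz X : ℝ) - 1))) ^ 2 + 4 * kk X * R / zz X) * MM X T) +
        R * (2 ^ R * (YY X : ℝ) ^ 2) ^ 2 := h1
  have h6 := MM_one_le h T
  have hN0 : (0 : ℝ) ≤ NN X := Nat.cast_nonneg _
  have h7 : (NN X : ℝ) ≤ NN X * MM X T := le_mul_of_one_le_right hN0 h6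
  have h8 : R * (((BB X : ℝ) / YY X) ^ ss X * Real.exp (R * (2 * ss X * cc X)) +
        (kk X * (2 / ((zz X : ℝ) - 1))) ^ 2 + 4 * kk X * R / zz X) * MM X T ≤
      1 / (2 * Real.log X) * MM X T := mul_le_mul_of_nonneg_right h.err1 (by linarith)
  have h9 := mul_le_mul_of_nonneg_left h8 hN0
  have h10 : (R : ℝ) * (2 ^ R * (YY X : ℝ) ^ 2) ^ 2 ≤ 1 / (2000 * Real.log X) * NN X := by
    rw [one_div, ← div_eq_inv_mul, le_div_iff₀ (by positivity)]
    have := h.err2
    linarith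
  have h11 : 1 / (2000 * Real.log X) * NN X ≤ 1 / (2 * Real.log X) * (NN X * MM X T) := by
    refine mul_le_mul ?_ h7 hN0 (by positivity)
    apply one_div_le_one_div_of_le (by positivity)
    linarith
  have h12 : 1 / (2 * Real.log X) * (NN X * MM X T) + 1 / (2 * Real.log X) * (NN X * MM X T) =
      1 / Real.log X * (NN X * MM X T) := by
    field_simp
    ring
  have h13 : (NN X : ℝ) * (1 / (2 * Real.log X) * MM X T) =
      1 / (2 * Real.log X) * (NN X * MM X T) := by ring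
  linarith

end Pool.Agent.H.MP_711652_nt.CH
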