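import Pool.Agent.H.MP_711652_nt.CH.LsMul

/-! # MP_711652, CH: bilinear sums over primitive characters -/

set_option autoImplicit false

namespace Pool.Agent.H.MP_711652_nt.CH

open Finset

/-- PROOF. Group by the common key `t`: the inner sum is `∑_t A_t(χ) B_t(χ)`; Cauchy-Schwarz over `(r, χ)` for each `t`, the two hypotheses, then
Cauchy-Schwarz over `t`. -/
theorem bil_keys {T : Type*} [DecidableEq T] (R : Finset ℕ) (MM LL : Finset ℕ) (κ κ' : ℕ → T)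
    (Δ Δ' : ℝ) (hΔ : 0 ≤ Δ) (hΔ' : 0 ≤ Δ')
    (hM : ∀ (t : T) (a : ℕ → ℂ), ∑ r ∈ R, ∑ χ ∈ prims r,
      ‖∑ m ∈ MM.filter (fun m => κ m = t), a m * χ (m : ZMod r)‖ ^ 2 ≤
        Δ * ∑ m ∈ MM.filter (fun m => κ m = t), ‖a m‖ ^ 2)
    (hL : ∀ (t : T) (a : ℕ → ℂ), ∑ r ∈ R, ∑ χ ∈ prims r,
      ‖∑ l ∈ LL.filter (fun l => κ' l = t), a l * χ (l : ZMod r)‖ ^ 2 ≤
        Δ' * ∑ l ∈ LL.filter (fun l => κ' l = t), ‖a l‖ ^ 2) (α β : ℕ → ℂ) :
    ∑ r ∈ R, ∑ χ ∈ prims r, ‖∑ m ∈ MM, ∑ l ∈ LL.filter (fun l => κ m = κ' l),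
        α m * β l * (χ (m : ZMod r) * χ (l : ZMod r))‖ ≤
      Real.sqrt (Δ * Δ') * Real.sqrt (∑ m ∈ MM, ‖α m‖ ^ 2) * Real.sqrt (∑ l ∈ LL, ‖β l‖ ^ 2) := by
  classical
  set P : Finset (Σ r : ℕ, DirichletCharacter ℂ r) := R.sigma fun r => prims r with hP
  set A : T → (Σ r : ℕ, DirichletCharacter ℂ r) → ℂ := fun t z =>
    ∑ m ∈ MM.filter (fun m => κ m = t), α m * z.2 (m : ZMod z.1) with hA
  set B : T → (Σ r : ℕ, DirichletCharacter ℂ r) → ℂ := fun t z =>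
    ∑ l ∈ LL.filter (fun l => κ' l = t), β l * z.2 (l : ZMod z.1) with hB
  have hinner : ∀ z : (Σ r : ℕ, DirichletCharacter ℂ r),
      ∑ m ∈ MM, ∑ l ∈ LL.filter (fun l => κ m = κ' l),
        α m * β l * (z.2 (m : ZMod z.1) * z.2 (l : ZMod z.1)) =
      ∑ t ∈ MM.image κ, A t z * B t z := by
    intro z
    rw [← Finset.sum_fiberwise_of_maps_to (s := MM) (t := MM.image κ) (g := κ)
      fun m hm => Finset.mem_image_of_mem κ hm]
    refine Finset.sum_congr rfl fun t _ => ?_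
    rw [hA, hB]
    simp only
    rw [Finset.sum_mul_sum]
    refine Finset.sum_congr rfl fun m hm => ?_
    have hmt := (Finset.mem_filter.1 hm).2
    have hset : LL.filter (fun l => κ m = κ' l) = LL.filter (fun l => κ' l = t) := by
      refine Finset.filter_congr fun l _ => ?_
      rw [hmt]
      exact eq_comm
    rw [hset]
    refine Finset.sum_congr rfl fun l _ => ?_
    ring
  have hM' : ∀ t, ∑ z ∈ P, ‖A t z‖ ^ 2 ≤ Δ * ∑ m ∈ MM.filter (fun m => κ m = t), ‖α m‖ ^ 2 := by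
    intro t
    rw [hP, Finset.sum_sigma]
    exact hM t α
  have hL' : ∀ t, ∑ z ∈ P, ‖B t z‖ ^ 2 ≤ Δ' * ∑ l ∈ LL.filter (fun l => κ' l = t), ‖β l‖ ^ 2 := by
    intro t
    rw [hP, Finset.sum_sigma]
    exact hL t β
  have h1 : ∑ r ∈ R, ∑ χ ∈ prims r, ‖∑ m ∈ MM, ∑ l ∈ LL.filter (fun l => κ m = κ' l),
        α m * β l * (χ (m : ZMod r) * χ (l : ZMod r))‖ =
      ∑ z ∈ P, ‖∑ t ∈ MM.image κ, A t z * B t z‖ := by
    rw [hP, Finset.sum_sigma]
    refine Finset.sum_congr rfl fun r _ => Finset.sum_congr rfl fun χ _ => ?_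
    rw [← hinner ⟨r, χ⟩]
  rw [h1]
  have h2 : ∀ t, ∑ z ∈ P, ‖A t z‖ * ‖B t z‖ ≤ Real.sqrt (Δ * Δ') *
      (Real.sqrt (∑ m ∈ MM.filter (fun m => κ m = t), ‖α m‖ ^ 2) *
        Real.sqrt (∑ l ∈ LL.filter (fun l => κ' l = t), ‖β l‖ ^ 2)) := by
    intro t
    refine (Real.sum_mul_le_sqrt_mul_sqrt P _ _).trans ?_
    calc Real.sqrt (∑ z ∈ P, ‖A t z‖ ^ 2) * Real.sqrt (∑ z ∈ P, ‖B t z‖ ^ 2)
        ≤ Real.sqrt (Δ * ∑ m ∈ MM.filter (fun m => κ m = t), ‖α m‖ ^ 2) *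
          Real.sqrt (Δ' * ∑ l ∈ LL.filter (fun l => κ' l = t), ‖β l‖ ^ 2) :=
          mul_le_mul (Real.sqrt_le_sqrt (hM' t)) (Real.sqrt_le_sqrt (hL' t)) (Real.sqrt_nonneg _)
            (Real.sqrt_nonneg _)
      _ = _ := by
          rw [Real.sqrt_mul hΔ, Real.sqrt_mul hΔ', Real.sqrt_mul hΔ]
          ring
  calc ∑ z ∈ P, ‖∑ t ∈ MM.image κ, A t z * B t z‖
      ≤ ∑ z ∈ P, ∑ t ∈ MM.image κ, ‖A t z‖ * ‖B t z‖ := by
        refine Finset.sum_le_sum fun z _ => (norm_sum_le _ _).trans ?_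
        refine Finset.sum_le_sum fun t _ => ?_
        rw [norm_mul]
    _ = ∑ t ∈ MM.image κ, ∑ z ∈ P, ‖A t z‖ * ‖B t z‖ := Finset.sum_comm
    _ ≤ ∑ t ∈ MM.image κ, Real.sqrt (Δ * Δ') *
      (Real.sqrt (∑ m ∈ MM.filter (fun m => κ m = t), ‖α m‖ ^ 2) *
        Real.sqrt (∑ l ∈ LL.filter (fun l => κ' l = t), ‖β l‖ ^ 2)) :=
        Finset.sum_le_sum fun t _ => h2 t
    _ = Real.sqrt (Δ * Δ') * ∑ t ∈ MM.image κ,
      (Real.sqrt (∑ m ∈ MM.filter (fun m => κ m = t), ‖α m‖ ^ 2) *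
        Real.sqrt (∑ l ∈ LL.filter (fun l => κ' l = t), ‖β l‖ ^ 2)) := by
        rw [Finset.mul_sum]
    _ ≤ Real.sqrt (Δ * Δ') * (Real.sqrt (∑ m ∈ MM, ‖α m‖ ^ 2) *
        Real.sqrt (∑ l ∈ LL, ‖β l‖ ^ 2)) := by
        refine mul_le_mul_of_nonneg_left ?_ (Real.sqrt_nonneg _)
        refine (Real.sum_mul_le_sqrt_mul_sqrt _ _ _).trans ?_
        refine mul_le_mul (Real.sqrt_le_sqrt ?_) (Real.sqrt_le_sqrt ?_) (Real.sqrt_nonneg _)
          (Real.sqrt_nonneg _)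
        · simp only [Real.sq_sqrt (Finset.sum_nonneg fun _ _ => sq_nonneg _)]
          rw [Finset.sum_fiberwise_of_maps_to (s := MM) (t := MM.image κ) (g := κ)
            fun m hm => Finset.mem_image_of_mem κ hm]
        · simp only [Real.sq_sqrt (Finset.sum_nonneg fun _ _ => sq_nonneg _)]
          rw [← Finset.sum_biUnion]
          · refine Finset.sum_le_sum_of_subset_of_nonneg ?_ fun _ _ _ => sq_nonneg _
            intro l hl
            obtain ⟨t, _, hlt⟩ := Finset.mem_biUnion.1 hl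
            exact (Finset.mem_filter.1 hlt).1
          · intro t _ t' _ htt
            refine Finset.disjoint_left.2 fun l hl hl' => htt ?_
            rw [← (Finset.mem_filter.1 hl).2, ← (Finset.mem_filter.1 hl').2]
    _ = _ := by ring

/-- `i` is the highest bit where `Z` and `l` differ, and `l < Z`. -/
def BilLev (Z l i : ℕ) : Prop :=
  Z / 2 ^ i % 2 = 1 ∧ l / 2 ^ i % 2 = 0 ∧ Z / 2 ^ (i + 1) = l / 2 ^ (i + 1)

instance (Z l i : ℕ) : Decidable (BilLev Z l i) := by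
  unfold BilLev
  infer_instance

theorem Bil_exists : ∀ (L Z l : ℕ), l < Z → Z < 2 ^ L → ∃ i < L, BilLev Z l i
  | 0, Z, l, h1, h2 => by
    rw [pow_zero] at h2
    omega
  | L + 1, Z, l, h1, h2 => by
    rcases Nat.lt_or_ge (l / 2) (Z / 2) with h | h
    · obtain ⟨i, hi, e1, e2, e3⟩ := Bil_exists L (Z / 2) (l / 2) h (by
        rw [pow_succ] at h2
        omega)
      rw [Nat.div_div_eq_div_mul, ← pow_succ'] at e1 e2
      rw [Nat.div_div_eq_div_mul, Nat.div_div_eq_div_mul, ← pow_succ'] at e3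
      exact ⟨i + 1, by omega, e1, e2, e3⟩
    · refine ⟨0, by omega, ?_, ?_, ?_⟩
      · rw [pow_zero, Nat.div_one]
        omega
      · rw [pow_zero, Nat.div_one]
        omega
      · rw [zero_add, pow_one]
        omega

theorem Bil_unique {Z l i j : ℕ} (hi : BilLev Z l i) (hj : BilLev Z l j) : i = j := by
  by_contra hne
  wlog h : i < j with H
  · exact H hj hi (Ne.symm hne) (by omega)
  obtain ⟨k, rfl⟩ := Nat.exists_eq_add_of_lt h
  have h1 : Z / 2 ^ (i + k + 1) = l / 2 ^ (i + k + 1) := by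
    have e : i + k + 1 = (i + 1) + k := by omega
    rw [e, pow_add, ← Nat.div_div_eq_div_mul, ← Nat.div_div_eq_div_mul, hi.2.2]
  have h2 := hj.1
  have h3 := hj.2.1
  rw [h1] at h2
  omega

theorem Bil_lt {Z l i : ℕ} (h : BilLev Z l i) : l < Z := by
  by_contra hc
  push Not at hc
  have h1 : Z / 2 ^ i ≤ l / 2 ^ i := Nat.div_le_div_right hc
  obtain ⟨e1, e2, e3⟩ := h
  rw [pow_succ, ← Nat.div_div_eq_div_mul, ← Nat.div_div_eq_div_mul] at e3
  omega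

theorem Bil_split (L Z : ℕ) (hZ : Z < 2 ^ L) (A : Finset ℕ) (hA : ∀ l ∈ A, l < Z) (g : ℕ → ℂ) :
    ∑ l ∈ A, g l = ∑ i ∈ range L, ∑ l ∈ A.filter (fun l => BilLev Z l i), g l := by
  simp only [Finset.sum_filter]
  rw [Finset.sum_comm]
  refine Finset.sum_congr rfl fun l hl => ?_
  obtain ⟨i, hi, h⟩ := Bil_exists L Z l (hA l hl) hZ
  rw [Finset.sum_eq_single_of_mem i (Finset.mem_range.2 hi)]
  · rw [if_pos h]
  · intro j _ hji
    rw [if_neg]
    intro hj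
    exact hji (Bil_unique hj h)

theorem Bil_cls (Q W M len : ℕ) (hQ : 1 ≤ Q) (hW : 0 < W) (hlen : W * Q ^ 2 ≤ len)
    (R : Finset ℕ) (hR : ∀ r ∈ R, 1 ≤ r ∧ r ≤ Q ∧ Nat.Coprime W r) (S : Finset ℕ)
    (hS : ∀ x ∈ S, M < x ∧ x ≤ M + len) (hS' : ∀ x ∈ S, ∀ y ∈ S, x ≡ y [MOD W]) (a : ℕ → ℂ) :
    ∑ r ∈ R, ∑ χ ∈ prims r, ‖∑ x ∈ S, a x * χ (x : ZMod r)‖ ^ 2 ≤
      24 * ((len : ℝ) / W) * ∑ x ∈ S, ‖a x‖ ^ 2 := by
  rcases S.eq_empty_or_nonempty with rfl | ⟨x0, hx0⟩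
  · simp
  have h1 : Q ^ 2 ≤ len / W := by
    rw [Nat.le_div_iff_mul_le hW, mul_comm]
    exact hlen
  have h2 : len ≤ W * (len / W + 1) := by
    have := Nat.div_add_mod len W
    have h3 := Nat.mod_lt len hW
    rw [mul_add, mul_one]
    omega
  refine (ls_class Q W x0 M len (len / W + 1) hQ hW (by omega) h2 R hR S
    (fun x hx => ⟨(hS x hx).1, (hS x hx).2, hS' x hx x0 hx0⟩) a).trans ?_
  refine mul_le_mul_of_nonneg_right ?_ (Finset.sum_nonneg fun _ _ => sq_nonneg _)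
  have h3 : ((len / W : ℕ) : ℝ) ≤ (len : ℝ) / W := Nat.cast_div_le
  have h4 : (1 : ℝ) ≤ ((len / W : ℕ) : ℝ) := by
    have : 1 ≤ len / W := le_trans (Nat.one_le_pow _ _ hQ) h1
    exact_mod_cast this
  push_cast
  linarith

theorem Bil_key {W : ℕ} {m l b : ℕ} (hl : Nat.Coprime l W) :
    ((m : ZMod W) = (b : ZMod W) * (l : ZMod W)⁻¹ ↔ m * l ≡ b [MOD W]) := by
  have h := ZMod.coe_mul_inv_eq_one l hl
  rw [← ZMod.natCast_eq_natCast_iff, Nat.cast_mul]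
  constructor
  · intro h1
    rw [h1, mul_assoc, mul_comm (l : ZMod W)⁻¹, h, mul_one]
  · intro h1
    rw [← h1, mul_assoc, h, mul_one]

/-- PROOF. Write `Z = X / m + 1` (natural division); `(0, X / m] = [0, Z) \ {0}` is the disjoint union over the levels `i` with bit `i` of `Z` equal to 1 of the
dyadic blocks `[2^(i+1) q, 2^(i+1) q + 2^i)`, `q = Z / 2^(i+1)`.  For a fixed level `i` the pair `(m, l)` is counted iff bit `i` of `Z_m` is 1, bit `i` of `l` is 0,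
`Z_m / 2^(i+1) = l / 2^(i+1)` and `m l ≡ b` mod `W`, i.e. (as `b` is coprime to `W`) `m` is coprime to `W` and `l ≡ b m⁻¹`: equality of two keys
`κ m = some (Z_m / 2^(i+1), (m : ZMod W))`, `κ' l = some (l / 2^(i+1), b * l⁻¹)` (a key which never matches otherwise).  For each level `bil_keys` with
`MM = Ioc M (2 M)`, `LL = Ioc 0 (X / M)`; `ls_class` with `len = M`, resp. `len = X / M`, `Δ = len / W + 1`, gives the constants
`8 (M / W + 2) ≤ 24 M / W` and `8 (X / (M W) + 2) ≤ 24 X / (M W)`.  There are at most `Nat.log 2 X + 2` levels. -/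
theorem bil (X W b Q M : ℕ) (hW : 0 < W) (hb : Nat.Coprime b W) (hQ : 1 ≤ Q) (R : Finset ℕ)
    (hR : ∀ r ∈ R, 1 ≤ r ∧ r ≤ Q ∧ Nat.Coprime W r) (hM1 : W * Q ^ 2 ≤ M)
    (hM2 : W * Q ^ 2 * M ≤ X) (α β : ℕ → ℂ) :
    ∑ r ∈ R, ∑ χ ∈ prims r, ‖∑ m ∈ Ioc M (2 * M),
        ∑ l ∈ (Ioc 0 (X / m)).filter (fun l => m * l ≡ b [MOD W]),
        α m * β l * χ ((m * l : ℕ) : ZMod r)‖ ≤
      24 * (Nat.log 2 X + 2) * (Real.sqrt X / W) * Real.sqrt (∑ m ∈ Ioc M (2 * M), ‖α m‖ ^ 2) *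
        Real.sqrt (∑ l ∈ Ioc 0 (X / M), ‖β l‖ ^ 2) := by
  classical
  have hM0 : 0 < M := lt_of_lt_of_le (Nat.mul_pos hW (Nat.pow_pos hQ)) hM1
  set L := Nat.log 2 X + 2 with hL
  set Z : ℕ → ℕ := fun m => X / m + 1 with hZ
  have hZL : ∀ m, Z m < 2 ^ L := by
    intro m
    have h1 := Nat.lt_pow_succ_log_self (b := 2) (by norm_num) X
    have h2 : X / m ≤ X := Nat.div_le_self _ _
    rw [hL, pow_succ]
    simp only [hZ]
    rw [Nat.succ_eq_add_one] at h1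
    omega
  set MMi : ℕ → Finset ℕ := fun i =>
    (Ioc M (2 * M)).filter (fun m => Z m / 2 ^ i % 2 = 1 ∧ Nat.Coprime m W) with hMMi
  set LLi : ℕ → Finset ℕ := fun i =>
    (Ioc 0 (X / M)).filter (fun l => l / 2 ^ i % 2 = 0 ∧ Nat.Coprime l W) with hLLi
  set κ : ℕ → ℕ → ℕ × ZMod W := fun i m => (Z m / 2 ^ (i + 1), (m : ZMod W)) with hκ
  set κ' : ℕ → ℕ → ℕ × ZMod W := fun i l =>
    (l / 2 ^ (i + 1), (b : ZMod W) * (l : ZMod W)⁻¹) with hκ'
  have hcop : ∀ m l, m * l ≡ b [MOD W] → Nat.Coprime m W ∧ Nat.Coprime l W := by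
    intro m l h
    have h1 : Nat.Coprime (m * l) W := by
      unfold Nat.Coprime
      rw [h.gcd_eq]
      exact hb
    exact Nat.coprime_mul_iff_left.1 h1
  have hdec : ∀ (r : ℕ) (χ : DirichletCharacter ℂ r), ∑ m ∈ Ioc M (2 * M),
        ∑ l ∈ (Ioc 0 (X / m)).filter (fun l => m * l ≡ b [MOD W]),
        α m * β l * χ ((m * l : ℕ) : ZMod r) =
      ∑ i ∈ range L, ∑ m ∈ MMi i, ∑ l ∈ (LLi i).filter (fun l => κ i m = κ' i l),
        α m * β l * (χ (m : ZMod r) * χ (l : ZMod r)) := by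
    intro r χ
    have h1 : ∀ m ∈ Ioc M (2 * M), ∑ l ∈ (Ioc 0 (X / m)).filter (fun l => m * l ≡ b [MOD W]),
        α m * β l * χ ((m * l : ℕ) : ZMod r) =
        ∑ i ∈ range L, ∑ l ∈ ((Ioc 0 (X / m)).filter (fun l => m * l ≡ b [MOD W])).filter
          (fun l => BilLev (Z m) l i), α m * β l * χ ((m * l : ℕ) : ZMod r) := by
      intro m _
      refine Bil_split L (Z m) (hZL m) _ (fun l hl => ?_) _
      have h2 := (Finset.mem_Ioc.1 (Finset.mem_filter.1 hl).1).2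
      simp only [hZ]
      omega
    rw [Finset.sum_congr rfl h1, Finset.sum_comm]
    refine Finset.sum_congr rfl fun i _ => ?_
    rw [hMMi]
    simp only
    rw [Finset.sum_filter]
    refine Finset.sum_congr rfl fun m hm => ?_
    have hmM := Finset.mem_Ioc.1 hm
    split_ifs with hc
    · have hset : ((Ioc 0 (X / m)).filter (fun l => m * l ≡ b [MOD W])).filter
          (fun l => BilLev (Z m) l i) = (LLi i).filter (fun l => κ i m = κ' i l) := by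
        ext l
        rw [hLLi]
        simp only [Finset.mem_filter, Finset.mem_Ioc, hκ, hκ', Prod.mk.injEq]
        constructor
        · rintro ⟨⟨⟨h1, h2⟩, h3⟩, h4⟩
          obtain ⟨h5, h6⟩ := hcop m l h3
          refine ⟨⟨⟨h1, h2.trans (Nat.div_le_div_left hmM.1.le hM0)⟩, h4.2.1, h6⟩, h4.2.2, ?_⟩
          exact (Bil_key h6).2 h3
        · rintro ⟨⟨⟨h1, h2⟩, h3, h4⟩, h5, h6⟩
          have h7 : BilLev (Z m) l i := ⟨hc.1, h3, h5⟩
          have h8 := Bil_lt h7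
          simp only [hZ] at h8
          exact ⟨⟨⟨h1, by omega⟩, (Bil_key h4).1 h6⟩, h7⟩
      rw [hset]
      refine Finset.sum_congr rfl fun l _ => ?_
      rw [Nat.cast_mul, map_mul]
    · rw [Finset.sum_eq_zero]
      intro l hl
      obtain ⟨h1, h2⟩ := Finset.mem_filter.1 hl
      exact absurd ⟨h2.1, (hcop m l (Finset.mem_filter.1 h1).2).1⟩ hc
  set Δ : ℝ := 24 * ((M : ℝ) / W) with hΔ
  set Δ' : ℝ := 24 * (((X / M : ℕ) : ℝ) / W) with hΔ'
  have hΔ0 : 0 ≤ Δ := by positivity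
  have hΔ0' : 0 ≤ Δ' := by positivity
  have hlev : ∀ i ∈ range L, ∑ r ∈ R, ∑ χ ∈ prims r,
      ‖∑ m ∈ MMi i, ∑ l ∈ (LLi i).filter (fun l => κ i m = κ' i l),
        α m * β l * (χ (m : ZMod r) * χ (l : ZMod r))‖ ≤
      Real.sqrt (Δ * Δ') * Real.sqrt (∑ m ∈ Ioc M (2 * M), ‖α m‖ ^ 2) *
        Real.sqrt (∑ l ∈ Ioc 0 (X / M), ‖β l‖ ^ 2) := by
    intro i _
    refine (bil_keys R (MMi i) (LLi i) (κ i) (κ' i) Δ Δ' hΔ0 hΔ0' ?_ ?_ α β).trans ?_
    · intro t a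
      refine Bil_cls Q W M M hQ hW hM1 R hR _ ?_ ?_ a
      · intro x hx
        have h1 := Finset.mem_Ioc.1 (Finset.mem_filter.1 (Finset.mem_filter.1 hx).1).1
        omega
      · intro x hx y hy
        have h1 := (Finset.mem_filter.1 hx).2
        have h2 := (Finset.mem_filter.1 hy).2
        rw [← ZMod.natCast_eq_natCast_iff]
        rw [← h2] at h1
        exact congrArg Prod.snd h1
    · intro t a
      refine Bil_cls Q W 0 (X / M) hQ hW ?_ R hR _ ?_ ?_ a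
      · rw [Nat.le_div_iff_mul_le hM0]
        exact hM2
      · intro x hx
        have h1 := Finset.mem_Ioc.1 (Finset.mem_filter.1 (Finset.mem_filter.1 hx).1).1
        omega
      · intro x hx y hy
        have h1 := (Finset.mem_filter.1 hx).2
        have h2 := (Finset.mem_filter.1 hy).2
        have h3 := (Finset.mem_filter.1 (Finset.mem_filter.1 hx).1).2.2
        have h4 := (Finset.mem_filter.1 (Finset.mem_filter.1 hy).1).2.2
        rw [← h2] at h1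
        have h5 : (b : ZMod W) * (x : ZMod W)⁻¹ = (b : ZMod W) * (y : ZMod W)⁻¹ :=
          congrArg Prod.snd h1
        rw [← ZMod.natCast_eq_natCast_iff]
        have hb1 := ZMod.coe_mul_inv_eq_one b hb
        have hx1 := ZMod.coe_mul_inv_eq_one x h3
        have hy1 := ZMod.coe_mul_inv_eq_one y h4
        have h6 : (x : ZMod W)⁻¹ = (y : ZMod W)⁻¹ := by
          have h7 := congrArg (fun u => (b : ZMod W)⁻¹ * u) h5
          simp only [← mul_assoc] at h7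
          rw [mul_comm (b : ZMod W)⁻¹, hb1, one_mul, one_mul] at h7
          exact h7
        rw [h6] at hx1
        calc (x : ZMod W) = x * (y * (y : ZMod W)⁻¹) := by rw [hy1, mul_one]
          _ = (x * (y : ZMod W)⁻¹) * y := by ring
          _ = y := by rw [hx1, one_mul]
    · refine mul_le_mul (mul_le_mul_of_nonneg_left (Real.sqrt_le_sqrt ?_) (Real.sqrt_nonneg _))
        (Real.sqrt_le_sqrt ?_) (Real.sqrt_nonneg _) (by positivity)
      · exact Finset.sum_le_sum_of_subset_of_nonneg (Finset.filter_subset _ _)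
          fun _ _ _ => sq_nonneg _
      · exact Finset.sum_le_sum_of_subset_of_nonneg (Finset.filter_subset _ _)
          fun _ _ _ => sq_nonneg _
  have hsqrt : Real.sqrt (Δ * Δ') ≤ 24 * (Real.sqrt X / W) := by
    have hWr : (0 : ℝ) < W := by exact_mod_cast hW
    have hMr : (0 : ℝ) < M := by exact_mod_cast hM0
    refine Real.sqrt_le_iff.2 ⟨by positivity, ?_⟩
    have h1 : ((X / M : ℕ) : ℝ) ≤ (X : ℝ) / M := Nat.cast_div_le
    have h2 : (24 * (Real.sqrt X / W)) ^ 2 = 24 ^ 2 * ((X : ℝ) / W ^ 2) := by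
      rw [mul_pow, div_pow, Real.sq_sqrt (Nat.cast_nonneg _)]
    rw [h2]
    calc Δ * Δ' ≤ 24 * ((M : ℝ) / W) * (24 * (((X : ℝ) / M) / W)) := by
          rw [hΔ, hΔ']
          gcongr
      _ = 24 ^ 2 * ((X : ℝ) / W ^ 2) := by
          field_simp
  calc ∑ r ∈ R, ∑ χ ∈ prims r, ‖∑ m ∈ Ioc M (2 * M),
        ∑ l ∈ (Ioc 0 (X / m)).filter (fun l => m * l ≡ b [MOD W]),
        α m * β l * χ ((m * l : ℕ) : ZMod r)‖
      ≤ ∑ r ∈ R, ∑ χ ∈ prims r, ∑ i ∈ range L,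
        ‖∑ m ∈ MMi i, ∑ l ∈ (LLi i).filter (fun l => κ i m = κ' i l),
        α m * β l * (χ (m : ZMod r) * χ (l : ZMod r))‖ := by
        refine Finset.sum_le_sum fun r _ => Finset.sum_le_sum fun χ _ => ?_
        rw [hdec]
        exact norm_sum_le _ _
    _ = ∑ i ∈ range L, ∑ r ∈ R, ∑ χ ∈ prims r,
        ‖∑ m ∈ MMi i, ∑ l ∈ (LLi i).filter (fun l => κ i m = κ' i l),
        α m * β l * (χ (m : ZMod r) * χ (l : ZMod r))‖ := by
        rw [Finset.sum_comm (s := range L)]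
        exact Finset.sum_congr rfl fun r _ => Finset.sum_comm
    _ ≤ ∑ i ∈ range L, Real.sqrt (Δ * Δ') * Real.sqrt (∑ m ∈ Ioc M (2 * M), ‖α m‖ ^ 2) *
        Real.sqrt (∑ l ∈ Ioc 0 (X / M), ‖β l‖ ^ 2) := Finset.sum_le_sum hlev
    _ = L * (Real.sqrt (Δ * Δ')) * Real.sqrt (∑ m ∈ Ioc M (2 * M), ‖α m‖ ^ 2) *
        Real.sqrt (∑ l ∈ Ioc 0 (X / M), ‖β l‖ ^ 2) := by
        rw [Finset.sum_const, Finset.card_range, nsmul_eq_mul]
        ring
    _ ≤ L * (24 * (Real.sqrt X / W)) * Real.sqrt (∑ m ∈ Ioc M (2 * M), ‖α m‖ ^ 2) *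
        Real.sqrt (∑ l ∈ Ioc 0 (X / M), ‖β l‖ ^ 2) := by
        gcongr
    _ = _ := by
        rw [hL]
        push_cast
        ring

end Pool.Agent.H.MP_711652_nt.CH
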