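import Pool.Agent.H.MP_711652_nt.CH.LsDefs

/-! # MP_711652, CH: duality -/

set_option autoImplicit false

namespace Pool.Agent.H.MP_711652_nt.CH

open Finset

/-- PROOF. Put `S x = ∑ l, a l * c x l` and `b x = conj (S x)`: `∑_x |S x|^2 = ∑_l a l (∑_x b x c x l) ≤ |a| (∑_l |∑_x b x c x l|^2)^(1/2) ≤
|a| Δ^(1/2) (∑_x |S x|^2)^(1/2)` (Cauchy-Schwarz, hypothesis). -/
theorem duality {α β : Type*} (s : Finset α) (t : Finset β) (c : α → β → ℂ) (Δ : ℝ) (hΔ : 0 ≤ Δ)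
    (h : ∀ b : α → ℂ, ∑ l ∈ t, ‖∑ x ∈ s, b x * c x l‖ ^ 2 ≤ Δ * ∑ x ∈ s, ‖b x‖ ^ 2) (a : β → ℂ) :
    ∑ x ∈ s, ‖∑ l ∈ t, a l * c x l‖ ^ 2 ≤ Δ * ∑ l ∈ t, ‖a l‖ ^ 2 := by
  set S : α → ℂ := fun x => ∑ l ∈ t, a l * c x l with hS
  set b : α → ℂ := fun x => star (S x) with hb
  set B : β → ℂ := fun l => ∑ x ∈ s, b x * c x l with hB
  set T : ℝ := ∑ x ∈ s, ‖S x‖ ^ 2 with hT
  set A : ℝ := ∑ l ∈ t, ‖a l‖ ^ 2 with hA
  have hT0 : 0 ≤ T := Finset.sum_nonneg fun x _ => by positivity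
  have hA0 : 0 ≤ A := Finset.sum_nonneg fun x _ => by positivity
  have h1 : (T : ℂ) = ∑ l ∈ t, a l * B l := by
    have h2 : ∀ x, ((‖S x‖ ^ 2 : ℝ) : ℂ) = ∑ l ∈ t, a l * (b x * c x l) := by
      intro x
      have h3 : ((‖S x‖ ^ 2 : ℝ) : ℂ) = b x * S x := by
        have h4 := Complex.mul_conj (S x)
        rw [Complex.normSq_eq_norm_sq, mul_comm] at h4
        exact h4.symm
      rw [h3]
      simp only [hS, Finset.mul_sum]
      exact Finset.sum_congr rfl fun l _ => by ring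
    rw [hT, Complex.ofReal_sum, Finset.sum_congr rfl fun x _ => h2 x, Finset.sum_comm]
    refine Finset.sum_congr rfl fun l _ => ?_
    rw [hB, Finset.mul_sum]
  have h5 : T ≤ ∑ l ∈ t, ‖a l‖ * ‖B l‖ := by
    have h6 : T = ‖∑ l ∈ t, a l * B l‖ := by
      rw [← h1, Complex.norm_real, Real.norm_of_nonneg hT0]
    rw [h6]
    refine (norm_sum_le _ _).trans (le_of_eq ?_)
    exact Finset.sum_congr rfl fun l _ => norm_mul _ _
  have h7 : (∑ l ∈ t, ‖a l‖ * ‖B l‖) ^ 2 ≤ A * ∑ l ∈ t, ‖B l‖ ^ 2 :=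
    Finset.sum_mul_sq_le_sq_mul_sq t _ _
  have h8 : ∑ l ∈ t, ‖B l‖ ^ 2 ≤ Δ * T := by
    refine (h b).trans (le_of_eq ?_)
    rw [hT]
    congr 1
    exact Finset.sum_congr rfl fun x _ => by rw [hb, norm_star]
  have h9 : T ^ 2 ≤ A * (Δ * T) :=
    (pow_le_pow_left₀ hT0 h5 2).trans (h7.trans (mul_le_mul_of_nonneg_left h8 hA0))
  rcases hT0.eq_or_lt with h0 | h0
  · rw [← h0]
    positivity
  · have h10 : T * T ≤ (Δ * A) * T := by nlinarith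
    exact le_of_mul_le_mul_right h10 h0

end Pool.Agent.H.MP_711652_nt.CH
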