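import Pool.Agent.H.MP_711652_nt.CH.ExpF

/-! # MP_711652, CH: the expansion of a product of local functions -/

set_option autoImplicit false

namespace Pool.Agent.H.MP_711652_nt.CH

open Finset

/-- PROOF. `∏_{p ∈ P} f p x = ∏ ((f p x - mu1 f p) + mu1 f p) = ∑_{T ⊆ P} ∏_{T} (f p x - mu1 f p) ∏_{P \ T} mu1 f p` (`Finset.prod_add`); `exp_one` for every nonempty `T`
with `g p x = f p x - mu1 f p` (mean zero by the definition of `mu1`, `p - 1` residues). -/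
theorem expansion {P : Finset ℕ} {f : ℕ → ℕ → ℝ} (h : Loc P f) (S : Finset ℕ) (θ : ℕ → ℝ)
    (hS : ∀ x ∈ S, ∀ p ∈ P, ¬ p ∣ x) :
    |∑ x ∈ S, θ x * ∏ p ∈ P, f p x - (∏ p ∈ P, mu1 f p) * ∑ x ∈ S, θ x| ≤
      ∑ T ∈ P.powerset.erase ∅,
        (∏ p ∈ T, la1 f p) * (∏ p ∈ P \ T, |mu1 f p|) * Zs S θ (∏ p ∈ T, p) := by
  have h1 : ∀ x, ∏ p ∈ P, f p x =
      ∑ T ∈ P.powerset, (∏ p ∈ T, (f p x - mu1 f p)) * ∏ p ∈ P \ T, mu1 f p := by
    intro x
    rw [← Finset.prod_add]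
    exact Finset.prod_congr rfl fun p _ => by ring
  have h2 : ∑ x ∈ S, θ x * ∏ p ∈ P, f p x = ∑ T ∈ P.powerset,
      (∏ p ∈ P \ T, mu1 f p) * ∑ x ∈ S, θ x * ∏ p ∈ T, (f p x - mu1 f p) := by
    rw [Finset.sum_congr rfl fun T _ => Finset.mul_sum _ _ _, Finset.sum_comm]
    refine Finset.sum_congr rfl fun x _ => ?_
    rw [h1 x, Finset.mul_sum]
    exact Finset.sum_congr rfl fun T _ => by ring
  have h3 : (∏ p ∈ P \ (∅ : Finset ℕ), mu1 f p) *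
      ∑ x ∈ S, θ x * ∏ p ∈ (∅ : Finset ℕ), (f p x - mu1 f p) =
      (∏ p ∈ P, mu1 f p) * ∑ x ∈ S, θ x := by
    rw [Finset.sdiff_empty]
    congr 1
    exact Finset.sum_congr rfl fun x _ => by rw [Finset.prod_empty, mul_one]
  have h4 := Finset.sum_erase_add P.powerset (fun T =>
    (∏ p ∈ P \ T, mu1 f p) * ∑ x ∈ S, θ x * ∏ p ∈ T, (f p x - mu1 f p))
    (Finset.empty_mem_powerset P)
  rw [h3] at h4
  rw [h2, ← h4, add_sub_cancel_right]
  refine (Finset.abs_sum_le_sum_abs _ _).trans (Finset.sum_le_sum fun T hT => ?_)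
  have hTP : T ⊆ P := Finset.mem_powerset.1 (Finset.mem_of_mem_erase hT)
  have h5 := exp_one T (fun p hp => h.prime p (hTP hp)) (fun p x => f p x - mu1 f p)
    (fun p hp x => by rw [h.per p (hTP hp) x]) (fun p hp => by
      have hp2 : 2 ≤ p := (h.prime p (hTP hp)).two_le
      have hp1 : (p : ℝ) - 1 ≠ 0 := by
        have : (2 : ℝ) ≤ p := by exact_mod_cast hp2
        linarith
      rw [Finset.sum_sub_distrib, Finset.sum_const, Nat.card_Ico, nsmul_eq_mul,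
        Nat.cast_sub (by omega), Nat.cast_one]
      unfold mu1
      rw [mul_div_cancel₀ _ hp1, sub_self])
    S (fun x hx p hp => hS x hx p (hTP hp)) θ
  rw [abs_mul, Finset.abs_prod]
  calc (∏ p ∈ P \ T, |mu1 f p|) * |∑ x ∈ S, θ x * ∏ p ∈ T, (f p x - mu1 f p)|
      ≤ (∏ p ∈ P \ T, |mu1 f p|) *
        ((∏ p ∈ T, (∑ x ∈ Ico 1 p, |f p x - mu1 f p|) / ((p : ℝ) - 1)) * Zs S θ (∏ p ∈ T, p)) :=
        mul_le_mul_of_nonneg_left h5 (Finset.prod_nonneg fun p _ => abs_nonneg _)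
    _ = (∏ p ∈ T, la1 f p) * (∏ p ∈ P \ T, |mu1 f p|) * Zs S θ (∏ p ∈ T, p) := by
        simp only [la1]
        ring

end Pool.Agent.H.MP_711652_nt.CH
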