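import Pool.Agent.H.MP_711652_nt.CH.ExpDefs
import Pool.Agent.H.MP_711652_nt.LG.Mean1

/-! # MP_711652, CH: the mean value over the units modulo `∏ T` -/

set_option autoImplicit false

namespace Pool.Agent.H.MP_711652_nt.CH

open Finset

private theorem ExpC_per {p : ℕ} {f : ℕ → ℝ} (hf : ∀ x, f (x + p) = f x) (x : ℕ) :
    (if p ∣ x + p then (0 : ℝ) else f (x + p)) = if p ∣ x then 0 else f x := by
  rw [hf x]
  have h : p ∣ x + p ↔ p ∣ x := (Nat.dvd_add_left (dvd_refl p))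
  by_cases hx : p ∣ x
  · rw [if_pos hx, if_pos (h.2 hx)]
  · rw [if_neg hx, if_neg fun h' => hx (h.1 h')]

private theorem ExpC_sum {p : ℕ} (hp : p.Prime) (f : ℕ → ℝ) :
    ∑ x ∈ range p, (if p ∣ x then (0 : ℝ) else f x) = ∑ x ∈ Ico 1 p, f x := by
  rw [Finset.range_eq_Ico, Finset.sum_eq_sum_Ico_succ_bot hp.pos, if_pos (dvd_zero p), zero_add]
  refine Finset.sum_congr rfl fun x hx => ?_
  obtain ⟨h1, h2⟩ := Finset.mem_Ico.1 hx
  rw [if_neg (Nat.not_dvd_of_pos_of_lt (by omega) h2)]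

private theorem ExpC_cop {T : Finset ℕ} (hT : ∀ p ∈ T, p.Prime) (x : ℕ) :
    Nat.Coprime x (∏ p ∈ T, p) ↔ ∀ p ∈ T, ¬ p ∣ x := by
  rw [Nat.coprime_prod_right_iff]
  refine forall₂_congr fun p hp => ?_
  rw [Nat.coprime_comm]
  exact (hT p hp).coprime_iff_not_dvd

/-- PROOF. Induction on `T` with the Chinese remainder theorem: the mean over a full period of `∏_{p ∈ T} [p ∤ x] h p x` is the product of the means (see
`E_prod`, `E_mul` in `G2`, periodic functions with coprime periods); `x` is coprime to `∏ T` iff no `p ∈ T` divides `x`, `∑_{x < p, p ∤ x} = ∑_{Ico 1 p}`. -/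
theorem unit_prod_sum (T : Finset ℕ) (hT : ∀ p ∈ T, p.Prime) (h : ℕ → ℕ → ℝ)
    (hper : ∀ p ∈ T, ∀ x, h p (x + p) = h p x) :
    ∑ x ∈ (range (∏ p ∈ T, p)).filter (fun x => Nat.Coprime x (∏ p ∈ T, p)), ∏ p ∈ T, h p x =
      ∏ p ∈ T, ∑ x ∈ Ico 1 p, h p x := by
  have h1 := LG.mean1_full T hT (fun p x => if p ∣ x then (0 : ℝ) else h p x)
    fun p hp x => ExpC_per (hper p hp) x
  rw [Finset.prod_congr rfl fun p hp => ExpC_sum (hT p hp) (h p)] at h1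
  rw [← h1, Finset.sum_filter]
  refine Finset.sum_congr rfl fun x _ => ?_
  by_cases hx : Nat.Coprime x (∏ p ∈ T, p)
  · rw [if_pos hx]
    refine Finset.prod_congr rfl fun p hp => ?_
    rw [if_neg ((ExpC_cop hT x).1 hx p hp)]
  · rw [if_neg hx]
    rw [ExpC_cop hT] at hx
    push Not at hx
    obtain ⟨p, hp, hpx⟩ := hx
    exact (Finset.prod_eq_zero (f := fun p => if p ∣ x then (0 : ℝ) else h p x) hp
      (if_pos hpx)).symm

/-- PROOF. Fix `q ∈ T`; for every class `c` modulo `∏ (T \ {q})` coprime to it, the sum over the units `x` mod `∏ T` with `x ≡ c` of `∏_{p ∈ T} g p x` is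
`∏_{p ≠ q} g p c * ∑_{y ∈ Ico 1 q} g q y = 0`.  Statement for a divisor `d` of `∏ T` with `q ∤ d`. -/
theorem unit_fiber_zero (T : Finset ℕ) (hT : ∀ p ∈ T, p.Prime) (g : ℕ → ℕ → ℝ)
    (hper : ∀ p ∈ T, ∀ x, g p (x + p) = g p x) (q : ℕ) (hq : q ∈ T)
    (h0 : ∑ x ∈ Ico 1 q, g q x = 0) (d : ℕ) (hd : d ∣ ∏ p ∈ T, p) (hqd : ¬ q ∣ d) (c : ℕ) :
    ∑ x ∈ (range (∏ p ∈ T, p)).filter (fun x => Nat.Coprime x (∏ p ∈ T, p) ∧ x ≡ c [MOD d]),
      ∏ p ∈ T, g p x = 0 := by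
  have hqp := hT q hq
  have hT' : ∀ p ∈ T.erase q, p.Prime := fun p hp => hT p (Finset.mem_of_mem_erase hp)
  have hprod : ∏ p ∈ T, p = q * ∏ p ∈ T.erase q, p := (Finset.mul_prod_erase T (fun p => p) hq).symm
  have hpos : 0 < ∏ p ∈ T.erase q, p := Finset.prod_pos fun p hp => (hT' p hp).pos
  have hcop : q.Coprime (∏ p ∈ T.erase q, p) := by
    refine Nat.Coprime.prod_right fun p hp => ?_
    exact (Nat.coprime_primes hqp (hT' p hp)).2 (Finset.ne_of_mem_erase hp).symm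
  have hd' : d ∣ ∏ p ∈ T.erase q, p := by
    rw [hprod] at hd
    exact (Nat.Coprime.dvd_of_dvd_mul_left
      ((Nat.coprime_comm.1 ((hqp.coprime_iff_not_dvd).2 hqd))) hd)
  have hG : Function.Periodic (fun x => if q ∣ x then (0 : ℝ) else g q x) q :=
    fun x => ExpC_per (hper q hq) x
  have hH : Function.Periodic (fun x => if Nat.Coprime x (∏ p ∈ T.erase q, p) ∧ x ≡ c [MOD d]
      then ∏ p ∈ T.erase q, g p x else (0 : ℝ)) (∏ p ∈ T.erase q, p) := by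
    intro x
    have e1 : Nat.Coprime (x + ∏ p ∈ T.erase q, p) (∏ p ∈ T.erase q, p) ↔
        Nat.Coprime x (∏ p ∈ T.erase q, p) := by
      rw [Nat.coprime_add_self_left]
    have e2 : x + ∏ p ∈ T.erase q, p ≡ c [MOD d] ↔ x ≡ c [MOD d] := by
      have h1 : x + ∏ p ∈ T.erase q, p ≡ x + 0 [MOD d] :=
        Nat.ModEq.add_left x ((Nat.modEq_zero_iff_dvd).2 hd')
      rw [add_zero] at h1
      exact ⟨fun h => h1.symm.trans h, fun h => h1.trans h⟩
    have e3 : ∏ p ∈ T.erase q, g p (x + ∏ p ∈ T.erase q, p) = ∏ p ∈ T.erase q, g p x :=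
      LG.mean1_per (T.erase q) g (fun p hp m => hper p (Finset.mem_of_mem_erase hp) m) x
    show (if Nat.Coprime (x + ∏ p ∈ T.erase q, p) (∏ p ∈ T.erase q, p) ∧
      x + ∏ p ∈ T.erase q, p ≡ c [MOD d] then ∏ p ∈ T.erase q, g p (x + ∏ p ∈ T.erase q, p)
      else (0 : ℝ)) = _
    rw [e3]
    simp only [e1, e2]
  have h1 := LG.mean1_crt _ _ hqp.pos hpos hcop hG hH
  rw [ExpC_sum hqp, h0, zero_mul] at h1
  rw [Finset.sum_filter, hprod]
  refine Eq.trans (Finset.sum_congr rfl fun x _ => ?_) h1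
  have e1 : Nat.Coprime x (q * ∏ p ∈ T.erase q, p) ↔
      ¬ q ∣ x ∧ Nat.Coprime x (∏ p ∈ T.erase q, p) := by
    rw [Nat.coprime_mul_iff_right, Nat.coprime_comm, hqp.coprime_iff_not_dvd]
  rw [← Finset.mul_prod_erase T (fun p => g p x) hq]
  by_cases hqx : q ∣ x
  · have h2 : ¬ (Nat.Coprime x (q * ∏ p ∈ T.erase q, p) ∧ x ≡ c [MOD d]) :=
      fun h => (e1.1 h.1).1 hqx
    rw [if_pos hqx, zero_mul, if_neg h2]
  · rw [if_neg hqx]
    by_cases h3 : Nat.Coprime x (∏ p ∈ T.erase q, p) ∧ x ≡ c [MOD d]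
    · rw [if_pos h3, if_pos ⟨e1.2 ⟨hqx, h3.1⟩, h3.2⟩]
    · have h4 : ¬ (Nat.Coprime x (q * ∏ p ∈ T.erase q, p) ∧ x ≡ c [MOD d]) :=
        fun h => h3 ⟨(e1.1 h.1).2, h.2⟩
      rw [if_neg h3, mul_zero, if_neg h4]

end Pool.Agent.H.MP_711652_nt.CH
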