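import Pool.Agent.H.MP_711652_nt.CH.LsDefs

/-! # MP_711652, CH: the Fejer kernel -/

set_option autoImplicit false

namespace Pool.Agent.H.MP_711652_nt.CH

open Finset

theorem norm_ee (x : ℝ) : ‖ee x‖ = 1 := by
  unfold ee
  have h : (2 * Real.pi * x : ℂ) = ((2 * Real.pi * x : ℝ) : ℂ) := by push_cast; ring
  rw [h]
  exact Complex.norm_exp_ofReal_mul_I _

theorem ee_add (x y : ℝ) : ee (x + y) = ee x * ee y := by
  unfold ee
  rw [← Complex.exp_add]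
  congr 1
  push_cast
  ring

theorem ee_int (m : ℤ) : ee m = 1 := by
  unfold ee
  have h := Complex.exp_int_mul_two_pi_mul_I m
  rw [← h]
  congr 1
  push_cast
  ring

theorem ee_neg (x : ℝ) : ee (-x) = (starRingEnd ℂ) (ee x) := by
  unfold ee
  rw [← Complex.exp_conj]
  congr 1
  simp only [map_mul, Complex.conj_I, Complex.conj_ofReal, map_ofNat]
  push_cast
  ring

theorem norm_D_le (θ : ℝ) (N : ℕ) : ‖∑ i ∈ range N, ee (i * θ)‖ ≤ N := by
  refine (norm_sum_le _ _).trans ?_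
  simp [norm_ee]

private lemma fejer_pow (θ : ℝ) (i : ℕ) : ee (i * θ) = ee θ ^ i := by
  unfold ee
  rw [← Complex.exp_nat_mul]
  congr 1
  push_cast
  ring

private lemma fejer_sin (θ t : ℝ) (h : ∀ m : ℤ, t ≤ |θ - m|) : 4 * t ≤ ‖ee θ - 1‖ := by
  have h1 : ee θ = Complex.exp (Complex.I * ((2 * Real.pi * θ : ℝ) : ℂ)) := by
    unfold ee
    congr 1
    push_cast
    ring
  rw [h1, Complex.norm_exp_I_mul_ofReal_sub_one]
  have h2 : 2 * Real.pi * θ / 2 = Real.pi * (θ - round θ) + (round θ : ℤ) * Real.pi := by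
    push_cast
    ring
  rw [h2, Real.sin_add_int_mul_pi, norm_mul, norm_mul, Real.norm_eq_abs, Real.norm_eq_abs,
    Real.norm_eq_abs, abs_zpow, abs_neg, abs_one, one_zpow, one_mul]
  have h3 : |Real.pi * (θ - round θ)| ≤ Real.pi / 2 := by
    rw [abs_mul, abs_of_pos Real.pi_pos]
    have := abs_sub_round θ
    nlinarith [Real.pi_pos]
  have h4 := Real.mul_abs_le_abs_sin h3
  rw [abs_mul, abs_of_pos Real.pi_pos] at h4
  have h5 : 2 / Real.pi * (Real.pi * |θ - round θ|) = 2 * |θ - round θ| := by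
    field_simp
  rw [h5] at h4
  have h6 := h (round θ)
  rw [abs_of_pos (by norm_num : (0 : ℝ) < 2)]
  linarith

/-- PROOF. Geometric sum: `|1 - ee θ| * |∑| ≤ 2` and `|1 - ee θ| = 2 |sin (π θ)| ≥ 4 t` (`t ≤ 1/2`; `|sin (π u)| ≥ 2 |u|` for `|u| ≤ 1/2`,
`u` = `θ` minus the nearest integer; see `sin_lower` in `H/MP_3e6494_nt/helper50/PV.lean`). -/
theorem norm_D_le' (θ t : ℝ) (ht : 0 < t) (N : ℕ) (h : ∀ m : ℤ, t ≤ |θ - m|) :
    ‖∑ i ∈ range N, ee (i * θ)‖ ≤ 1 / (2 * t) := by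
  have h1 := fejer_sin θ t h
  have h2 : ∑ i ∈ range N, ee (i * θ) = ∑ i ∈ range N, ee θ ^ i :=
    Finset.sum_congr rfl fun i _ => fejer_pow θ i
  have h3 : (∑ i ∈ range N, ee θ ^ i) * (ee θ - 1) = ee θ ^ N - 1 := geom_sum_mul _ _
  have h4 : ‖ee θ ^ N - 1‖ ≤ 2 := by
    refine (norm_sub_le _ _).trans ?_
    rw [norm_pow, norm_ee, one_pow, norm_one]
    norm_num
  rw [h2, le_div_iff₀ (by positivity)]
  have h5 : ‖∑ i ∈ range N, ee θ ^ i‖ * ‖ee θ - 1‖ ≤ 2 := by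
    rw [← norm_mul, h3]
    exact h4
  have h6 : ‖∑ i ∈ range N, ee θ ^ i‖ * (4 * t) ≤ ‖∑ i ∈ range N, ee θ ^ i‖ * ‖ee θ - 1‖ :=
    mul_le_mul_of_nonneg_left h1 (norm_nonneg _)
  linarith

private lemma fejer_neg (θ : ℝ) (N : ℕ) :
    ‖∑ i ∈ range N, ee (i * -θ)‖ = ‖∑ i ∈ range N, ee (i * θ)‖ := by
  have h : ∑ i ∈ range N, ee (i * -θ) = (starRingEnd ℂ) (∑ i ∈ range N, ee (i * θ)) := by
    rw [map_sum]
    refine Finset.sum_congr rfl fun i _ => ?_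
    rw [← ee_neg]
    congr 1
    ring
  rw [h, RCLike.norm_conj]

private lemma fejer_card (N l : ℕ) (hl : l < N) :
    N ≤ 2 * ((range N ×ˢ range N).filter
      (fun p => (p.1 : ℤ) - p.2 + (N / 2 : ℕ) = l)).card := by
  rcases le_total (N / 2) l with h | h
  · have h1 : (range (N - (l - N / 2))).image (fun j => (j + (l - N / 2), j)) ⊆
        (range N ×ˢ range N).filter (fun p => (p.1 : ℤ) - p.2 + (N / 2 : ℕ) = l) := by
      intro p hp
      obtain ⟨j, hj, rfl⟩ := Finset.mem_image.1 hp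
      rw [Finset.mem_range] at hj
      rw [Finset.mem_filter, Finset.mem_product, Finset.mem_range, Finset.mem_range]
      refine ⟨⟨?_, ?_⟩, ?_⟩ <;> dsimp only <;> omega
    have h2 := Finset.card_le_card h1
    rw [Finset.card_image_of_injective _ (fun a b hab => (Prod.ext_iff.1 hab).2), card_range] at h2
    omega
  · have h1 : (range (N - (N / 2 - l))).image (fun j => (j, j + (N / 2 - l))) ⊆
        (range N ×ˢ range N).filter (fun p => (p.1 : ℤ) - p.2 + (N / 2 : ℕ) = l) := by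
      intro p hp
      obtain ⟨j, hj, rfl⟩ := Finset.mem_image.1 hp
      rw [Finset.mem_range] at hj
      rw [Finset.mem_filter, Finset.mem_product, Finset.mem_range, Finset.mem_range]
      refine ⟨⟨?_, ?_⟩, ?_⟩ <;> dsimp only <;> omega
    have h2 := Finset.card_le_card h1
    rw [Finset.card_image_of_injective _ (fun a b hab => (Prod.ext_iff.1 hab).1), card_range] at h2
    omega

private lemma fejer_low (N : ℕ) (g : ℤ → ℝ) (hg : ∀ z, 0 ≤ g z) :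
    (N : ℝ) / 2 * ∑ l ∈ range N, g l ≤
      ∑ p ∈ range N ×ˢ range N, g ((p.1 : ℤ) - p.2 + (N / 2 : ℕ)) := by
  have h1 : ∀ l ∈ range N, (N : ℝ) / 2 * g l ≤
      ∑ p ∈ range N ×ˢ range N,
        (if (p.1 : ℤ) - p.2 + (N / 2 : ℕ) = l then g ((p.1 : ℤ) - p.2 + (N / 2 : ℕ)) else 0) := by
    intro l hl
    rw [← Finset.sum_filter]
    have h2 : ∑ p ∈ (range N ×ˢ range N).filter (fun p => (p.1 : ℤ) - p.2 + (N / 2 : ℕ) = l),
        g ((p.1 : ℤ) - p.2 + (N / 2 : ℕ)) =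
        ∑ p ∈ (range N ×ˢ range N).filter (fun p => (p.1 : ℤ) - p.2 + (N / 2 : ℕ) = l), g l :=
      Finset.sum_congr rfl fun p hp => by rw [(Finset.mem_filter.1 hp).2]
    rw [h2, Finset.sum_const, nsmul_eq_mul]
    have h3 := fejer_card N l (Finset.mem_range.1 hl)
    have h4 : (N : ℝ) ≤ 2 * (((range N ×ˢ range N).filter
      (fun p => (p.1 : ℤ) - p.2 + (N / 2 : ℕ) = l)).card : ℝ) := by exact_mod_cast h3
    exact mul_le_mul_of_nonneg_right (by linarith) (hg _)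
  rw [Finset.mul_sum]
  refine (Finset.sum_le_sum h1).trans ?_
  rw [Finset.sum_comm]
  refine Finset.sum_le_sum fun p _ => ?_
  by_cases h : ∃ l₀ ∈ range N, (p.1 : ℤ) - p.2 + (N / 2 : ℕ) = (l₀ : ℤ)
  · obtain ⟨l₀, hl₀, he⟩ := h
    rw [Finset.sum_eq_single l₀]
    · rw [if_pos he]
    · intro l _ hne
      rw [if_neg]
      intro h2
      exact hne (by rw [he] at h2; exact_mod_cast h2.symm)
    · intro h2
      exact absurd hl₀ h2
  · push Not at h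
    rw [Finset.sum_eq_zero]
    · exact hg _
    · intro l hl
      rw [if_neg (h l hl)]

/-- PROOF. Put `B z = ∑_a b a * ee (z * x a)` for `z : ℤ`, `c = N / 2`.  For `l < N` there are at least `N / 2` pairs `(i, j)`, `i, j < N`, with
`i - j + c = l` (there are `N - |l - c|`).  Hence `(N / 2) ∑_{l < N} |B l|^2 ≤ ∑_{i, j < N} |B (i - j + c)|^2 =
∑_{a, a'} b a conj(b a') ee (c (x a - x a')) |D (x a - x a')|^2 ≤ ∑_a |b a|^2 ∑_a' |D|^2` with `D θ = ∑_{i < N} ee (i θ)`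
(`|b a| |b a'| ≤ (|b a|^2 + |b a'|^2) / 2` and symmetry). -/
theorem fejer {α : Type*} (s : Finset α) (x : α → ℝ) (b : α → ℂ) (N : ℕ) (hN : 0 < N) (Δ : ℝ)
    (hΔ : ∀ a ∈ s, ∑ a' ∈ s, ‖∑ i ∈ range N, ee (i * (x a - x a'))‖ ^ 2 ≤ Δ) :
    ∑ l ∈ range N, ‖∑ a ∈ s, b a * ee (l * x a)‖ ^ 2 ≤ 2 / N * Δ * ∑ a ∈ s, ‖b a‖ ^ 2 := by
  have hN0 : (0 : ℝ) < N := by exact_mod_cast hN
  have h1 := fejer_low N (fun z => ‖∑ a ∈ s, b a * ee (z * x a)‖ ^ 2) (fun z => by positivity)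
  simp only [Int.cast_natCast] at h1
  set c : ℕ := N / 2 with hc
  -- the double sum
  have h2 : ((∑ p ∈ range N ×ˢ range N,
      ‖∑ a ∈ s, b a * ee ((((p.1 : ℤ) - p.2 + (c : ℕ) : ℤ) : ℝ) * x a)‖ ^ 2 : ℝ) : ℂ) =
      ∑ a ∈ s, ∑ a' ∈ s, (b a * (starRingEnd ℂ) (b a') * ee (c * (x a - x a'))) *
        ((∑ i ∈ range N, ee (i * (x a - x a'))) *
          (starRingEnd ℂ) (∑ i ∈ range N, ee (i * (x a - x a')))) := by
    push_cast
    have h3 : ∀ p ∈ range N ×ˢ range N,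
        ((‖∑ a ∈ s, b a * ee (((p.1 : ℝ) - p.2 + (c : ℕ)) * x a)‖ : ℂ)) ^ 2 =
        ∑ a ∈ s, ∑ a' ∈ s, (b a * (starRingEnd ℂ) (b a') * ee (c * (x a - x a'))) *
          (ee (p.1 * (x a - x a')) * (starRingEnd ℂ) (ee (p.2 * (x a - x a')))) := by
      intro p _
      rw [← Complex.mul_conj', map_sum, Finset.sum_mul_sum]
      refine Finset.sum_congr rfl fun a _ => Finset.sum_congr rfl fun a' _ => ?_
      rw [map_mul, ← ee_neg, ← ee_neg]
      have h4 : ee (((p.1 : ℝ) - p.2 + (c : ℕ)) * x a) *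
          ee (-(((p.1 : ℝ) - p.2 + (c : ℕ)) * x a')) =
          ee (c * (x a - x a')) * (ee (p.1 * (x a - x a')) * ee (-(p.2 * (x a - x a')))) := by
        rw [← ee_add, ← ee_add, ← ee_add]
        congr 1
        ring
      linear_combination (b a * (starRingEnd ℂ) (b a')) * h4
    rw [Finset.sum_congr rfl h3, Finset.sum_comm]
    refine Finset.sum_congr rfl fun a _ => ?_
    rw [Finset.sum_comm]
    refine Finset.sum_congr rfl fun a' _ => ?_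
    rw [← Finset.mul_sum, map_sum, Finset.sum_mul_sum, Finset.sum_product]
  have h5 : ∑ p ∈ range N ×ˢ range N,
      ‖∑ a ∈ s, b a * ee ((((p.1 : ℤ) - p.2 + (c : ℕ) : ℤ) : ℝ) * x a)‖ ^ 2 ≤
      ∑ a ∈ s, ∑ a' ∈ s, (‖b a‖ * ‖b a'‖) * ‖∑ i ∈ range N, ee (i * (x a - x a'))‖ ^ 2 := by
    have h6 : (0 : ℝ) ≤ ∑ p ∈ range N ×ˢ range N,
      ‖∑ a ∈ s, b a * ee ((((p.1 : ℤ) - p.2 + (c : ℕ) : ℤ) : ℝ) * x a)‖ ^ 2 :=
      Finset.sum_nonneg fun _ _ => by positivity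
    rw [← Complex.norm_of_nonneg h6, h2]
    refine (norm_sum_le _ _).trans (Finset.sum_le_sum fun a _ => ?_)
    refine (norm_sum_le _ _).trans (Finset.sum_le_sum fun a' _ => le_of_eq ?_)
    rw [norm_mul, norm_mul, norm_mul, norm_mul, RCLike.norm_conj, RCLike.norm_conj, norm_ee]
    ring
  have h7 : ∑ a ∈ s, ∑ a' ∈ s, (‖b a‖ * ‖b a'‖) * ‖∑ i ∈ range N, ee (i * (x a - x a'))‖ ^ 2 ≤
      Δ * ∑ a ∈ s, ‖b a‖ ^ 2 := by
    calc ∑ a ∈ s, ∑ a' ∈ s, (‖b a‖ * ‖b a'‖) * ‖∑ i ∈ range N, ee (i * (x a - x a'))‖ ^ 2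
        ≤ ∑ a ∈ s, ∑ a' ∈ s, ((1 / 2) * (‖b a‖ ^ 2 * ‖∑ i ∈ range N, ee (i * (x a - x a'))‖ ^ 2) +
            (1 / 2) * (‖b a'‖ ^ 2 * ‖∑ i ∈ range N, ee (i * (x a' - x a))‖ ^ 2)) := by
          refine Finset.sum_le_sum fun a _ => Finset.sum_le_sum fun a' _ => ?_
          have h8 : ‖∑ i ∈ range N, ee (i * (x a' - x a))‖ =
              ‖∑ i ∈ range N, ee (i * (x a - x a'))‖ := by
            rw [← fejer_neg, neg_sub]
          rw [h8]
          have h9 : ‖b a‖ * ‖b a'‖ ≤ (1 / 2) * ‖b a‖ ^ 2 + (1 / 2) * ‖b a'‖ ^ 2 := by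
            nlinarith [sq_nonneg (‖b a‖ - ‖b a'‖)]
          have h10 : 0 ≤ ‖∑ i ∈ range N, ee (i * (x a - x a'))‖ ^ 2 := by positivity
          nlinarith [mul_le_mul_of_nonneg_right h9 h10]
      _ = (1 / 2) * (∑ a ∈ s, ‖b a‖ ^ 2 * ∑ a' ∈ s, ‖∑ i ∈ range N, ee (i * (x a - x a'))‖ ^ 2) +
            (1 / 2) * (∑ a' ∈ s, ‖b a'‖ ^ 2 *
              ∑ a ∈ s, ‖∑ i ∈ range N, ee (i * (x a' - x a))‖ ^ 2) := by
          simp only [Finset.sum_add_distrib, Finset.mul_sum]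
          congr 1
          rw [Finset.sum_comm]
      _ ≤ (1 / 2) * (∑ a ∈ s, ‖b a‖ ^ 2 * Δ) + (1 / 2) * (∑ a' ∈ s, ‖b a'‖ ^ 2 * Δ) := by
          refine add_le_add ?_ ?_ <;>
          refine mul_le_mul_of_nonneg_left (Finset.sum_le_sum fun a ha =>
            mul_le_mul_of_nonneg_left (hΔ a ha) (by positivity)) (by norm_num)
      _ = Δ * ∑ a ∈ s, ‖b a‖ ^ 2 := by
          rw [← Finset.sum_mul]
          ring
  have h11 := h1.trans (h5.trans h7)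
  have h12 : ∑ l ∈ range N, ‖∑ a ∈ s, b a * ee (l * x a)‖ ^ 2 =
      2 / N * ((N : ℝ) / 2 * ∑ l ∈ range N, ‖∑ a ∈ s, b a * ee (l * x a)‖ ^ 2) := by
    field_simp
  rw [h12]
  calc 2 / (N : ℝ) * ((N : ℝ) / 2 * ∑ l ∈ range N, ‖∑ a ∈ s, b a * ee (l * x a)‖ ^ 2)
      ≤ 2 / N * (Δ * ∑ a ∈ s, ‖b a‖ ^ 2) := mul_le_mul_of_nonneg_left h11 (by positivity)
    _ = 2 / N * Δ * ∑ a ∈ s, ‖b a‖ ^ 2 := by ring

end Pool.Agent.H.MP_711652_nt.CH
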