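import Pool.Agent.H.MP_711652_nt.CH.Dual
import Pool.Agent.H.MP_711652_nt.CH.Fejer

/-! # MP_711652, CH: the additive large sieve for `N ≥ Q ^ 2` -/

set_option autoImplicit false

namespace Pool.Agent.H.MP_711652_nt.CH

open Finset

private noncomputable def LsAdd_x (z : ℕ × ℕ) : ℝ := (z.2 : ℝ) / z.1

private theorem LsAdd_mem {Q : ℕ} {z : ℕ × ℕ} (hz : z ∈ farey Q) :
    1 ≤ z.1 ∧ z.1 ≤ Q ∧ z.2 < z.1 ∧ Nat.Coprime z.2 z.1 := by
  unfold farey at hz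
  rw [mem_filter, mem_product, mem_Icc, mem_range] at hz
  exact ⟨hz.1.1.1, hz.1.1.2, hz.2.1, hz.2.2⟩

/-- Two reduced fractions closer than `1 / Q ^ 2` modulo 1 are equal. -/
private theorem LsAdd_sep {Q : ℕ} {z w : ℕ × ℕ} (hz : z ∈ farey Q) (hw : w ∈ farey Q) (m : ℤ)
    (h : |LsAdd_x z - LsAdd_x w - m| * (Q : ℝ) ^ 2 < 1) : z = w := by
  obtain ⟨hz1, hz2, hz3, hz4⟩ := LsAdd_mem hz
  obtain ⟨hw1, hw2, hw3, hw4⟩ := LsAdd_mem hw
  have hz0 : (0 : ℝ) < z.1 := by exact_mod_cast hz1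
  have hw0 : (0 : ℝ) < w.1 := by exact_mod_cast hw1
  have hzQ : (z.1 : ℝ) ≤ Q := by exact_mod_cast hz2
  have hwQ : (w.1 : ℝ) ≤ Q := by exact_mod_cast hw2
  have hprod : (z.1 : ℝ) * w.1 ≤ (Q : ℝ) ^ 2 := by
    rw [sq]
    exact mul_le_mul hzQ hwQ hw0.le (by positivity)
  -- the integer
  have hk : ((((z.2 : ℤ) * w.1 - w.2 * z.1 - m * (z.1 * w.1) : ℤ)) : ℝ) =
      (LsAdd_x z - LsAdd_x w - m) * ((z.1 : ℝ) * w.1) := by
    unfold LsAdd_x
    push_cast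
    field_simp
  have hk1 : |((((z.2 : ℤ) * w.1 - w.2 * z.1 - m * (z.1 * w.1) : ℤ)) : ℝ)| < 1 := by
    rw [hk, abs_mul, abs_of_pos (mul_pos hz0 hw0)]
    exact lt_of_le_of_lt (mul_le_mul_of_nonneg_left hprod (abs_nonneg _)) h
  have hk2 : (z.2 : ℤ) * w.1 - w.2 * z.1 - m * (z.1 * w.1) = 0 := by
    have : |(z.2 : ℤ) * w.1 - w.2 * z.1 - m * (z.1 * w.1)| < 1 := by exact_mod_cast hk1
    exact Int.abs_lt_one_iff.mp this
  have hm : m = 0 := by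
    have h1 : (z.2 : ℤ) * w.1 < z.1 * w.1 :=
      mul_lt_mul_of_pos_right (by exact_mod_cast hz3) (by exact_mod_cast hw1)
    have h2 : (w.2 : ℤ) * z.1 < w.1 * z.1 :=
      mul_lt_mul_of_pos_right (by exact_mod_cast hw3) (by exact_mod_cast hz1)
    have h3 : (0 : ℤ) ≤ (z.2 : ℤ) * w.1 := by positivity
    have h4 : (0 : ℤ) ≤ (w.2 : ℤ) * z.1 := by positivity
    have h5 : (0 : ℤ) < (z.1 : ℤ) * w.1 := by
      have : (0 : ℤ) < z.1 := by exact_mod_cast hz1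
      have : (0 : ℤ) < w.1 := by exact_mod_cast hw1
      positivity
    have h6 : m < 1 := by
      by_contra hc
      push Not at hc
      nlinarith [mul_le_mul_of_nonneg_right hc h5.le]
    have h7 : -1 < m := by
      by_contra hc
      push Not at hc
      nlinarith [mul_le_mul_of_nonneg_right hc h5.le]
    omega
  rw [hm, zero_mul, sub_zero, sub_eq_zero] at hk2
  have hk3 : z.2 * w.1 = w.2 * z.1 := by exact_mod_cast hk2
  have hd1 : z.1 ∣ w.1 := by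
    have : z.1 ∣ z.2 * w.1 := ⟨w.2, by rw [hk3]; ring⟩
    exact (Nat.Coprime.symm hz4).dvd_of_dvd_mul_left this
  have hd2 : w.1 ∣ z.1 := by
    have : w.1 ∣ w.2 * z.1 := ⟨z.2, by rw [← hk3]; ring⟩
    exact (Nat.Coprime.symm hw4).dvd_of_dvd_mul_left this
  have he : z.1 = w.1 := Nat.dvd_antisymm hd1 hd2
  have he2 : z.2 = w.2 := by
    rw [← he] at hk3
    exact Nat.eq_of_mul_eq_mul_right (by omega) hk3
  exact Prod.ext he he2

/-- PROOF. Map `a'` to the bin `j = ⌊Q^2 * fract (x a' - x a)⌋ < Q^2` (`x z = z.2 / z.1`); two different fractions differ modulo 1 by at least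
`1 / (r r') ≥ 1 / Q^2`, so the map is injective on `farey Q`.  In the bin `j` the distance of `x a - x a'` to the integers is at least
`min j (Q^2 - 1 - j) / Q^2`; use `norm_D_le` for `j = 0`, `j = Q^2 - 1` (at most 2 bins), `norm_D_le'` for the others:
the sum is at most `2 N^2 + 2 ∑_{j ≥ 1} Q^4 / (4 j^2) ≤ 2 N^2 + Q^4 ≤ 3 N^2`. -/
theorem farey_sum (Q N : ℕ) (hQ : 1 ≤ Q) (hN : Q ^ 2 ≤ N) (a : ℕ × ℕ) (ha : a ∈ farey Q) :
    ∑ a' ∈ farey Q, ‖∑ i ∈ range N, ee (i * ((a.2 : ℝ) / a.1 - (a'.2 : ℝ) / a'.1))‖ ^ 2 ≤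
      4 * (N : ℝ) ^ 2 := by
  have hQ0 : (0 : ℝ) < Q := by exact_mod_cast hQ
  have hNR : (Q : ℝ) ^ 2 ≤ N := by exact_mod_cast hN
  set bn : ℕ → ℝ := fun i => if i = 0 then (N : ℝ) ^ 2 else (Q : ℝ) ^ 4 / 4 * ((i : ℝ) ^ 2)⁻¹ with hbn
  have hbn0 : ∀ i, 0 ≤ bn i := by
    intro i
    simp only [hbn]
    split_ifs <;> positivity
  set J : ℕ × ℕ → ℕ := fun z => ⌊(Q : ℝ) ^ 2 * Int.fract (LsAdd_x z - LsAdd_x a)⌋₊ with hJ
  have hJle : ∀ z, (J z : ℝ) ≤ (Q : ℝ) ^ 2 * Int.fract (LsAdd_x z - LsAdd_x a) := fun z =>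
    Nat.floor_le (mul_nonneg (by positivity) (Int.fract_nonneg _))
  have hJlt : ∀ z, (Q : ℝ) ^ 2 * Int.fract (LsAdd_x z - LsAdd_x a) < J z + 1 := fun z =>
    Nat.lt_floor_add_one _
  have hJQ : ∀ z, J z < Q ^ 2 := by
    intro z
    have h1 : (J z : ℝ) < (Q : ℝ) ^ 2 := by
      refine lt_of_le_of_lt (hJle z) ?_
      have := Int.fract_lt_one (LsAdd_x z - LsAdd_x a)
      have hp : (0 : ℝ) < (Q : ℝ) ^ 2 := by positivity
      nlinarith
    exact_mod_cast h1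
  -- the bound in a bin
  have hterm : ∀ z, ‖∑ i ∈ range N, ee (i * ((a.2 : ℝ) / a.1 - (z.2 : ℝ) / z.1))‖ ^ 2 ≤
      bn (J z) + bn (Q ^ 2 - 1 - J z) := by
    intro z
    have hD0 := norm_D_le ((a.2 : ℝ) / a.1 - (z.2 : ℝ) / z.1) N
    have hsq : ‖∑ i ∈ range N, ee (i * ((a.2 : ℝ) / a.1 - (z.2 : ℝ) / z.1))‖ ^ 2 ≤ (N : ℝ) ^ 2 :=
      pow_le_pow_left₀ (norm_nonneg _) hD0 2
    by_cases h0 : J z = 0
    · have : bn (J z) = (N : ℝ) ^ 2 := by simp only [hbn, h0, if_true]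
      rw [this]
      linarith [hbn0 (Q ^ 2 - 1 - J z)]
    by_cases h1 : Q ^ 2 - 1 - J z = 0
    · have : bn (Q ^ 2 - 1 - J z) = (N : ℝ) ^ 2 := by simp only [hbn, h1, if_true]
      rw [this]
      linarith [hbn0 (J z)]
    have key : ∀ i : ℕ, i ≠ 0 → i ≤ J z → i ≤ Q ^ 2 - 1 - J z →
        ‖∑ i ∈ range N, ee (i * ((a.2 : ℝ) / a.1 - (z.2 : ℝ) / z.1))‖ ^ 2 ≤ bn i := by
      intro i hi hi1 hi2
      have hi0 : (0 : ℝ) < i := by exact_mod_cast Nat.pos_of_ne_zero hi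
      have hi1' : (i : ℝ) ≤ J z := by exact_mod_cast hi1
      have hi2' : (i : ℝ) + 1 + J z ≤ (Q : ℝ) ^ 2 := by
        have : i + 1 + J z ≤ Q ^ 2 := by
          have := hJQ z
          omega
        exact_mod_cast this
      have hQ2 : (0 : ℝ) < (Q : ℝ) ^ 2 := by positivity
      have ht : 0 < (i : ℝ) / (Q : ℝ) ^ 2 := by positivity
      have hdist : ∀ m : ℤ, (i : ℝ) / (Q : ℝ) ^ 2 ≤ |((a.2 : ℝ) / a.1 - (z.2 : ℝ) / z.1) - m| := by
        intro m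
        rw [div_le_iff₀ hQ2]
        set y : ℝ := LsAdd_x z - LsAdd_x a with hy
        have hfr : y = ⌊y⌋ + Int.fract y := (Int.floor_add_fract y).symm
        have he : ((a.2 : ℝ) / a.1 - (z.2 : ℝ) / z.1) - m = -(Int.fract y + ((⌊y⌋ + m : ℤ) : ℝ)) := by
          have : (a.2 : ℝ) / a.1 - (z.2 : ℝ) / z.1 = - y := by
            rw [hy]; unfold LsAdd_x; ring
          rw [this]
          push_cast
          linarith
        rw [he, abs_neg]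
        have hle := hJle z
        have hlt := hJlt z
        rw [← hy] at hle hlt
        rcases le_or_gt 0 (⌊y⌋ + m) with hm | hm
        · have hm' : (0 : ℝ) ≤ ((⌊y⌋ + m : ℤ) : ℝ) := by exact_mod_cast hm
          have hfn := Int.fract_nonneg y
          rw [abs_of_nonneg (by linarith)]
          nlinarith [mul_nonneg hm' hQ2.le]
        · have hm' : ((⌊y⌋ + m : ℤ) : ℝ) ≤ -1 := by
            have : (⌊y⌋ + m : ℤ) ≤ -1 := by omega
            exact_mod_cast this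
          have hfl := Int.fract_lt_one y
          rw [abs_of_nonpos (by linarith)]
          nlinarith [mul_nonneg (sub_nonneg.mpr hm') hQ2.le]
      have hD := norm_D_le' ((a.2 : ℝ) / a.1 - (z.2 : ℝ) / z.1) ((i : ℝ) / (Q : ℝ) ^ 2) ht N hdist
      have hD2 := pow_le_pow_left₀ (norm_nonneg _) hD 2
      refine hD2.trans (le_of_eq ?_)
      simp only [hbn, hi, if_false]
      field_simp
      ring
    rcases le_total (J z) (Q ^ 2 - 1 - J z) with hc | hc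
    · linarith [key (J z) h0 le_rfl hc, hbn0 (Q ^ 2 - 1 - J z)]
    · linarith [key (Q ^ 2 - 1 - J z) h1 hc le_rfl, hbn0 (J z)]
  -- injectivity
  have hinj : ∀ z ∈ farey Q, ∀ w ∈ farey Q, J z = J w → z = w := by
    intro z hz w hw hzw
    have h1 := hJle z
    have h2 := hJlt z
    have h3 := hJle w
    have h4 := hJlt w
    rw [← hzw] at h3 h4
    refine LsAdd_sep hz hw (⌊LsAdd_x z - LsAdd_x a⌋ - ⌊LsAdd_x w - LsAdd_x a⌋) ?_
    have he : LsAdd_x z - LsAdd_x w -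
        ((⌊LsAdd_x z - LsAdd_x a⌋ - ⌊LsAdd_x w - LsAdd_x a⌋ : ℤ) : ℝ) =
        Int.fract (LsAdd_x z - LsAdd_x a) - Int.fract (LsAdd_x w - LsAdd_x a) := by
      have e1 := Int.floor_add_fract (LsAdd_x z - LsAdd_x a)
      have e2 := Int.floor_add_fract (LsAdd_x w - LsAdd_x a)
      push_cast
      linarith
    rw [he]
    have hQ2 : (0 : ℝ) < (Q : ℝ) ^ 2 := by positivity
    rw [← abs_of_pos hQ2, ← abs_mul, abs_lt]
    constructor <;> nlinarith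
  -- the sum
  have hsum : ∑ z ∈ farey Q, (bn (J z) + bn (Q ^ 2 - 1 - J z)) ≤
      ∑ j ∈ range (Q ^ 2), (bn j + bn (Q ^ 2 - 1 - j)) := by
    have himg : (farey Q).image J ⊆ range (Q ^ 2) := by
      intro j hj
      rw [mem_image] at hj
      obtain ⟨z, _, rfl⟩ := hj
      exact mem_range.mpr (hJQ z)
    have h1 : ∑ z ∈ farey Q, (bn (J z) + bn (Q ^ 2 - 1 - J z)) =
        ∑ j ∈ (farey Q).image J, (bn j + bn (Q ^ 2 - 1 - j)) := by
      rw [sum_image]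
      intro z hz w hw hzw
      exact hinj z hz w hw hzw
    rw [h1]
    exact sum_le_sum_of_subset_of_nonneg himg fun j _ _ => add_nonneg (hbn0 _) (hbn0 _)
  have hrefl : ∑ j ∈ range (Q ^ 2), bn (Q ^ 2 - 1 - j) = ∑ j ∈ range (Q ^ 2), bn j :=
    sum_range_reflect bn (Q ^ 2)
  have hbsum : ∑ j ∈ range (Q ^ 2), bn j ≤ (N : ℝ) ^ 2 + (Q : ℝ) ^ 4 / 4 * 2 := by
    have hpos : 0 < Q ^ 2 := by positivity
    have h1 : range (Q ^ 2) = insert 0 (Ioo 0 (Q ^ 2)) := by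
      ext j
      simp only [mem_range, mem_insert, mem_Ioo]
      omega
    rw [h1, sum_insert (by simp)]
    have h2 : bn 0 = (N : ℝ) ^ 2 := by simp only [hbn, if_true]
    have h3 : ∑ j ∈ Ioo 0 (Q ^ 2), bn j = (Q : ℝ) ^ 4 / 4 * ∑ j ∈ Ioo 0 (Q ^ 2), ((j : ℝ) ^ 2)⁻¹ := by
      rw [mul_sum]
      refine sum_congr rfl fun j hj => ?_
      rw [mem_Ioo] at hj
      simp only [hbn, hj.1.ne', if_false]
    rw [h2, h3]
    have h4 := sum_Ioo_inv_sq_le (α := ℝ) 0 (Q ^ 2)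
    have h5 : ∑ j ∈ Ioo 0 (Q ^ 2), ((j : ℝ) ^ 2)⁻¹ ≤ 2 := by
      refine h4.trans ?_
      norm_num
    have h6 : (0 : ℝ) ≤ (Q : ℝ) ^ 4 / 4 := by positivity
    linarith [mul_le_mul_of_nonneg_left h5 h6]
  have hQN : (Q : ℝ) ^ 4 ≤ (N : ℝ) ^ 2 := by
    have := pow_le_pow_left₀ (by positivity) hNR 2
    calc (Q : ℝ) ^ 4 = ((Q : ℝ) ^ 2) ^ 2 := by ring
      _ ≤ _ := this
  calc _ ≤ ∑ z ∈ farey Q, (bn (J z) + bn (Q ^ 2 - 1 - J z)) := sum_le_sum fun z _ => hterm z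
    _ ≤ ∑ j ∈ range (Q ^ 2), (bn j + bn (Q ^ 2 - 1 - j)) := hsum
    _ = 2 * ∑ j ∈ range (Q ^ 2), bn j := by rw [sum_add_distrib, hrefl]; ring
    _ ≤ 4 * (N : ℝ) ^ 2 := by nlinarith [sq_nonneg (N : ℝ)]

/-- PROOF. `fejer` with `Δ = 4 N^2` and `duality`. -/
theorem ls_add (Q N : ℕ) (hQ : 1 ≤ Q) (hN : Q ^ 2 ≤ N) (a : ℕ → ℂ) :
    ∑ z ∈ farey Q, ‖∑ l ∈ range N, a l * ee (l * ((z.2 : ℝ) / z.1))‖ ^ 2 ≤
      8 * N * ∑ l ∈ range N, ‖a l‖ ^ 2 := by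
  have hN0 : 0 < N := lt_of_lt_of_le (by positivity) hN
  have hNR : (0 : ℝ) < N := by exact_mod_cast hN0
  refine duality (farey Q) (range N) (fun z l => ee (l * ((z.2 : ℝ) / z.1))) (8 * N)
    (by positivity) ?_ a
  intro b
  have h := fejer (farey Q) (fun z => (z.2 : ℝ) / z.1) b N hN0 (4 * (N : ℝ) ^ 2)
    (fun z hz => farey_sum Q N hQ hN z hz)
  refine h.trans (le_of_eq ?_)
  have : 2 / (N : ℝ) * (4 * (N : ℝ) ^ 2) = 8 * N := by
    field_simp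
    ring
  rw [this]

end Pool.Agent.H.MP_711652_nt.CH
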