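import Mathlib

/-!
# MP_711652, chains (CH): definitions for the large sieve

Paper proof: team-store `h19_711652_CHAINS.md`.
-/

set_option autoImplicit false

namespace Pool.Agent.H.MP_711652_nt.CH

open Finset

/-- `exp (2 π i x)` -/
noncomputable def ee (x : ℝ) : ℂ := Complex.exp (2 * Real.pi * x * Complex.I)

open Classical in
/-- The primitive characters modulo `r`. -/
noncomputable def prims (r : ℕ) : Finset (DirichletCharacter ℂ r) :=
  univ.filter (fun χ => χ.IsPrimitive)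

/-- The sum over the primitive characters modulo `r` of `|∑_{x ∈ S} θ x χ x|`. -/
noncomputable def Zs (S : Finset ℕ) (θ : ℕ → ℝ) (r : ℕ) : ℝ :=
  ∑ χ ∈ prims r, ‖∑ x ∈ S, (θ x : ℂ) * χ (x : ZMod r)‖

/-- The reduced fractions `u / r`, `r ≤ Q`, as pairs `(r, u)`. -/
def farey (Q : ℕ) : Finset (ℕ × ℕ) :=
  (Icc 1 Q ×ˢ range Q).filter (fun z => z.2 < z.1 ∧ Nat.Coprime z.2 z.1)

/-- `∑_{y.1 y.2 = k} μ(y.1) [y.1 ≤ U] Λ(y.2) [y.2 ≤ U]` -/
noncomputable def cU (U k : ℕ) : ℝ :=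
  ∑ y ∈ k.divisorsAntidiagonal, (if y.1 ≤ U then (ArithmeticFunction.moebius y.1 : ℝ) else 0) *
    (if y.2 ≤ U then ArithmeticFunction.vonMangoldt y.2 else 0)

/-- `∑_{d ∣ l, d > U} μ(d)` -/
noncomputable def betU (U l : ℕ) : ℝ :=
  ∑ d ∈ l.divisors.filter (fun d => U < d), (ArithmeticFunction.moebius d : ℝ)

/-- The numbers of `(0, X]` in the class `b` modulo `W`. -/
def cl (X W b : ℕ) : Finset ℕ := (Ioc 0 X).filter (fun x => x ≡ b [MOD W])

end Pool.Agent.H.MP_711652_nt.CH
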