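import Pool.Agent.H.MP_711652_nt.CH.ExpDefs

/-! # MP_711652, CH: products of sifting functions on different positions -/

set_option autoImplicit false

namespace Pool.Agent.H.MP_711652_nt.CH

open Finset Pool.Agent.H.MP_711652_nt.LG

variable {ι₁ ι₂ : Type*} [Fintype ι₁] [DecidableEq ι₁] [Fintype ι₂] [DecidableEq ι₂]

/-- Iterated `Coef.sub`.  PROOF. Add the primes one by one. -/
theorem Coef.sub_many {ι : Type*} [DecidableEq ι] {P : Finset ℕ} {a : (P → Option ι) → ℝ} {Y : ℕ}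
    (h : Coef P a Y) (σ₀ σ : P → Option ι) (hσ : ∀ p, σ₀ p ≠ none → σ p = σ₀ p) :
    a σ ≤ a σ₀ * ∏ p : P, (if σ₀ p = none ∧ σ p ≠ none then 1 / (((p : ℕ) : ℝ) - 1) else 1) := by
  have key : ∀ T : Finset P, a (fun p => if p ∈ T then σ p else σ₀ p) ≤
      a σ₀ * ∏ p ∈ T, (if σ₀ p = none ∧ σ p ≠ none then 1 / (((p : ℕ) : ℝ) - 1) else 1) := by
    intro T
    induction T using Finset.induction_on with
    | empty => simp
    | insert q T hq ih =>
      have hf : (fun p => if p ∈ insert q T then σ p else σ₀ p) =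
          Function.update (fun p => if p ∈ T then σ p else σ₀ p) q (σ q) := by
        funext p
        by_cases hp : p = q
        · subst hp
          rw [Function.update_self, if_pos (Finset.mem_insert_self _ _)]
        · rw [Function.update_of_ne hp]
          have : p ∈ insert q T ↔ p ∈ T := by
            rw [Finset.mem_insert]
            exact ⟨fun h => h.resolve_left hp, Or.inr⟩
          simp only [this]
      have hfq : (fun p => if p ∈ T then σ p else σ₀ p) q = σ₀ q := by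
        show (if q ∈ T then σ q else σ₀ q) = σ₀ q
        rw [if_neg hq]
      rw [Finset.prod_insert hq, hf]
      by_cases hc : σ₀ q = none ∧ σ q ≠ none
      · rw [if_pos hc]
        obtain ⟨i, hi⟩ := Option.ne_none_iff_exists'.mp hc.2
        rw [hi]
        refine (h.sub _ q i (hfq.trans hc.1)).trans ?_
        have hp1 : (0 : ℝ) < ((q : ℕ) : ℝ) - 1 := by
          have := (h.prime q q.2).one_lt
          have h2 : (1 : ℝ) < ((q : ℕ) : ℝ) := by exact_mod_cast this
          linarith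
        rw [div_le_iff₀ hp1]
        refine ih.trans (le_of_eq ?_)
        field_simp
      · rw [if_neg hc, one_mul]
        have hs : σ q = σ₀ q := by
          by_cases h0 : σ₀ q = none
          · rw [h0]
            by_contra h1
            exact hc ⟨h0, h1⟩
          · exact hσ q h0
        rw [hs, ← hfq, Function.update_eq_self]
        exact ih
  have h1 := key Finset.univ
  simpa using h1

/-- Expansion of a product of sums. -/
private theorem prodsum {α κ : Type*} [Fintype α] [DecidableEq α] [Fintype κ] [DecidableEq κ]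
    (f : α → κ → ℝ) : ∏ p, ∑ k, f p k = ∑ x : α → κ, ∏ p, f p (x p) := by
  rw [Finset.prod_univ_sum, Fintype.piFinset_univ]

/-- The local coefficients of a product. -/
private noncomputable def eps (s : Option ι₁) (t : Option ι₂) (u : Option (ι₁ ⊕ ι₂)) : ℝ :=
  match s, t with
  | none, none => if u = none then 1 else 0
  | some i, none => if u = some (Sum.inl i) then 1 else 0
  | none, some j => if u = some (Sum.inr j) then 1 else 0
  | some i, some j => (if u = some (Sum.inl i) then 1 else 0) +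
      (if u = some (Sum.inr j) then 1 else 0) - (if u = none then 1 else 0)

private theorem eps_local {P : Finset ℕ} {A : ℕ → ι₁ ⊕ ι₂ → ℕ → Prop} (hF : Forms P A) {p : ℕ}
    (hp : p ∈ P) (s : Option ι₁) (t : Option ι₂) (m : ℕ) :
    Ef (fun p i => A p (Sum.inl i)) p s m * Ef (fun p i => A p (Sum.inr i)) p t m =
      ∑ u : Option (ι₁ ⊕ ι₂), eps s t u * Ef A p u m := by
  classical
  rcases s with _ | i <;> rcases t with _ | j
  · simp [eps, Ef]
  · simp [eps, Ef]
  · simp [eps, Ef]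
  · have hd : ¬ (A p (Sum.inl i) m ∧ A p (Sum.inr j) m) := by
      rintro ⟨h1, h2⟩
      exact hF.disj p hp (Sum.inl i) (Sum.inr j) m (by simp) h1 h2
    have e : ∑ u : Option (ι₁ ⊕ ι₂), eps (some i) (some j) u * Ef A p u m =
        Ef A p (some (Sum.inl i)) m + Ef A p (some (Sum.inr j)) m - Ef A p none m := by
      simp only [eps, add_mul, sub_mul, ite_mul, one_mul, zero_mul, Finset.sum_add_distrib,
        Finset.sum_sub_distrib, Finset.sum_ite_eq', Finset.mem_univ, if_true]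
    rw [e]
    unfold Ef
    by_cases h1 : A p (Sum.inl i) m
    · have h2 : ¬ A p (Sum.inr j) m := fun h2 => hd ⟨h1, h2⟩
      simp only [if_pos h1, if_neg h2]
      ring
    · simp only [if_neg h1]
      ring

/-- The local costs. -/
private noncomputable def cst {ι : Type*} [DecidableEq ι] (p : ℕ) (l s : Option ι) : ℝ :=
  if l = none ∧ s ≠ none then 1 / ((p : ℝ) - 1) else 1

private theorem cst_nonneg {ι : Type*} [DecidableEq ι] {p : ℕ} (hp : p.Prime) (l s : Option ι) :
    0 ≤ cst p l s := by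
  unfold cst
  have h2 : (1 : ℝ) < (p : ℝ) := by exact_mod_cast hp.one_lt
  split_ifs
  · exact div_nonneg zero_le_one (by linarith)
  · exact zero_le_one

private theorem abs_ind {ι : Type*} [DecidableEq ι] (i x : ι) :
    |(if i = x then (1 : ℝ) else 0)| = if i = x then 1 else 0 := by
  split_ifs <;> simp

private theorem loc_sum (p : ℕ) (u : Option (ι₁ ⊕ ι₂)) :
    ∑ s : Option ι₁, ∑ t : Option ι₂, |eps s t u| * (cst p (u.bind Sum.getLeft?) s *
      cst p (u.bind Sum.getRight?) t) =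
      gam (Fintype.card ι₁ : ℝ) (Fintype.card ι₂ : ℝ) p u := by
  rcases u with _ | (i | j)
  · rw [Fintype.sum_option]
    simp only [Fintype.sum_option]
    simp [eps, cst, gam]
    rw [← mul_inv, div_eq_mul_inv, pow_two]
    ring
  · rw [Fintype.sum_option]
    simp only [Fintype.sum_option]
    simp [eps, cst, gam]
    simp only [abs_ind, Finset.sum_add_distrib, ← Finset.mul_sum, ← Finset.sum_mul,
      Finset.sum_ite_eq, Finset.mem_univ, if_true]
    rw [one_mul, div_eq_mul_inv]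
  · rw [Fintype.sum_option]
    simp only [Fintype.sum_option]
    simp [eps, cst, gam]
    simp only [abs_ind, Finset.sum_add_distrib, ← Finset.mul_sum, ← Finset.sum_mul,
      Finset.sum_ite_eq, Finset.mem_univ, if_true]
    rw [one_mul, div_eq_mul_inv]

private theorem eps_left {s : Option ι₁} {t : Option ι₂} {u : Option (ι₁ ⊕ ι₂)}
    (h : eps s t u ≠ 0) (hu : u.bind Sum.getLeft? ≠ none) : s = u.bind Sum.getLeft? := by
  rcases u with _ | (i | j)
  · simp at hu
  · rcases s with _ | i' <;> rcases t with _ | j'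
    · simp [eps] at h
    · simp [eps] at h
    · simp [eps] at h
      simp [h]
    · simp [eps] at h
      simp [h]
  · simp at hu

private theorem eps_right {s : Option ι₁} {t : Option ι₂} {u : Option (ι₁ ⊕ ι₂)}
    (h : eps s t u ≠ 0) (hu : u.bind Sum.getRight? ≠ none) : t = u.bind Sum.getRight? := by
  rcases u with _ | (i | j)
  · simp at hu
  · simp at hu
  · rcases s with _ | i' <;> rcases t with _ | j'
    · simp [eps] at h
    · simp [eps] at h
      simp [h]
    · simp [eps] at h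
    · simp [eps] at h
      simp [h]

/-- PROOF. For each prime the product of the local factors of `σ` (position `some i` of `ι₁` or nowhere) and `τ` is a combination of the local factors of the
positions of `ι₁ ⊕ ι₂`: if only one of them is somewhere, it is the factor of this position; if `σ p = some i`, `τ p = some j`, it is
`Ef (inl i) + Ef (inr j) - 1` (`Forms.disj`: not both are hit).  So with `ε p s t u ∈ {0, 1, -1}` the local coefficients,
`Phi σ * Phi τ = ∑_ρ (∏_p ε p (σ p) (τ p) (ρ p)) Phi ρ` (`Finset.prod_univ_sum`) and `v ρ = ∑_{σ,τ} v₁ σ v₂ τ ∏ ε`.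
Bound: if `∏ ε ≠ 0` then `lft ρ p ≠ none → σ p = lft ρ p` and `rgt ρ p ≠ none → τ p = rgt ρ p`, so `Coef.sub_many` bounds `a₁ σ a₂ τ` by
`a₁ (lft ρ) a₂ (rgt ρ)` times a product of local costs; the sum over `(σ, τ)` of the product of `|ε|` and the costs is the product over `p` of
(at `ρ p = none`: `1 + R₁ R₂ / (p-1)^2`; at `inl i`: `1 + R₂ / (p-1)`; at `inr j`: `1 + R₁ / (p-1)`), `= ∏ gam`. -/
theorem mul_sum {P : Finset ℕ} {A : ℕ → ι₁ ⊕ ι₂ → ℕ → Prop} (hF : Forms P A)
    {a₁ : (P → Option ι₁) → ℝ} {a₂ : (P → Option ι₂) → ℝ} {Y₁ Y₂ : ℕ} (h₁ : Coef P a₁ Y₁)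
    (h₂ : Coef P a₂ Y₂) (v₁ : (P → Option ι₁) → ℝ) (v₂ : (P → Option ι₂) → ℝ)
    (hv₁ : ∀ σ, |v₁ σ| ≤ a₁ σ) (hv₂ : ∀ σ, |v₂ σ| ≤ a₂ σ) :
    ∃ v : (P → Option (ι₁ ⊕ ι₂)) → ℝ,
      (∀ m, (∑ σ : P → Option ι₁, v₁ σ * Phi P (fun p i => A p (Sum.inl i)) σ m) *
        (∑ τ : P → Option ι₂, v₂ τ * Phi P (fun p i => A p (Sum.inr i)) τ m) =
        ∑ ρ : P → Option (ι₁ ⊕ ι₂), v ρ * Phi P A ρ m) ∧
      ∀ ρ, |v ρ| ≤ a₁ (lft ρ) * a₂ (rgt ρ) *
        ∏ p : P, gam (Fintype.card ι₁ : ℝ) (Fintype.card ι₂ : ℝ) (p : ℕ) (ρ p) := by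
  refine ⟨fun ρ => ∑ σ : P → Option ι₁, ∑ τ : P → Option ι₂,
    v₁ σ * v₂ τ * ∏ p : P, eps (σ p) (τ p) (ρ p), fun m => ?_, fun ρ => ?_⟩
  · have hPhi : ∀ (σ : P → Option ι₁) (τ : P → Option ι₂),
        Phi P (fun p i => A p (Sum.inl i)) σ m * Phi P (fun p i => A p (Sum.inr i)) τ m =
        ∑ ρ : P → Option (ι₁ ⊕ ι₂), (∏ p : P, eps (σ p) (τ p) (ρ p)) * Phi P A ρ m := by
      intro σ τ
      unfold Phi
      rw [← Finset.prod_mul_distrib, Finset.prod_congr rfl fun p _ => eps_local hF p.2 (σ p) (τ p) m,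
        prodsum]
      exact Finset.sum_congr rfl fun ρ _ => Finset.prod_mul_distrib
    rw [Finset.sum_mul_sum]
    calc ∑ σ : P → Option ι₁, ∑ τ : P → Option ι₂,
          v₁ σ * Phi P (fun p i => A p (Sum.inl i)) σ m *
            (v₂ τ * Phi P (fun p i => A p (Sum.inr i)) τ m)
        = ∑ σ : P → Option ι₁, ∑ τ : P → Option ι₂, ∑ ρ : P → Option (ι₁ ⊕ ι₂),
          v₁ σ * v₂ τ * (∏ p : P, eps (σ p) (τ p) (ρ p)) * Phi P A ρ m := by
          refine Finset.sum_congr rfl fun σ _ => Finset.sum_congr rfl fun τ _ => ?_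
          rw [mul_mul_mul_comm, hPhi, Finset.mul_sum]
          exact Finset.sum_congr rfl fun ρ _ => (mul_assoc _ _ _).symm
      _ = ∑ σ : P → Option ι₁, ∑ ρ : P → Option (ι₁ ⊕ ι₂), ∑ τ : P → Option ι₂,
          v₁ σ * v₂ τ * (∏ p : P, eps (σ p) (τ p) (ρ p)) * Phi P A ρ m :=
          Finset.sum_congr rfl fun σ _ => Finset.sum_comm
      _ = ∑ ρ : P → Option (ι₁ ⊕ ι₂), ∑ σ : P → Option ι₁, ∑ τ : P → Option ι₂,
          v₁ σ * v₂ τ * (∏ p : P, eps (σ p) (τ p) (ρ p)) * Phi P A ρ m := Finset.sum_comm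
      _ = _ := by
          refine Finset.sum_congr rfl fun ρ _ => ?_
          rw [Finset.sum_mul]
          refine Finset.sum_congr rfl fun σ _ => ?_
          rw [Finset.sum_mul]
  · have hP : ∀ p : P, (p : ℕ).Prime := fun p => h₁.prime p p.2
    have ht : ∀ (σ : P → Option ι₁) (τ : P → Option ι₂),
        |v₁ σ * v₂ τ * ∏ p : P, eps (σ p) (τ p) (ρ p)| ≤ a₁ (lft ρ) * a₂ (rgt ρ) *
          ∏ p : P, (|eps (σ p) (τ p) (ρ p)| * (cst (p : ℕ) ((ρ p).bind Sum.getLeft?) (σ p) *
            cst (p : ℕ) ((ρ p).bind Sum.getRight?) (τ p))) := by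
      intro σ τ
      by_cases h0 : ∏ p : P, eps (σ p) (τ p) (ρ p) = 0
      · rw [h0, mul_zero, abs_zero]
        refine mul_nonneg (mul_nonneg (h₁.nonneg _) (h₂.nonneg _)) (Finset.prod_nonneg fun p _ => ?_)
        exact mul_nonneg (abs_nonneg _) (mul_nonneg (cst_nonneg (hP p) _ _) (cst_nonneg (hP p) _ _))
      · have h0' : ∀ p : P, eps (σ p) (τ p) (ρ p) ≠ 0 := fun p hp =>
          h0 (Finset.prod_eq_zero (Finset.mem_univ p) hp)
        have b₁ : a₁ σ ≤ a₁ (lft ρ) * ∏ p : P, cst (p : ℕ) ((ρ p).bind Sum.getLeft?) (σ p) :=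
          h₁.sub_many (lft ρ) σ fun p hp => eps_left (h0' p) hp
        have b₂ : a₂ τ ≤ a₂ (rgt ρ) * ∏ p : P, cst (p : ℕ) ((ρ p).bind Sum.getRight?) (τ p) :=
          h₂.sub_many (rgt ρ) τ fun p hp => eps_right (h0' p) hp
        rw [abs_mul, abs_mul, Finset.abs_prod, Finset.prod_mul_distrib, Finset.prod_mul_distrib]
        have c₁ : |v₁ σ| * |v₂ τ| ≤
            (a₁ (lft ρ) * ∏ p : P, cst (p : ℕ) ((ρ p).bind Sum.getLeft?) (σ p)) *
            (a₂ (rgt ρ) * ∏ p : P, cst (p : ℕ) ((ρ p).bind Sum.getRight?) (τ p)) :=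
          mul_le_mul ((hv₁ σ).trans b₁) ((hv₂ τ).trans b₂) (abs_nonneg _)
            (mul_nonneg (h₁.nonneg _) (Finset.prod_nonneg fun p _ => cst_nonneg (hP p) _ _))
        calc |v₁ σ| * |v₂ τ| * ∏ p : P, |eps (σ p) (τ p) (ρ p)| ≤
            ((a₁ (lft ρ) * ∏ p : P, cst (p : ℕ) ((ρ p).bind Sum.getLeft?) (σ p)) *
            (a₂ (rgt ρ) * ∏ p : P, cst (p : ℕ) ((ρ p).bind Sum.getRight?) (τ p))) *
              ∏ p : P, |eps (σ p) (τ p) (ρ p)| :=
              mul_le_mul_of_nonneg_right c₁ (Finset.prod_nonneg fun p _ => abs_nonneg _)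
          _ = _ := by ring
    refine (Finset.abs_sum_le_sum_abs _ _).trans ?_
    refine (Finset.sum_le_sum fun σ _ => (Finset.abs_sum_le_sum_abs _ _).trans
      (Finset.sum_le_sum fun τ _ => ht σ τ)).trans (le_of_eq ?_)
    rw [Finset.prod_congr rfl fun (p : P) _ => (loc_sum (p : ℕ) (ρ p)).symm, prodsum,
      Finset.mul_sum]
    refine Finset.sum_congr rfl fun σ _ => ?_
    rw [prodsum, Finset.mul_sum]

private theorem opt_cases {M : Type*} [MulOneClass M] (x : M) (u : Option (ι₁ ⊕ ι₂)) :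
    (if u = none then 1 else x) = (if u.bind Sum.getLeft? = none then 1 else x) *
      (if u.bind Sum.getRight? = none then 1 else x) := by
  rcases u with _ | (i | j) <;> simp

private theorem DD_sum {P : Finset ℕ} (ρ : P → Option (ι₁ ⊕ ι₂)) :
    DD P ρ = DD P (lft ρ) * DD P (rgt ρ) := by
  unfold DD
  rw [← Finset.prod_mul_distrib]
  exact Finset.prod_congr rfl fun p _ => opt_cases _ _

private theorem ph_sum {P : Finset ℕ} (ρ : P → Option (ι₁ ⊕ ι₂)) :
    ph P ρ = ph P (lft ρ) * ph P (rgt ρ) := by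
  unfold ph
  rw [← Finset.prod_mul_distrib]
  exact Finset.prod_congr rfl fun p _ => opt_cases _ _

private theorem ph_nonneg' {ι : Type*} [DecidableEq ι] {P : Finset ℕ} (hP : ∀ p ∈ P, p.Prime)
    (σ : P → Option ι) : 0 ≤ ph P σ := by
  unfold ph
  refine Finset.prod_nonneg fun p _ => ?_
  have h2 : (1 : ℝ) < ((p : ℕ) : ℝ) := by exact_mod_cast (hP p p.2).one_lt
  split_ifs
  · exact zero_le_one
  · linarith

private theorem pair_inj {P : Finset ℕ} :
    Function.Injective fun ρ : P → Option (ι₁ ⊕ ι₂) => (lft ρ, rgt ρ) := by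
  intro ρ ρ' h
  rw [Prod.mk.injEq] at h
  funext p
  have h1 : (ρ p).bind Sum.getLeft? = (ρ' p).bind Sum.getLeft? := congrFun h.1 p
  have h2 : (ρ p).bind Sum.getRight? = (ρ' p).bind Sum.getRight? := congrFun h.2 p
  rcases hρ : ρ p with _ | (i | j) <;> rcases hρ' : ρ' p with _ | (i' | j') <;>
    rw [hρ, hρ'] at h1 h2 <;> simp_all

private theorem pair_sum_le {P : Finset ℕ} (G : (P → Option ι₁) → (P → Option ι₂) → ℝ)
    (hG : ∀ σ τ, 0 ≤ G σ τ) :
    ∑ ρ : P → Option (ι₁ ⊕ ι₂), G (lft ρ) (rgt ρ) ≤ ∑ σ, ∑ τ, G σ τ := by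
  classical
  rw [← Finset.sum_product', Finset.univ_product_univ]
  have h1 : ∑ ρ : P → Option (ι₁ ⊕ ι₂), G (lft ρ) (rgt ρ) =
      ∑ x ∈ Finset.univ.image (fun ρ : P → Option (ι₁ ⊕ ι₂) => (lft ρ, rgt ρ)), G x.1 x.2 := by
    rw [Finset.sum_image fun x _ y _ h => pair_inj h]
  rw [h1]
  exact Finset.sum_le_sum_of_subset_of_nonneg (Finset.subset_univ _) fun x _ _ => hG _ _

/-- PROOF. Level: `DD ρ = DD (lft ρ) * DD (rgt ρ)`; `sub`: a new prime changes only one of the two components. -/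
theorem Coef.sum {P : Finset ℕ} {a₁ : (P → Option ι₁) → ℝ} {a₂ : (P → Option ι₂) → ℝ} {Y₁ Y₂ : ℕ}
    (h₁ : Coef P a₁ Y₁) (h₂ : Coef P a₂ Y₂) :
    Coef P (fun ρ : P → Option (ι₁ ⊕ ι₂) => a₁ (lft ρ) * a₂ (rgt ρ)) (Y₁ * Y₂) := by
  refine ⟨h₁.prime, fun ρ => mul_nonneg (h₁.nonneg _) (h₂.nonneg _), fun ρ p u hp => ?_,
    fun ρ hρ => ?_⟩
  · have hl : lft ρ p = none := by simp [lft, hp]
    have hr : rgt ρ p = none := by simp [rgt, hp]
    rcases u with i | j
    · have e1 : lft (Function.update ρ p (some (Sum.inl i))) =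
          Function.update (lft ρ) p (some i) := by
        funext q
        by_cases hq : q = p
        · subst hq
          simp [lft]
        · simp [lft, Function.update_of_ne hq]
      have e2 : rgt (Function.update ρ p (some (Sum.inl i))) = rgt ρ := by
        funext q
        by_cases hq : q = p
        · subst hq
          rw [hr]
          simp [rgt]
        · simp [rgt, Function.update_of_ne hq]
      simp only [e1, e2]
      refine (mul_le_mul_of_nonneg_right (h₁.sub (lft ρ) p i hl) (h₂.nonneg _)).trans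
        (le_of_eq ?_)
      ring
    · have e1 : rgt (Function.update ρ p (some (Sum.inr j))) =
          Function.update (rgt ρ) p (some j) := by
        funext q
        by_cases hq : q = p
        · subst hq
          simp [rgt]
        · simp [rgt, Function.update_of_ne hq]
      have e2 : lft (Function.update ρ p (some (Sum.inr j))) = lft ρ := by
        funext q
        by_cases hq : q = p
        · subst hq
          rw [hl]
          simp [lft]
        · simp [lft, Function.update_of_ne hq]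
      simp only [e1, e2]
      refine (mul_le_mul_of_nonneg_left (h₂.sub (rgt ρ) p j hr) (h₁.nonneg _)).trans
        (le_of_eq ?_)
      ring
  · rw [DD_sum]
    exact Nat.mul_le_mul (h₁.level _ (left_ne_zero_of_mul hρ)) (h₂.level _ (right_ne_zero_of_mul hρ))

/-- PROOF. `ph ρ = ph (lft ρ) * ph (rgt ρ)` and `ρ ↦ (lft ρ, rgt ρ)` is injective. -/
theorem mass_sum_le {P : Finset ℕ} (hP : ∀ p ∈ P, p.Prime) (a₁ : (P → Option ι₁) → ℝ)
    (a₂ : (P → Option ι₂) → ℝ) :
    mass P (fun ρ : P → Option (ι₁ ⊕ ι₂) => a₁ (lft ρ) * a₂ (rgt ρ)) ≤ mass P a₁ * mass P a₂ := by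
  unfold mass
  rw [Finset.sum_mul_sum]
  refine le_trans (le_of_eq ?_) (pair_sum_le (fun σ τ => a₁ σ ^ 2 * ph P σ * (a₂ τ ^ 2 * ph P τ))
    fun σ τ => mul_nonneg (mul_nonneg (sq_nonneg _) (ph_nonneg' hP σ))
      (mul_nonneg (sq_nonneg _) (ph_nonneg' hP τ)))
  refine Finset.sum_congr rfl fun ρ _ => ?_
  rw [ph_sum]
  ring

/-- PROOF. `ρ ↦ (lft ρ, rgt ρ)` is injective. -/
theorem tot_sum_le {P : Finset ℕ} (a₁ : (P → Option ι₁) → ℝ)
    (a₂ : (P → Option ι₂) → ℝ) (h₁ : ∀ σ, 0 ≤ a₁ σ) (h₂ : ∀ σ, 0 ≤ a₂ σ) :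
    tot P (fun ρ : P → Option (ι₁ ⊕ ι₂) => a₁ (lft ρ) * a₂ (rgt ρ)) ≤ tot P a₁ * tot P a₂ := by
  unfold tot
  rw [Finset.sum_mul_sum]
  exact pair_sum_le (fun σ τ => a₁ σ * a₂ τ) fun σ τ => mul_nonneg (h₁ σ) (h₂ τ)

end Pool.Agent.H.MP_711652_nt.CH
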