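import Pool.Agent.H.MP_711652_nt.CH.LsDefs

/-! # MP_711652, CH: incomplete sums of a character on a class modulo `W` -/

set_option autoImplicit false

namespace Pool.Agent.H.MP_711652_nt.CH

open Finset

theorem TypeI_card (Y W b r : ℕ) (hW : 0 < W) :
    ((Ioc Y (Y + W * r)).filter (fun x => x ≡ b [MOD W])).card = r := by
  have h1 := Nat.Ioc_filter_modEq_card Y (Y + W * r) hW b
  have hW' : (W : ℚ) ≠ 0 := by exact_mod_cast hW.ne'
  have h2 : (((Y + W * r : ℕ) : ℚ) - b) / W = ((Y : ℚ) - b) / W + (r : ℤ) := by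
    push_cast
    field_simp
    ring
  rw [h2, Int.floor_add_intCast] at h1
  have h3 : (0 : ℤ) ≤ r := by positivity
  rw [add_sub_cancel_left, max_eq_left h3] at h1
  exact_mod_cast h1

theorem TypeI_inj {Y W b r : ℕ} (hWr : Nat.Coprime W r) {x y : ℕ}
    (hx : x ∈ (Ioc Y (Y + W * r)).filter (fun x => x ≡ b [MOD W]))
    (hy : y ∈ (Ioc Y (Y + W * r)).filter (fun x => x ≡ b [MOD W]))
    (h : (x : ZMod r) = (y : ZMod r)) : x = y := by
  rw [mem_filter, mem_Ioc] at hx hy
  have h1 : x ≡ y [MOD W] := hx.2.trans hy.2.symm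
  have h2 : x ≡ y [MOD r] := (ZMod.natCast_eq_natCast_iff x y r).1 h
  have h3 : x ≡ y [MOD W * r] := (Nat.modEq_and_modEq_iff_modEq_mul hWr).1 ⟨h1, h2⟩
  by_contra hne
  rcases lt_or_gt_of_ne hne with hlt | hlt
  · have h4 := (Nat.modEq_iff_dvd' hlt.le).1 h3
    have h5 := Nat.le_of_dvd (by omega) h4
    omega
  · have h4 := (Nat.modEq_iff_dvd' hlt.le).1 h3.symm
    have h5 := Nat.le_of_dvd (by omega) h4
    omega

theorem TypeI_zero {r : ℕ} (hr : 0 < r) (χ : DirichletCharacter ℂ r) (hχ : χ ≠ 1) (W b Y : ℕ)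
    (hW : 0 < W) (hWr : Nat.Coprime W r) :
    ∑ l ∈ (Ioc Y (Y + W * r)).filter (fun x => x ≡ b [MOD W]), χ (l : ZMod r) = 0 := by
  classical
  haveI : NeZero r := ⟨hr.ne'⟩
  set S := (Ioc Y (Y + W * r)).filter (fun x => x ≡ b [MOD W]) with hS
  have h1 : Set.InjOn (fun l : ℕ => (l : ZMod r)) S := fun x hx y hy h =>
    TypeI_inj hWr (mem_coe.1 hx) (mem_coe.1 hy) h
  have h2 : S.image (fun l : ℕ => (l : ZMod r)) = univ := by
    refine eq_univ_of_card _ ?_
    rw [card_image_of_injOn h1, hS, TypeI_card Y W b r hW, ZMod.card]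
  rw [← MulChar.sum_eq_zero_of_ne_one hχ, ← h2, sum_image h1]

/-- PROOF. The elements of `cl Y W b` are `b' + W l`, `l < n`; the sum over any `r` consecutive `l` vanishes, because `l ↦ b' + W l` runs over `ZMod r`
(`W` is a unit mod `r`) and `∑_x χ x = 0`; the rest has at most `r` terms of norm at most 1. -/
theorem inc_sum {r : ℕ} (hr : 0 < r) (χ : DirichletCharacter ℂ r) (hχ : χ ≠ 1) (W b Y : ℕ) (hW : 0 < W)
    (hWr : Nat.Coprime W r) : ‖∑ l ∈ cl Y W b, χ (l : ZMod r)‖ ≤ r := by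
  induction Y using Nat.strong_induction_on with
  | _ Y ih =>
    rcases lt_or_ge Y (W * r) with h | h
    · refine (norm_sum_le _ _).trans ?_
      have h1 : ∑ l ∈ cl Y W b, ‖χ (l : ZMod r)‖ ≤ ∑ l ∈ cl Y W b, (1 : ℝ) :=
        sum_le_sum fun l _ => χ.norm_le_one _
      refine h1.trans ?_
      rw [sum_const, nsmul_eq_mul, mul_one]
      have h2 : cl Y W b ⊆ (Ioc 0 (0 + W * r)).filter (fun x => x ≡ b [MOD W]) := by
        intro x hx
        unfold cl at hx
        rw [mem_filter, mem_Ioc] at hx ⊢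
        exact ⟨⟨hx.1.1, by omega⟩, hx.2⟩
      have h3 := card_le_card h2
      rw [TypeI_card 0 W b r hW] at h3
      exact_mod_cast h3
    · obtain ⟨Y', rfl⟩ := Nat.exists_eq_add_of_le' h
      have hWr0 : 0 < W * r := Nat.mul_pos hW hr
      have h1 : cl (Y' + W * r) W b =
          cl Y' W b ∪ (Ioc Y' (Y' + W * r)).filter (fun x => x ≡ b [MOD W]) := by
        unfold cl
        rw [← filter_union, Ioc_union_Ioc_eq_Ioc (Nat.zero_le _) (Nat.le_add_right _ _)]
      have h2 : Disjoint (cl Y' W b)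
          ((Ioc Y' (Y' + W * r)).filter (fun x => x ≡ b [MOD W])) := by
        rw [disjoint_left]
        intro x hx hx'
        unfold cl at hx
        rw [mem_filter, mem_Ioc] at hx hx'
        omega
      rw [h1, sum_union h2, TypeI_zero hr χ hχ W b Y' hW hWr, add_zero]
      exact ih Y' (by omega)

/-- PROOF. Abel summation and `inc_sum`: `∑_{l ≤ Y} c_l log l = S(Y) log Y - ∑_{l < Y} S(l) (log (l + 1) - log l)`. -/
theorem inc_sum_log {r : ℕ} (hr : 0 < r) (χ : DirichletCharacter ℂ r) (hχ : χ ≠ 1) (W b Y : ℕ)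
    (hW : 0 < W) (hWr : Nat.Coprime W r) :
    ‖∑ l ∈ cl Y W b, χ (l : ZMod r) * (Real.log l : ℂ)‖ ≤ 2 * r * Real.log Y := by
  have key : ∀ Y : ℕ, ‖∑ l ∈ cl Y W b, χ (l : ZMod r) * (Real.log l : ℂ) -
      (∑ l ∈ cl Y W b, χ (l : ZMod r)) * (Real.log Y : ℂ)‖ ≤ r * Real.log Y := by
    intro Y
    induction Y with
    | zero => simp [cl]
    | succ Y ih =>
      have hs := inc_sum hr χ hχ W b Y hW hWr
      have hlog : Real.log Y ≤ Real.log ((Y + 1 : ℕ) : ℝ) := by
        rcases Nat.eq_zero_or_pos Y with h0 | h0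
        · rw [h0]
          simp
        · refine Real.log_le_log (by exact_mod_cast h0) ?_
          push_cast
          linarith
      have h1 : ∀ f : ℕ → ℂ, ∑ l ∈ cl (Y + 1) W b, f l =
          ∑ l ∈ cl Y W b, f l + if Y + 1 ≡ b [MOD W] then f (Y + 1) else 0 := by
        intro f
        have h2 : Ioc 0 (Y + 1) = insert (Y + 1) (Ioc 0 Y) := by
          ext x
          rw [mem_Ioc, mem_insert, mem_Ioc]
          omega
        unfold cl
        rw [h2, filter_insert]
        by_cases hb : Y + 1 ≡ b [MOD W]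
        · rw [if_pos hb, if_pos hb, sum_insert, add_comm]
          rw [mem_filter, mem_Ioc]
          omega
        · rw [if_neg hb, if_neg hb, add_zero]
      have h2 : ∑ l ∈ cl (Y + 1) W b, χ (l : ZMod r) * (Real.log l : ℂ) -
          (∑ l ∈ cl (Y + 1) W b, χ (l : ZMod r)) * (Real.log ((Y + 1 : ℕ) : ℝ) : ℂ) =
          (∑ l ∈ cl Y W b, χ (l : ZMod r) * (Real.log l : ℂ) -
          (∑ l ∈ cl Y W b, χ (l : ZMod r)) * (Real.log Y : ℂ)) +
          (∑ l ∈ cl Y W b, χ (l : ZMod r)) *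
            ((Real.log Y - Real.log ((Y + 1 : ℕ) : ℝ) : ℝ) : ℂ) := by
        rw [h1 (fun l => χ (l : ZMod r) * (Real.log l : ℂ)), h1 (fun l => χ (l : ZMod r))]
        by_cases hb : Y + 1 ≡ b [MOD W]
        · rw [if_pos hb, if_pos hb, Complex.ofReal_sub]
          ring
        · rw [if_neg hb, if_neg hb, Complex.ofReal_sub]
          ring
      rw [h2]
      refine (norm_add_le _ _).trans ?_
      rw [norm_mul, Complex.norm_real, Real.norm_eq_abs, abs_sub_comm,
        abs_of_nonneg (sub_nonneg.2 hlog)]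
      have h3 := mul_le_mul_of_nonneg_right hs (sub_nonneg.2 hlog)
      linarith
  have h1 := key Y
  have h2 := inc_sum hr χ hχ W b Y hW hWr
  have h3 : 0 ≤ Real.log Y := Real.log_natCast_nonneg Y
  have h4 : ‖(∑ l ∈ cl Y W b, χ (l : ZMod r)) * (Real.log Y : ℂ)‖ ≤ r * Real.log Y := by
    rw [norm_mul, Complex.norm_real, Real.norm_eq_abs, abs_of_nonneg h3]
    exact mul_le_mul_of_nonneg_right h2 h3
  have h5 := norm_add_le (∑ l ∈ cl Y W b, χ (l : ZMod r) * (Real.log l : ℂ) -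
      (∑ l ∈ cl Y W b, χ (l : ZMod r)) * (Real.log Y : ℂ))
      ((∑ l ∈ cl Y W b, χ (l : ZMod r)) * (Real.log Y : ℂ))
  rw [sub_add_cancel] at h5
  linarith

end Pool.Agent.H.MP_711652_nt.CH
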