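import Pool.Agent.H.MP_711652_nt.CH.LsDefs

/-! # MP_711652, CH: Vaughan's identity -/

set_option autoImplicit false

namespace Pool.Agent.H.MP_711652_nt.CH

open Finset ArithmeticFunction

/-- the arithmetic function `[n ≤ U] f n` -/
private noncomputable def vauLe (U : ℕ) (f : ArithmeticFunction ℝ) : ArithmeticFunction ℝ :=
  ⟨fun n => if n ≤ U then f n else 0, by simp⟩

/-- the arithmetic function `[n > U] f n` -/
private noncomputable def vauGt (U : ℕ) (f : ArithmeticFunction ℝ) : ArithmeticFunction ℝ :=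
  ⟨fun n => if U < n then f n else 0, by simp⟩

private theorem vauLe_apply (U : ℕ) (f : ArithmeticFunction ℝ) (n : ℕ) :
    vauLe U f n = if n ≤ U then f n else 0 := rfl

private theorem vauGt_apply (U : ℕ) (f : ArithmeticFunction ℝ) (n : ℕ) :
    vauGt U f n = if U < n then f n else 0 := rfl

private theorem vau_add (U : ℕ) (f : ArithmeticFunction ℝ) : vauLe U f + vauGt U f = f := by
  ext n
  rw [ArithmeticFunction.add_apply, vauLe_apply, vauGt_apply]
  by_cases h : n ≤ U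
  · rw [if_pos h, if_neg (not_lt.2 h), add_zero]
  · rw [if_neg h, if_pos (not_le.1 h), zero_add]

private theorem vau_cU (U k : ℕ) :
    cU U k = (vauLe U ((moebius : ArithmeticFunction ℤ) : ArithmeticFunction ℝ) *
      vauLe U vonMangoldt) k := by
  rw [mul_apply]
  rfl

private theorem vau_betU (U l : ℕ) :
    betU U l = (vauGt U ((moebius : ArithmeticFunction ℤ) : ArithmeticFunction ℝ) *
      ((zeta : ArithmeticFunction ℕ) : ArithmeticFunction ℝ)) l := by
  rw [coe_mul_zeta_apply]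
  unfold betU
  rw [Finset.sum_filter]
  rfl

theorem vaughan (U n : ℕ) : vonMangoldt n =
    (if n ≤ U then vonMangoldt n else 0) +
    ∑ x ∈ n.divisorsAntidiagonal, (if x.1 ≤ U then (moebius x.1 : ℝ) else 0) * Real.log x.2 -
    ∑ x ∈ n.divisorsAntidiagonal, cU U x.1 +
    ∑ x ∈ n.divisorsAntidiagonal, (if U < x.1 then vonMangoldt x.1 else 0) * betU U x.2 := by
  set M : ArithmeticFunction ℝ := ((moebius : ArithmeticFunction ℤ) : ArithmeticFunction ℝ) with hM
  set Z : ArithmeticFunction ℝ := ((zeta : ArithmeticFunction ℕ) : ArithmeticFunction ℝ) with hZ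
  have h1 : ∑ x ∈ n.divisorsAntidiagonal, (if x.1 ≤ U then (moebius x.1 : ℝ) else 0) *
      Real.log x.2 = (vauLe U M * log) n := by
    rw [mul_apply]
    rfl
  have h2 : ∑ x ∈ n.divisorsAntidiagonal, cU U x.1 = (vauLe U M * vauLe U vonMangoldt * Z) n := by
    rw [mul_apply]
    refine Finset.sum_congr rfl fun x hx => ?_
    have hx2 : x.2 ≠ 0 := by
      have := Nat.mem_divisorsAntidiagonal.1 hx
      rintro h
      rw [h, mul_zero] at this
      exact this.2 this.1.symm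
    rw [vau_cU, hZ, natCoe_apply, zeta_apply_ne hx2, Nat.cast_one, mul_one]
  have h3 : ∑ x ∈ n.divisorsAntidiagonal, (if U < x.1 then vonMangoldt x.1 else 0) *
      betU U x.2 = (vauGt U vonMangoldt * (vauGt U M * Z)) n := by
    rw [mul_apply]
    refine Finset.sum_congr rfl fun x _ => ?_
    rw [vau_betU]
    rfl
  have hMZ : M * Z = 1 := coe_moebius_mul_coe_zeta
  have hLZ : vonMangoldt * Z = log := vonMangoldt_mul_zeta
  have e1 : vauGt U M = M - vauLe U M := by
    rw [eq_sub_iff_add_eq', vau_add]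
  have e2 : vauLe U vonMangoldt = vonMangoldt - vauGt U vonMangoldt := by
    rw [eq_sub_iff_add_eq, vau_add]
  have key : vonMangoldt = vauLe U vonMangoldt + vauLe U M * log -
      vauLe U M * vauLe U vonMangoldt * Z + vauGt U vonMangoldt * (vauGt U M * Z) := by
    rw [e1, ← hLZ]
    have e3 : vauGt U vonMangoldt * ((M - vauLe U M) * Z) =
        vauGt U vonMangoldt - vauGt U vonMangoldt * vauLe U M * Z := by
      rw [sub_mul, hMZ]
      ring
    rw [e3, e2]
    ring
  rw [h1, h2, h3]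
  have h4 := congrArg (fun f : ArithmeticFunction ℝ => f n) key
  simp only [ArithmeticFunction.add_apply, sub_eq_add_neg, ArithmeticFunction.neg_apply] at h4
  rw [sub_eq_add_neg]
  exact h4

theorem cU_eq_zero {U k : ℕ} (h : U ^ 2 < k) : cU U k = 0 := by
  unfold cU
  refine Finset.sum_eq_zero fun y hy => ?_
  obtain ⟨hy1, -⟩ := Nat.mem_divisorsAntidiagonal.1 hy
  by_cases h1 : y.1 ≤ U
  · by_cases h2 : y.2 ≤ U
    · exfalso
      have := Nat.mul_le_mul h1 h2
      rw [hy1, ← sq] at this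
      omega
    · rw [if_neg h2, mul_zero]
  · rw [if_neg h1, zero_mul]

private theorem vau_moebius_le (n : ℕ) : |(moebius n : ℝ)| ≤ 1 := by
  have h := abs_moebius_le_one (n := n)
  exact_mod_cast h

/-- PROOF. `|μ| ≤ 1` and `∑_{d ∣ k} Λ d = log k`. -/
theorem abs_cU_le (U k : ℕ) : |cU U k| ≤ Real.log k := by
  unfold cU
  refine (Finset.abs_sum_le_sum_abs _ _).trans ?_
  rw [← vonMangoldt_sum, ← Nat.sum_divisorsAntidiagonal' (f := fun _ d => vonMangoldt d)]
  refine Finset.sum_le_sum fun y _ => ?_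
  rw [abs_mul]
  have h1 : |(if y.1 ≤ U then (moebius y.1 : ℝ) else 0)| ≤ 1 := by
    split_ifs
    · exact vau_moebius_le _
    · rw [abs_zero]; exact zero_le_one
  have h2 : |(if y.2 ≤ U then vonMangoldt y.2 else 0)| ≤ vonMangoldt y.2 := by
    split_ifs
    · rw [abs_of_nonneg vonMangoldt_nonneg]
    · rw [abs_zero]; exact vonMangoldt_nonneg
  calc _ ≤ 1 * vonMangoldt y.2 := mul_le_mul h1 h2 (abs_nonneg _) zero_le_one
    _ = _ := one_mul _

/-- PROOF. For `l ≤ U` there is no divisor `> U`. -/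
theorem betU_eq_zero {U l : ℕ} (h : l ≤ U) : betU U l = 0 := by
  unfold betU
  rw [Finset.filter_eq_empty_iff.2, Finset.sum_empty]
  intro d hd
  have := Nat.divisor_le hd
  omega

private theorem vau_betU_le (U l : ℕ) : |betU U l| ≤ (l.divisors.card : ℝ) := by
  unfold betU
  refine (Finset.abs_sum_le_sum_abs _ _).trans ?_
  refine (Finset.sum_le_sum fun d _ => vau_moebius_le d).trans ?_
  rw [Finset.sum_const, nsmul_eq_mul, mul_one]
  exact_mod_cast Finset.card_le_card (Finset.filter_subset _ _)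

/-- sums over the divisors of the numbers of a class -/
private theorem vau_swap {M : Type*} [AddCommMonoid M] (X : ℕ) (P : ℕ → Prop) [DecidablePred P]
    (G : ℕ → ℕ → M) :
    ∑ x ∈ (Ioc 0 X).filter P, ∑ y ∈ x.divisorsAntidiagonal, G y.1 y.2 =
      ∑ d ∈ Ioc 0 X, ∑ l ∈ (Ioc 0 (X / d)).filter (fun l => P (d * l)), G d l := by
  rw [Finset.sum_sigma', Finset.sum_sigma']
  refine Finset.sum_bij' (fun q _ => ⟨q.2.1, q.2.2⟩) (fun q _ => ⟨q.1 * q.2, (q.1, q.2)⟩) ?_ ?_ ?_ ?_ ?_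
  · rintro ⟨x, y⟩ h
    simp only [Finset.mem_sigma, Finset.mem_filter, Finset.mem_Ioc,
      Nat.mem_divisorsAntidiagonal] at h ⊢
    obtain ⟨⟨⟨h0, hX⟩, hP⟩, hy, -⟩ := h
    subst hy
    have h1 : 0 < y.1 := Nat.pos_of_mul_pos_right h0
    have h2 : 0 < y.2 := Nat.pos_of_mul_pos_left h0
    refine ⟨⟨h1, le_trans (Nat.le_mul_of_pos_right _ h2) hX⟩, ⟨h2, ?_⟩, hP⟩
    rw [Nat.le_div_iff_mul_le h1, mul_comm]
    exact hX
  · rintro ⟨d, l⟩ h
    simp only [Finset.mem_sigma, Finset.mem_filter, Finset.mem_Ioc,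
      Nat.mem_divisorsAntidiagonal] at h ⊢
    obtain ⟨⟨h1, -⟩, ⟨h2, h3⟩, hP⟩ := h
    rw [Nat.le_div_iff_mul_le h1, mul_comm] at h3
    exact ⟨⟨⟨Nat.mul_pos h1 h2, h3⟩, hP⟩, trivial, (Nat.mul_pos h1 h2).ne'⟩
  · rintro ⟨x, y⟩ h
    simp only [Finset.mem_sigma, Nat.mem_divisorsAntidiagonal] at h
    obtain ⟨-, hy, -⟩ := h
    subst hy
    rfl
  · rintro ⟨d, l⟩ _
    rfl
  · rintro ⟨x, y⟩ _
    rfl

private theorem vau_card (l : ℕ) (c : ℝ) :
    ∑ _y ∈ l.divisorsAntidiagonal, c = (l.divisors.card : ℝ) * c := by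
  rw [Nat.sum_divisorsAntidiagonal (fun _ _ => c), Finset.sum_const, nsmul_eq_mul]

/-- the harmonic sum -/
private theorem vau_harm {Y : ℕ} (n : ℕ) (hn : n ≤ Y) (hY : 1 ≤ Y) :
    ∑ a ∈ Ioc 0 n, (1 : ℝ) / a ≤ 1 + Real.log Y := by
  have hlog : 0 ≤ Real.log Y := Real.log_nonneg (by exact_mod_cast hY)
  rcases Nat.eq_zero_or_pos n with h0 | h0
  · subst h0
    simp only [Finset.Ioc_self, Finset.sum_empty]
    linarith
  have h1 := harmonic_le_one_add_log n
  rw [harmonic_eq_sum_Icc] at h1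
  push_cast at h1
  have h2 : Ioc 0 n = Icc 1 n := by
    ext x; simp only [Finset.mem_Ioc, Finset.mem_Icc]; omega
  rw [h2]
  simp only [one_div]
  refine h1.trans ?_
  have h3 : Real.log n ≤ Real.log Y := Real.log_le_log (by exact_mod_cast h0) (by exact_mod_cast hn)
  linarith

/-- the sum of the numbers of divisors -/
private theorem vau_div {Y : ℕ} (n : ℕ) (hn : n ≤ Y) (hY : 1 ≤ Y) :
    ∑ l ∈ Ioc 0 n, (l.divisors.card : ℝ) ≤ n * (1 + Real.log Y) := by
  have h1 : ∑ l ∈ Ioc 0 n, (l.divisors.card : ℝ) =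
      ∑ l ∈ (Ioc 0 n).filter (fun _ => True), ∑ y ∈ l.divisorsAntidiagonal, (1 : ℝ) := by
    rw [Finset.filter_true]
    refine Finset.sum_congr rfl fun l _ => ?_
    rw [vau_card, mul_one]
  rw [h1, vau_swap n (fun _ => True) (fun _ _ => (1 : ℝ))]
  have h2 : ∀ d ∈ Ioc 0 n, ∑ l ∈ (Ioc 0 (n / d)).filter (fun _ => True), (1 : ℝ) ≤
      n * (1 / (d : ℝ)) := by
    intro d _
    rw [Finset.filter_true, Finset.sum_const, Nat.card_Ioc, Nat.sub_zero, nsmul_eq_mul, mul_one,
      mul_one_div]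
    exact Nat.cast_div_le
  refine (Finset.sum_le_sum h2).trans ?_
  rw [← Finset.mul_sum]
  exact mul_le_mul_of_nonneg_left (vau_harm n hn hY) (Nat.cast_nonneg _)

/-- PROOF. `|betU U l| ≤ d(l)`, `d(a b) ≤ d(a) d(b)`. -/
theorem bet_sq (U Y : ℕ) (hY : 1 ≤ Y) :
    ∑ l ∈ Ioc 0 Y, betU U l ^ 2 ≤ Y * (1 + Real.log Y) ^ 3 := by
  have hlog : 0 ≤ Real.log Y := Real.log_nonneg (by exact_mod_cast hY)
  have h0 : ∀ l ∈ Ioc 0 Y, betU U l ^ 2 ≤ ∑ y ∈ l.divisorsAntidiagonal,
      (y.1.divisors.card : ℝ) * (y.2.divisors.card : ℝ) := by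
    intro l _
    have h1 : betU U l ^ 2 ≤ (l.divisors.card : ℝ) ^ 2 := by
      rw [← sq_abs]
      exact pow_le_pow_left₀ (abs_nonneg _) (vau_betU_le U l) 2
    refine h1.trans ?_
    have h2 : (l.divisors.card : ℝ) ^ 2 = ∑ y ∈ l.divisorsAntidiagonal, (l.divisors.card : ℝ) := by
      rw [vau_card, sq]
    rw [h2]
    refine Finset.sum_le_sum fun y hy => ?_
    obtain ⟨hy1, -⟩ := Nat.mem_divisorsAntidiagonal.1 hy
    rw [← hy1, Nat.divisors_mul]
    exact_mod_cast Finset.card_mul_le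
  refine (Finset.sum_le_sum h0).trans ?_
  have h3 : ∑ l ∈ Ioc 0 Y, ∑ y ∈ l.divisorsAntidiagonal,
      (y.1.divisors.card : ℝ) * (y.2.divisors.card : ℝ) =
      ∑ d ∈ Ioc 0 Y, ∑ l ∈ Ioc 0 (Y / d), (d.divisors.card : ℝ) * (l.divisors.card : ℝ) := by
    have h4 := vau_swap Y (fun _ => True)
      (fun a b => (a.divisors.card : ℝ) * (b.divisors.card : ℝ))
    simp only [Finset.filter_true] at h4
    exact h4
  rw [h3]
  have h5 : ∀ d ∈ Ioc 0 Y, ∑ l ∈ Ioc 0 (Y / d), (d.divisors.card : ℝ) * (l.divisors.card : ℝ) ≤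
      (Y * (1 + Real.log Y)) * ((d.divisors.card : ℝ) / d) := by
    intro d _
    rw [← Finset.mul_sum]
    have h6 := vau_div (Y / d) (Nat.div_le_self Y d) hY
    have h7 : ((Y / d : ℕ) : ℝ) ≤ Y / d := Nat.cast_div_le
    calc (d.divisors.card : ℝ) * ∑ l ∈ Ioc 0 (Y / d), (l.divisors.card : ℝ)
        ≤ d.divisors.card * ((Y / d : ℝ) * (1 + Real.log Y)) := by
          refine mul_le_mul_of_nonneg_left (h6.trans ?_) (Nat.cast_nonneg _)
          exact mul_le_mul_of_nonneg_right h7 (by linarith)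
      _ = _ := by ring
  refine (Finset.sum_le_sum h5).trans ?_
  rw [← Finset.mul_sum]
  -- `∑ d(a) / a`
  have h8 : ∑ d ∈ Ioc 0 Y, ((d.divisors.card : ℝ) / d) =
      ∑ d ∈ Ioc 0 Y, ∑ l ∈ Ioc 0 (Y / d), 1 / (d : ℝ) * (1 / (l : ℝ)) := by
    have h4 := vau_swap Y (fun _ => True) (fun a b => 1 / (a : ℝ) * (1 / (b : ℝ)))
    simp only [Finset.filter_true] at h4
    rw [← h4]
    refine Finset.sum_congr rfl fun d _ => ?_
    have h9 : ∀ y ∈ d.divisorsAntidiagonal, 1 / (y.1 : ℝ) * (1 / (y.2 : ℝ)) = 1 / (d : ℝ) := by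
      intro y hy
      obtain ⟨hy1, -⟩ := Nat.mem_divisorsAntidiagonal.1 hy
      rw [← hy1, Nat.cast_mul, one_div_mul_one_div]
    rw [Finset.sum_congr rfl h9, vau_card, mul_one_div]
  have h10 : ∀ d ∈ Ioc 0 Y, ∑ l ∈ Ioc 0 (Y / d), 1 / (d : ℝ) * (1 / (l : ℝ)) ≤
      (1 + Real.log Y) * (1 / (d : ℝ)) := by
    intro d _
    rw [← Finset.mul_sum, mul_comm]
    exact mul_le_mul_of_nonneg_right (vau_harm _ (Nat.div_le_self Y d) hY) (by positivity)
  have h11 : ∑ d ∈ Ioc 0 Y, ((d.divisors.card : ℝ) / d) ≤ (1 + Real.log Y) ^ 2 := by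
    rw [h8]
    refine (Finset.sum_le_sum h10).trans ?_
    rw [← Finset.mul_sum, sq]
    exact mul_le_mul_of_nonneg_left (vau_harm Y le_rfl hY) (by linarith)
  calc (Y * (1 + Real.log Y)) * ∑ d ∈ Ioc 0 Y, ((d.divisors.card : ℝ) / d)
      ≤ (Y * (1 + Real.log Y)) * (1 + Real.log Y) ^ 2 :=
        mul_le_mul_of_nonneg_left h11 (by positivity)
    _ = _ := by ring

/-- The sum over a class of a function of Vaughan type times a character (`f` completely multiplicative).
PROOF. Multiply `vaughan` by `f x`, sum over `x ∈ cl X W b`, write the sums over the divisors as sums over `(m, l)` with `m l ≤ X` and `m l ≡ b`. -/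
theorem vau_sum (U X W b : ℕ) (f : ℕ → ℂ) (hf : ∀ m n, f (m * n) = f m * f n) :
    ∑ x ∈ cl X W b, (vonMangoldt x : ℂ) * f x =
      ∑ x ∈ (cl X W b).filter (fun x => x ≤ U), (vonMangoldt x : ℂ) * f x +
      ∑ d ∈ Ioc 0 (min U X), (moebius d : ℂ) * f d *
        ∑ l ∈ (Ioc 0 (X / d)).filter (fun l => d * l ≡ b [MOD W]), f l * (Real.log l : ℂ) -
      ∑ k ∈ Ioc 0 (min (U ^ 2) X), (cU U k : ℂ) * f k *
        ∑ l ∈ (Ioc 0 (X / k)).filter (fun l => k * l ≡ b [MOD W]), f l +
      ∑ m ∈ Ioc U X, ∑ l ∈ (Ioc 0 (X / m)).filter (fun l => m * l ≡ b [MOD W]),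
        (vonMangoldt m : ℂ) * (betU U l : ℂ) * f (m * l) := by
  have hx : ∀ x ∈ cl X W b, (vonMangoldt x : ℂ) * f x =
      (if x ≤ U then (vonMangoldt x : ℂ) * f x else 0) +
      ∑ y ∈ x.divisorsAntidiagonal,
        (if y.1 ≤ U then (moebius y.1 : ℂ) * f y.1 * (f y.2 * (Real.log y.2 : ℂ)) else 0) -
      ∑ y ∈ x.divisorsAntidiagonal, (cU U y.1 : ℂ) * f y.1 * f y.2 +
      ∑ y ∈ x.divisorsAntidiagonal,
        (if U < y.1 then (vonMangoldt y.1 : ℂ) * (betU U y.2 : ℂ) * f (y.1 * y.2) else 0) := by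
    intro x _
    have h1 := congrArg (fun t : ℝ => (t : ℂ) * f x) (vaughan U x)
    refine h1.trans ?_
    rw [Complex.ofReal_add, Complex.ofReal_sub, Complex.ofReal_add, Complex.ofReal_sum,
      Complex.ofReal_sum, Complex.ofReal_sum, add_mul, sub_mul, add_mul]
    have hfx : ∀ y ∈ x.divisorsAntidiagonal, f x = f y.1 * f y.2 := by
      intro y hy
      obtain ⟨hy1, -⟩ := Nat.mem_divisorsAntidiagonal.1 hy
      rw [← hf, hy1]
    rw [Finset.sum_mul, Finset.sum_mul, Finset.sum_mul]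
    congr 1
    · congr 1
      · congr 1
        · by_cases h : x ≤ U
          · rw [if_pos h, if_pos h]
          · rw [if_neg h, if_neg h]; simp
        · refine Finset.sum_congr rfl fun y hy => ?_
          rw [hfx y hy, Complex.ofReal_mul]
          split_ifs
          · rw [Complex.ofReal_intCast]; ring
          · rw [Complex.ofReal_zero]; ring
      · refine Finset.sum_congr rfl fun y hy => ?_
        rw [hfx y hy]
        ring
    · refine Finset.sum_congr rfl fun y hy => ?_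
      rw [hfx y hy, hf, Complex.ofReal_mul]
      split_ifs
      · ring
      · rw [Complex.ofReal_zero]; ring
  rw [Finset.sum_congr rfl hx, Finset.sum_add_distrib, Finset.sum_sub_distrib,
    Finset.sum_add_distrib]
  have hcl : cl X W b = (Ioc 0 X).filter (fun x => x ≡ b [MOD W]) := rfl
  congr 1
  · congr 1
    · congr 1
      · rw [Finset.sum_filter]
      · rw [hcl, vau_swap X (fun x => x ≡ b [MOD W])
          (fun d l => if d ≤ U then (moebius d : ℂ) * f d * (f l * (Real.log l : ℂ)) else 0)]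
        have h2 : Ioc 0 (min U X) = (Ioc 0 X).filter (fun d => d ≤ U) := by
          ext x; simp only [Finset.mem_Ioc, Finset.mem_filter]; omega
        rw [h2, Finset.sum_filter]
        refine Finset.sum_congr rfl fun d _ => ?_
        split_ifs with h3
        · rw [Finset.mul_sum]
        · exact Finset.sum_const_zero
    · rw [hcl, vau_swap X (fun x => x ≡ b [MOD W]) (fun k l => (cU U k : ℂ) * f k * f l)]
      have h2 : Ioc 0 (min (U ^ 2) X) = (Ioc 0 X).filter (fun d => d ≤ U ^ 2) := by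
        ext x; simp only [Finset.mem_Ioc, Finset.mem_filter]; omega
      rw [h2, Finset.sum_filter]
      refine Finset.sum_congr rfl fun d _ => ?_
      split_ifs with h3
      · rw [Finset.mul_sum]
      · rw [cU_eq_zero (not_le.1 h3)]
        simp
  · rw [hcl, vau_swap X (fun x => x ≡ b [MOD W])
      (fun m l => if U < m then (vonMangoldt m : ℂ) * (betU U l : ℂ) * f (m * l) else 0)]
    have h2 : Ioc U X = (Ioc 0 X).filter (fun d => U < d) := by
      ext x; simp only [Finset.mem_Ioc, Finset.mem_filter]; omega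
    rw [h2, Finset.sum_filter]
    refine Finset.sum_congr rfl fun d _ => ?_
    split_ifs with h3
    · rfl
    · exact Finset.sum_const_zero

end Pool.Agent.H.MP_711652_nt.CH
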