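import Pool.Agent.H.MP_711652_nt.CH.Bil
import Pool.Agent.H.MP_711652_nt.CH.TypeI
import Pool.Agent.H.MP_711652_nt.CH.Vau

/-! # MP_711652, CH: primes and primitive characters of small conductor on a class modulo `W` -/

set_option autoImplicit false

namespace Pool.Agent.H.MP_711652_nt.CH

open Finset ArithmeticFunction

private theorem Rbv_card {r : ℕ} (hr : 0 < r) : ((prims r).card : ℝ) ≤ r := by
  classical
  haveI : NeZero r := ⟨hr.ne'⟩
  have h1 : (prims r).card ≤ Nat.card (DirichletCharacter ℂ r) := by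
    rw [Nat.card_eq_fintype_card]
    exact Finset.card_le_univ _
  rw [DirichletCharacter.card_eq_totient_of_hasEnoughRootsOfUnity] at h1
  exact_mod_cast h1.trans (Nat.totient_le r)

private theorem Rbv_sum (R : Finset ℕ) (Q : ℕ) (hR : ∀ r ∈ R, 1 < r ∧ r ≤ Q)
    (G : (r : ℕ) → DirichletCharacter ℂ r → ℝ) (B : ℝ) (hB : 0 ≤ B)
    (h : ∀ r ∈ R, ∀ χ ∈ prims r, G r χ ≤ B) :
    ∑ r ∈ R, ∑ χ ∈ prims r, G r χ ≤ (Q : ℝ) ^ 2 * B := by
  have h1 : ∀ r ∈ R, ∑ χ ∈ prims r, G r χ ≤ Q * B := by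
    intro r hr
    have hr' := hR r hr
    calc ∑ χ ∈ prims r, G r χ ≤ ∑ _χ ∈ prims r, B := Finset.sum_le_sum (h r hr)
      _ = (prims r).card * B := by rw [Finset.sum_const, nsmul_eq_mul]
      _ ≤ Q * B := by
          refine mul_le_mul_of_nonneg_right ?_ hB
          exact (Rbv_card (by omega)).trans (by exact_mod_cast hr'.2)
  have h2 : (R.card : ℝ) ≤ Q := by
    have h3 : R ⊆ Finset.Ioc 0 Q := fun r hr => by
      rw [Finset.mem_Ioc]
      exact ⟨by have := (hR r hr).1; omega, (hR r hr).2⟩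
    have h4 := Finset.card_le_card h3
    rw [Nat.card_Ioc] at h4
    exact_mod_cast h4
  calc ∑ r ∈ R, ∑ χ ∈ prims r, G r χ ≤ ∑ _r ∈ R, (Q : ℝ) * B := Finset.sum_le_sum h1
    _ = R.card * (Q * B) := by rw [Finset.sum_const, nsmul_eq_mul]
    _ ≤ Q * (Q * B) := mul_le_mul_of_nonneg_right h2 (by positivity)
    _ = (Q : ℝ) ^ 2 * B := by ring

private theorem Rbv_dyadic (U J : ℕ) (g : ℕ → ℂ) :
    ∑ m ∈ Ioc U (2 ^ J * U), g m =
      ∑ j ∈ range J, ∑ m ∈ Ioc (2 ^ j * U) (2 * (2 ^ j * U)), g m := by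
  induction J with
  | zero => simp
  | succ J ih =>
    rw [Finset.sum_range_succ, ← ih]
    have h1 : U ≤ 2 ^ J * U := Nat.le_mul_of_pos_left _ (by positivity)
    have h2 : 2 ^ J * U ≤ 2 ^ (J + 1) * U :=
      Nat.mul_le_mul_right _ (Nat.pow_le_pow_right (by norm_num) (by omega))
    have h3 : 2 * (2 ^ J * U) = 2 ^ (J + 1) * U := by ring
    rw [h3]
    exact (Finset.sum_Ioc_consecutive g h1 h2).symm

/-- the classes of the cofactors -/
private theorem Rbv_class (W b d Y : ℕ) (hW : 0 < W) (hb : Nat.Coprime b W) :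
    (Ioc 0 Y).filter (fun l => d * l ≡ b [MOD W]) = ∅ ∨
      ∃ b', (Ioc 0 Y).filter (fun l => d * l ≡ b [MOD W]) = cl Y W b' := by
  haveI : NeZero W := ⟨hW.ne'⟩
  by_cases hd : Nat.Coprime d W
  · right
    refine ⟨((d : ZMod W)⁻¹ * b).val, ?_⟩
    have h1 : (d : ZMod W) * (((d : ZMod W)⁻¹ * b).val : ZMod W) = b := by
      rw [ZMod.natCast_zmod_val, ← mul_assoc, ZMod.coe_mul_inv_eq_one d hd, one_mul]
    have h2 : d * ((d : ZMod W)⁻¹ * b).val ≡ b [MOD W] := by
      rw [← ZMod.natCast_eq_natCast_iff]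
      push_cast
      exact h1
    unfold cl
    refine Finset.filter_congr fun l _ => ?_
    constructor
    · intro h
      exact Nat.ModEq.cancel_left_of_coprime (by rw [Nat.gcd_comm]; exact hd) (h.trans h2.symm)
    · intro h
      exact (h.mul_left d).trans h2
  · left
    rw [Finset.filter_eq_empty_iff]
    intro l _ h
    apply hd
    have h1 : Nat.gcd (d * l) W = Nat.gcd b W := h.gcd_eq
    have h2 : Nat.Coprime (d * l) W := by
      unfold Nat.Coprime
      rw [h1]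
      exact hb
    exact Nat.Coprime.coprime_mul_right h2

private theorem Rbv_ne_one {r : ℕ} (hr : 1 < r) {χ : DirichletCharacter ℂ r} (h : χ ∈ prims r) :
    χ ≠ 1 := by
  classical
  haveI : NeZero r := ⟨by omega⟩
  rintro rfl
  have h1 : (1 : DirichletCharacter ℂ r).IsPrimitive := by
    unfold prims at h
    exact (Finset.mem_filter.1 h).2
  have h2 := (DirichletCharacter.isPrimitive_def _).1 h1
  rw [DirichletCharacter.conductor_one] at h2
  omega

private theorem Rbv_log {X : ℕ} (hX : 3 ≤ X) : 1 ≤ Real.log X := by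
  rw [Real.le_log_iff_exp_le (by positivity)]
  have h1 : Real.exp 1 < 2.7182818286 := Real.exp_one_lt_d9
  have h2 : (3 : ℝ) ≤ X := by exact_mod_cast hX
  linarith

private theorem Rbv_natlog {X : ℕ} (hX : 3 ≤ X) : (Nat.log 2 X : ℝ) ≤ 2 * Real.log X := by
  have h1 : (Nat.log 2 X : ℝ) ≤ Real.logb 2 X := by
    have := Real.natLog_le_logb X 2
    exact_mod_cast this
  refine h1.trans ?_
  unfold Real.logb
  have h2 : (1 : ℝ) / 2 < Real.log 2 := by
    have := Real.log_two_gt_d9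
    linarith
  rw [div_le_iff₀ (by linarith)]
  have h3 := Rbv_log hX
  nlinarith

/-- the three small parts for one character -/
private theorem Rbv_small (X W b U r : ℕ) (hX : 3 ≤ X) (hW : 0 < W) (hb : Nat.Coprime b W)
    (hr : 1 < r) (hWr : Nat.Coprime W r) (χ : DirichletCharacter ℂ r) (hχ : χ ≠ 1) :
    ‖∑ x ∈ (cl X W b).filter (fun x => x ≤ U), (vonMangoldt x : ℂ) * χ (x : ZMod r)‖ ≤
        U * Real.log X ∧
      ‖∑ d ∈ Ioc 0 (min U X), (moebius d : ℂ) * χ (d : ZMod r) *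
        ∑ l ∈ (Ioc 0 (X / d)).filter (fun l => d * l ≡ b [MOD W]),
          χ (l : ZMod r) * (Real.log l : ℂ)‖ ≤ U * (2 * r * Real.log X) ∧
      ‖∑ k ∈ Ioc 0 (min (U ^ 2) X), (cU U k : ℂ) * χ (k : ZMod r) *
        ∑ l ∈ (Ioc 0 (X / k)).filter (fun l => k * l ≡ b [MOD W]), χ (l : ZMod r)‖ ≤
          U ^ 2 * (Real.log X * r) := by
  have hL := Rbv_log hX
  have hX0 : (0 : ℝ) < X := by positivity
  refine ⟨?_, ?_, ?_⟩
  · refine (norm_sum_le _ _).trans ?_
    have h1 : ∀ x ∈ (cl X W b).filter (fun x => x ≤ U),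
        ‖(vonMangoldt x : ℂ) * χ (x : ZMod r)‖ ≤ Real.log X := by
      intro x hx
      unfold cl at hx
      simp only [Finset.mem_filter, Finset.mem_Ioc] at hx
      rw [norm_mul, Complex.norm_real, Real.norm_of_nonneg vonMangoldt_nonneg]
      have h2 : vonMangoldt x ≤ Real.log X := vonMangoldt_le_log.trans
        (Real.log_le_log (by exact_mod_cast hx.1.1.1) (by exact_mod_cast hx.1.1.2))
      calc vonMangoldt x * ‖χ (x : ZMod r)‖ ≤ vonMangoldt x * 1 :=
            mul_le_mul_of_nonneg_left (χ.norm_le_one _) vonMangoldt_nonneg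
        _ ≤ Real.log X := by rw [mul_one]; exact h2
    refine (Finset.sum_le_sum h1).trans ?_
    rw [Finset.sum_const, nsmul_eq_mul]
    refine mul_le_mul_of_nonneg_right ?_ (by linarith)
    have h3 : (cl X W b).filter (fun x => x ≤ U) ⊆ Ioc 0 U := by
      intro x hx
      unfold cl at hx
      simp only [Finset.mem_filter, Finset.mem_Ioc] at hx ⊢
      exact ⟨hx.1.1.1, hx.2⟩
    have h4 := Finset.card_le_card h3
    rw [Nat.card_Ioc] at h4
    exact_mod_cast h4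
  · refine (norm_sum_le _ _).trans ?_
    have h1 : ∀ d ∈ Ioc 0 (min U X), ‖(moebius d : ℂ) * χ (d : ZMod r) *
        ∑ l ∈ (Ioc 0 (X / d)).filter (fun l => d * l ≡ b [MOD W]),
          χ (l : ZMod r) * (Real.log l : ℂ)‖ ≤ 2 * r * Real.log X := by
      intro d hd
      rw [norm_mul, norm_mul]
      have h2 : ‖((moebius d : ℤ) : ℂ)‖ ≤ 1 := by
        rw [Complex.norm_intCast]
        exact_mod_cast abs_moebius_le_one
      have h3 : ‖∑ l ∈ (Ioc 0 (X / d)).filter (fun l => d * l ≡ b [MOD W]),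
          χ (l : ZMod r) * (Real.log l : ℂ)‖ ≤ 2 * r * Real.log X := by
        rcases Rbv_class W b d (X / d) hW hb with h | ⟨b', h⟩
        · rw [h, Finset.sum_empty, norm_zero]
          positivity
        · rw [h]
          refine (inc_sum_log (by omega) χ hχ W b' (X / d) hW hWr).trans ?_
          refine mul_le_mul_of_nonneg_left ?_ (by positivity)
          rcases Nat.eq_zero_or_pos (X / d) with h0 | h0
          · rw [h0, Nat.cast_zero, Real.log_zero]
            linarith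
          · exact Real.log_le_log (by exact_mod_cast h0) (by exact_mod_cast Nat.div_le_self X d)
      have h4 := χ.norm_le_one (d : ZMod r)
      calc ‖((moebius d : ℤ) : ℂ)‖ * ‖χ (d : ZMod r)‖ * _ ≤ 1 * 1 * (2 * r * Real.log X) :=
            mul_le_mul (mul_le_mul h2 h4 (norm_nonneg _) zero_le_one) h3 (norm_nonneg _)
              (by norm_num)
        _ = 2 * r * Real.log X := by ring
    refine (Finset.sum_le_sum h1).trans ?_
    rw [Finset.sum_const, nsmul_eq_mul]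
    refine mul_le_mul_of_nonneg_right ?_ (by positivity)
    rw [Nat.card_Ioc]
    have : min U X - 0 ≤ U := by omega
    exact_mod_cast this
  · refine (norm_sum_le _ _).trans ?_
    have h1 : ∀ k ∈ Ioc 0 (min (U ^ 2) X), ‖(cU U k : ℂ) * χ (k : ZMod r) *
        ∑ l ∈ (Ioc 0 (X / k)).filter (fun l => k * l ≡ b [MOD W]), χ (l : ZMod r)‖ ≤
          Real.log X * r := by
      intro k hk
      rw [Finset.mem_Ioc] at hk
      rw [norm_mul, norm_mul]
      have h2 : ‖(cU U k : ℂ)‖ ≤ Real.log X := by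
        rw [Complex.norm_real, Real.norm_eq_abs]
        refine (abs_cU_le U k).trans (Real.log_le_log (by exact_mod_cast hk.1) ?_)
        have : k ≤ X := hk.2.trans (min_le_right _ _)
        exact_mod_cast this
      have h3 : ‖∑ l ∈ (Ioc 0 (X / k)).filter (fun l => k * l ≡ b [MOD W]), χ (l : ZMod r)‖ ≤
          r := by
        rcases Rbv_class W b k (X / k) hW hb with h | ⟨b', h⟩
        · rw [h, Finset.sum_empty, norm_zero]
          positivity
        · rw [h]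
          exact inc_sum (by omega) χ hχ W b' (X / k) hW hWr
      have h4 := χ.norm_le_one (k : ZMod r)
      calc ‖(cU U k : ℂ)‖ * ‖χ (k : ZMod r)‖ * _ ≤ Real.log X * 1 * r :=
            mul_le_mul (mul_le_mul h2 h4 (norm_nonneg _) (by linarith)) h3 (norm_nonneg _)
              (by linarith)
        _ = Real.log X * r := by ring
    refine (Finset.sum_le_sum h1).trans ?_
    rw [Finset.sum_const, nsmul_eq_mul]
    refine mul_le_mul_of_nonneg_right ?_ (by positivity)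
    rw [Nat.card_Ioc]
    have : min (U ^ 2) X - 0 ≤ U ^ 2 := by omega
    exact_mod_cast this

/-- one dyadic block -/
private theorem Rbv_block (X W b Q U M : ℕ) (hX : 3 ≤ X) (hW : 0 < W) (hb : Nat.Coprime b W)
    (hQ : 1 ≤ Q) (R : Finset ℕ) (hR : ∀ r ∈ R, 1 < r ∧ r ≤ Q ∧ Nat.Coprime W r)
    (hU : W * Q ^ 2 ≤ U) (hUM : U ≤ M) :
    ∑ r ∈ R, ∑ χ ∈ prims r, ‖∑ m ∈ Ioc M (2 * M),
        ∑ l ∈ (Ioc 0 (X / m)).filter (fun l => m * l ≡ b [MOD W]),
          (vonMangoldt m : ℂ) * (betU U l : ℂ) * χ ((m * l : ℕ) : ZMod r)‖ ≤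
      48 * ((X : ℝ) / W) * (1 + Real.log X) ^ 4 := by
  have hL := Rbv_log hX
  have hX0 : (0 : ℝ) < X := by positivity
  have hW0 : (0 : ℝ) < W := by exact_mod_cast hW
  have hU0 : 0 < U := lt_of_lt_of_le (by positivity) hU
  have hM0 : 0 < M := by omega
  by_cases hMU : M * U ≤ X
  · have hM2 : W * Q ^ 2 * M ≤ X := by
      calc W * Q ^ 2 * M ≤ U * M := Nat.mul_le_mul_right _ hU
        _ = M * U := mul_comm _ _
        _ ≤ X := hMU
    have h := bil X W b Q M hW hb hQ R (fun r hr => ⟨by have := (hR r hr).1; omega,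
      (hR r hr).2.1, (hR r hr).2.2⟩) (hU.trans hUM) hM2 (fun m => (vonMangoldt m : ℂ))
      (fun l => (betU U l : ℂ))
    refine h.trans ?_
    have hMX : M ≤ X := le_trans (Nat.le_mul_of_pos_right _ hU0) hMU
    have hMr : (0 : ℝ) < M := by exact_mod_cast hM0
    have e1 : Real.sqrt (∑ m ∈ Ioc M (2 * M), ‖((vonMangoldt m : ℝ) : ℂ)‖ ^ 2) ≤
        Real.sqrt M * (1 + Real.log X) := by
      have h1 : ∑ m ∈ Ioc M (2 * M), ‖((vonMangoldt m : ℝ) : ℂ)‖ ^ 2 ≤
          M * (1 + Real.log X) ^ 2 := by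
        have h2 : ∀ m ∈ Ioc M (2 * M), ‖((vonMangoldt m : ℝ) : ℂ)‖ ^ 2 ≤
            (1 + Real.log X) ^ 2 := by
          intro m hm
          rw [Finset.mem_Ioc] at hm
          rw [Complex.norm_real, Real.norm_of_nonneg vonMangoldt_nonneg]
          refine pow_le_pow_left₀ vonMangoldt_nonneg ?_ 2
          refine vonMangoldt_le_log.trans ?_
          have h3 : Real.log m ≤ Real.log (2 * X) := by
            refine Real.log_le_log (by exact_mod_cast (by omega : 0 < m)) ?_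
            have : m ≤ 2 * X := by omega
            exact_mod_cast this
          rw [Real.log_mul (by norm_num) hX0.ne'] at h3
          have h4 : Real.log 2 < 1 := by
            have := Real.log_two_lt_d9
            linarith
          linarith
        refine (Finset.sum_le_sum h2).trans ?_
        rw [Finset.sum_const, nsmul_eq_mul, Nat.card_Ioc]
        have h5 : 2 * M - M = M := by omega
        rw [h5]
      refine (Real.sqrt_le_sqrt h1).trans ?_
      rw [Real.sqrt_mul hMr.le, Real.sqrt_sq (by linarith)]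
    have e2 : Real.sqrt (∑ l ∈ Ioc 0 (X / M), ‖((betU U l : ℝ) : ℂ)‖ ^ 2) ≤
        Real.sqrt (X / M) * (1 + Real.log X) ^ 2 := by
      have hY1 : 1 ≤ X / M := (Nat.one_le_div_iff hM0).2 hMX
      have h1 : ∑ l ∈ Ioc 0 (X / M), ‖((betU U l : ℝ) : ℂ)‖ ^ 2 ≤
          ((X : ℝ) / M) * ((1 + Real.log X) ^ 2) ^ 2 := by
        have h2 : ∑ l ∈ Ioc 0 (X / M), ‖((betU U l : ℝ) : ℂ)‖ ^ 2 =
            ∑ l ∈ Ioc 0 (X / M), betU U l ^ 2 := by
          refine Finset.sum_congr rfl fun l _ => ?_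
          rw [Complex.norm_real, Real.norm_eq_abs, sq_abs]
        rw [h2]
        refine (bet_sq U (X / M) hY1).trans ?_
        have h3 : ((X / M : ℕ) : ℝ) ≤ (X : ℝ) / M := Nat.cast_div_le
        have h4 : Real.log ((X / M : ℕ) : ℝ) ≤ Real.log X :=
          Real.log_le_log (by exact_mod_cast hY1) (by exact_mod_cast Nat.div_le_self X M)
        have h5 : 0 ≤ Real.log ((X / M : ℕ) : ℝ) := Real.log_natCast_nonneg _
        have h6 : (1 + Real.log ((X / M : ℕ) : ℝ)) ^ 3 ≤ ((1 + Real.log X) ^ 2) ^ 2 := by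
          calc (1 + Real.log ((X / M : ℕ) : ℝ)) ^ 3 ≤ (1 + Real.log X) ^ 3 :=
                pow_le_pow_left₀ (by linarith) (by linarith) 3
            _ ≤ (1 + Real.log X) ^ 4 := pow_le_pow_right₀ (by linarith) (by norm_num)
            _ = ((1 + Real.log X) ^ 2) ^ 2 := by ring
        exact mul_le_mul h3 h6 (by positivity) (by positivity)
      refine (Real.sqrt_le_sqrt h1).trans ?_
      rw [Real.sqrt_mul (by positivity), Real.sqrt_sq (by positivity)]
    have e3 : ((Nat.log 2 X : ℝ) + 2) ≤ 2 * (1 + Real.log X) := by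
      have := Rbv_natlog hX
      linarith
    have e4 : Real.sqrt M * Real.sqrt (X / M) = Real.sqrt X := by
      rw [← Real.sqrt_mul hMr.le]
      congr 1
      field_simp
    have e5 : Real.sqrt X * Real.sqrt X = X := Real.mul_self_sqrt hX0.le
    calc 24 * ((Nat.log 2 X : ℝ) + 2) * (Real.sqrt X / W) *
          Real.sqrt (∑ m ∈ Ioc M (2 * M), ‖((vonMangoldt m : ℝ) : ℂ)‖ ^ 2) *
          Real.sqrt (∑ l ∈ Ioc 0 (X / M), ‖((betU U l : ℝ) : ℂ)‖ ^ 2)
        ≤ 24 * (2 * (1 + Real.log X)) * (Real.sqrt X / W) *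
          (Real.sqrt M * (1 + Real.log X)) * (Real.sqrt (X / M) * (1 + Real.log X) ^ 2) := by
          gcongr
      _ = 48 * ((Real.sqrt X * (Real.sqrt M * Real.sqrt (X / M))) / W) *
          (1 + Real.log X) ^ 4 := by ring
      _ = 48 * ((X : ℝ) / W) * (1 + Real.log X) ^ 4 := by rw [e4, e5]
  · have hz : ∀ r ∈ R, ∀ χ ∈ prims r, ‖∑ m ∈ Ioc M (2 * M),
        ∑ l ∈ (Ioc 0 (X / m)).filter (fun l => m * l ≡ b [MOD W]),
          (vonMangoldt m : ℂ) * (betU U l : ℂ) * χ ((m * l : ℕ) : ZMod r)‖ = 0 := by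
      intro r _ χ _
      rw [norm_eq_zero]
      refine Finset.sum_eq_zero fun m hm => Finset.sum_eq_zero fun l hl => ?_
      rw [Finset.mem_Ioc] at hm
      rw [Finset.mem_filter, Finset.mem_Ioc] at hl
      have h1 : X / m < U := by
        rw [Nat.div_lt_iff_lt_mul (by omega)]
        calc X < M * U := not_le.1 hMU
          _ ≤ m * U := Nat.mul_le_mul_right _ hm.1.le
          _ = U * m := mul_comm _ _
      rw [betU_eq_zero (by omega : l ≤ U)]
      simp
    rw [Finset.sum_eq_zero fun r hr => Finset.sum_eq_zero fun χ hχ => hz r hr χ hχ]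
    positivity

/-- PROOF. `vau_sum` with `f x = χ x`.  The first part is at most `∑_{x ≤ U} Λ x ≤ 2 U log (U + 1)`.  In the second and third part a class `d l ≡ b` is
either empty or (`d` is coprime to `W`) a class `l ≡ b' [MOD W]`, so `inc_sum_log`, `inc_sum` and `abs_cU_le` bound them by `U * 2 r log X` and `U^2 log (U^2) r`.
The last part is the sum over `j` of `bil` with `M = 2^j U` (as long as `2^j U < X / U`; for `m > X / U` all `l ≤ X / m < U` have `betU U l = 0`),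
`α = Λ`, `β = betU U`; `∑_{m ≤ 2 M} Λ(m)^2 ≤ 2 M log (2M)^2` and `bet_sq`. -/
theorem rbv_lam (X W b Q U : ℕ) (hX : 3 ≤ X) (hW : 0 < W) (hb : Nat.Coprime b W) (hQ : 1 ≤ Q)
    (R : Finset ℕ) (hR : ∀ r ∈ R, 1 < r ∧ r ≤ Q ∧ Nat.Coprime W r) (hU : W * Q ^ 2 ≤ U)
    (hUX : U ^ 2 ≤ X) :
    ∑ r ∈ R, ∑ χ ∈ prims r, ‖∑ x ∈ cl X W b, (vonMangoldt x : ℂ) * χ (x : ZMod r)‖ ≤
      1000 * ((X : ℝ) / W) * (1 + Real.log X) ^ 5 + 10 * (Q : ℝ) ^ 3 * U ^ 2 * (1 + Real.log X) := by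
  have hL := Rbv_log hX
  have hX0 : (0 : ℝ) < X := by positivity
  have hW0 : (0 : ℝ) < W := by exact_mod_cast hW
  have hU0 : 0 < U := lt_of_lt_of_le (by positivity) hU
  have hU1 : (1 : ℝ) ≤ U := by exact_mod_cast hU0
  have hQ1 : (1 : ℝ) ≤ Q := by exact_mod_cast hQ
  obtain ⟨J, hJ⟩ : ∃ J, J = Nat.log 2 X + 1 := ⟨_, rfl⟩
  have hJX : X < 2 ^ J := by
    rw [hJ]
    exact Nat.lt_pow_succ_log_self (by norm_num) X
  obtain ⟨B, hB⟩ : ∃ B : ℝ, B = 4 * Q * U ^ 2 * Real.log X := ⟨_, rfl⟩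
  have hB0 : 0 ≤ B := by
    rw [hB]
    positivity
  -- one character
  have hone : ∀ r ∈ R, ∀ χ ∈ prims r,
      ‖∑ x ∈ cl X W b, (vonMangoldt x : ℂ) * χ (x : ZMod r)‖ ≤ B +
        ∑ j ∈ range J, ‖∑ m ∈ Ioc (2 ^ j * U) (2 * (2 ^ j * U)),
          ∑ l ∈ (Ioc 0 (X / m)).filter (fun l => m * l ≡ b [MOD W]),
            (vonMangoldt m : ℂ) * (betU U l : ℂ) * χ ((m * l : ℕ) : ZMod r)‖ := by
    intro r hr χ hχ
    obtain ⟨hr1, hrQ, hWr⟩ := hR r hr
    have hv := vau_sum U X W b (fun x => χ (x : ZMod r)) (fun m n => by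
      rw [Nat.cast_mul, map_mul])
    rw [hv]
    obtain ⟨s1, s2, s3⟩ := Rbv_small X W b U r hX hW hb hr1 hWr χ (Rbv_ne_one hr1 hχ)
    have hlast : ∑ m ∈ Ioc U X, ∑ l ∈ (Ioc 0 (X / m)).filter (fun l => m * l ≡ b [MOD W]),
        (vonMangoldt m : ℂ) * (betU U l : ℂ) * χ ((m * l : ℕ) : ZMod r) =
        ∑ j ∈ range J, ∑ m ∈ Ioc (2 ^ j * U) (2 * (2 ^ j * U)),
          ∑ l ∈ (Ioc 0 (X / m)).filter (fun l => m * l ≡ b [MOD W]),
            (vonMangoldt m : ℂ) * (betU U l : ℂ) * χ ((m * l : ℕ) : ZMod r) := by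
      rw [← Rbv_dyadic]
      refine Finset.sum_subset ?_ ?_
      · refine Finset.Ioc_subset_Ioc_right ?_
        calc X ≤ 2 ^ J := hJX.le
          _ ≤ 2 ^ J * U := Nat.le_mul_of_pos_right _ hU0
      · intro m hm hm'
        rw [Finset.mem_Ioc] at hm hm'
        have h1 : X < m := by
          by_contra h2
          exact hm' ⟨hm.1, not_lt.1 h2⟩
        rw [Nat.div_eq_of_lt h1]
        simp
    have h4 : ‖∑ m ∈ Ioc U X, ∑ l ∈ (Ioc 0 (X / m)).filter (fun l => m * l ≡ b [MOD W]),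
        (vonMangoldt m : ℂ) * (betU U l : ℂ) * χ ((m * l : ℕ) : ZMod r)‖ ≤
        ∑ j ∈ range J, ‖∑ m ∈ Ioc (2 ^ j * U) (2 * (2 ^ j * U)),
          ∑ l ∈ (Ioc 0 (X / m)).filter (fun l => m * l ≡ b [MOD W]),
            (vonMangoldt m : ℂ) * (betU U l : ℂ) * χ ((m * l : ℕ) : ZMod r)‖ := by
      rw [hlast]
      exact norm_sum_le _ _
    have hrQ' : (r : ℝ) ≤ Q := by exact_mod_cast hrQ
    have hsmall : U * Real.log X + U * (2 * r * Real.log X) + U ^ 2 * (Real.log X * r) ≤ B := by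
      rw [hB]
      have hUU : (U : ℝ) ≤ U ^ 2 := by nlinarith
      have a1 : (U : ℝ) * Real.log X ≤ Q * U ^ 2 * Real.log X := by
        refine mul_le_mul_of_nonneg_right ?_ (by linarith)
        calc (U : ℝ) ≤ U ^ 2 := hUU
          _ ≤ Q * U ^ 2 := le_mul_of_one_le_left (by positivity) hQ1
      have a2 : (U : ℝ) * (2 * r * Real.log X) ≤ 2 * (Q * U ^ 2 * Real.log X) := by
        have : (U : ℝ) * r ≤ U ^ 2 * Q := mul_le_mul hUU hrQ' (by positivity) (by positivity)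
        nlinarith
      have a3 : (U : ℝ) ^ 2 * (Real.log X * r) ≤ Q * U ^ 2 * Real.log X := by
        have : (U : ℝ) ^ 2 * r ≤ U ^ 2 * Q := mul_le_mul_of_nonneg_left hrQ' (by positivity)
        nlinarith
      linarith
    refine (norm_add_le _ _).trans ?_
    have h5 := norm_sub_le
      (∑ x ∈ (cl X W b).filter (fun x => x ≤ U), (vonMangoldt x : ℂ) * χ (x : ZMod r) +
        ∑ d ∈ Ioc 0 (min U X), (moebius d : ℂ) * χ (d : ZMod r) *
          ∑ l ∈ (Ioc 0 (X / d)).filter (fun l => d * l ≡ b [MOD W]),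
            χ (l : ZMod r) * (Real.log l : ℂ))
      (∑ k ∈ Ioc 0 (min (U ^ 2) X), (cU U k : ℂ) * χ (k : ZMod r) *
        ∑ l ∈ (Ioc 0 (X / k)).filter (fun l => k * l ≡ b [MOD W]), χ (l : ZMod r))
    have h6 := norm_add_le
      (∑ x ∈ (cl X W b).filter (fun x => x ≤ U), (vonMangoldt x : ℂ) * χ (x : ZMod r))
      (∑ d ∈ Ioc 0 (min U X), (moebius d : ℂ) * χ (d : ZMod r) *
          ∑ l ∈ (Ioc 0 (X / d)).filter (fun l => d * l ≡ b [MOD W]),
            χ (l : ZMod r) * (Real.log l : ℂ))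
    refine add_le_add ?_ h4
    linarith
  have hJ2 : (J : ℝ) ≤ 2 * (1 + Real.log X) := by
    rw [hJ]
    push_cast
    have := Rbv_natlog hX
    linarith
  calc ∑ r ∈ R, ∑ χ ∈ prims r, ‖∑ x ∈ cl X W b, (vonMangoldt x : ℂ) * χ (x : ZMod r)‖
      ≤ ∑ r ∈ R, ∑ χ ∈ prims r, (B +
        ∑ j ∈ range J, ‖∑ m ∈ Ioc (2 ^ j * U) (2 * (2 ^ j * U)),
          ∑ l ∈ (Ioc 0 (X / m)).filter (fun l => m * l ≡ b [MOD W]),
            (vonMangoldt m : ℂ) * (betU U l : ℂ) * χ ((m * l : ℕ) : ZMod r)‖) :=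
        Finset.sum_le_sum fun r hr => Finset.sum_le_sum fun χ hχ => hone r hr χ hχ
    _ = ∑ r ∈ R, ∑ χ ∈ prims r, B + ∑ j ∈ range J, ∑ r ∈ R, ∑ χ ∈ prims r,
        ‖∑ m ∈ Ioc (2 ^ j * U) (2 * (2 ^ j * U)),
          ∑ l ∈ (Ioc 0 (X / m)).filter (fun l => m * l ≡ b [MOD W]),
            (vonMangoldt m : ℂ) * (betU U l : ℂ) * χ ((m * l : ℕ) : ZMod r)‖ := by
        rw [Finset.sum_comm (s := range J)]
        rw [← Finset.sum_add_distrib]
        refine Finset.sum_congr rfl fun r _ => ?_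
        rw [Finset.sum_add_distrib, Finset.sum_comm (s := prims r)]
    _ ≤ (Q : ℝ) ^ 2 * B + ∑ _j ∈ range J, 48 * ((X : ℝ) / W) * (1 + Real.log X) ^ 4 := by
        refine add_le_add (Rbv_sum R Q (fun r hr => ⟨(hR r hr).1, (hR r hr).2.1⟩) _ B hB0
          fun r _ χ _ => le_refl B) ?_
        refine Finset.sum_le_sum fun j _ => ?_
        exact Rbv_block X W b Q U (2 ^ j * U) hX hW hb hQ R hR hU
          (Nat.le_mul_of_pos_left _ (by positivity))
    _ = (Q : ℝ) ^ 2 * B + J * (48 * ((X : ℝ) / W) * (1 + Real.log X) ^ 4) := by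
        rw [Finset.sum_const, Finset.card_range, nsmul_eq_mul]
    _ ≤ 10 * (Q : ℝ) ^ 3 * U ^ 2 * (1 + Real.log X) +
        1000 * ((X : ℝ) / W) * (1 + Real.log X) ^ 5 := by
        refine add_le_add ?_ ?_
        · rw [hB]
          have : (Q : ℝ) ^ 2 * (4 * Q * U ^ 2 * Real.log X) =
              4 * ((Q : ℝ) ^ 3 * U ^ 2) * Real.log X := by ring
          rw [this]
          have h7 : 0 ≤ (Q : ℝ) ^ 3 * U ^ 2 := by positivity
          nlinarith
        · calc (J : ℝ) * (48 * ((X : ℝ) / W) * (1 + Real.log X) ^ 4)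
              ≤ (2 * (1 + Real.log X)) * (48 * ((X : ℝ) / W) * (1 + Real.log X) ^ 4) :=
                mul_le_mul_of_nonneg_right hJ2 (by positivity)
            _ = 96 * (((X : ℝ) / W) * (1 + Real.log X) ^ 5) := by ring
            _ ≤ 1000 * (((X : ℝ) / W) * (1 + Real.log X) ^ 5) :=
                mul_le_mul_of_nonneg_right (by norm_num) (by positivity)
            _ = 1000 * ((X : ℝ) / W) * (1 + Real.log X) ^ 5 := by ring
    _ = _ := add_comm _ _

/-- PROOF. `rbv_lam` with `U = W Q^2` rounded up suitably (`U = ⌊X^(1/8)⌋`, say: `W Q^2 ≤ X^(1/8)`), and the prime powers `p^k`, `k ≥ 2`, contribute at most `2 √X log X` for each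
of the at most `Q^2` characters. -/
theorem rbv : ∃ C : ℝ, 0 < C ∧ ∀ (X W b Q : ℕ) (R : Finset ℕ), 3 ≤ X → 0 < W → Nat.Coprime b W →
    1 ≤ Q → (W * Q ^ 2) ^ 8 ≤ X → (∀ r ∈ R, 1 < r ∧ r ≤ Q ∧ Nat.Coprime W r) →
    ∑ r ∈ R, Zs ((cl X W b).filter Nat.Prime) (fun x => Real.log x) r ≤
      C * ((X : ℝ) / W) * (1 + Real.log X) ^ 5 := by
  refine ⟨1012, by norm_num, fun X W b Q R hX hW hb hQ hXW hR => ?_⟩
  have hL := Rbv_log hX
  have hX0 : (0 : ℝ) < X := by positivity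
  have hX1 : (1 : ℝ) ≤ X := by exact_mod_cast (by omega : 1 ≤ X)
  have hW0 : (0 : ℝ) < W := by exact_mod_cast hW
  have hW1 : (1 : ℝ) ≤ W := by exact_mod_cast hW
  have hQ1 : (1 : ℝ) ≤ Q := by exact_mod_cast hQ
  obtain ⟨P, hP⟩ : ∃ P, P = W * Q ^ 2 := ⟨_, rfl⟩
  have hP1 : 1 ≤ P := by
    rw [hP]
    exact Nat.one_le_iff_ne_zero.2 (by positivity)
  rw [← hP] at hXW
  have hPX : P ^ 2 ≤ X := (Nat.pow_le_pow_right hP1 (by norm_num)).trans hXW
  have hP4 : P ^ 4 ≤ X := (Nat.pow_le_pow_right hP1 (by norm_num)).trans hXW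
  have hlam := rbv_lam X W b Q P hX hW hb hQ R hR (by rw [hP]) hPX
  -- prime powers
  have hnp : ∀ r ∈ R, ∀ χ ∈ prims r,
      ‖∑ x ∈ (cl X W b).filter Nat.Prime, ((Real.log x : ℝ) : ℂ) * χ (x : ZMod r)‖ -
        ‖∑ x ∈ cl X W b, (vonMangoldt x : ℂ) * χ (x : ZMod r)‖ ≤
          2 * Real.sqrt X * Real.log X := by
    intro r _ χ _
    have h1 : ∑ x ∈ cl X W b, (vonMangoldt x : ℂ) * χ (x : ZMod r) =
        ∑ x ∈ (cl X W b).filter Nat.Prime, ((Real.log x : ℝ) : ℂ) * χ (x : ZMod r) +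
          ∑ x ∈ (cl X W b).filter (fun x => ¬ Nat.Prime x),
            (vonMangoldt x : ℂ) * χ (x : ZMod r) := by
      rw [← Finset.sum_filter_add_sum_filter_not (cl X W b) Nat.Prime]
      congr 1
      refine Finset.sum_congr rfl fun x hx => ?_
      rw [vonMangoldt_apply_prime (Finset.mem_filter.1 hx).2]
    have h2 : ‖∑ x ∈ (cl X W b).filter (fun x => ¬ Nat.Prime x),
        (vonMangoldt x : ℂ) * χ (x : ZMod r)‖ ≤ 2 * Real.sqrt X * Real.log X := by
      calc ‖∑ x ∈ (cl X W b).filter (fun x => ¬ Nat.Prime x),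
          (vonMangoldt x : ℂ) * χ (x : ZMod r)‖
          ≤ ∑ x ∈ (cl X W b).filter (fun x => ¬ Nat.Prime x),
            ‖(vonMangoldt x : ℂ) * χ (x : ZMod r)‖ := norm_sum_le _ _
        _ ≤ ∑ x ∈ (cl X W b).filter (fun x => ¬ Nat.Prime x), vonMangoldt x := by
            refine Finset.sum_le_sum fun x _ => ?_
            rw [norm_mul, Complex.norm_real, Real.norm_of_nonneg vonMangoldt_nonneg]
            exact mul_le_of_le_one_right vonMangoldt_nonneg (χ.norm_le_one _)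
        _ ≤ ∑ x ∈ (Ioc 0 ⌊(X : ℝ)⌋₊).filter (fun x => ¬ Nat.Prime x), vonMangoldt x := by
            refine Finset.sum_le_sum_of_subset_of_nonneg ?_ fun x _ _ => vonMangoldt_nonneg
            intro x hx
            unfold cl at hx
            simp only [Finset.mem_filter, Finset.mem_Ioc, Nat.floor_natCast] at hx ⊢
            exact ⟨hx.1.1, hx.2⟩
        _ = Chebyshev.psi X - Chebyshev.theta X :=
            (Chebyshev.psi_sub_theta_eq_sum_not_prime (X : ℝ)).symm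
        _ ≤ 2 * Real.sqrt X * Real.log X := Chebyshev.psi_sub_theta_le hX1
    have h3 : ∑ x ∈ (cl X W b).filter Nat.Prime, ((Real.log x : ℝ) : ℂ) * χ (x : ZMod r) =
        ∑ x ∈ cl X W b, (vonMangoldt x : ℂ) * χ (x : ZMod r) -
          ∑ x ∈ (cl X W b).filter (fun x => ¬ Nat.Prime x),
            (vonMangoldt x : ℂ) * χ (x : ZMod r) := by
      rw [h1, add_sub_cancel_right]
    rw [h3]
    have h4 := norm_sub_le (∑ x ∈ cl X W b, (vonMangoldt x : ℂ) * χ (x : ZMod r))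
      (∑ x ∈ (cl X W b).filter (fun x => ¬ Nat.Prime x), (vonMangoldt x : ℂ) * χ (x : ZMod r))
    linarith
  have hsum := Rbv_sum R Q (fun r hr => ⟨(hR r hr).1, (hR r hr).2.1⟩)
    (fun r χ => ‖∑ x ∈ (cl X W b).filter Nat.Prime, ((Real.log x : ℝ) : ℂ) * χ (x : ZMod r)‖ -
        ‖∑ x ∈ cl X W b, (vonMangoldt x : ℂ) * χ (x : ZMod r)‖)
    (2 * Real.sqrt X * Real.log X) (by positivity) hnp
  have hsplit : ∑ r ∈ R, Zs ((cl X W b).filter Nat.Prime) (fun x => Real.log x) r =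
      ∑ r ∈ R, ∑ χ ∈ prims r,
        (‖∑ x ∈ (cl X W b).filter Nat.Prime, ((Real.log x : ℝ) : ℂ) * χ (x : ZMod r)‖ -
        ‖∑ x ∈ cl X W b, (vonMangoldt x : ℂ) * χ (x : ZMod r)‖) +
      ∑ r ∈ R, ∑ χ ∈ prims r, ‖∑ x ∈ cl X W b, (vonMangoldt x : ℂ) * χ (x : ZMod r)‖ := by
    rw [← Finset.sum_add_distrib]
    refine Finset.sum_congr rfl fun r _ => ?_
    rw [← Finset.sum_add_distrib]
    unfold Zs
    refine Finset.sum_congr rfl fun χ _ => ?_
    ring
  rw [hsplit]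
  have hPr : (P : ℝ) = W * Q ^ 2 := by
    rw [hP]
    push_cast
    ring
  have hPX' : (P : ℝ) ^ 2 ≤ X := by exact_mod_cast hPX
  have hP4' : (P : ℝ) ^ 4 ≤ X := by exact_mod_cast hP4
  have hP1' : (1 : ℝ) ≤ P := by exact_mod_cast hP1
  have hpow : (1 + Real.log X) ≤ (1 + Real.log X) ^ 5 :=
    le_self_pow₀ (by linarith) (by norm_num)
  -- first error
  have f1 : 10 * (Q : ℝ) ^ 3 * P ^ 2 * (1 + Real.log X) ≤
      10 * (((X : ℝ) / W) * (1 + Real.log X) ^ 5) := by
    have g1 : (Q : ℝ) ^ 3 * P ^ 2 ≤ (X : ℝ) / W := by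
      rw [le_div_iff₀ hW0]
      have g2 : (Q : ℝ) ^ 3 * P ^ 2 * W ≤ P ^ 4 := by
        rw [hPr]
        have g3 : (Q : ℝ) ^ 3 * (W * Q ^ 2) ^ 2 * W = W ^ 3 * Q ^ 7 := by ring
        have g4 : ((W : ℝ) * Q ^ 2) ^ 4 = W ^ 4 * Q ^ 8 := by ring
        rw [g3, g4]
        exact mul_le_mul (pow_le_pow_right₀ hW1 (by norm_num))
          (pow_le_pow_right₀ hQ1 (by norm_num)) (by positivity) (by positivity)
      exact g2.trans hP4'
    calc 10 * (Q : ℝ) ^ 3 * P ^ 2 * (1 + Real.log X)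
        = 10 * (((Q : ℝ) ^ 3 * P ^ 2) * (1 + Real.log X)) := by ring
      _ ≤ 10 * (((X : ℝ) / W) * (1 + Real.log X) ^ 5) := by
          refine mul_le_mul_of_nonneg_left ?_ (by norm_num)
          exact mul_le_mul g1 hpow (by linarith) (by positivity)
  have f2 : (Q : ℝ) ^ 2 * (2 * Real.sqrt X * Real.log X) ≤
      2 * (((X : ℝ) / W) * (1 + Real.log X) ^ 5) := by
    have g1 : (Q : ℝ) ^ 2 * Real.sqrt X ≤ (X : ℝ) / W := by
      rw [le_div_iff₀ hW0]
      have g2 : (Q : ℝ) ^ 2 * Real.sqrt X * W = P * Real.sqrt X := by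
        rw [hPr]
        ring
      rw [g2]
      have g3 : (P : ℝ) ≤ Real.sqrt X := Real.le_sqrt_of_sq_le hPX'
      calc (P : ℝ) * Real.sqrt X ≤ Real.sqrt X * Real.sqrt X :=
            mul_le_mul_of_nonneg_right g3 (Real.sqrt_nonneg _)
        _ = X := Real.mul_self_sqrt hX0.le
    calc (Q : ℝ) ^ 2 * (2 * Real.sqrt X * Real.log X)
        = 2 * (((Q : ℝ) ^ 2 * Real.sqrt X) * Real.log X) := by ring
      _ ≤ 2 * (((X : ℝ) / W) * (1 + Real.log X) ^ 5) := by
          refine mul_le_mul_of_nonneg_left ?_ (by norm_num)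
          exact mul_le_mul g1 (by linarith) (by linarith) (by positivity)
  calc _ ≤ (Q : ℝ) ^ 2 * (2 * Real.sqrt X * Real.log X) +
        (1000 * ((X : ℝ) / W) * (1 + Real.log X) ^ 5 +
          10 * (Q : ℝ) ^ 3 * P ^ 2 * (1 + Real.log X)) := add_le_add hsum hlam
    _ ≤ 2 * (((X : ℝ) / W) * (1 + Real.log X) ^ 5) +
        (1000 * ((X : ℝ) / W) * (1 + Real.log X) ^ 5 +
          10 * (((X : ℝ) / W) * (1 + Real.log X) ^ 5)) := by gcongr
    _ = 1012 * ((X : ℝ) / W) * (1 + Real.log X) ^ 5 := by ring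

end Pool.Agent.H.MP_711652_nt.CH
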