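import Pool.Agent.H.MP_711652_nt.CH.ExpDefs

/-! # MP_711652, CH: the Schur test for product kernels -/

set_option autoImplicit false

namespace Pool.Agent.H.MP_711652_nt.CH

open Finset Pool.Agent.H.MP_711652_nt.LG

variable {ι : Type*} [Fintype ι] [DecidableEq ι]

omit [Fintype ι] [DecidableEq ι] in
private theorem Schur_phl_pos {p : ℕ} (hp : p.Prime) (s : Option ι) : 0 < phl p s := by
  unfold phl
  have h2 : (2 : ℝ) ≤ p := by exact_mod_cast hp.two_le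
  split_ifs
  · exact one_pos
  · linarith

/-- PROOF. With `w = ph σ / ph τ = ∏_p phl (σ p) / phl (τ p) > 0`: `a σ a τ ≤ (a σ^2 w + a τ^2 / w) / 2`; the two halves are equal by symmetry, and
`∑_τ ∏_p B p (σ p) (τ p) phl p (σ p) / phl p (τ p) = ∏_p ∑_t ...` (`Finset.prod_univ_sum`).  Compare `gram_abs` in `LG/Gram2.lean`. -/
theorem schur (P : Finset ℕ) (hP : ∀ p ∈ P, p.Prime) (a : (P → Option ι) → ℝ) (ha : ∀ σ, 0 ≤ a σ)
    (B : ℕ → Option ι → Option ι → ℝ) (hB : ∀ p s t, 0 ≤ B p s t)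
    (hsym : ∀ p s t, B p s t = B p t s) :
    ∑ σ : P → Option ι, ∑ τ : P → Option ι, a σ * a τ * ∏ p : P, B p (σ p) (τ p) ≤
      ∑ σ : P → Option ι, a σ ^ 2 *
        ∏ p : P, ∑ t : Option ι, B p (σ p) t * (phl p (σ p) / phl p t) := by
  have _ := ha
  obtain ⟨K, hK⟩ : ∃ K : (P → Option ι) → (P → Option ι) → ℝ,
      ∀ σ τ, K σ τ = ∏ p : P, B p (σ p) (τ p) := ⟨_, fun _ _ => rfl⟩
  obtain ⟨w, hw⟩ : ∃ w : (P → Option ι) → (P → Option ι) → ℝ,
      ∀ σ τ, w σ τ = ∏ p : P, (phl p (σ p) / phl p (τ p)) := ⟨_, fun _ _ => rfl⟩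
  have hpos : ∀ (p : P) (s : Option ι), 0 < phl (p : ℕ) s := fun p s =>
    Schur_phl_pos (hP p p.2) s
  have hK0 : ∀ σ τ, 0 ≤ K σ τ := by
    intro σ τ
    rw [hK]
    exact prod_nonneg fun p _ => hB _ _ _
  have hKs : ∀ σ τ, K σ τ = K τ σ := by
    intro σ τ
    rw [hK, hK]
    exact prod_congr rfl fun p _ => hsym _ _ _
  have hw0 : ∀ σ τ, 0 < w σ τ := by
    intro σ τ
    rw [hw]
    exact prod_pos fun p _ => div_pos (hpos p _) (hpos p _)
  have hww : ∀ σ τ, w σ τ * w τ σ = 1 := by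
    intro σ τ
    rw [hw, hw, ← prod_mul_distrib]
    refine prod_eq_one fun p _ => ?_
    have h1 := (hpos p (σ p)).ne'
    have h2 := (hpos p (τ p)).ne'
    field_simp
  have h1 : ∑ σ : P → Option ι, ∑ τ : P → Option ι, a σ * a τ * ∏ p : P, B p (σ p) (τ p) ≤
      ∑ σ : P → Option ι, ∑ τ : P → Option ι,
        (a σ ^ 2 * (K σ τ * w σ τ) / 2 + a τ ^ 2 * (K τ σ * w τ σ) / 2) := by
    refine sum_le_sum fun σ _ => sum_le_sum fun τ _ => ?_
    rw [← hK σ τ, ← hKs σ τ]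
    have h2 : 0 ≤ w σ τ * (a σ - a τ * w τ σ) ^ 2 := mul_nonneg (hw0 σ τ).le (sq_nonneg _)
    have h3 : w σ τ * (a σ - a τ * w τ σ) ^ 2 =
        a σ ^ 2 * w σ τ - 2 * a σ * a τ * (w σ τ * w τ σ) +
          a τ ^ 2 * w τ σ * (w σ τ * w τ σ) := by ring
    rw [h3, hww] at h2
    have h4 := mul_nonneg (hK0 σ τ) h2
    linarith
  have h4 : ∑ σ : P → Option ι, ∑ τ : P → Option ι, a τ ^ 2 * (K τ σ * w τ σ) / 2 =
      ∑ σ : P → Option ι, ∑ τ : P → Option ι, a σ ^ 2 * (K σ τ * w σ τ) / 2 := by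
    rw [sum_comm]
  have h5 : ∑ σ : P → Option ι, ∑ τ : P → Option ι,
        (a σ ^ 2 * (K σ τ * w σ τ) / 2 + a τ ^ 2 * (K τ σ * w τ σ) / 2) =
      ∑ σ : P → Option ι, a σ ^ 2 * ∑ τ : P → Option ι, K σ τ * w σ τ := by
    simp only [sum_add_distrib]
    rw [h4, ← sum_add_distrib]
    refine sum_congr rfl fun σ _ => ?_
    rw [← sum_add_distrib, mul_sum]
    refine sum_congr rfl fun τ _ => ?_
    ring
  rw [h5] at h1
  refine h1.trans (le_of_eq ?_)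
  refine sum_congr rfl fun σ _ => ?_
  congr 1
  rw [prod_univ_sum, Fintype.piFinset_univ]
  refine sum_congr rfl fun τ _ => ?_
  rw [hK, hw, ← prod_mul_distrib]

end Pool.Agent.H.MP_711652_nt.CH
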